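import Pool.Agent.Lib.MP_aa40d3_nt.GR.DefsA
import Pool.Agent.Lib.MP_aa40d3_nt.GR.DefsG

/-! Definitions for systems with arbitrary rational exponents. -/

open Polynomial Matrix

namespace Pool.Agent.GR

variable {n r : ℕ}

/-- What is known about a system over a field at a good point. -/
structure GoodSys2 [NeZero r] {k : Type} [Field k] (D : ℕ) (a : Fin n → Fin r → ℤ)
    (t : Fin n → k) (A : Fin n → Matrix (Fin r) (Fin r) k) : Prop where
  inj : Function.Injective t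
  chp : ∀ i, ((D : k) • A i).charpoly = ∏ j, (X - C (a i j : k))
  injS : InjS (dl t) (pm t A)

/-- An algebraic family of systems over a finite cover of an open part of affine space, whose
first `n` coordinates are the singular points. -/
structure Model2 (n r : ℕ) [NeZero r] where
  m : ℕ
  F : (MvPolynomial (Fin n ⊕ Fin m) ℤ)[X]
  G : MvPolynomial (Fin n ⊕ Fin m) ℤ
  Q : Fin n → Matrix (Fin r) (Fin r) (MvPolynomial (Fin n ⊕ Fin m) ℤ)[X]
  D : ℕ
  a : Fin n → Fin r → ℤ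
  P0 : ℕ
  monic : F.Monic
  D_pos : 0 < D
  sep : ∀ (k : Type) [Field k] (w : Fin n ⊕ Fin m → k) (θ : k), ev2 w θ F = 0 → ev1 w G ≠ 0 →
    ev2 w θ (derivative F) ≠ 0
  good : ∀ (k : Type) [Field k] (w : Fin n ⊕ Fin m → k) (θ : k), ev2 w θ F = 0 → ev1 w G ≠ 0 →
    GoodSys2 D a (fun i => w (Sum.inl i)) (fun i => (ev1 w G)⁻¹ • (Q i).map (ev2 w θ))
  fund : ∀ (k : Type) [Field k] (w : Fin n ⊕ Fin m → k) (θ : k), ev2 w θ F = 0 → ev1 w G ≠ 0 →
    ∀ p : ℕ, p.Prime → P0 < p → CharP k p →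
      HasFund (fun i => w (Sum.inl i)) (fun i => (ev1 w G)⁻¹ • (Q i).map (ev2 w θ))

/-- The residue matrices of the member of the family at `(w, θ)`. -/
noncomputable def Model2.mA [NeZero r] (M : Model2 n r) {k : Type} [Field k]
    (w : Fin n ⊕ Fin M.m → k) (θ : k) : Fin n → Matrix (Fin r) (Fin r) k :=
  fun i => (ev1 w M.G)⁻¹ • (M.Q i).map (ev2 w θ)

/-- Twisted solutions with a bound on the order of vanishing of the reduced Wronskian. -/
def CPO3 {κ : Type} [Field κ] (p : ℕ) (I : Finset (Fin n)) (D : ℕ) (a : Fin n → Fin r → ℤ) (c : ℕ)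
    (H : (PowerSeries κ)[X]) (N : Fin r → (PowerSeries κ)[X]) : Prop :=
  ∀ (m0 : Fin n → ℕ) (m1 : Fin n → Fin r → ℕ), (∀ i, m0 i < p) → (∀ i j, m1 i j < p) →
    (∀ i, i ∉ I → m0 i = 0) →
    (∀ i ∈ I, ∀ j, (D : κ) * ((m1 i j : κ) - m0 i) = (a i j : κ)) →
    ∃ (y : Fin r → (PowerSeries κ)[X]) (g : (PowerSeries κ)[X]), red (wr y).det ≠ 0 ∧
      (red (wr y).det).natTrailingDegree ≤ ∑ i ∈ I, ∑ j, m1 i j + c ∧
      red g = X ^ (∑ i ∈ I, (p - m0 i)) ∧ ∀ b, ScalEq H N (g * y b)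

/-- The exponent inequalities, for all Galois conjugates and all rational twists. -/
def IneqQ2 (I : Finset (Fin n)) (α : Fin n → Fin r → ℚ) (β : Fin r → ℚ) : Prop :=
  ∀ (u : Fin n → ℚ) (D : ℕ), 0 < D → (∀ i j, ∃ z : ℤ, α i j * D = z) →
    (∀ j, ∃ z : ℤ, β j * D = z) → (∀ i, ∃ z : ℤ, u i * D = z) →
    ∀ l : ℤ, IsCoprime l (D : ℤ) →
      ∑ j, Int.fract ((l : ℚ) * (β j + ∑ i ∈ I, u i)) ≤
        ∑ i ∈ I, ∑ j, Int.fract ((l : ℚ) * (α i j + u i))

/-- The characteristic polynomial of the loop around `I`: roots of unity satisfying the exponent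
inequalities for all conjugates and twists. -/
def Orr2 (r : ℕ) (ε : Fin n → Fin r → ℂ) (I : Finset (Fin n)) (q : ℂ[X]) : Prop :=
  ∃ ω : Fin r → ℂ, (∀ j, IsOfFinOrder (ω j)) ∧ q = ∏ j, (X - C (ω j)) ∧
    ∀ (τ : ℂ →+* ℂ) (η : Fin n → ℂ), (∀ i, IsOfFinOrder (η i)) →
      ∑ j, a01 (τ (ω j * ∏ i ∈ I, η i)) ≤ ∑ i ∈ I, ∑ j, a01 (τ (ε i j * η i))

/-- The loop around `I` has finite order and its eigenvalues satisfy the inequalities. -/
def OrrM (ε : Fin n → Fin r → ℂ) (I : Finset (Fin n)) (x : Matrix (Fin r) (Fin r) ℂ) : Prop :=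
  IsOfFinOrder x ∧ Orr2 r ε I x.charpoly

/-- The eigenvalues of the local monodromies. -/
noncomputable def Model2.ε [NeZero r] (M : Model2 n r) : Fin n → Fin r → ℂ :=
  fun i j => Complex.exp (2 * Real.pi * Complex.I * (((M.a i j : ℚ) / M.D : ℚ) : ℂ))

end Pool.Agent.GR
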