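import Pool.Agent.Lib.MP_aa40d3_nt.GR.CPm
import Pool.Agent.Lib.MP_aa40d3_nt.GR2.Defs

/-! Characteristic `p` information, for arbitrary exponents. -/

open Polynomial Matrix

namespace Pool.Agent.GR

variable {n r : ℕ}

theorem charpoly_affine {k : Type*} [Field k] {c : k} (hc : c ≠ 0) (d : k)
    {A : Matrix (Fin r) (Fin r) k} {b : Fin r → k} (h : A.charpoly = ∏ j, (X - C (b j))) :
    (c • A + d • (1 : Matrix (Fin r) (Fin r) k)).charpoly = ∏ j, (X - C (c * b j + d)) := by
  have h1 : (c • A + d • (1 : Matrix (Fin r) (Fin r) k)).charmatrix =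
      (C c : k[X]) • A.charmatrix.map (eval₂RingHom C (C c⁻¹ * (X - C d))) := by
    have h0 : (C c : k[X]) * C c⁻¹ = 1 := by rw [← C_mul, mul_inv_cancel₀ hc, C_1]
    ext1 i j
    by_cases hij : i = j
    · subst hij
      simp only [charmatrix_apply_eq, Matrix.add_apply, Matrix.smul_apply, smul_eq_mul,
        Matrix.one_apply_eq, mul_one, Matrix.map_apply, coe_eval₂RingHom, eval₂_sub, eval₂_X,
        eval₂_C, map_add, map_mul]
      linear_combination (-(X - C d)) * h0
    · simp [charmatrix_apply_ne _ _ _ hij, Matrix.one_apply_ne hij]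
  rw [Matrix.charpoly, h1, det_smul, ← RingHom.mapMatrix_apply, ← RingHom.map_det]
  change _ * eval₂RingHom C _ A.charpoly = _
  rw [h, map_prod, Fintype.card_fin, ← Fin.prod_const, ← Finset.prod_mul_distrib]
  refine Finset.prod_congr rfl fun j _ => ?_
  have h0 : (C c : k[X]) * C c⁻¹ = 1 := by rw [← C_mul, mul_inv_cancel₀ hc, C_1]
  simp only [coe_eval₂RingHom, eval₂_sub, eval₂_X, eval₂_C, map_add, map_mul]
  linear_combination (X - C d) * h0

theorem sum_exp2 {k : Type*} [Field k] (p : ℕ) [CharP k p] {D : ℕ} (hD : (D : k) ≠ 0)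
    {A : Matrix (Fin r) (Fin r) k} {a : Fin r → ℤ}
    (h : ((D : k) • A).charpoly = ∏ j, (X - C (a j : k))) {m0 : ℕ} {m1 : Fin r → ℕ}
    (h1 : ∀ j, m1 j < p) (hm : ∀ j, (D : k) * ((m1 j : k) - m0) = a j) {e : Fin r → ℕ}
    (he : ∀ b, e b < p) (hc : (A + (m0 : k) • (1 : Matrix (Fin r) (Fin r) k)).charpoly =
      ∏ b, (X - C (e b : k))) : ∑ b, e b = ∑ j, m1 j := by
  classical
  have h0 := charpoly_affine (inv_ne_zero hD) (m0 : k) h
  rw [smul_smul, inv_mul_cancel₀ hD, one_smul, hc] at h0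
  have h4 : ∀ j, (D : k)⁻¹ * (a j : k) + m0 = m1 j := fun j => by
    rw [← hm j, inv_mul_cancel_left₀ hD, sub_add_cancel]
  simp only [h4] at h0
  have h2 : (Finset.univ.val.map e).map (Nat.cast : ℕ → k) =
      (Finset.univ.val.map m1).map Nat.cast := by
    rw [← roots_multiset_prod_X_sub_C (Multiset.map _ (Multiset.map m1 _)),
      ← roots_multiset_prod_X_sub_C (Multiset.map _ (Multiset.map e _))]
    congr 1
    simpa [Finset.prod, Function.comp_def] using h0
  let g : k → ℕ := Function.invFunOn Nat.cast (Set.Iio p)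
  have hg : ∀ m < p, g m = m := fun m hm =>
    (CharP.natCast_injOn_Iio k p).leftInvOn_invFunOn (Set.mem_Iio.2 hm)
  have h3 := congrArg (fun s => (s.map g).sum) h2
  simp only [Multiset.map_map, Function.comp, hg _ (he _), hg _ (h1 _)] at h3
  exact h3

variable [NeZero r]

theorem GoodSys2.aff {k : Type} [Field k] {D : ℕ} {a : Fin n → Fin r → ℤ} {t t' : Fin n → k}
    {c b : k} (hc : c ≠ 0) (h : ∀ i, t i = c * t' i + b) {A : Fin n → Matrix (Fin r) (Fin r) k}
    (hg : GoodSys2 D a t A) : GoodSys2 D a t' A :=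
  ⟨fun i j e => hg.inj (by rw [h i, h j, e]), hg.chp, injS_aff hc h hg.injS⟩

theorem cp_main2 {κ : Type} [Field κ] (p : ℕ) [Fact p.Prime] [CharP κ p] (I : Finset (Fin n))
    {D : ℕ} {a : Fin n → Fin r → ℤ} (hD : (D : κ) ≠ 0) {s : Fin n → FF κ}
    {A : Fin n → Matrix (Fin r) (Fin r) (FF κ)} (hg : GoodSys2 D a s A) (hf : HasFund s A)
    (σ : Fin n → PowerSeries κ) (hσ : ∀ i, PowerSeries.constantCoeff (σ i) = 0)
    (hI : ∀ i ∈ I, s i = algebraMap _ (FF κ) (σ i))
    (hJ : ∀ i, i ∉ I → s i * algebraMap _ (FF κ) (σ i) = 1)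
    (H : (PowerSeries κ)[X]) (N : Fin r → (PowerSeries κ)[X])
    (hHN : ∀ v, IsSol (dl s) (pm s A) v →
      ScalEq (H.map (algebraMap _ (FF κ))) (fun k => (N k).map (algebraMap _ (FF κ))) (v 0)) :
    CPO1 H N ∧ CPO3 p I D a (r * r * (n + 1)) H N := by
  classical
  have hp : 0 < p := (Fact.out : p.Prime).pos
  have : CharP (FF κ) p := charP_of_injective_algebraMap (algebraMap κ (FF κ)).injective p
  have hinj : Function.Injective (algebraMap (PowerSeries κ) (FF κ)) :=
    IsFractionRing.injective _ _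
  constructor
  · obtain ⟨Φ, hΦ, hsol⟩ := hf
    have hw := wr_ne_zero_of_injS p hΦ hsol hg.injS
    obtain ⟨y, c, -, -, hred, hy⟩ := exists_lattice_basis p H 1 N (fun b => Φ 0 b) hw
      (fun b => by simpa using hHN _ (isSol_col hsol b))
    exact ⟨y, hred, fun b => by simpa using hy b⟩
  · intro m0 m1 h0 h1 hJ0 hDm
    have hf' := hasFund_twist m0 hf
    have hi' := injS_twist p hp m0 hg.injS
    obtain ⟨Φ, e, c, hc, hsol, he, hchar, hdet⟩ := glob p hg.inj hf'
    have hΦ : Φ.det ≠ 0 := by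
      rw [hdet]
      exact mul_ne_zero (C_ne_zero.mpr hc)
        (Finset.prod_ne_zero_iff.mpr fun i _ => pow_ne_zero _ (X_sub_C_ne_zero _))
    have hw0 := wr_ne_zero_of_injS p hΦ hsol hi'
    set g : (PowerSeries κ)[X] := ∏ i ∈ I, (X - C (σ i)) ^ (p - m0 i) with hgdef
    have hgmap : g.map (algebraMap _ (FF κ)) =
        ∏ i, (X - C (s i)) ^ (if i ∈ I then p - m0 i else 0) := by
      rw [hgdef, Polynomial.map_prod]
      have h : ∀ i, (X - C (s i)) ^ (if i ∈ I then p - m0 i else 0) =
          if i ∈ I then (X - C (s i)) ^ (p - m0 i) else 1 := by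
        intro i
        split_ifs <;> simp
      simp_rw [h]
      rw [Finset.prod_ite_mem, Finset.univ_inter]
      refine Finset.prod_congr rfl fun i hi => ?_
      simp [hI i hi]
    have hA : (fun i => (A i + (m0 i : FF κ) • (1 : Matrix (Fin r) (Fin r) (FF κ))) +
        (((if i ∈ I then p - m0 i else 0 : ℕ) : FF κ)) • (1 : Matrix (Fin r) (Fin r) (FF κ))) =
        A := by
      funext i
      rw [add_assoc, ← add_smul, ← Nat.cast_add]
      by_cases hi : i ∈ I
      · rw [if_pos hi, Nat.add_sub_cancel' (h0 i).le, CharP.cast_eq_zero, zero_smul, add_zero]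
      · rw [if_neg hi, hJ0 i hi]
        simp
    have hy0 : ∀ b, ScalEq (H.map (algebraMap _ (FF κ)))
        (fun k => (N k).map (algebraMap _ (FF κ)))
        (g.map (algebraMap _ (FF κ)) * Φ 0 b) := by
      intro b
      have h := isSol_twist (fun i => if i ∈ I then p - m0 i else 0) (isSol_col hsol b)
      rw [hA] at h
      have h2 := hHN _ h
      rw [hgmap]
      simpa using h2
    obtain ⟨y, c1, hc1, hmap, hred, hy⟩ := exists_lattice_basis p H g N (fun b => Φ 0 b) hw0 hy0
    refine ⟨y, g, hred, ?_, ?_, hy⟩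
    · have hcyc := cyc_det hsol
      have hdl : dl s ≠ 0 := (dl_monic s).ne_zero
      set H' := cycH X (dl s)
        (pm s fun i => A i + (m0 i : FF κ) • (1 : Matrix (Fin r) (Fin r) (FF κ))) with hH'
      have hH0 : H' ≠ 0 := by
        intro h
        rw [h, zero_mul] at hcyc
        exact mul_ne_zero (pow_ne_zero _ hdl) hw0 hcyc.symm
      have hdeg : H'.natDegree ≤ r * r * (n + 1) :=
        natDegree_cycH (natDegree_dl s) (natDegree_pm s _)
      obtain ⟨H1, c', hc', hH1, hHe⟩ := exists_primitive H' hH0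
      obtain ⟨k1, hk1, hk1e⟩ := cpm_factor I σ hI hJ (fun i => ∑ b, e i b)
      obtain ⟨k2, hk2, hk2e⟩ := cpm_factor I σ hI hJ (fun _ => r * r)
      have hdlp : dl s ^ (r * r) = ∏ i, (X - C (s i)) ^ (r * r) := by
        rw [dl, Finset.prod_pow]
      rw [hdet, hdlp, hk1e, hk2e, hHe] at hcyc
      have hr1 := cpm_red_u I σ hσ (fun i => ∑ b, e i b)
      have hr2 := cpm_red_u I σ hσ (fun _ => r * r)
      have hk2' : (C k2 : (FF κ)[X]) * C k2⁻¹ = 1 := by
        rw [← C_mul, mul_inv_cancel₀ hk2, C_1]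
      have key : ((wr y).det * ∏ i, cpmU I σ i ^ (r * r)).map (algebraMap _ (FF κ)) =
          C (c1 * c' * c * k1 * k2⁻¹) *
            (H1 * ∏ i, cpmU I σ i ^ (∑ b, e i b)).map (algebraMap _ (FF κ)) := by
        rw [Polynomial.map_mul, Polynomial.map_mul, hmap]
        simp only [C_mul]
        linear_combination (-(C c1 * C k2⁻¹)) * hcyc -
          (C c1 * (wr fun b => Φ 0 b).det *
            (∏ i, cpmU I σ i ^ (r * r)).map (algebraMap _ (FF κ))) * hk2'
      have hX : ∀ m : ℕ, (X : κ[X]) ^ m ≠ 0 := fun m => pow_ne_zero _ X_ne_zero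
      have hntd := ntd_eq (by rw [map_mul, hr2]; exact mul_ne_zero hred (hX _))
        (by rw [map_mul, hr1]; exact mul_ne_zero hH1 (hX _)) key
      rw [map_mul, map_mul, hr1, hr2, natTrailingDegree_mul hred (hX _),
        natTrailingDegree_mul hH1 (hX _), natTrailingDegree_X_pow, natTrailingDegree_X_pow] at hntd
      have hb : (red H1).natTrailingDegree ≤ r * r * (n + 1) := by
        refine (natTrailingDegree_le_natDegree _).trans ?_
        refine (natDegree_map_le (f := PowerSeries.constantCoeff)).trans ?_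
        rw [← natDegree_map_eq_of_injective hinj H1, ← natDegree_C_mul hc', ← hHe]
        exact hdeg
      have hsum : ∑ i ∈ I, ∑ b, e i b = ∑ i ∈ I, ∑ j, m1 i j := by
        refine Finset.sum_congr rfl fun i hi => ?_
        have hD' : (D : FF κ) ≠ 0 := by
          rw [← map_natCast (algebraMap κ (FF κ))]
          exact (_root_.map_ne_zero _).mpr hD
        refine sum_exp2 p hD' (hg.chp i) (h1 i) (fun j => ?_) (he i) (hchar i)
        have h := congrArg (algebraMap κ (FF κ)) (hDm i hi j)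
        simpa using h
      omega
    · rw [hgdef, map_prod, ← Finset.prod_pow_eq_pow_sum]
      refine Finset.prod_congr rfl fun i _ => ?_
      simp [red, hσ i]

end Pool.Agent.GR
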