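import Pool.Agent.Lib.MP_aa40d3_nt.GR.TopC
import Pool.Agent.Lib.MP_aa40d3_nt.GR.Arith
import Pool.Agent.Lib.MP_aa40d3_nt.GR2.CPm2

/-! The local exponents are rational. -/

open Polynomial Matrix

namespace Pool.Agent.GR

variable {n r : ℕ}

theorem top2_split (A : Matrix (Fin r) (Fin r) ℂ) :
    ∃ b : Fin r → ℂ, A.charpoly = ∏ j, (X - C (b j)) := by
  obtain ⟨b, hb⟩ := arith_split A.charpoly A.charpoly_monic (r := r)
    (by rw [charpoly_natDegree_eq_dim, Fintype.card_fin])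
  exact ⟨b, hb.symm⟩

theorem exps_rat2 {t : Fin n → ℂ} (ht : Function.Injective t)
    {A : Fin n → Matrix (Fin r) (Fin r) ℂ} (h : PC t A) :
    ∃ (D : ℕ) (a : Fin n → Fin r → ℤ), 0 < D ∧
      ∀ i, ((D : ℂ) • A i).charpoly = ∏ j, (X - C (a i j : ℂ)) := by
  classical
  obtain ⟨S, P0, h⟩ := h
  choose b hb using fun i => top2_split (A i)
  obtain ⟨R, hR, hS, htR, -, hAR, hiR⟩ := topc_ring
    (S ∪ Finset.univ.image fun q : Fin n × Fin r => b q.1 q.2) t t A
  let t' : Fin n → R := fun i => ⟨t i, htR i⟩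
  let b' : Fin n → Fin r → R := fun i j => ⟨b i j, hS _ (Finset.mem_union_right _
    (Finset.mem_image.2 ⟨(i, j), Finset.mem_univ _, rfl⟩))⟩
  let A' : Fin n → Matrix (Fin r) (Fin r) R := fun i => Matrix.of fun a b => ⟨A i a b, hAR i a b⟩
  have hb' : ∀ i, (A' i).charpoly = ∏ j, (X - C (b' i j)) := by
    intro i
    apply Polynomial.map_injective R.subtype Subtype.val_injective
    rw [← Matrix.charpoly_map, Polynomial.map_prod]
    simp only [Polynomial.map_sub, map_X, map_C]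
    exact hb i
  have key : ∀ p : ℕ, p.Prime → P0 < p → ∀ (k : Type) [Field k] [CharP k p] (φ : R →+* k) (i j),
      φ (b' i j) ^ p = φ (b' i j) := by
    intro p hp hP k _ _ φ i j
    have : Fact p.Prime := ⟨hp⟩
    have hf := h R R.subtype Subtype.val_injective
      (fun s hs => ⟨⟨s, hS s (Finset.mem_union_left _ hs)⟩, rfl⟩) t' A'
      (fun _ => rfl) (fun _ => rfl) p hp hP k φ
    have hinj : Function.Injective fun i => φ (t' i) := by
      intro a b hab
      by_contra hne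
      have h1 : (t' a - t' b) * ⟨_, hiR a b⟩ = 1 :=
        Subtype.ext (mul_inv_cancel₀ (sub_ne_zero.2 fun h0 => hne (ht h0)))
      have h2 := congrArg φ h1
      rw [map_mul, map_sub, sub_eq_zero.2 hab, zero_mul, map_one] at h2
      exact zero_ne_one h2
    obtain ⟨_, e, _, -, -, -, hc, -⟩ := glob p hinj hf
    have h1 := hc i
    rw [Matrix.charpoly_map, hb', Polynomial.map_prod] at h1
    have h2 := congrArg (eval (φ (b' i j))) h1
    rw [eval_prod, eval_prod, Finset.prod_eq_zero (Finset.mem_univ j) (by simp), eq_comm,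
      Finset.prod_eq_zero_iff] at h2
    obtain ⟨c, -, hc⟩ := h2
    rw [eval_sub, eval_X, eval_C, sub_eq_zero] at hc
    rw [hc]
    exact map_natCast (frobenius k p) _
  obtain ⟨D, c, hD, hc⟩ := topc_den (ι := Fin n × Fin r) (fun q => b q.1 q.2) (by
    rintro ⟨i, j⟩
    obtain ⟨a, d, hd, had⟩ := rat_of_frob (b' i j)
      ⟨P0, fun p hp hP k _ _ φ => key p hp hP k φ i j⟩
    refine ⟨a, d, hd, ?_⟩
    have h1 := congrArg R.subtype had
    rwa [map_mul, map_intCast, map_intCast] at h1)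
  refine ⟨D, fun i j => c (i, j), hD, fun i => ?_⟩
  have h1 := charpoly_affine (c := (D : ℂ)) (Nat.cast_ne_zero.2 hD.ne') 0 (hb i)
  simp only [zero_smul, add_zero] at h1
  rw [h1]
  exact Finset.prod_congr rfl fun j _ => by rw [hc (i, j)]

theorem top2_roots {b c : Fin r → ℂ} (h : ∏ j, (X - C (b j)) = ∏ j, (X - C (c j)))
    (f : ℂ → ℂ) : ∏ j, (X - C (f (b j))) = ∏ j, (X - C (f (c j))) := by
  have h2 : Finset.univ.val.map b = Finset.univ.val.map c := by
    rw [← roots_multiset_prod_X_sub_C (Multiset.map b _),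
      ← roots_multiset_prod_X_sub_C (Multiset.map c _)]
    congr 1
    simpa [Finset.prod, Function.comp_def] using h
  have h3 := congrArg (fun s => (s.map fun z => X - C (f z)).prod) h2
  simpa [Finset.prod, Function.comp_def] using h3

theorem top2_cons {r : ℕ} (mu : ℂ) (m : Fin r → ℂ) :
    (X - C mu) * ∏ j, (X - C (m j)) = ∏ j : Fin (r + 1), (X - C ((Fin.cons mu m : Fin (r + 1) → ℂ) j)) := by
  rw [Fin.prod_univ_succ]
  simp

theorem lam_rat (hr : 2 ≤ r) {A : Matrix (Fin r) (Fin r) ℂ} {D : ℕ} (hD : 0 < D) {a : Fin r → ℤ}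
    (h : ((D : ℂ) • A).charpoly = ∏ j, (X - C (a j : ℂ))) {lam mu : ℂ} {m : Fin (r - 1) → ℤ}
    (hq : A.charpoly = (X - C mu) * ∏ j, (X - C (lam + m j))) : ∃ b : ℤ, (D : ℂ) * lam = b := by
  obtain ⟨r, rfl⟩ : ∃ r', r = r' + 2 := ⟨r - 2, by omega⟩
  have hq' : A.charpoly = (X - C mu) * ∏ j : Fin (r + 1), (X - C (lam + m j)) := hq
  rw [top2_cons] at hq'
  have h1 := charpoly_affine (c := (D : ℂ)) (Nat.cast_ne_zero.2 hD.ne') 0 hq'
  simp only [zero_smul, add_zero] at h1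
  rw [h] at h1
  have h2 := congrArg (eval ((D : ℂ) * (lam + m (0 : Fin (r + 1))))) h1
  rw [eval_prod, eval_prod, Finset.prod_eq_zero (Finset.mem_univ (Fin.succ (0 : Fin (r + 1))))
    (f := fun j => eval _ (X - C ((D : ℂ) * _))) (by simp), Finset.prod_eq_zero_iff] at h2
  obtain ⟨c, -, hc⟩ := h2
  rw [eval_sub, eval_X, eval_C, sub_eq_zero] at hc
  refine ⟨a c - D * m (0 : Fin (r + 1)), ?_⟩
  push_cast
  rw [← hc]
  ring

theorem charpoly_twist [NeZero r] {A : Matrix (Fin r) (Fin r) ℂ} {lam mu : ℂ}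
    {m : Fin (r - 1) → ℤ} (hq : A.charpoly = (X - C mu) * ∏ j, (X - C (lam + m j))) :
    (A - lam • (1 : Matrix (Fin r) (Fin r) ℂ)).charpoly =
      (X - C (mu - lam)) * ∏ j, (X - C (m j : ℂ)) := by
  obtain ⟨r, rfl⟩ : ∃ r', r = r' + 1 := ⟨r - 1, by have := NeZero.pos r; omega⟩
  have hq' : A.charpoly = (X - C mu) * ∏ j : Fin r, (X - C (lam + m j)) := hq
  rw [top2_cons] at hq'
  have h1 := charpoly_affine one_ne_zero (-lam) hq'
  rw [one_smul, neg_smul, ← sub_eq_add_neg, Fin.prod_univ_succ] at h1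
  rw [h1]
  simp only [Fin.cons_zero, Fin.cons_succ, one_mul, ← sub_eq_add_neg, add_sub_cancel_left]
  rfl

theorem eps_refl [NeZero r] {A : Matrix (Fin r) (Fin r) ℂ} {D : ℕ} (hD : 0 < D) {a : Fin r → ℤ}
    (h : ((D : ℂ) • A).charpoly = ∏ j, (X - C (a j : ℂ))) {mu : ℂ} {m : Fin (r - 1) → ℤ}
    (hq : A.charpoly = (X - C mu) * ∏ j, (X - C (m j : ℂ))) :
    ∃ ζ : ℂ, ∏ j, (X - C (Complex.exp (2 * Real.pi * Complex.I * (((a j : ℚ) / D : ℚ) : ℂ)))) =
      (X - C ζ) * (X - 1) ^ (r - 1) := by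
  obtain ⟨r, rfl⟩ : ∃ r', r = r' + 1 := ⟨r - 1, by have := NeZero.pos r; omega⟩
  have hD' : (D : ℂ) ≠ 0 := Nat.cast_ne_zero.2 hD.ne'
  have hq' : A.charpoly = (X - C mu) * ∏ j : Fin r, (X - C (m j : ℂ)) := hq
  rw [top2_cons] at hq'
  have h1 := charpoly_affine (inv_ne_zero hD') 0 h
  rw [smul_smul, inv_mul_cancel₀ hD', one_smul, zero_smul, add_zero, hq'] at h1
  have h2 := top2_roots h1 fun z => Complex.exp (2 * Real.pi * Complex.I * z)
  refine ⟨Complex.exp (2 * Real.pi * Complex.I * mu), ?_⟩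
  have e : ∀ j, (((a j : ℚ) / D : ℚ) : ℂ) = (D : ℂ)⁻¹ * a j + 0 := fun j => by
    push_cast
    ring
  simp only [e]
  rw [← h2, Fin.prod_univ_succ]
  have e2 : ∀ z : ℤ, Complex.exp (2 * Real.pi * Complex.I * z) = 1 := fun z => by
    rw [mul_comm, Complex.exp_int_mul_two_pi_mul_I]
  simp [e2]

end Pool.Agent.GR
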