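import Pool.Agent.Lib.MP_aa40d3_nt.GR.CP
import Pool.Agent.Lib.MP_aa40d3_nt.GR2.CPm2

/-! The rescaled formal family modulo `p`. -/

open Polynomial Matrix

namespace Pool.Agent.GR

variable {n r : ℕ} [NeZero r]

/-- The reductions of the formal family are good and have fundamental solutions. -/
def Orc2 {R : Type} [CommRing R] (D : ℕ) (a : Fin n → Fin r → ℤ) (τ : Fin n → PowerSeries R)
    (G : PowerSeries R) (Q : Fin n → Matrix (Fin r) (Fin r) (PowerSeries R)) : Prop :=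
  ∃ P0 : ℕ, ∀ p : ℕ, p.Prime → P0 < p → ∀ (κ : Type) [Field κ] [CharP κ p] (φ : R →+* κ),
    PowerSeries.map φ G ≠ 0 →
      GoodSys2 D a (fun i => toF φ (τ i)) (fun i => (toF φ G)⁻¹ • (Q i).map (toF φ)) ∧
      HasFund (fun i => toF φ (τ i)) (fun i => (toF φ G)⁻¹ • (Q i).map (toF φ))

theorem HF_ne_zero_red2 {R κ : Type} [CommRing R] [Field κ] (p : ℕ) [Fact p.Prime] [CharP κ p]
    (φ : R →+* κ) {D : ℕ} {a : Fin n → Fin r → ℤ} {τ : Fin n → PowerSeries R} {G : PowerSeries R}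
    {Q : Fin n → Matrix (Fin r) (Fin r) (PowerSeries R)} (hG : PowerSeries.map φ G ≠ 0)
    (hg : GoodSys2 D a (fun i => toF φ (τ i)) (fun i => (toF φ G)⁻¹ • (Q i).map (toF φ)))
    (hf : HasFund (fun i => toF φ (τ i)) (fun i => (toF φ G)⁻¹ • (Q i).map (toF φ))) :
    HF τ G Q ≠ 0 := by
  have := cp_charP κ p
  have hG' := cp_toF_ne φ hG
  intro h0
  have h1 := HF_map (toF φ) τ G Q
  rw [h0, Polynomial.map_zero] at h1
  refine cycH_ne_zero_charp p (mul_ne_zero (C_ne_zero.2 hG') (dl_monic _).ne_zero) ?_ ?_ h1.symm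
  · obtain ⟨Φ, hΦ, h⟩ := hf
    refine ⟨Φ, hΦ, ?_⟩
    ext1 a b
    have := congrFun ((isSol_clear hG').2 (isSol_col h b)) a
    simpa only [Matrix.smul_apply, Matrix.map_apply, Pi.smul_apply, Matrix.mul_apply,
      Matrix.mulVec, dotProduct] using this
  · exact fun v hv => hg.injS v ((isSol_clear hG').1 hv)

theorem cp_scaled2 {R κ : Type} [CommRing R] [Field κ] (p : ℕ) [Fact p.Prime] [CharP κ p]
    (φ : R →+* κ) (I : Finset (Fin n)) {D : ℕ} {a : Fin n → Fin r → ℤ} (hD : (D : κ) ≠ 0) {e ϱ : ℕ}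
    (h0 : 0 < ϱ) (he : ϱ < e) {c : Fin n → R} (hc : ∀ j, j ∉ I → φ (c j) ≠ 0) {G : PowerSeries R}
    {Q : Fin n → Matrix (Fin r) (Fin r) (PowerSeries R)} (hG : PowerSeries.map φ G ≠ 0)
    (hg : GoodSys2 D a (fun i => toF φ (tauF e I c i)) (fun i => (toF φ G)⁻¹ • (Q i).map (toF φ)))
    (hf : HasFund (fun i => toF φ (tauF e I c i)) (fun i => (toF φ G)⁻¹ • (Q i).map (toF φ)))
    {v : ℕ} {H1 : (PowerSeries R)[X]} {N1 : Fin r → (PowerSeries R)[X]}
    (hH : sc (PowerSeries.X ^ ϱ) (HF (tauF e I c) G Q) = C (PowerSeries.X ^ v) * H1)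
    (hN : ∀ k, sc (PowerSeries.X ^ ϱ) (NF (tauF e I c) G Q k) = C (PowerSeries.X ^ v) * N1 k) :
    CPO1 (mps φ H1) (fun k => mps φ (N1 k)) ∧
      CPO3 p I D a (r * r * (n + 1)) (mps φ H1) fun k => mps φ (N1 k) := by
  classical
  have hG' := cp_toF_ne φ hG
  set π : FF κ := algebraMap (PowerSeries κ) (FF κ) PowerSeries.X with hπ
  have hπ0 : π ≠ 0 := fun h => PowerSeries.X_ne_zero (R := κ)
    (IsFractionRing.injective (PowerSeries κ) (FF κ) (by rw [map_zero]; exact h))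
  have hπp : π ^ ϱ ≠ 0 := pow_ne_zero _ hπ0
  have hX : toF φ PowerSeries.X = π := by simp [toF, hπ]
  have hC : ∀ x : R, toF φ (PowerSeries.C x) =
      algebraMap (PowerSeries κ) (FF κ) (PowerSeries.C (φ x)) := fun x => by simp [toF]
  set s : Fin n → FF κ := fun i => toF φ (tauF e I c i) / π ^ ϱ with hs
  have hts : ∀ i, toF φ (tauF e I c i) = π ^ ϱ * s i + 0 := fun i => by
    rw [hs, add_zero, mul_div_cancel₀ _ hπp]
  have hst : ∀ i, s i = (π ^ ϱ)⁻¹ * toF φ (tauF e I c i) + 0 := fun i => by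
    rw [add_zero, ← div_eq_inv_mul]
  have hmps : ∀ P : (PowerSeries R)[X],
      (mps φ P).map (algebraMap (PowerSeries κ) (FF κ)) = P.map (toF φ) := fun P => by
    rw [mps, coe_mapRingHom, Polynomial.map_map, toF]
  refine cp_main2 p I hD (hg.aff hπp hts) (hasFund_aff hπp hts hf)
    (fun i => if i ∈ I then PowerSeries.X ^ (e - ϱ) * PowerSeries.C (φ (c i))
      else PowerSeries.X ^ ϱ * PowerSeries.C (φ (c i))⁻¹) (fun i => ?_) (fun i hi => ?_)
    (fun i hi => ?_) _ _ (fun w hw => ?_)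
  · split_ifs
    · simp [(Nat.sub_pos_of_lt he).ne']
    · simp [h0.ne']
  · rw [if_pos hi, hs, map_mul, map_pow, ← hπ, ← hC]
    simp only [tauF, if_pos hi, map_mul, map_pow, hX]
    rw [div_eq_iff hπp, mul_right_comm, ← pow_add, Nat.sub_add_cancel he.le]
  · rw [if_neg hi, hs, map_mul, map_pow, ← hπ]
    simp only [tauF, if_neg hi, hC]
    rw [← mul_assoc, div_mul_cancel₀ _ hπp, ← map_mul, ← map_mul, mul_inv_cancel₀ (hc i hi),
      map_one, map_one]
  · have h1 := isSol_aff (inv_ne_zero hπp) hst hw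
    have h2 := scalEq_of_isSol (mul_ne_zero (C_ne_zero.2 hG') (dl_monic _).ne_zero)
      ((isSol_clear hG').2 h1)
    have h3 := h2.sc (π ^ ϱ)
    have e0 : sc (π ^ ϱ) ((w 0).comp (C (π ^ ϱ)⁻¹ * X + C 0)) = w 0 := by
      rw [sc, comp_assoc, map_zero, add_zero, mul_comp, C_comp, X_comp, ← mul_assoc, ← C_mul,
        inv_mul_cancel₀ hπp, C_1, one_mul, comp_X]
    have e1 := congrArg (Polynomial.map (toF φ)) hH
    rw [cp_sc_map, HF_map, Polynomial.map_mul, map_C, map_pow, map_pow, hX] at e1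
    have e2 : ∀ k, sc (π ^ ϱ) (NF (fun i => toF φ (tauF e I c i)) (toF φ G)
        (fun i => (Q i).map (toF φ)) k) = C (π ^ v) * (N1 k).map (toF φ) := fun k => by
      have := congrArg (Polynomial.map (toF φ)) (hN k)
      rwa [cp_sc_map, NF_map, Polynomial.map_mul, map_C, map_pow, map_pow, hX] at this
    rw [e0] at h3
    simp only [hmps]
    refine ScalEq.cancel (u := C (π ^ v)) (C_ne_zero.2 (pow_ne_zero _ hπ0)) ?_
    rw [← e1]
    simp only [← e2]
    exact h3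

end Pool.Agent.GR
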