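import Pool.Agent.Lib.MP_aa40d3_nt.GR.ArithA
import Pool.Agent.Lib.MP_aa40d3_nt.GR2.CP2

/-! Choice of the radius of the annulus. -/

open Polynomial Matrix

namespace Pool.Agent.GR

variable {n r : ℕ}

private theorem aritha2_mps_sc {R S : Type*} [CommRing R] [CommRing S] (φ : R →+* S)
    (Q : (PowerSeries R)[X]) (ϱ : ℕ) :
    mps φ (sc (PowerSeries.X ^ ϱ) Q) = sc (PowerSeries.X ^ ϱ) (mps φ Q) := by
  simp [mps, sc, Polynomial.map_comp]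

private theorem aritha2_coeff_mps {R S : Type*} [CommRing R] [CommRing S] (φ : R →+* S)
    (Q : (PowerSeries R)[X]) (j i : ℕ) :
    PowerSeries.coeff i ((mps φ Q).coeff j) = φ (PowerSeries.coeff i (Q.coeff j)) := by
  simp [mps]

theorem arith_radius2 [NeZero r] {R : Type} [CommRing R] [IsDomain R] [CharZero R]
    [Algebra.FiniteType ℤ R] {D : ℕ} (hD : 0 < D) {a : Fin n → Fin r → ℤ} (I : Finset (Fin n)) {e : ℕ}
    (he : 2 * (r * r * (n + 1)) + 4 ≤ e) {c : Fin n → R} (hc : ∀ j, j ∉ I → c j ≠ 0)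
    {G : PowerSeries R} (hG : G ≠ 0) {Q : Fin n → Matrix (Fin r) (Fin r) (PowerSeries R)}
    (ho : Orc2 D a (tauF e I c) G Q) :
    ∃ (ϱ v j0 : ℕ) (c0 : R) (ν : Fin r → R) (H1 : (PowerSeries R)[X])
      (N1 : Fin r → (PowerSeries R)[X]), 0 < ϱ ∧ ϱ < e ∧ c0 ≠ 0 ∧
      sc (PowerSeries.X ^ ϱ) (HF (tauF e I c) G Q) = C (PowerSeries.X ^ v) * H1 ∧
      (∀ k, sc (PowerSeries.X ^ ϱ) (NF (tauF e I c) G Q k) = C (PowerSeries.X ^ v) * N1 k) ∧
      red H1 = C c0 * X ^ j0 ∧ ∀ k, red (N1 k) = C (ν k) * X ^ j0 := by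
  classical
  obtain ⟨P0, hP0⟩ := ho
  obtain ⟨g, hg⟩ : ∃ g, PowerSeries.coeff g G ≠ 0 := by
    by_contra hc'
    push Not at hc'
    exact hG (PowerSeries.ext fun i => by simpa using hc' i)
  have hsp : ∀ x : R, x ≠ 0 → ∃ (p : ℕ) (_ : Fact p.Prime) (κ : Type) (_ : Field κ)
      (_ : CharP κ p) (φ : R →+* κ), P0 < p ∧ φ x ≠ 0 ∧ PowerSeries.map φ G ≠ 0 ∧ (D : κ) ≠ 0 ∧
        ∀ j, j ∉ I → φ (c j) ≠ 0 := by
    intro x hx
    have hy : x * PowerSeries.coeff g G * (D : R) * ∏ j ∈ Iᶜ, c j ≠ 0 :=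
      mul_ne_zero (mul_ne_zero (mul_ne_zero hx hg) (Nat.cast_ne_zero.2 hD.ne'))
        (Finset.prod_ne_zero_iff.2 fun j hj => hc j (Finset.mem_compl.1 hj))
    obtain ⟨P, hP⟩ := spread hy
    obtain ⟨p, hp1, hp⟩ := Nat.exists_infinite_primes (max P P0 + 1)
    obtain ⟨κ, _, _, φ, hφ⟩ := hP p hp (by omega)
    simp only [map_mul, map_natCast, map_prod, ne_eq, mul_eq_zero, not_or,
      Finset.prod_eq_zero_iff, not_exists, not_and] at hφ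
    obtain ⟨⟨⟨h1, h2⟩, h3⟩, h4⟩ := hφ
    refine ⟨p, ⟨hp⟩, κ, inferInstance, inferInstance, φ, by omega, h1, fun h0 => h2 ?_, h3,
      fun j hj => h4 j (Finset.mem_compl.2 hj)⟩
    rw [← PowerSeries.coeff_map, h0, map_zero]
  have hH : HF (tauF e I c) G Q ≠ 0 := by
    obtain ⟨p, hp, κ, _, _, φ, h0, -, h2, -, -⟩ := hsp 1 one_ne_zero
    obtain ⟨h5, h6⟩ := hP0 p hp.out h0 κ φ h2
    exact HF_ne_zero_red2 p φ h2 h5 h6
  have hdeg : (HF (tauF e I c) G Q).natDegree ≤ r * r * (n + 1) :=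
    natDegree_cycH ((natDegree_C_mul_le _ _).trans (natDegree_dl _)) (natDegree_pm _ _)
  obtain ⟨ϱ₁, ϱ, ϱ₂, j0, o, h0, h1, h2, h3, h4, h5⟩ := exists_radii _ hH hdeg he
  have hN : ∀ k j i, PowerSeries.coeff i ((NF (tauF e I c) G Q k).coeff j) ≠ 0 →
      o + ϱ₁ * j0 ≤ i + ϱ₁ * j ∧ o + ϱ₂ * j0 ≤ i + ϱ₂ * j := by
    intro k j i hi
    obtain ⟨p, hp, κ, _, _, φ, hp0, hx, hG', hD', hc'⟩ := hsp _ hi
    obtain ⟨h6, h7⟩ := hP0 p hp.out hp0 κ φ hG'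
    have key : ∀ ρ v : ℕ, 0 < ρ → ρ < e →
        (∀ j i, PowerSeries.coeff i ((HF (tauF e I c) G Q).coeff j) ≠ 0 → v ≤ i + ρ * j) →
        v ≤ i + ρ * j := by
      intro ρ v hρ hρe hv
      have h8 := (cp_scaled2 p φ I hD' hρ hρe hc' hG' h6 h7 (v := 0)
        (H1 := sc (PowerSeries.X ^ ρ) (HF (tauF e I c) G Q))
        (N1 := fun k => sc (PowerSeries.X ^ ρ) (NF (tauF e I c) G Q k)) (by simp)
        (fun k => by simp)).1
      have h9 := h8.dvd v (by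
        rw [aritha2_mps_sc, dvd_sc_iff]
        intro j i hi
        rw [aritha2_coeff_mps] at hi
        exact hv j i fun h0 => hi (by rw [h0, map_zero])) k
      simp only [aritha2_mps_sc, dvd_sc_iff] at h9
      exact h9 j i (by rwa [aritha2_coeff_mps])
    exact ⟨key ϱ₁ _ h0 (by omega) fun j i h => (h5 j i h).1,
      key ϱ₂ _ (by omega) h3 fun j i h => (h5 j i h).2⟩
  obtain ⟨H1, hH1, hH2⟩ := exists_sc_eq _ h1 h2 h5
  choose N1 hN1 hN2 using fun k => exists_sc_eq _ h1 h2 (hN k)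
  exact ⟨ϱ, o + ϱ * j0, j0, _, fun k => PowerSeries.coeff o ((NF (tauF e I c) G Q k).coeff j0),
    H1, N1, by omega, by omega, h4, hH1, hN1, hH2, hN2⟩

end Pool.Agent.GR
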