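import Pool.Agent.Lib.MP_aa40d3_nt.GR.ArithB
import Pool.Agent.Lib.MP_aa40d3_nt.GR2.Defs

/-! The exponent inequalities for arbitrary exponents and twists. -/

open Polynomial Matrix

namespace Pool.Agent.GR

variable {n r : ℕ}

theorem arithb2_rep {D p : ℕ} (hp : p.Prime) (hD : 0 < D) (hDp : D < p) (b : ℤ) :
    ∃ e : ℕ, e < p ∧ (p : ℤ) ∣ D * e - b := by
  have : Fact p.Prime := ⟨hp⟩
  have hD0 : (D : ZMod p) ≠ 0 := by
    rw [Ne, ZMod.natCast_eq_zero_iff]
    exact Nat.not_dvd_of_pos_of_lt hD hDp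
  refine ⟨((D : ZMod p)⁻¹ * b).val, ZMod.val_lt _, ?_⟩
  rw [← ZMod.intCast_zmod_eq_zero_iff_dvd]
  push_cast
  rw [ZMod.natCast_zmod_val, mul_inv_cancel_left₀ hD0, sub_self]

theorem arithb2_up {D : ℕ} (hD : 0 < D) {l : ℤ} (hl : IsCoprime l (D : ℤ)) {a : ℤ} {p m : ℕ}
    (hpp : p.Prime) (hDp : D < p) (hp : (D : ℤ) ∣ l * p + 1) (h0 : 0 ≤ a) (ha : |a| < p)
    (hm : m < p) (h : (p : ℤ) ∣ D * m - a) :
    (m : ℚ) ≤ p * Int.fract ((l : ℚ) * a / D) + |(a : ℚ)| := by
  by_cases hd : (D : ℤ) ∣ a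
  · obtain ⟨w, hw⟩ := hd
    have hD' : (1 : ℤ) ≤ D := by exact_mod_cast hD
    have hw0 : 0 ≤ w := by
      by_contra hc
      nlinarith
    have hwa : w ≤ a := by nlinarith
    rw [abs_of_nonneg h0] at ha
    have h1 : (p : ℤ) ∣ D * (m - w) := by
      rw [mul_sub, ← hw]
      exact h
    have h2 : (p : ℤ) ∣ m - w := by
      refine ((Nat.prime_iff_prime_int.1 hpp).dvd_or_dvd h1).resolve_left fun h3 => ?_
      exact Nat.not_dvd_of_pos_of_lt hD hDp (Int.natCast_dvd_natCast.1 h3)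
    have h3 : (m : ℤ) - w = 0 := Int.eq_zero_of_abs_lt_dvd h2 (by
      rw [abs_lt]
      omega)
    have h4 : (m : ℚ) ≤ a := by exact_mod_cast (by omega : (m : ℤ) ≤ a)
    have h5 : (0 : ℚ) ≤ p * Int.fract ((l : ℚ) * a / D) :=
      mul_nonneg (Nat.cast_nonneg _) (Int.fract_nonneg _)
    linarith [le_abs_self (a : ℚ)]
  · exact (rep_bounds hD hl hp ha hm h).2 hd

/-- As `frac_ineq` (GR/Frac.lean), with all weights `1`. If `D ∣ a i` and `0 ≤ a i < p` then the
representative is `m i = a i / D ≤ |a i|` (`p` is prime to `D`), so the upper bound of `rep_bounds`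
holds as well. -/
theorem frac_ineq2 {ι ι' : Type*} [Fintype ι] [Fintype ι'] {D : ℕ} (hD : 0 < D) {l : ℤ}
    (hl : IsCoprime l (D : ℤ)) (b : ι → ℤ) (a : ι' → ℤ) (ha : ∀ i, 0 ≤ a i)
    (c : ℕ) (h : ∃ P : ℕ, ∀ p : ℕ, p.Prime → P < p → ∀ (e : ι → ℕ) (m : ι' → ℕ),
      (∀ j, e j < p) → (∀ i, m i < p) → (∀ j, (p : ℤ) ∣ D * e j - b j) →
      (∀ i, (p : ℤ) ∣ D * m i - a i) → ∑ j, e j ≤ ∑ i, m i + c) :
    ∑ j, Int.fract ((l : ℚ) * b j / D) ≤ ∑ i, Int.fract ((l : ℚ) * a i / D) := by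
  obtain ⟨P, hP⟩ := h
  by_contra hc
  rw [not_le, ← sub_pos] at hc
  set A := ∑ j, Int.fract ((l : ℚ) * b j / D) with hA
  set B := ∑ i, Int.fract ((l : ℚ) * a i / D) with hB
  set T : ℚ := ∑ j, |(b j : ℚ)| + ∑ i, |(a i : ℚ)| + c with hT
  obtain ⟨M, hM⟩ := exists_nat_gt (T / (A - B))
  obtain ⟨u, v, huv⟩ := id hl
  obtain ⟨p, hp1, hp, hp2⟩ := Nat.forall_exists_prime_gt_and_zmodEq
    (P + M + D + ∑ j, (b j).natAbs + ∑ i, (a i).natAbs) (q := D) (a := -u) hD.ne'
    ⟨-l, v, by linear_combination huv⟩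
  have hlp : (D : ℤ) ∣ l * p + 1 := by
    obtain ⟨w, hw⟩ := hp2.dvd
    exact ⟨v - l * w, by linear_combination (-l) * hw - huv⟩
  choose e he1 he2 using fun j => arithb2_rep hp hD (by omega) (b j)
  choose m hm1 hm2 using fun i => arithb2_rep hp hD (by omega) (a i)
  have h1 := hP p hp (by omega) e m he1 hm1 he2 hm2
  have h2 : ∑ j, (e j : ℚ) ≤ ∑ i, (m i : ℚ) + c := by exact_mod_cast h1
  have h3 : ∀ j, (p : ℚ) * Int.fract ((l : ℚ) * b j / D) - |(b j : ℚ)| ≤ e j := fun j => by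
    refine (rep_bounds hD hl hlp ?_ (he1 j) (he2 j)).1
    have := Finset.single_le_sum (f := fun j => (b j).natAbs) (fun _ _ => Nat.zero_le _)
      (Finset.mem_univ j)
    rw [Int.abs_eq_natAbs]
    exact_mod_cast (by omega : (b j).natAbs < p)
  have h4 : ∀ i, (m i : ℚ) ≤ p * Int.fract ((l : ℚ) * a i / D) + |(a i : ℚ)| := fun i =>
    arithb2_up hD hl hp (by omega) hlp (ha i) (by
      have := Finset.single_le_sum (f := fun j => (a j).natAbs) (fun _ _ => Nat.zero_le _)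
        (Finset.mem_univ i)
      rw [Int.abs_eq_natAbs]
      exact_mod_cast (by omega : (a i).natAbs < p)) (hm1 i) (hm2 i)
  have h6 := Finset.sum_le_sum fun j (_ : j ∈ Finset.univ) => h3 j
  have h7 := Finset.sum_le_sum fun i (_ : i ∈ Finset.univ) => h4 i
  rw [Finset.sum_sub_distrib, ← Finset.mul_sum, ← hA] at h6
  rw [Finset.sum_add_distrib, ← Finset.mul_sum, ← hB] at h7
  rw [div_lt_iff₀ hc] at hM
  have h8 : (M : ℚ) ≤ p := by exact_mod_cast (by omega : M ≤ p)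
  have h9 := mul_le_mul_of_nonneg_right h8 hc.le
  nlinarith

/-- Copy of `CPO2.exp` (GR/ArithB.lean). -/
theorem CPO3.exp {κ : Type} [Field κ] (p : ℕ) [Fact p.Prime] [CharP κ p] {I : Finset (Fin n)}
    {D : ℕ} {a : Fin n → Fin r → ℤ} {c1 : ℕ} {H : (PowerSeries κ)[X]}
    {N : Fin r → (PowerSeries κ)[X]} {c : κ} (hc : c ≠ 0) {j0 : ℕ} {β : Fin r → κ}
    (he : EulerRed H N c j0 β) (ho : CPO3 p I D a c1 H N) (m0 : Fin n → ℕ)
    (m1 : Fin n → Fin r → ℕ) (h0 : ∀ i, m0 i < p) (h1 : ∀ i j, m1 i j < p)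
    (hI : ∀ i, i ∉ I → m0 i = 0)
    (hm : ∀ i ∈ I, ∀ j, (D : κ) * ((m1 i j : κ) - m0 i) = (a i j : κ))
    (e : Fin r → ℕ) (hp : ∀ j, e j < p) (hj : ∀ j, (e j : κ) = β j + ∑ i ∈ I, (m0 i : κ)) :
    ∑ j, e j ≤ ∑ i ∈ I, ∑ j, m1 i j + c1 := by
  obtain ⟨y, g, hw, hb, hg, hy⟩ := ho m0 m1 h0 h1 hI hm
  rw [← arithb_wr] at hw hb
  have hs : ((∑ i ∈ I, (p - m0 i) : ℕ) : κ) = -∑ i ∈ I, (m0 i : κ) := by
    rw [Nat.cast_sum, ← Finset.sum_neg_distrib]
    refine Finset.sum_congr rfl fun i _ => ?_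
    rw [Nat.cast_sub (h0 i).le, CharP.cast_eq_zero, zero_sub]
  obtain ⟨-, -, h2⟩ := euler_charp p _ hw (fun j => β j + ∑ i ∈ I, (m0 i : κ)) fun b m hm => by
    obtain ⟨j, hj⟩ := euler_exp hc j0 (∑ i ∈ I, (p - m0 i)) β (y := red (y b))
      (by rw [← hg, ← map_mul]; exact arithb_red he (hy b)) m hm
    refine ⟨j, ?_⟩
    rw [← hj, Nat.cast_add, hs]
    ring
  exact (h2 e hp hj).trans hb

/-- The first two parts and the definition of `q` are as in `arith_ineq` (GR/ArithB.lean). For the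
inequality let `u`, `D'`, `l` be given, with integers `A i j = α i j * D'`, `B j = q j * D'`,
`U i = u i * D'`. Replace `U i` by `U i + D' * T` with `T : ℕ` so large that `0 ≤ A i j + U i` (the
fractional parts do not change). Apply `frac_ineq2` with denominator `D'`, `ι = Fin r`, numerators
`B j + ∑_{i ∈ I} U i`, `ι' = I × Fin r`, numerators `A i j + U i`. Given `p > D, D'` and
representatives `e`, `m`, choose `m0 i < p` with `D' * m0 i ≡ U i` for `i ∈ I` (and `0` outside),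
take any `φ` (from `spread`) and use `CPO3.exp`; note `D * A i j = D' * a i j` and
`(D' : R) * β j = B j` (the ring is a domain of characteristic zero; the relation follows from
`(D * E) * β j = b j`). -/
theorem arith_ineq2 [NeZero r] {R : Type} [CommRing R] [IsDomain R] [CharZero R]
    [Algebra.FiniteType ℤ R] (ι : R →+* ℂ) {H : (PowerSeries R)[X]}
    {N : Fin r → (PowerSeries R)[X]} {c : R} (hc : IsUnit c) {j0 : ℕ} {β : Fin r → R}
    (he : EulerRed H N c j0 β) {I : Finset (Fin n)} {D : ℕ} (hD : 0 < D) {a : Fin n → Fin r → ℤ}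
    {c1 : ℕ}
    (ho : ∃ P : ℕ, ∀ p : ℕ, p.Prime → P < p → ∀ (κ : Type) [Field κ] [CharP κ p] (φ : R →+* κ),
      CPO1 (mps φ H) (fun k => mps φ (N k)) ∧ CPO3 p I D a c1 (mps φ H) fun k => mps φ (N k)) :
    Function.Injective β ∧ (∃ D' : ℕ, 0 < D' ∧ ∀ j, ∃ b : ℤ, (D' : R) * β j = b) ∧
      ∃ q : Fin r → ℚ, (∀ j, ι (β j) = q j) ∧ IneqQ2 I (fun i j => (a i j : ℚ) / D) q := by
  obtain ⟨P, hP⟩ := ho
  obtain ⟨P1, hP1⟩ := spread (x := (1 : R)) one_ne_zero
  have hrat : ∀ j, ∃ u d : ℤ, d ≠ 0 ∧ (d : R) * β j = u := fun j =>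
    rat_of_frob (β j) ⟨P, fun p hp hPp κ _ _ φ =>
      have : Fact p.Prime := ⟨hp⟩
      (CPO1.exp p (hc.map φ).ne_zero (he.map φ) (hP p hp hPp κ φ).1).2 j⟩
  choose u d hd hu using hrat
  obtain ⟨E, hE, hdE⟩ : ∃ E : ℕ, 0 < E ∧ ∀ j, d j ∣ (E : ℤ) := by
    refine ⟨∏ j, (d j).natAbs, Finset.prod_pos fun j _ => Int.natAbs_pos.2 (hd j), fun j => ?_⟩
    rw [← Int.natAbs_dvd, Int.natCast_dvd_natCast]
    exact Finset.dvd_prod_of_mem (fun j => (d j).natAbs) (Finset.mem_univ j)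
  have hb : ∀ j, ∃ b : ℤ, (E : R) * β j = b := by
    intro j
    obtain ⟨v, hv⟩ := hdE j
    refine ⟨v * u j, ?_⟩
    have h1 : (E : R) = d j * v := by exact_mod_cast congrArg (Int.cast : ℤ → R) hv
    push_cast
    rw [h1, ← hu j]
    ring
  refine ⟨?_, ⟨E, hE, hb⟩, ?_⟩
  · obtain ⟨p, hp1, hp⟩ := Nat.exists_infinite_primes (P + P1 + 1)
    obtain ⟨κ, _, _, φ, -⟩ := hP1 p hp (by omega)
    have : Fact p.Prime := ⟨hp⟩
    exact Function.Injective.of_comp (f := φ)
      (CPO1.exp p (hc.map φ).ne_zero (he.map φ) (hP p hp (by omega) κ φ).1).1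
  choose b hb using hb
  have hDq : (D : ℚ) ≠ 0 := Nat.cast_ne_zero.2 hD.ne'
  have hEq : (E : ℚ) ≠ 0 := Nat.cast_ne_zero.2 hE.ne'
  refine ⟨fun j => (b j : ℚ) / E, fun j => ?_, fun w D' hD' hA hB hU l hl => ?_⟩
  · have h1 := congrArg ι (hb j)
    rw [map_mul, map_natCast, map_intCast] at h1
    have h2 : (E : ℂ) ≠ 0 := Nat.cast_ne_zero.2 hE.ne'
    rw [Rat.cast_div, Rat.cast_intCast, Rat.cast_natCast, eq_div_iff h2, mul_comm, h1]
  choose A hA using hA
  choose B hB using hB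
  choose U hU using hU
  have hD'q : (D' : ℚ) ≠ 0 := Nat.cast_ne_zero.2 hD'.ne'
  have hA' : ∀ i j, a i j * D' = A i j * D := by
    intro i j
    have h1 := hA i j
    rw [div_mul_eq_mul_div, div_eq_iff hDq] at h1
    exact_mod_cast h1
  have hB' : ∀ j, (D' : R) * β j = B j := by
    intro j
    have h1 := hB j
    rw [div_mul_eq_mul_div, div_eq_iff hEq] at h1
    have h2 : b j * D' = B j * E := by exact_mod_cast h1
    have h3 : (b j : R) * D' = B j * E := by exact_mod_cast congrArg (Int.cast : ℤ → R) h2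
    have h4 : (E : R) ≠ 0 := Nat.cast_ne_zero.2 hE.ne'
    exact mul_left_cancel₀ h4 (by linear_combination (D' : R) * hb j + h3)
  set T : ℕ := ∑ i, ∑ j, (A i j + U i).natAbs with hT
  set V : Fin n → ℤ := fun i => U i + D' * T with hV
  have hVq : ∀ i, (V i : ℚ) = (w i + T) * D' := by
    intro i
    simp only [hV]
    push_cast
    rw [← hU i]
    ring
  have key := frac_ineq2 hD' hl (fun j => B j + ∑ i ∈ I, V i)
    (fun x : I × Fin r => A x.1 x.2 + V x.1) ?_ c1 ?_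
  · refine le_of_eq_of_le ?_ (key.trans_eq ?_)
    · refine Finset.sum_congr rfl fun j _ => ?_
      have h1 : (l : ℚ) * ((B j + ∑ i ∈ I, V i : ℤ) : ℚ) / D' =
          l * ((b j : ℚ) / E + ∑ i ∈ I, w i) + ((l * (I.card * T) : ℤ) : ℚ) := by
        push_cast
        simp only [hVq]
        rw [← hB j, ← Finset.sum_mul, Finset.sum_add_distrib, Finset.sum_const, nsmul_eq_mul]
        field_simp
        ring
      rw [h1, Int.fract_add_intCast]
    · rw [Fintype.sum_prod_type, ← Finset.sum_coe_sort I]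
      refine Finset.sum_congr rfl fun i _ => Finset.sum_congr rfl fun j _ => ?_
      have h1 : (l : ℚ) * ((A i j + V i : ℤ) : ℚ) / D' =
          l * ((a i j : ℚ) / D + w i) + ((l * T : ℤ) : ℚ) := by
        push_cast
        rw [hVq, ← hA i j]
        field_simp
        ring
      rw [h1, Int.fract_add_intCast]
  · rintro ⟨i, j⟩
    have h1 : (A i j + U i).natAbs ≤ T :=
      (Finset.single_le_sum (f := fun j => (A i j + U i).natAbs) (fun _ _ => Nat.zero_le _)
        (Finset.mem_univ j)).trans (Finset.single_le_sum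
          (f := fun i => ∑ j, (A i j + U i).natAbs) (fun _ _ => Nat.zero_le _)
          (Finset.mem_univ (i : Fin n)))
    have h2 : (T : ℤ) ≤ D' * T := by exact_mod_cast Nat.le_mul_of_pos_left T hD'
    simp only [hV]
    omega
  · refine ⟨P + P1 + D', fun p hp hPp e m he' hm' hpe hpm => ?_⟩
    obtain ⟨κ, _, _, φ, -⟩ := hP1 p hp (by omega)
    have : Fact p.Prime := ⟨hp⟩
    have hκ : (D' : κ) ≠ 0 := fun h =>
      absurd (Nat.le_of_dvd hD' ((CharP.cast_eq_zero_iff κ p _).1 h)) (by omega)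
    choose m0 hm01 hm02 using fun i => arithb2_rep hp hD' (by omega) (V i)
    have hm0 : ∀ i, (D' : κ) * m0 i = V i := by
      intro i
      have h1 := (CharP.intCast_eq_zero_iff κ p _).2 (hm02 i)
      push_cast at h1
      linear_combination h1
    have h1 := CPO3.exp p (hc.map φ).ne_zero (he.map φ) (hP p hp (by omega) κ φ).2
      (fun i => if i ∈ I then m0 i else 0) (fun i j => if h : i ∈ I then m (⟨i, h⟩, j) else 0)
      ?_ ?_ ?_ ?_ e he' ?_
    · refine h1.trans_eq ?_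
      congr 1
      rw [Fintype.sum_prod_type, ← Finset.sum_coe_sort I]
      refine Finset.sum_congr rfl fun i _ => Finset.sum_congr rfl fun j _ => ?_
      rw [dif_pos i.2]
    · intro i
      split_ifs
      · exact hm01 i
      · exact hp.pos
    · intro i j
      split_ifs
      · exact hm' _
      · exact hp.pos
    · intro i hi
      exact if_neg hi
    · intro i hi j
      simp only [if_pos hi, dif_pos hi]
      have h2 := (CharP.intCast_eq_zero_iff κ p _).2 (hpm (⟨i, hi⟩, j))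
      have h3 : (a i j : κ) * D' = A i j * D := by
        exact_mod_cast congrArg (Int.cast : ℤ → κ) (hA' i j)
      push_cast at h2
      exact mul_left_cancel₀ hκ (by linear_combination (D : κ) * h2 - (D : κ) * hm0 i - h3)
    · intro j
      have h2 : ∑ i ∈ I, (((if i ∈ I then m0 i else 0 : ℕ)) : κ) = ∑ i ∈ I, (m0 i : κ) :=
        Finset.sum_congr rfl fun i hi => by rw [if_pos hi]
      have h3 := (CharP.intCast_eq_zero_iff κ p _).2 (hpe j)
      have h4 := congrArg φ (hB' j)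
      rw [map_mul, map_natCast, map_intCast] at h4
      have h5 : (D' : κ) * ∑ i ∈ I, (m0 i : κ) = ∑ i ∈ I, (V i : κ) := by
        rw [Finset.mul_sum]
        exact Finset.sum_congr rfl fun i _ => hm0 i
      rw [h2]
      refine mul_left_cancel₀ hκ ?_
      push_cast at h3
      linear_combination h3 - h4 - h5

end Pool.Agent.GR
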