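import Pool.Agent.Lib.MP_aa40d3_nt.GR.Arith
import Pool.Agent.Lib.MP_aa40d3_nt.GR2.ArithA2
import Pool.Agent.Lib.MP_aa40d3_nt.GR2.ArithB2

/-! The arithmetic of the neck. -/

open Polynomial Matrix

namespace Pool.Agent.GR

variable {n r : ℕ}

theorem arith2 [NeZero r] {R : Type} [CommRing R] [Algebra.FiniteType ℤ R] (ι : R →+* ℂ)
    (hι : Function.Injective ι) {D : ℕ} (hD : 0 < D) {a : Fin n → Fin r → ℤ}
    (I : Finset (Fin n)) {e : ℕ} (he : 2 * (r * r * (n + 1)) + 4 ≤ e) {c : Fin n → R}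
    (hc : ∀ j, j ∉ I → c j ≠ 0) {G : PowerSeries R} (hG : G ≠ 0)
    {Q : Fin n → Matrix (Fin r) (Fin r) (PowerSeries R)} (ho : Orc2 D a (tauF e I c) G Q) :
    ∃ (ϱ : ℕ) (β : Fin r → ℚ), 0 < ϱ ∧ ϱ < e ∧ IneqQ2 I (fun i j => (a i j : ℚ) / D) β ∧
      NFData (sc (PowerSeries.X ^ ϱ) (mps ι (HF (tauF e I c) G Q)))
        (fun k => sc (PowerSeries.X ^ ϱ) (mps ι (NF (tauF e I c) G Q k))) fun j => (β j : ℂ) := by
  classical
  have hdom : IsDomain R := hι.isDomain ι
  have hcz : CharZero R := RingHom.charZero ι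
  obtain ⟨ϱ, v, j0, c0, ν, H1, N1, hϱ0, hϱe, hc0, hH, hN, hrH, hrN⟩ := arith_radius2 hD I he hc hG ho
  have hι0 : ∀ x : R, x ≠ 0 → ι x ≠ 0 := fun x hx h => hx (hι (h.trans (map_zero ι).symm))
  let f : ℂ[X] := X ^ r + ∑ k : Fin r, C (ι (ν k) / ι c0) * X ^ (k : ℕ)
  have hdeg : (∑ k : Fin r, C (ι (ν k) / ι c0) * X ^ (k : ℕ) : ℂ[X]).degree < r :=
    degree_sum_fin_lt _
  have hfm : f.Monic := monic_X_pow_add hdeg
  have hfd : f.natDegree = r := by
    refine natDegree_eq_of_degree_eq_some ?_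
    rw [degree_add_eq_left_of_degree_lt (by rwa [degree_X_pow]), degree_X_pow]
  have hfc : ∀ k : Fin r, f.coeff k = ι (ν k) / ι c0 := by
    intro k
    simp only [f, coeff_add, coeff_X_pow, if_neg k.2.ne, zero_add, finsetSum_coeff, coeff_C_mul,
      mul_ite, mul_one, mul_zero]
    rw [Finset.sum_eq_single k]
    · simp
    · intro k' _ hk
      rw [if_neg fun h => hk (Fin.ext h.symm)]
    · simp
  obtain ⟨b, hb⟩ := arith_split f hfm hfd
  obtain ⟨i0, hi0⟩ : ∃ i0, PowerSeries.coeff i0 G ≠ 0 := by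
    by_contra h
    push Not at h
    exact hG (PowerSeries.ext fun i => by simpa using h i)
  obtain ⟨R', j, hft, hj, hS⟩ := exists_enlarge ι
    ({(ι c0)⁻¹, (ι (PowerSeries.coeff i0 G))⁻¹, (vandermonde b).det⁻¹} ∪
      (Finset.univ.image fun i => (ι (c i))⁻¹) ∪ Finset.univ.image b)
  have hcomp : R'.subtype.comp j = ι := RingHom.ext hj
  let β : Fin r → R' := fun i => ⟨b i, hS _ (by simp)⟩
  have hu0 : IsUnit (j c0) :=
    arith_unit _ (by rw [hj]; exact hι0 _ hc0) (by rw [hj]; exact hS _ (by simp))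
  have hu1 : IsUnit (j (PowerSeries.coeff i0 G)) :=
    arith_unit _ (by rw [hj]; exact hι0 _ hi0) (by rw [hj]; exact hS _ (by simp))
  have hu2 : ∀ i, i ∉ I → IsUnit (j (c i)) := fun i hi =>
    arith_unit _ (by rw [hj]; exact hι0 _ (hc i hi)) (by rw [hj]; exact hS _ (by simp))
  have hE : EulerRed (mps j H1) (fun k => mps j (N1 k)) (j c0) j0 β := by
    refine ⟨?_, fun k => ?_⟩
    · rw [arith_red_mps, hrH]
      simp
    · rw [arith_red_mps, hrN]
      have : j (ν k) = j c0 * (∏ i, (X - C (β i))).coeff k := by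
        refine Subtype.ext ?_
        have h1 : (((∏ i, (X - C (β i))).coeff k : R') : ℂ) = f.coeff k := by
          rw [← hb]
          have : (∏ i, (X - C (b i)) : ℂ[X]) = (∏ i, (X - C (β i))).map R'.subtype := by
            simp [Polynomial.map_prod, β]
          rw [this, coeff_map]
          rfl
        rw [Subring.coe_mul, h1, hfc, hj, hj, mul_div_cancel₀ _ (hι0 _ hc0)]
      simp [this]
  obtain ⟨P0, hP0⟩ := ho
  have ho' : ∃ P : ℕ, ∀ p : ℕ, p.Prime → P < p → ∀ (κ : Type) [Field κ] [CharP κ p]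
      (φ : R' →+* κ), CPO1 (mps φ (mps j H1)) (fun k => mps φ (mps j (N1 k))) ∧
        CPO3 p I D a (r * r * (n + 1)) (mps φ (mps j H1)) fun k => mps φ (mps j (N1 k)) := by
    refine ⟨max P0 D, fun p hp hlt κ _ _ φ => ?_⟩
    have : Fact p.Prime := ⟨hp⟩
    have hG' : PowerSeries.map (φ.comp j) G ≠ 0 := by
      intro h
      have := congrArg (PowerSeries.coeff i0) h
      rw [PowerSeries.coeff_map, map_zero] at this
      exact (hu1.map φ).ne_zero this
    have hD' : (D : κ) ≠ 0 := by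
      intro h
      have := Nat.le_of_dvd hD ((CharP.cast_eq_zero_iff κ p D).1 h)
      have := le_max_right P0 D
      omega
    obtain ⟨hg, hf⟩ := hP0 p hp (lt_of_le_of_lt (le_max_left _ _) hlt) κ (φ.comp j) hG'
    simp only [arith_mps_mps]
    exact cp_scaled2 p (φ.comp j) I hD' hϱ0 hϱe (fun i hi => ((hu2 i hi).map φ).ne_zero) hG' hg hf
      hH hN
  obtain ⟨hinj, ⟨D', hD', hβ⟩, q, hq, hineq⟩ := arith_ineq2 R'.subtype hu0 hE hD ho'
  have hbq : ∀ i, b i = q i := hq
  have hbinj : Function.Injective b := fun i i' h => hinj (Subtype.ext h)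
  have hV0 : (vandermonde b).det ≠ 0 := det_vandermonde_ne_zero_iff.2 hbinj
  have hVmap : (vandermonde β).map R'.subtype = vandermonde b := by
    ext i i'
    simp [vandermonde, β]
  have hVc : (((vandermonde β).det : R') : ℂ) = (vandermonde b).det := by
    rw [← hVmap]
    exact R'.subtype.map_det _
  have hV : IsUnit (vandermonde β).det :=
    arith_unit _ (by rwa [hVc]) (by rw [hVc]; exact hS _ (by simp))
  have hH' : sc (PowerSeries.X ^ ϱ) (mps ι (HF (tauF e I c) G Q)) =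
      C (PowerSeries.X ^ v) * mps ι H1 := by
    rw [← arith_mps_sc, hH, map_mul, arith_mps_CX]
  have hN' : (fun k => sc (PowerSeries.X ^ ϱ) (mps ι (NF (tauF e I c) G Q k))) =
      fun k => C (PowerSeries.X ^ v) * mps ι (N1 k) := by
    funext k
    rw [← arith_mps_sc, hN, map_mul, arith_mps_CX]
  refine ⟨ϱ, q, hϱ0, hϱe, hineq, v, j0, ι c0, hι0 _ hc0, ?_, fun K => ?_⟩
  · rw [hH', pow_succ, map_mul, map_mul, mul_assoc, ← mul_sub]
    refine mul_dvd_mul_left _ ?_
    rw [C_dvd_iff_dvd_coeff]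
    intro i
    rw [PowerSeries.X_dvd_iff]
    have h1 : red (mps ι H1 - C (PowerSeries.C (ι c0)) * X ^ j0) = 0 := by
      rw [map_sub, arith_red_mps, hrH]
      simp [red]
    have h2 := congrArg (fun P => P.coeff i) h1
    simpa only [red, coe_mapRingHom, coeff_map, coeff_zero] using h2
  · obtain ⟨P, hP⟩ := ho'
    obtain ⟨M, d, g, hd, hg, hdv⟩ := exists_nf hu0 hE hV hD' hβ
      ⟨P, fun p hp hlt κ _ _ φ => (hP p hp hlt κ φ).1⟩ K
    refine ⟨M, (d : ℂ) • (vandermonde b)ᵀ, g.map (mps R'.subtype), ?_, ?_, fun x y => ?_⟩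
    · rw [det_smul, det_transpose]
      exact mul_ne_zero (pow_ne_zero _ (Int.cast_ne_zero.2 hd)) hV0
    · ext x y : 2
      have := congrFun (congrFun hg x) y
      simp only [Matrix.map_apply, Matrix.smul_apply, smul_eq_mul, transpose_apply] at this ⊢
      rw [arith_red_mps, this, ← hVmap]
      simp
    · rw [hH', hN', arith_nfErr_mul, pow_add, map_mul, Matrix.smul_apply, smul_eq_mul]
      refine mul_dvd_mul_left _ ?_
      have h1 := congrFun (congrFun (nfErr_map R'.subtype (mps j H1) (fun k => mps j (N1 k))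
        (fun i => β i - M) g) x) y
      simp only [arith_mps_mps, hcomp, Matrix.map_apply] at h1
      have h2 : (fun i => R'.subtype (β i - M)) = fun i => (q i : ℂ) - M := by
        funext i
        rw [map_sub, map_natCast, ← hbq]
        rfl
      rw [h2] at h1
      rw [← h1, ← arith_mps_CX R'.subtype]
      exact _root_.map_dvd _ (hdv x y)

end Pool.Agent.GR
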