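import Pool.Agent.Lib.MP_aa40d3_nt.GR.Arg
import Pool.Agent.Lib.MP_aa40d3_nt.GR2.Defs

/-! From the rational inequalities to inequalities between arguments. -/

open Polynomial Complex

namespace Pool.Agent.GR

variable {n r : ℕ}

theorem arg2_root {z : ℂ} (hz : IsOfFinOrder z) :
    ∃ u : ℚ, z = exp (2 * Real.pi * Complex.I * (u : ℂ)) := by
  obtain ⟨m, hm, h1⟩ := isOfFinOrder_iff_pow_eq_one.1 hz
  have : NeZero m := ⟨hm.ne'⟩
  obtain ⟨i, -, hi⟩ := (Complex.isPrimitiveRoot_exp m hm.ne').eq_pow_of_pow_eq_one h1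
  refine ⟨i / m, ?_⟩
  rw [← hi, ← Complex.exp_nat_mul]
  push_cast
  ring_nf

theorem arg2_den {ι : Type} [Fintype ι] (q : ι → ℚ) :
    ∃ D : ℕ, 0 < D ∧ ∀ i, ∃ z : ℤ, q i * D = z := by
  refine ⟨∏ i, (q i).den, Finset.prod_pos fun i _ => (q i).den_pos, fun i => ?_⟩
  obtain ⟨c, hc⟩ := Finset.dvd_prod_of_mem (fun i => (q i).den) (Finset.mem_univ i)
  refine ⟨(q i).num * c, ?_⟩
  rw [hc]
  push_cast
  rw [← mul_assoc, Rat.mul_den_eq_num]

theorem arg2_tau (τ : ℂ →+* ℂ) {D : ℕ} (hD : 0 < D) :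
    ∃ l : ℤ, IsCoprime l (D : ℤ) ∧ ∀ q : ℚ, (∃ z : ℤ, q * D = z) →
      a01 (τ (exp (2 * Real.pi * Complex.I * (q : ℂ)))) = ((Int.fract (l * q) : ℚ) : ℝ) := by
  obtain ⟨l, hl, h⟩ := exists_galois_exp (τ.comp (algebraicClosure ℚ ℂ).val.toRingHom) hD
  refine ⟨l, hl, fun q hq => ?_⟩
  rw [← arga_fract, ← h q hq]
  rfl

open Classical in
theorem arg2_sum {x : ℂ} (hx : IsOfFinOrder x) :
    a01 x + a01 (starRingEnd ℂ x) = if x = 1 then 0 else 1 := by
  split_ifs with h
  · simp [h, a01_one]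
  · rw [← Complex.inv_eq_conj hx.norm_eq_one, a01_inv hx.norm_eq_one h]
    ring

/-- Adapt `orr_of_ineqQ` (GR/ArgA.lean). Take `ω j = exp (2 π i β j)` (`isOfFinOrder_ez`). Given `τ`
and `η`, write `η i = exp (2 π i u i)` with `u i : ℚ` (`Complex.mem_rootsOfUnity`), let `D` be the
product of all denominators and apply `exists_galois_exp` to `τ.comp (algebraicClosure ℚ ℂ).subtype`;
then `arga_fract`. -/
theorem orr2_of_ineqQ2 {I : Finset (Fin n)} {α : Fin n → Fin r → ℚ} {β : Fin r → ℚ}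
    (h : IneqQ2 I α β) :
    Orr2 r (fun i j => exp (2 * Real.pi * Complex.I * (α i j : ℂ))) I
      (∏ j, (X - C (exp (2 * Real.pi * Complex.I * (β j : ℂ))))) := by
  refine ⟨fun j => exp (2 * Real.pi * Complex.I * (β j : ℂ)),
    fun j => isOfFinOrder_iff_pow_eq_one.2 ⟨_, (β j).den_pos, arga_pow _⟩, rfl, fun τ η hη => ?_⟩
  choose u hu using fun i => arg2_root (hη i)
  obtain ⟨D, hD, hq⟩ := arg2_den
    (Sum.elim (fun x : Fin n × Fin r => α x.1 x.2) (Sum.elim β u))
  have hα : ∀ i j, ∃ z : ℤ, α i j * D = z := fun i j => hq (Sum.inl (i, j))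
  have hβ : ∀ j, ∃ z : ℤ, β j * D = z := fun j => hq (Sum.inr (Sum.inl j))
  have hu' : ∀ i, ∃ z : ℤ, u i * D = z := fun i => hq (Sum.inr (Sum.inr i))
  obtain ⟨l, hl, hτ⟩ := arg2_tau τ hD
  have h1 := h u D hD hα hβ hu' l hl
  have e1 : ∀ j, a01 (τ (exp (2 * Real.pi * Complex.I * (β j : ℂ)) * ∏ i ∈ I, η i)) =
      ((Int.fract ((l : ℚ) * (β j + ∑ i ∈ I, u i)) : ℚ) : ℝ) := by
    intro j
    rw [← hτ, Finset.prod_congr rfl fun i _ => hu i, ← Complex.exp_sum, ← Complex.exp_add]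
    · congr 3
      push_cast
      rw [← Finset.mul_sum]
      ring
    · choose z hz using hu'
      obtain ⟨w, hw⟩ := hβ j
      refine ⟨w + ∑ i ∈ I, z i, ?_⟩
      push_cast
      rw [add_mul, Finset.sum_mul, hw, Finset.sum_congr rfl fun i _ => hz i]
  have e2 : ∀ i j, a01 (τ (exp (2 * Real.pi * Complex.I * (α i j : ℂ)) * η i)) =
      ((Int.fract ((l : ℚ) * (α i j + u i)) : ℚ) : ℝ) := by
    intro i j
    rw [← hτ, hu i, ← Complex.exp_add]
    · congr 3
      push_cast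
      ring
    · obtain ⟨z, hz⟩ := hu' i
      obtain ⟨w, hw⟩ := hα i j
      refine ⟨w + z, ?_⟩
      push_cast
      rw [add_mul, hw, hz]
  simp only [e1, e2]
  exact_mod_cast h1

theorem orrM_one (ε : Fin n → Fin r → ℂ) : OrrM ε ∅ (1 : Matrix (Fin r) (Fin r) ℂ) := by
  refine ⟨IsOfFinOrder.one, fun _ => 1, fun _ => IsOfFinOrder.one, ?_, fun τ η _ => ?_⟩
  · rw [Matrix.charpoly_one]
    simp
  · simp [a01_one]

/-- The roots of unity form a countable set. -/
theorem countable_orr2 (ε : Fin n → Fin r → ℂ) (I : Finset (Fin n)) :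
    {q | Orr2 r ε I q}.Countable := by
  refine (Set.countable_range fun β : Fin r → ℚ =>
    ∏ j, (X - C (exp (2 * Real.pi * Complex.I * (β j : ℂ))))).mono ?_
  rintro q ⟨ω, hω, h, -⟩
  choose u hu using fun j => arg2_root (hω j)
  exact ⟨u, by rw [h, Finset.prod_congr rfl fun j _ => by rw [hu j]]⟩

theorem OrrM.of_isConj {ε : Fin n → Fin r → ℂ} {I : Finset (Fin n)}
    {a b : (Matrix (Fin r) (Fin r) ℂ)ˣ} (h : IsConj a b) (hb : OrrM ε I b.val) :
    OrrM ε I a.val := by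
  obtain ⟨c, rfl⟩ := isConj_iff.1 h
  have h1 : IsOfFinOrder a := h.symm.isOfFinOrder (Units.isOfFinOrder_val.1 hb.1)
  refine ⟨Units.isOfFinOrder_val.2 h1, ?_⟩
  have h2 := hb.2
  rwa [Units.val_mul, Units.val_mul, Matrix.coe_units_inv, Matrix.charpoly_units_conj] at h2

/-- For a root of unity `z` take `η i = z⁻¹` and add the inequalities for `τ = id` and `τ = conj`:
since `a01 x + a01 x⁻¹` is `1` for `x ≠ 1` of norm one (`a01_inv`) and `0` for `x = 1`, the number
of `j` with `ω j = z` is at least the number of `j` with `ε i j = z`. So the multiset of the `ε i j`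
is at most the multiset of the `ω j` (`Multiset.le_iff_count`), and both have `r` elements. -/
theorem orr2_single {ε : Fin n → Fin r → ℂ} {i : Fin n} (hε : ∀ j, IsOfFinOrder (ε i j))
    {q : ℂ[X]} (h : Orr2 r ε {i} q) : q = ∏ j, (X - C (ε i j)) := by
  classical
  obtain ⟨ω, hω, rfl, h⟩ := h
  have h1 : Finset.univ.val.map (ε i) ≤ Finset.univ.val.map ω := by
    refine Multiset.le_iff_count.2 fun z => ?_
    by_cases hz : z ∈ Finset.univ.val.map (ε i)
    swap
    · rw [Multiset.count_eq_zero_of_notMem hz]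
      exact Nat.zero_le _
    obtain ⟨j₀, -, hj₀⟩ := Multiset.mem_map.1 hz
    have hz' : IsOfFinOrder z := hj₀ ▸ hε j₀
    have hz0 : z ≠ 0 := by
      intro h0
      have := hz'.norm_eq_one
      rw [h0, norm_zero] at this
      exact zero_ne_one this
    have hi : IsOfFinOrder z⁻¹ := by
      obtain ⟨m, hm, h1⟩ := isOfFinOrder_iff_pow_eq_one.1 hz'
      exact isOfFinOrder_iff_pow_eq_one.2 ⟨m, hm, by rw [inv_pow, h1, inv_one]⟩
    have h2 := add_le_add (h (RingHom.id ℂ) (fun _ => z⁻¹) fun _ => hi)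
      (h (starRingEnd ℂ) (fun _ => z⁻¹) fun _ => hi)
    simp only [Finset.prod_singleton, Finset.sum_singleton, RingHom.id_apply,
      ← Finset.sum_add_distrib] at h2
    have h3 : ∀ x : Fin r → ℂ, (∀ j, IsOfFinOrder (x j)) →
        ∑ j, (a01 (x j * z⁻¹) + a01 (starRingEnd ℂ (x j * z⁻¹))) =
          r - (Finset.univ.val.map x).count z := by
      intro x hx
      have h4 : ∀ j, a01 (x j * z⁻¹) + a01 (starRingEnd ℂ (x j * z⁻¹)) =
          1 - if z = x j then 1 else 0 := by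
        intro j
        rw [arg2_sum ((hx j).mul hi)]
        simp only [mul_inv_eq_one₀ hz0, eq_comm (a := z)]
        split_ifs <;> simp
      simp only [h4, Finset.sum_sub_distrib, Finset.sum_boole, Multiset.count_map]
      simp only [Finset.sum_const, Finset.card_univ, Fintype.card_fin, nsmul_eq_mul, mul_one]
      rfl
    rw [h3 _ hω, h3 _ hε] at h2
    exact_mod_cast (sub_le_sub_iff_left _).1 h2
  have h2 := Multiset.eq_of_le_of_card_le h1 (by simp)
  have h3 := congrArg (fun s : Multiset ℂ => (s.map fun a => (X - C a : ℂ[X])).prod) h2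
  simp only [Multiset.map_map] at h3
  exact h3.symm

end Pool.Agent.GR
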