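import Pool.Agent.Lib.MP_aa40d3_nt.GR.Loop

/-! The neck loop has finite order. -/

open Polynomial Matrix Set Filter Asymptotics Topology
open scoped Matrix.Norms.Operator

namespace Pool.Agent.GR

variable {n r : ℕ}

theorem loop2_mat {f : ℂ → Mat r} {u : ℂ → ℂ} {l : Filter ℂ}
    (h : ∀ a b, (fun z => f z a b) =O[l] u) : f =O[l] u := by
  have h1 : (fun z => ∑ a, ∑ b, ‖f z a b‖) =O[l] u :=
    IsBigO.fun_sum fun a _ => IsBigO.fun_sum fun b _ => (h a b).norm_left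
  exact IsBigO.trans (IsBigO.of_norm_le fun z => loopb_norm_le _) h1

theorem loop2_one (A : Matrix (Fin r) (Fin r) PR) :
    (fun z => (A.map (evz z) : Mat r)) =O[𝓝[≠] 0] fun _ : ℂ => (1 : ℂ) := by
  refine loop2_mat fun a b => ?_
  have h := isBigO_of_dvd (A a b) (K := 0) (by simp)
  simpa using h

theorem loop2_inv (x : PR) (h : PowerSeries.constantCoeff (ser x) ≠ 0) :
    (fun z => (evz z x)⁻¹) =O[𝓝[≠] 0] fun _ : ℂ => (1 : ℂ) := by
  have h1 := isBigO_of_dvd (x - prP (C (PowerSeries.constantCoeff (ser x)))) (K := 1) (by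
    rw [pow_one, PowerSeries.X_dvd_iff, map_sub, ser_prP]
    simp)
  have h2 : Tendsto (fun z : ℂ => z ^ 1) (𝓝[≠] 0) (𝓝 0) := by
    simp only [pow_one]
    exact (tendsto_id (x := 𝓝 (0 : ℂ))).mono_left nhdsWithin_le_nhds
  have h3 := h1.trans_tendsto h2
  simp only [map_sub, evz_prP, eval_C] at h3
  exact ((tendsto_sub_nhds_zero_iff.1 h3).inv₀ h).isBigO_one ℂ

theorem loop2_minv (A : Matrix (Fin r) (Fin r) PR) (h : PowerSeries.constantCoeff (ser A.det) ≠ 0) :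
    (fun z => (A.map (evz z) : Mat r)⁻¹) =O[𝓝[≠] 0] fun _ : ℂ => (1 : ℂ) := by
  have h1 := (loop2_inv _ h).smul (loop2_one A.adjugate)
  simp only [smul_eq_mul, mul_one] at h1
  refine h1.congr_left fun z => ?_
  rw [Matrix.inv_def, Ring.inverse_eq_inv, RingHom.map_det, ← RingHom.mapMatrix_apply (evz z) A,
    ← RingHom.map_adjugate, RingHom.mapMatrix_apply (evz z) A.adjugate]

theorem loop2_alg [NeZero r] {g B L P : Mat r} {s : ℂ} (hW : (g⁻¹ * (s • B)).det ≠ 0)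
    (h : g⁻¹ * (s • B) * L = P * (g⁻¹ * (s • B))) (D : ℕ) :
    B.det ≠ 0 ∧ B.det • (L ^ D - 1) = B.adjugate * (g * ((P ^ D - 1) * (g⁻¹ * B))) := by
  rw [det_mul, det_smul, Fintype.card_fin, mul_ne_zero_iff, mul_ne_zero_iff] at hW
  have hs : s ≠ 0 := fun e => hW.2.1 (by rw [e, zero_pow (NeZero.ne r)])
  have hg : IsUnit g.det := by
    by_contra hu
    exact hW.1 (by rw [det_nonsing_inv, Ring.inverse_non_unit _ hu])
  refine ⟨hW.2.2, ?_⟩
  have h1 : g⁻¹ * (s • B) * L ^ D = P ^ D * (g⁻¹ * (s • B)) := SemiconjBy.pow_right h D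
  have h2 : g⁻¹ * B * L ^ D = P ^ D * (g⁻¹ * B) := by
    refine smul_right_injective _ hs ?_
    simpa only [Matrix.mul_smul, Matrix.smul_mul] using h1
  rw [Matrix.sub_mul, ← h2, Matrix.one_mul, Matrix.mul_sub, Matrix.mul_assoc g⁻¹,
    mul_nonsing_inv_cancel_left _ _ hg, mul_nonsing_inv_cancel_left _ _ hg, Matrix.mul_sub,
    ← Matrix.mul_assoc, adjugate_mul, Matrix.smul_mul, Matrix.one_mul, smul_sub]

theorem loop2_conj {W0 W1 W2 W3 T0 T1 T2 T3 P0 P1 P2 P3 : Mat r}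
    (h0 : W1 * T0 = P0 * W0) (h1 : W2 * T1 = P1 * W1) (h2 : W3 * T2 = P2 * W2)
    (h3 : W0 * T3 = P3 * W3) : W0 * (T3 * T2 * T1 * T0) = P3 * P2 * P1 * P0 * W0 := by
  rw [← mul_assoc, ← mul_assoc, ← mul_assoc, h3, mul_assoc P3, h2, ← mul_assoc,
    mul_assoc (P3 * P2), h1, ← mul_assoc, mul_assoc (P3 * P2 * P1), h0, ← mul_assoc]

theorem loop2_euler (β : Fin r → ℂ) {D : ℕ} (hβ : ∀ j, ∃ m : ℤ, (D : ℂ) * β j = m) (M : ℕ) :
    (NormedSpace.exp ((2 * Real.pi * Complex.I : ℂ) • diagonal fun j => β j - M) : Mat r) ^ D =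
      1 := by
  rw [← Matrix.diagonal_smul, Matrix.exp_diagonal, diagonal_pow, ← diagonal_one]
  congr 1
  funext j
  obtain ⟨m, hm⟩ := hβ j
  rw [Pi.pow_apply, Pi.coe_exp, ← Complex.exp_eq_exp_ℂ, Pi.smul_apply, smul_eq_mul,
    ← Complex.exp_nat_mul, ← Complex.exp_int_mul_two_pi_mul_I (m - D * M)]
  congr 1
  push_cast
  rw [← hm]
  ring

theorem loop2_ev (A : Matrix (Fin r) (Fin r) PR[X]) (q : ℂ[X]) (z : ℂ) :
    (A.map (eval (prP q))).map (evz z) = (A.map (Polynomial.map (evz z))).map (eval (q.eval z)) := by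
  refine Matrix.ext fun a b => ?_
  simp only [map_apply]
  rw [← evz_prP z q, eval_map, eval₂_at_apply]

theorem loop2_det {g : Matrix (Fin r) (Fin r) PR[X]} {M : ℕ} {V : Mat r} (hV : V.det ≠ 0)
    (hg : (g.map (Polynomial.map ser)).map red = (X ^ M : ℂ[X]) • V.map C) {y : ℂ} (hy : y ≠ 0) :
    PowerSeries.constantCoeff (ser (g.map (eval (prP (C y)))).det) ≠ 0 := by
  have h : (PowerSeries.constantCoeff.comp ser).mapMatrix (g.map (eval (prP (C y)))) =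
      y ^ M • V := by
    refine Matrix.ext fun a b => ?_
    have h2 := congrArg (eval y) (congrFun (congrFun hg a) b)
    simp only [map_apply, Matrix.smul_apply, smul_eq_mul, eval_mul, eval_pow, eval_X, eval_C, red,
      coe_mapRingHom, Polynomial.map_map] at h2
    have h3 : (PowerSeries.constantCoeff.comp ser) (prP (C y)) = y := by
      simp [ser_prP]
    rw [RingHom.mapMatrix_apply, map_apply, map_apply, Matrix.smul_apply, smul_eq_mul, ← h2,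
      ← eval₂_at_apply, h3, eval_map]
  have h4 := RingHom.map_det (PowerSeries.constantCoeff.comp ser) (g.map (eval (prP (C y))))
  rw [h, det_smul, RingHom.comp_apply] at h4
  rw [h4]
  exact mul_ne_zero (pow_ne_zero _ (pow_ne_zero _ hy)) hV

/-- The cyclic vector matrix at the base point of the loop. -/
noncomputable def loop2C [NeZero r] (τ : Fin n → PR) (G : PR)
    (Q : Fin n → Matrix (Fin r) (Fin r) PR) (ϱ : ℕ) : Matrix (Fin r) (Fin r) PR :=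
  (cycM X (C G * dl τ) (pm τ Q)).map (eval (prP (X ^ ϱ * C (-1 - Complex.I))))

theorem loop2C_ev [NeZero r] (τ : Fin n → PR) (G : PR) (Q : Fin n → Matrix (Fin r) (Fin r) PR)
    (ϱ : ℕ) (z : ℂ) : (loop2C τ G Q ϱ).map (evz z) =
      (cycM X (C (evz z G) * dl fun i => evz z (τ i)) (pm (fun i => evz z (τ i))
        fun i => (Q i).map (evz z))).map (eval (z ^ ϱ * (-1 - Complex.I))) := by
  rw [loop2C, loop2_ev, cycM_map, map_X, Polynomial.map_mul, map_C, dl_map, pm_map, eval_mul,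
    eval_pow, eval_X, eval_C]

theorem loop2_asy [NeZero r] (τ : Fin n → PR) (G : PR) (Q : Fin n → Matrix (Fin r) (Fin r) PR)
    (ϱ : ℕ) (β : Fin r → ℂ) {D : ℕ} (hβ : ∀ j, ∃ m : ℤ, (D : ℂ) * β j = m)
    (hnf : NFData (sc (PowerSeries.X ^ ϱ) ((HF τ G Q).map ser))
      (fun k => sc (PowerSeries.X ^ ϱ) ((NF τ G Q k).map ser)) β)
    (haw : ∀ᶠ z in 𝓝[≠] (0 : ℂ), evz z G ≠ 0 ∧
      ∀ i (y : ℂ), 1 ≤ ‖y‖ → ‖y‖ ≤ 2 → evz z (τ i) ≠ z ^ ϱ * y) (K : ℕ) :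
    (∀ᶠ z in 𝓝[≠] (0 : ℂ), evz z (loop2C τ G Q ϱ).det ≠ 0) ∧
    (fun z => evz z (loop2C τ G Q ϱ).det •
      ((sqLoop (fun i => evz z (τ i)) (fun i => ((evz z G)⁻¹ • (Q i).map (evz z) : Mat r)) 0
        (z ^ ϱ)) ^ D - 1)) =O[𝓝[≠] 0] fun z : ℂ => z ^ (K + 1) := by
  obtain ⟨v, j0, c, hc, hH, hK⟩ := hnf
  obtain ⟨M, V, g0, hV, hg0, hE0⟩ := hK (K + 1)
  obtain ⟨g, hg, hE⟩ := loop_approx _ _ _ (v + K) g0 hE0
  rw [hg0] at hg
  have e1 : ∀ P : PR[X], (sc (prP (X ^ ϱ)) P).map ser = sc (PowerSeries.X ^ ϱ) (P.map ser) :=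
    fun P => by rw [sc_map, ser_prP, Polynomial.coe_pow, Polynomial.coe_X]
  have e2 : ∀ (z : ℂ) (P : PR[X]), (sc (prP (X ^ ϱ)) P).map (evz z) = sc (z ^ ϱ) (P.map (evz z)) :=
    fun z P => by rw [sc_map, evz_prP, eval_pow, eval_X]
  have key : ∀ ya yb : ℂ, LoopSd ya yb → ∃ b : ℂ → CI (Mat r),
      (fun z => b z - coef ![0] ![diagonal fun j => β j - M] ya yb) =O[𝓝[≠] 0]
        (fun z : ℂ => z ^ (K + 1)) ∧ ∀ᶠ z in 𝓝[≠] (0 : ℂ),
      gaugeW (fun i => evz z (τ i)) (evz z G) (fun i => (Q i).map (evz z)) (z ^ ϱ)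
          (g.map (Polynomial.map (evz z))) yb *
        T (fun i => evz z (τ i)) (fun i => ((evz z G)⁻¹ • (Q i).map (evz z) : Mat r))
          (z ^ ϱ * ya) (z ^ ϱ * yb) =
        Tr (b z) * gaugeW (fun i => evz z (τ i)) (evz z G) (fun i => (Q i).map (evz z)) (z ^ ϱ)
          (g.map (Polynomial.map (evz z))) ya ∧
      (gaugeW (fun i => evz z (τ i)) (evz z G) (fun i => (Q i).map (evz z)) (z ^ ϱ)
          (g.map (Polynomial.map (evz z))) ya).det ≠ 0 := fun ya yb h => by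
    obtain ⟨b, hb1, hb2⟩ := side_asy (H := sc (prP (X ^ ϱ)) (HF τ G Q))
      (N := fun k => sc (prP (X ^ ϱ)) (NF τ G Q k)) (γ := fun j => β j - M) (v := v) (j0 := j0)
      (K := K + 1) hc hV (by rw [e1]; exact hH) hg (by simp only [e1]; exact hE) h.ne
    refine ⟨b, hb1, ?_⟩
    filter_upwards [hb2, haw, self_mem_nhdsWithin] with z h1 h2 h3
    simp only [e2, HF_map, NF_map] at h1
    exact side_gauge h2.1 _ (pow_ne_zero ϱ h3) (fun i => h.not_mem (h2.2 i)) h.ne h1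
  obtain ⟨s0, s1, s2, s3⟩ := loop_sides
  obtain ⟨b0, p0, q0⟩ := key _ _ s0
  obtain ⟨b1, p1, q1⟩ := key _ _ s1
  obtain ⟨b2, p2, q2⟩ := key _ _ s2
  obtain ⟨b3, p3, q3⟩ := key _ _ s3
  have hu : Tendsto (fun z : ℂ => z ^ (K + 1)) (𝓝[≠] 0) (𝓝 0) :=
    ((continuous_pow (K + 1)).tendsto' 0 0 (zero_pow K.succ_ne_zero)).mono_left nhdsWithin_le_nhds
  have hy : (-1 - Complex.I : ℂ) ≠ 0 := fun h => by simpa using congrArg Complex.re h
  have h1 := loop_sq ![0] ![(diagonal fun j => β j - M : Mat r)] 1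
  rw [sqLoop_euler _ _ one_ne_zero] at h1
  simp only [one_mul, T] at h1
  have hP : (fun z => (Tr (b3 z) * Tr (b2 z) * Tr (b1 z) * Tr (b0 z)) ^ D - 1) =O[𝓝[≠] 0]
      fun z : ℂ => z ^ (K + 1) := by
    refine loop2_mat fun a b => ?_
    have hφ : Differentiable ℂ fun A : Mat r => (A ^ D) a b := fun A =>
      differentiableAt_mat.1 (differentiableAt_id.pow D) a b
    have h2 := loop_isBigO hφ hu p0 p1 p2 p3
    have h3 := (congrArg (fun A : Mat r => A ^ D) h1).symm.trans (loop2_euler β hβ M)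
    rw [h3] at h2
    exact h2
  have hall : ∀ᶠ z in 𝓝[≠] (0 : ℂ), evz z (loop2C τ G Q ϱ).det ≠ 0 ∧
      ((loop2C τ G Q ϱ).adjugate.map (evz z) : Mat r) *
        (((g.map (eval (prP (C (-1 - Complex.I))))).map (evz z) : Mat r) *
        (((Tr (b3 z) * Tr (b2 z) * Tr (b1 z) * Tr (b0 z)) ^ D - 1) *
        (((g.map (eval (prP (C (-1 - Complex.I))))).map (evz z) : Mat r)⁻¹ *
          ((loop2C τ G Q ϱ).map (evz z) : Mat r)))) = evz z (loop2C τ G Q ϱ).det •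
      ((sqLoop (fun i => evz z (τ i)) (fun i => ((evz z G)⁻¹ • (Q i).map (evz z) : Mat r)) 0
        (z ^ ϱ)) ^ D - 1) := by
    filter_upwards [q0, q1, q2, q3] with z q0 q1 q2 q3
    have h3 := loop2_conj q0.1 q1.1 q2.1 q3.1
    have h4 := q0.2
    rw [← loop_sq] at h3
    unfold gaugeW at h3 h4
    obtain ⟨h5, h6⟩ := loop2_alg h4 h3 D
    rw [← loop2C_ev] at h5 h6
    rw [RingHom.map_det, ← RingHom.mapMatrix_apply (evz z) (loop2C τ G Q ϱ).adjugate,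
      RingHom.map_adjugate, RingHom.mapMatrix_apply, loop2_ev g, eval_C]
    exact ⟨h5, h6.symm⟩
  refine ⟨hall.mono fun z h => h.1, ?_⟩
  have h7 := (loop2_one (loop2C τ G Q ϱ).adjugate).mul
    ((loop2_one (g.map (eval (prP (C (-1 - Complex.I)))))).mul (hP.mul
      ((loop2_minv _ (loop2_det hV hg hy)).mul (loop2_one (loop2C τ G Q ϱ)))))
  simp only [one_mul, mul_one] at h7
  exact h7.congr' (hall.mono fun z h => h.2) EventuallyEq.rfl

/-- Follow `loop_asy` (GR/Loop.lean). Let `L z` be the loop, `y0 = -1 - I`,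
`Cz z = (cycM X δ P)(z ^ ϱ * y0)` (with `δ = C G * dl τ`, `P = pm τ Q` evaluated at `z`; this is the
image under `evz z` of a matrix `Cm` over `PR` that does not depend on `K`) and
`f z = det (Cz z) • (L z ^ D - 1)`; `f` is differentiable near `0` (`loop_diff`, `evz_diff`).
For each `K` the four gauge identities give `W * L = P * W` with `P` the product of the four
`Tr (b z)` and `W = gz⁻¹ * (s • Cz)`, `gz = g(y0)`, `s ≠ 0`, `det W ≠ 0`. Hence
`Cz * (L ^ D - 1) = gz * (P ^ D - 1) * gz⁻¹ * Cz` and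
`f = adjugate Cz * gz * (P ^ D - 1) * gz⁻¹ * Cz`. Now `P ^ D - 1 = O (z ^ (K + 1))` entrywise
(`loop_isBigO` with `φ M = (M ^ D) a b`; the Euler loop is `exp (2 π i diag (β - M))`, whose `D`-th
power is `1`), `Cz`, `adjugate Cz`, `gz`, `adjugate gz` are `O (1)` (`isBigO_of_dvd` with `K = 0`)
and `det gz` tends to `(y0 ^ M) ^ r * det V ≠ 0`. So `f = 0` near `0` (`flat_zero`), and
`det (Cz z) ≠ 0` because `det W ≠ 0`. -/
theorem loop_pow [NeZero r] (τ : Fin n → PR) (G : PR) (Q : Fin n → Matrix (Fin r) (Fin r) PR)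
    (ϱ : ℕ) (β : Fin r → ℂ) {D : ℕ} (hβ : ∀ j, ∃ m : ℤ, (D : ℂ) * β j = m)
    (hnf : NFData (sc (PowerSeries.X ^ ϱ) ((HF τ G Q).map ser))
      (fun k => sc (PowerSeries.X ^ ϱ) ((NF τ G Q k).map ser)) β)
    (haw : ∀ᶠ z in 𝓝[≠] (0 : ℂ), evz z G ≠ 0 ∧
      ∀ i (y : ℂ), 1 ≤ ‖y‖ → ‖y‖ ≤ 2 → evz z (τ i) ≠ z ^ ϱ * y) :
    ∀ᶠ z in 𝓝[≠] (0 : ℂ),
      (sqLoop (fun i => evz z (τ i)) (fun i => ((evz z G)⁻¹ • (Q i).map (evz z) : Mat r)) 0
        (z ^ ϱ)) ^ D = 1 := by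
  have key : ∀ᶠ z in 𝓝[≠] (0 : ℂ), evz z (loop2C τ G Q ϱ).det •
      ((sqLoop (fun i => evz z (τ i)) (fun i => ((evz z G)⁻¹ • (Q i).map (evz z) : Mat r)) 0
        (z ^ ϱ)) ^ D - 1) = 0 := by
    refine flat_zero ?_ fun K => (loop2_asy τ G Q ϱ β hβ hnf haw K).2.trans
      ((isLittleO_pow_pow (𝕜 := ℂ) K.lt_succ_self).isBigO.mono nhdsWithin_le_nhds)
    filter_upwards [loop_diff τ G Q ϱ haw, evz_diff (loop2C τ G Q ϱ).det] with z h1 h2
    exact h2.smul ((h1.pow D).sub_const _)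
  filter_upwards [key, (loop2_asy τ G Q ϱ β hβ hnf haw 0).1] with z h1 h2
  exact sub_eq_zero.1 ((smul_eq_zero.1 h1).resolve_left h2)

theorem loop_both [NeZero r] (τ : Fin n → PR) (G : PR) (Q : Fin n → Matrix (Fin r) (Fin r) PR)
    (ϱ : ℕ) (β : Fin r → ℚ)
    (hnf : NFData (sc (PowerSeries.X ^ ϱ) ((HF τ G Q).map ser))
      (fun k => sc (PowerSeries.X ^ ϱ) ((NF τ G Q k).map ser)) fun j => (β j : ℂ))
    (haw : ∀ᶠ z in 𝓝[≠] (0 : ℂ), evz z G ≠ 0 ∧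
      ∀ i (y : ℂ), 1 ≤ ‖y‖ → ‖y‖ ≤ 2 → evz z (τ i) ≠ z ^ ϱ * y) :
    ∀ᶠ z in 𝓝[≠] (0 : ℂ),
      IsOfFinOrder (sqLoop (fun i => evz z (τ i))
        (fun i => ((evz z G)⁻¹ • (Q i).map (evz z) : Mat r)) 0 (z ^ ϱ)) ∧
      (sqLoop (fun i => evz z (τ i)) (fun i => ((evz z G)⁻¹ • (Q i).map (evz z) : Mat r)) 0
        (z ^ ϱ)).charpoly = ∏ j, (X - C (Complex.exp (2 * Real.pi * Complex.I * β j))) := by
  have hD : 0 < ∏ j, (β j).den := Finset.prod_pos fun j _ => (β j).den_pos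
  have hβ : ∀ j, ∃ m : ℤ, ((∏ j, (β j).den : ℕ) : ℂ) * (β j : ℂ) = m := by
    intro j
    obtain ⟨c, hc⟩ := Finset.dvd_prod_of_mem (fun j => (β j).den) (Finset.mem_univ j)
    refine ⟨c * (β j).num, ?_⟩
    have h : ((β j).den : ℂ) * (β j : ℂ) = (β j).num := by exact_mod_cast Rat.den_mul_eq_num (β j)
    rw [hc]
    push_cast
    rw [← h]
    ring
  filter_upwards [loop_pow τ G Q ϱ _ hβ hnf haw, loop_charpoly τ G Q ϱ _ hnf haw] with z h1 h2
  exact ⟨isOfFinOrder_iff_pow_eq_one.2 ⟨_, hD, h1⟩, h2⟩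

end Pool.Agent.GR
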