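import Pool.Agent.Lib.MP_aa40d3_nt.GR.ArcA
import Pool.Agent.Lib.MP_aa40d3_nt.GR2.ArcF2
import Pool.Agent.Lib.MP_aa40d3_nt.GR2.Loop2
import Pool.Agent.Lib.MP_aa40d3_nt.GR2.Arg2

/-! The neck loop along one branch. -/

open Polynomial Matrix Set Filter Topology
open scoped Matrix.Norms.Operator

namespace Pool.Agent.GR

variable {n r : ℕ} [NeZero r]

theorem arc_branch2 (M : Model2 n r) (I : Finset (Fin n)) (a : ℂ) {w : Fin n ⊕ Fin M.m → ℂ}
    (ha : ∀ j, j ∉ I → w (Sum.inl j) ≠ a) (hG : ev1 w M.G ≠ 0) {e : ℕ}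
    (he : 2 * (r * r * (n + 1)) + 4 ≤ e) {θ : ℂ → ℂ} (hθ : AnalyticAt ℂ θ 0)
    (hF : ∀ᶠ z in 𝓝[≠] (0 : ℂ), ev2 (wstar I a w + z ^ e • (w - wstar I a w)) (θ z) M.F = 0) :
    ∃ ϱ : ℕ, 0 < ϱ ∧ ϱ < e ∧ ∀ᶠ z in 𝓝[≠] (0 : ℂ), OrrM M.ε I
      (sqLoop (fun i => (wstar I a w + z ^ e • (w - wstar I a w)) (Sum.inl i))
        (M.mA (wstar I a w + z ^ e • (w - wstar I a w)) (θ z) : Fin n → Mat r) a
          (z ^ ϱ)) := by
  classical
  obtain ⟨Θ, hΘ⟩ := exists_pair hθ
  set W : Fin n ⊕ Fin M.m → PR := fun s => prP (wpol I a w e s) with hW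
  have hWz : ∀ z : ℂ, (fun s => evz z (W s)) = wstar I a w + z ^ e • (w - wstar I a w) :=
    fun z => eval_wpol I a w e z
  have hWs : (fun s => ser (W s)) = fun s => (wpol I a w e s : PowerSeries ℂ) := rfl
  have hF0 : ev2 (fun s => (wpol I a w e s : PowerSeries ℂ)) (ser Θ) M.F = 0 := by
    rw [← hWs, ← map_ev2]
    refine ser_eq_zero _ ?_
    filter_upwards [hF] with z hz
    rw [map_ev2, hWz, hΘ, hz]
  have hG0 : ser (ev1 W M.G) ≠ 0 := by
    rw [hW, ← map_ev1 prP, ser_prP]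
    intro h
    have h1 : ev1 (wpol I a w e) M.G = 0 := by exact_mod_cast h
    have h2 := map_ev1 (evalRingHom (1 : ℂ)) (wpol I a w e) M.G
    have h3 : (fun s => evalRingHom (1 : ℂ) (wpol I a w e s)) = w := by
      have := eval_wpol I a w e 1
      rw [one_pow, one_smul, add_sub_cancel] at this
      exact this
    rw [h1, map_zero, h3] at h2
    exact hG h2.symm
  have hG1 : ser (ev1 W M.G) = ev1 (fun s => (wpol I a w e s : PowerSeries ℂ)) M.G := by
    rw [map_ev1, hWs]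
  obtain ⟨ϱ, β, hϱ0, hϱe, hineq, hnf⟩ := arc_formal2 M I a ha he hF0 (hG1 ▸ hG0)
  refine ⟨ϱ, hϱ0, hϱe, ?_⟩
  have hτ : (fun i => ser (W (Sum.inl i) - prP (C a))) =
      fun i => (wpol I a w e (Sum.inl i) : PowerSeries ℂ) - PowerSeries.C a := by
    funext i
    rw [map_sub, ser_prP, ser_prP, Polynomial.coe_C]
  have hQ : (fun i => ((M.Q i).map (ev2 W Θ)).map ser) = fun i =>
      (M.Q i).map (ev2 (fun s => (wpol I a w e s : PowerSeries ℂ)) (ser Θ)) := by
    funext i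
    ext1 x y
    simp only [Matrix.map_apply]
    rw [map_ev2, hWs]
  have hτz : ∀ (z : ℂ) (i : Fin n), evz z (W (Sum.inl i) - prP (C a)) =
      (wstar I a w + z ^ e • (w - wstar I a w)) (Sum.inl i) - a := by
    intro z i
    rw [map_sub, ← hWz z, evz_prP z (C a), eval_C]
  have key := loop_both (fun i => W (Sum.inl i) - prP (C a)) (ev1 W M.G)
    (fun i => (M.Q i).map (ev2 W Θ)) ϱ β (by
      simp only [HF_map, NF_map]
      rw [hτ, hQ, hG1]
      exact hnf) (by
      have h1 : ∀ᶠ z in 𝓝[≠] (0 : ℂ), ∀ i, ‖z‖ ^ (e - ϱ) * ‖w (Sum.inl i) - a‖ < 1 :=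
        eventually_all.mpr fun i => arcA_small (Nat.sub_pos_of_lt hϱe) _ one_pos
      have h2 : ∀ᶠ z in 𝓝[≠] (0 : ℂ), ∀ i, i ∉ I → ‖z‖ ^ ϱ * 2 < ‖w (Sum.inl i) - a‖ := by
        refine eventually_all.mpr fun i => ?_
        by_cases hi : i ∈ I
        · exact Eventually.of_forall fun z h => absurd hi h
        · filter_upwards [arcA_small hϱ0 2 (norm_pos_iff.mpr (sub_ne_zero.mpr (ha i hi)))] with
            z hz _ using hz
      filter_upwards [evz_ne_zero _ hG0, h1, h2, self_mem_nhdsWithin] with z hz0 hz1 hz2 hz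
      refine ⟨hz0, fun i y hy1 hy2 h => ?_⟩
      have hpos : 0 < ‖z‖ ^ ϱ := pow_pos (norm_pos_iff.mpr hz) _
      rw [hτz] at h
      by_cases hi : i ∈ I
      · simp only [Pi.add_apply, Pi.smul_apply, Pi.sub_apply, smul_eq_mul, wstar, hi, if_true,
          add_sub_cancel_left] at h
        have h3 := congrArg norm h
        rw [norm_mul, norm_mul, norm_pow, norm_pow, ← Nat.add_sub_cancel' hϱe.le, pow_add,
          mul_assoc] at h3
        have h4 := mul_left_cancel₀ hpos.ne' h3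
        have := hz1 i
        linarith
      · simp only [Pi.add_apply, Pi.smul_apply, Pi.sub_apply, smul_eq_mul, wstar, hi, if_false,
          sub_self, mul_zero, add_zero] at h
        have h3 := hz2 i hi
        rw [h, norm_mul, norm_pow] at h3
        have := mul_le_mul_of_nonneg_left hy2 hpos.le
        linarith)
  filter_upwards [key] with z hz
  have hA : (fun i => ((evz z (ev1 W M.G))⁻¹ • ((M.Q i).map (ev2 W Θ)).map (evz z) : Mat r)) =
      M.mA (wstar I a w + z ^ e • (w - wstar I a w)) (θ z) := by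
    funext i
    rw [Model2.mA, map_ev1, hWz]
    congr 1
    ext1 x y
    simp only [Matrix.map_apply]
    rw [map_ev2, hWz, hΘ]
  simp only [hτz] at hz
  rw [hA] at hz
  rw [arcA_translate]
  refine ⟨hz.1, ?_⟩
  rw [hz.2]
  exact orr2_of_ineqQ2 hineq

end Pool.Agent.GR
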