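import Pool.Agent.Lib.MP_aa40d3_nt.GR.LineCont

/-! Continuation along a line. -/

open Polynomial Set

namespace Pool.Agent.GR

/-- A set that contains the values of a holomorphic map on a disc as soon as it contains them on
an interval. -/
def Rigid {E : Type*} [NormedAddCommGroup E] [NormedSpace ℂ E] (S : Set E) : Prop :=
  ∀ (g : ℂ → E) (u₀ : ℂ) (ε : ℝ), DifferentiableOn ℂ g (Metric.ball u₀ ε) → ∀ u₁ d : ℂ, d ≠ 0 →
    (∀ s ∈ Ioo (0 : ℝ) 1, u₁ + s * d ∈ Metric.ball u₀ ε ∧ g (u₁ + s * d) ∈ S) →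
      ∀ u ∈ Metric.ball u₀ ε, g u ∈ S

theorem lineCont_local2 (F : ℂ[X][X]) (hF : F.Monic) {D : Set ℂ} (hD : IsOpen D)
    (hsep : ∀ u ∈ D, ∀ θ, (fib F u).eval θ = 0 → (derivative (fib F u)).eval θ ≠ 0)
    {E : Type*} [NormedAddCommGroup E] [NormedSpace ℂ E] (f : ℂ × ℂ → E)
    (hf : ∀ u ∈ D, ∀ θ, (fib F u).eval θ = 0 → DifferentiableAt ℂ f (u, θ))
    {S : Set E} (hS : Rigid S) {u₀ : ℂ} (h₀ : u₀ ∈ D) :
    ∃ ε : ℝ, 0 < ε ∧ Metric.ball u₀ ε ⊆ D ∧ ∀ u₁ d : ℂ, d ≠ 0 →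
      (∀ s ∈ Ioo (0 : ℝ) 1, u₁ + s * d ∈ Metric.ball u₀ ε ∧
        ∀ θ, (fib F (u₁ + s * d)).eval θ = 0 → f (u₁ + s * d, θ) ∈ S) →
      ∀ u ∈ Metric.ball u₀ ε, ∀ θ, (fib F u).eval θ = 0 → f (u, θ) ∈ S := by
  obtain ⟨ε₁, h₁, θ, hθ, -, hfac⟩ := exists_branches F hF (hsep u₀ h₀)
  obtain ⟨ε₂, h₂, hb⟩ := Metric.isOpen_iff.1 hD u₀ h₀
  have s₁ : Metric.ball u₀ (min ε₁ ε₂) ⊆ Metric.ball u₀ ε₁ :=
    Metric.ball_subset_ball (min_le_left _ _)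
  have s₂ : Metric.ball u₀ (min ε₁ ε₂) ⊆ D :=
    (Metric.ball_subset_ball (min_le_right _ _)).trans hb
  have hroot : ∀ u ∈ Metric.ball u₀ (min ε₁ ε₂), ∀ t, (fib F u).eval t = 0 ↔ ∃ j, t = θ j u := by
    intro u hu t
    rw [hfac u (s₁ hu), eval_prod, Finset.prod_eq_zero_iff]
    simp only [Finset.mem_univ, true_and, eval_sub, eval_X, eval_C, sub_eq_zero]
  refine ⟨min ε₁ ε₂, lt_min h₁ h₂, s₂, fun u₁ d hd h u hu t ht => ?_⟩
  obtain ⟨j, rfl⟩ := (hroot u hu t).1 ht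
  refine hS (fun u => f (u, θ j u)) _ _ ?_ _ _ hd
    (fun s hs => ⟨(h s hs).1, (h s hs).2 _ ((hroot _ (h s hs).1 _).2 ⟨j, rfl⟩)⟩) u hu
  intro v hv
  have h3 : DifferentiableAt ℂ (θ j) v :=
    (hθ j).differentiableAt (Metric.isOpen_ball.mem_nhds (s₁ hv))
  exact ((hf v (s₂ hv) _ ((hroot v hv _).2 ⟨j, rfl⟩)).comp v
    (differentiableAt_id.prodMk h3)).differentiableWithinAt

theorem line_cont2 (F : ℂ[X][X]) (hF : F.Monic) (G : ℂ[X])
    (hsep : ∀ u θ, G.eval u ≠ 0 → (fib F u).eval θ = 0 → (derivative (fib F u)).eval θ ≠ 0)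
    {D : Set ℂ} (hD : IsOpen D) (hDc : Convex ℝ D) {E : Type*} [NormedAddCommGroup E]
    [NormedSpace ℂ E] (f : ℂ × ℂ → E)
    (hf : ∀ u ∈ D, G.eval u ≠ 0 → ∀ θ, (fib F u).eval θ = 0 → DifferentiableAt ℂ f (u, θ))
    {S : Set E} (hS : Rigid S) {a b : ℝ} (hab : a < b)
    (h : ∀ s ∈ Ioo a b, (s : ℂ) ∈ D ∧ (G.eval (s : ℂ) ≠ 0 → ∀ θ, (fib F s).eval θ = 0 →
      f (s, θ) ∈ S)) :
    ∀ u ∈ D, G.eval u ≠ 0 → ∀ θ, (fib F u).eval θ = 0 → f (u, θ) ∈ S := by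
  by_cases hG : G = 0
  · intro u _ hu
    exact absurd (by rw [hG, eval_zero]) hu
  have hfin : {u : ℂ | G.IsRoot u}.Finite := G.finite_setOfPred_isRoot hG
  set D' : Set ℂ := D \ {u | G.IsRoot u} with hD'
  have hO : IsOpen D' := hD.sdiff hfin.isClosed
  have hC : IsPreconnected D' := isPreconnected_diff_finite hD hDc hfin
  have hloc := fun u₀ (h₀ : u₀ ∈ D') => lineCont_local2 F hF hO
    (fun u hu θ => hsep u θ hu.2) f (fun u hu => hf u hu.1 hu.2) hS h₀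
  set P : Set ℂ := {u | ∀ θ, (fib F u).eval θ = 0 → f (u, θ) ∈ S} with hP
  have hsub : D' ⊆ interior P := by
    refine hC.subset_of_closure_inter_subset isOpen_interior ?_ ?_
    · have hfin' : {s : ℝ | G.IsRoot (s : ℂ)}.Finite :=
        hfin.preimage Complex.ofReal_injective.injOn
      obtain ⟨s₀, hs₀, hs₀'⟩ := (Ioo_infinite hab).exists_notMem_finite hfin'
      have h₀ : (s₀ : ℂ) ∈ D' := ⟨(h s₀ hs₀).1, hs₀'⟩
      obtain ⟨ε, hε, hb, hk⟩ := hloc _ h₀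
      refine ⟨s₀, h₀, mem_interior.2 ⟨_, ?_, Metric.isOpen_ball, Metric.mem_ball_self hε⟩⟩
      have hδ : 0 < min ε (b - s₀) := lt_min hε (sub_pos.2 hs₀.2)
      refine hk s₀ (min ε (b - s₀) : ℝ) (Complex.ofReal_ne_zero.2 hδ.ne') fun s hs => ?_
      have h1 : s * min ε (b - s₀) < min ε (b - s₀) := by nlinarith [hs.2]
      have h2 : 0 < s * min ε (b - s₀) := mul_pos hs.1 hδ
      have h3 : (s₀ : ℂ) + s * (min ε (b - s₀) : ℝ) ∈ Metric.ball (s₀ : ℂ) ε := by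
        rw [mem_ball_iff_norm, add_sub_cancel_left, ← Complex.ofReal_mul, Complex.norm_real,
          Real.norm_eq_abs, abs_of_pos h2]
        exact h1.trans_le (min_le_left _ _)
      refine ⟨h3, ?_⟩
      have h4 := (hb h3).2
      rw [← Complex.ofReal_mul, ← Complex.ofReal_add] at h4 ⊢
      refine (h _ ⟨by linarith [hs₀.1], ?_⟩).2 h4
      linarith [min_le_right ε (b - s₀)]
    · rintro u₀ ⟨hu, h₀⟩
      obtain ⟨ε, hε, -, hk⟩ := hloc _ h₀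
      obtain ⟨v, hv, hv'⟩ := mem_closure_iff.1 hu _ Metric.isOpen_ball (Metric.mem_ball_self hε)
      obtain ⟨δ, hδ, hb⟩ := Metric.isOpen_iff.1 (Metric.isOpen_ball.inter isOpen_interior) v
        ⟨hv, hv'⟩
      refine mem_interior.2 ⟨_, ?_, Metric.isOpen_ball, Metric.mem_ball_self hε⟩
      refine hk v (δ : ℝ) (Complex.ofReal_ne_zero.2 hδ.ne') fun s hs => ?_
      have h3 : v + s * (δ : ℝ) ∈ Metric.ball v δ := by
        rw [mem_ball_iff_norm, add_sub_cancel_left, ← Complex.ofReal_mul, Complex.norm_real,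
          Real.norm_eq_abs, abs_of_pos (mul_pos hs.1 hδ)]
        nlinarith [hs.2]
      exact ⟨(hb h3).1, interior_subset (hb h3).2⟩
  exact fun u hu hu' => interior_subset (hsub ⟨hu, hu'⟩)

end Pool.Agent.GR
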