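import Pool.Agent.Lib.MP_aa40d3_nt.GR.Cont
import Pool.Agent.Lib.MP_aa40d3_nt.GR2.LineCont2
import Pool.Agent.Lib.MP_aa40d3_nt.GR2.Arg2

/-! Matrices of finite order. -/

open Polynomial Matrix Set
open scoped Matrix.Norms.Operator

namespace Pool.Agent.GR

variable {n r : ℕ}

/-- The minimal polynomial divides the separable polynomial `X ^ k - 1`, so it is squarefree, and it
divides the characteristic polynomial; hence it divides every `f` that vanishes at the roots of the
characteristic polynomial (the characteristic polynomial divides `f ^ r`,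
`Squarefree.isRadical`). -/
theorem aeval_eq_zero_of_fin {x : Matrix (Fin r) (Fin r) ℂ} (hx : IsOfFinOrder x) {ω : Fin r → ℂ}
    (hc : x.charpoly = ∏ j, (X - C (ω j))) {f : ℂ[X]} (hf : ∀ j, f.eval (ω j) = 0) :
    aeval x f = 0 := by
  obtain ⟨k, hk, hxk⟩ := isOfFinOrder_iff_pow_eq_one.1 hx
  have h1 : minpoly ℂ x ∣ X ^ k - 1 := minpoly.dvd ℂ x (by simp [hxk])
  have h2 : Squarefree (minpoly ℂ x) :=
    (X_pow_sub_one_separable_iff.2 (Nat.cast_ne_zero.2 hk.ne')).squarefree.squarefree_of_dvd h1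
  have h3 : x.charpoly ∣ f ^ r := by
    have := Finset.prod_dvd_prod_of_dvd (s := Finset.univ) (fun j => X - C (ω j)) (fun _ => f)
      fun j _ => dvd_iff_isRoot.2 (hf j)
    rwa [Finset.prod_const, Finset.card_univ, Fintype.card_fin, ← hc] at this
  exact minpoly.dvd_iff.1 (h2.isRadical r f ((minpoly_dvd_charpoly x).trans h3))

/-- If `ζ = 1` then `x = 1`. Otherwise `(x - 1) * (x - ζ) = 0`, so `P = (1 - ζ)⁻¹ • (1 - x)` is
idempotent, with trace `1` (`Matrix.trace_eq_neg_charpoly_coeff` or `trace_eq_sum_roots_charpoly`),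
so it has rank one (`LinearMap.IsProj.trace`, `IsIdempotentElem`); use `rk1_of_rank` and
`Rk1.exists_vec`. To apply the previous lemma list the roots with `Fin.cons` after writing
`r = r' + 1`. -/
theorem refl_of_fin [NeZero r] {x : Matrix (Fin r) (Fin r) ℂ} (hx : IsOfFinOrder x) {ζ : ℂ}
    (hc : x.charpoly = (X - C ζ) * (X - 1) ^ (r - 1)) :
    ∃ e f : Fin r → ℂ, x = 1 - vecMulVec e f := by
  obtain ⟨r', rfl⟩ : ∃ r', r = r' + 1 := ⟨r - 1, by have := NeZero.pos r; omega⟩
  have hc' : x.charpoly = ∏ j, (X - C ((Fin.cons ζ fun _ => 1 : Fin (r' + 1) → ℂ) j)) := by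
    rw [hc, Fin.prod_univ_succ]
    simp
  by_cases hζ : ζ = 1
  · have h1 := aeval_eq_zero_of_fin hx hc' (f := X - 1) fun j => by
      refine Fin.cases ?_ (fun i => ?_) j <;> simp [hζ]
    refine ⟨0, 0, ?_⟩
    rw [map_sub, aeval_X, map_one, sub_eq_zero] at h1
    simp [h1]
  have hz : 1 - ζ ≠ 0 := sub_ne_zero.2 (Ne.symm hζ)
  have h1 := aeval_eq_zero_of_fin hx hc' (f := (X - 1) * (X - C ζ)) fun j => by
    refine Fin.cases ?_ (fun i => ?_) j <;> simp
  rw [map_mul, map_sub, map_sub, aeval_X, map_one, aeval_C, Algebra.algebraMap_eq_smul_one] at h1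
  have h2 : (1 - x) * (1 - x) = (1 - ζ) • (1 - x) := by
    rw [← sub_eq_zero, ← h1]
    simp only [mul_sub, sub_mul, mul_one, one_mul, sub_smul, smul_sub, one_smul, Matrix.mul_smul]
    abel
  obtain ⟨P, hP⟩ : ∃ P : Matrix (Fin (r' + 1)) (Fin (r' + 1)) ℂ, P = (1 - ζ)⁻¹ • (1 - x) :=
    ⟨_, rfl⟩
  have h3 : P * P = P := by
    rw [hP, Matrix.smul_mul, Matrix.mul_smul, h2, smul_smul (1 - ζ)⁻¹ (1 - ζ),
      inv_mul_cancel₀ hz, one_smul]
  have h4 : x.trace = ζ + r' := by
    rw [trace_eq_neg_charpoly_nextCoeff, hc', prod_X_sub_C_nextCoeff, neg_neg, Fin.sum_univ_succ]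
    simp
  have h5 : P.trace = 1 := by
    rw [hP, trace_smul, trace_sub, trace_one, h4, Fintype.card_fin, smul_eq_mul]
    push_cast
    field_simp
    ring
  have h6 : IsIdempotentElem (Matrix.toLin' P) := by
    rw [IsIdempotentElem, Module.End.mul_eq_comp, ← Matrix.toLin'_mul, h3]
  have h7 : P.rank = 1 := by
    have := (LinearMap.IsIdempotentElem.isProj_range _ h6).trace
    rw [trace_toLin'_eq, h5] at this
    exact_mod_cast this.symm
  obtain ⟨e, f, hef⟩ := (rk1_of_rank h7.le).exists_vec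
  refine ⟨(1 - ζ) • e, f, ?_⟩
  rw [smul_vecMulVec, ← hef, hP, smul_smul, mul_inv_cancel₀ hz, one_smul, sub_sub_cancel]

/-- Let `q` be the characteristic polynomial at `s = 1 / 2`. The coefficient vector of the
characteristic polynomial takes values in a countable set on the interval, so it is constant there
(as in `mem_of_countable`: `Set.Countable.isTotallyDisconnected`), so by `mem_of_countable` with a
one point set it is constant on the disc (`cont_ext`, `differentiable_charpoly_coeff`,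
`countable_orr2`). Let `m > 0` with `ω j ^ m = 1` for all roots of `q`; on the interval `g ^ m = 1`
by `aeval_eq_zero_of_fin` with `f = X ^ m - 1`, hence on the disc (`mem_of_countable`). -/
theorem rigid_orrM (ε : Fin n → Fin r → ℂ) (I : Finset (Fin n)) :
    Rigid {x : Mat r | OrrM ε I x} := by
  intro g u₀ ρ hg u₁ d hd h
  have hdeg : ∀ A : Mat r, A.charpoly.natDegree ≤ r := fun A => by
    rw [Matrix.charpoly_natDegree_eq_dim, Fintype.card_fin]
  obtain ⟨c, hc⟩ : ∃ c : ℂ → Fin (r + 1) → ℂ, c = fun u (k : Fin (r + 1)) => (g u).charpoly.coeff k := ⟨_, rfl⟩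
  have hcd : DifferentiableOn ℂ c (Metric.ball u₀ ρ) := by
    rw [hc]
    exact differentiableOn_pi.2 fun k =>
      (differentiable_charpoly_coeff (r := r) k).comp_differentiableOn hg
  have hhalf : (1 / 2 : ℝ) ∈ Ioo (0 : ℝ) 1 := ⟨by norm_num, by norm_num⟩
  obtain ⟨v, hv⟩ : ∃ v : ℂ, v = u₁ + (1 / 2 : ℝ) * d := ⟨_, rfl⟩
  have h1 : ∀ s ∈ Ioo (0 : ℝ) 1, c (u₁ + s * d) = c v := by
    have hcont : ContinuousOn (fun s : ℝ => c (u₁ + s * d)) (Ioo (0 : ℝ) 1) :=
      hcd.continuousOn.comp (f := fun s : ℝ => u₁ + s * d) (by fun_prop) fun s hs => (h s hs).1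
    have hss : ((fun s : ℝ => c (u₁ + s * d)) '' Ioo (0 : ℝ) 1).Subsingleton := by
      refine ((countable_orr2 ε I).image
        fun q : ℂ[X] => fun k : Fin (r + 1) => q.coeff k).isTotallyDisconnected _ ?_
        (isPreconnected_Ioo.image _ hcont)
      rintro _ ⟨s, hs, rfl⟩
      exact ⟨_, (h s hs).2.2, by rw [hc]⟩
    intro s hs
    exact hss ⟨s, hs, rfl⟩ ⟨_, hhalf, by rw [hv]⟩
  have h2 : ∀ u ∈ Metric.ball u₀ ρ, (g u).charpoly = (g v).charpoly := by
    intro u hu
    have := mem_of_countable hcd (countable_singleton (c v)) hd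
      (fun s hs => ⟨(h s hs).1, h1 s hs⟩) u hu
    rw [hc] at this
    refine Polynomial.ext fun k => ?_
    by_cases hk : k < r + 1
    · exact congrFun this ⟨k, hk⟩
    · rw [coeff_eq_zero_of_natDegree_lt ((hdeg _).trans_lt (by omega)),
        coeff_eq_zero_of_natDegree_lt ((hdeg _).trans_lt (by omega))]
  have h3 : Orr2 r ε I (g v).charpoly := hv ▸ (h _ hhalf).2.2
  obtain ⟨ω, hω, hq, -⟩ := id h3
  obtain ⟨m, hm, hm'⟩ := isOfFinOrder_iff_pow_eq_one.1 (IsOfFinOrder.pi hω)
  have h4 := mem_of_countable (g := fun u => g u ^ m) (hg.pow m) (countable_singleton 1) hd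
    fun s hs => ⟨(h s hs).1, by
      have := aeval_eq_zero_of_fin (h s hs).2.1 ((h2 _ (h s hs).1).trans hq) (f := X ^ m - 1)
        fun j => by
          have e : ω j ^ m = 1 := congrFun hm' j
          rw [eval_sub, eval_pow, eval_X, eval_one, e, sub_self]
      rwa [map_sub, map_pow, aeval_X, map_one, sub_eq_zero] at this⟩
  intro u hu
  exact ⟨isOfFinOrder_iff_pow_eq_one.2 ⟨m, hm, h4 u hu⟩, h2 u hu ▸ h3⟩

end Pool.Agent.GR
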