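import Pool.Agent.Lib.MP_aa40d3_nt.GR.Cont
import Pool.Agent.Lib.MP_aa40d3_nt.GR2.Rig

/-! Continuation of the information on loops. -/

open Polynomial Matrix Set
open scoped Matrix.Norms.Operator

namespace Pool.Agent.GR

variable {n r : ℕ} [NeZero r]

theorem differentiableAt_mA2 (M : Model2 n r) {y : (Fin n ⊕ Fin M.m → ℂ) × ℂ}
    (hG : ev1 y.1 M.G ≠ 0) (i : Fin n) :
    DifferentiableAt ℂ (fun y : (Fin n ⊕ Fin M.m → ℂ) × ℂ => (M.mA y.1 y.2 i : Mat r)) y := by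
  rw [differentiableAt_mat]
  intro a b
  have : (fun y : (Fin n ⊕ Fin M.m → ℂ) × ℂ => (M.mA y.1 y.2 i : Mat r) a b) =
      fun y => (ev1 y.1 M.G)⁻¹ * ev2 y.1 y.2 (M.Q i a b) := by
    funext y; simp [Model2.mA]
  rw [this]
  refine DifferentiableAt.mul (DifferentiableAt.inv ?_ hG) (differentiable_ev2 _ y)
  exact ((cont_differentiable_ev1 M.G).comp differentiable_fst) y

theorem orrM_cont (M : Model2 n r) {Ω : Set (Fin n ⊕ Fin M.m → ℂ)} (hΩ : IsOpen Ω)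
    (hc : Convex ℝ Ω) (g : (Fin n ⊕ Fin M.m → ℂ) × ℂ → (Mat r)ˣ)
    (hg : ∀ w ∈ Ω, ev1 w M.G ≠ 0 → ∀ θ, DiffU g (w, θ)) (ζ : Fin n → Fin r → ℂ) (I : Finset (Fin n))
    {w0 w1 : Fin n ⊕ Fin M.m → ℂ} (h1 : w1 ∈ Ω) (hG : ev1 w1 M.G ≠ 0) {b : ℝ} (hb : 0 < b)
    (h : ∀ s ∈ Ioo (0 : ℝ) b, w0 + (s : ℂ) • (w1 - w0) ∈ Ω ∧
      (ev1 (w0 + (s : ℂ) • (w1 - w0)) M.G ≠ 0 → ∀ θ, ev2 (w0 + (s : ℂ) • (w1 - w0)) θ M.F = 0 →
        OrrM ζ I (g (w0 + (s : ℂ) • (w1 - w0), θ)).val))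
    {θ : ℂ} (hF : ev2 w1 θ M.F = 0) : OrrM ζ I (g (w1, θ)).val := by
  set L : ℂ → (Fin n ⊕ Fin M.m → ℂ) := fun u => w0 + u • (w1 - w0) with hL
  have hLd : Differentiable ℂ L := (differentiable_id.smul_const _).const_add _
  have hfib : ∀ u θ : ℂ, (fib (M.F.map (lineHom w0 w1)) u).eval θ = ev2 (L u) θ M.F := by
    intro u θ
    rw [fib_lineHom, ev2_eq_eval]
  have hGe : ∀ u : ℂ, (lineHom w0 w1 M.G).eval u = ev1 (L u) M.G := fun u => eval_lineHom _ _ _ _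
  have hL1 : L 1 = w1 := by simp [hL]
  have key := line_cont2 (M.F.map (lineHom w0 w1)) (M.monic.map _) (lineHom w0 w1 M.G)
    (fun u θ hu hθ => by
      rw [hGe] at hu
      rw [hfib] at hθ
      have := M.sep ℂ (L u) θ hθ hu
      rw [fib_lineHom, Polynomial.derivative_map, ← ev2_eq_eval]
      exact this)
    (D := L ⁻¹' Ω) (hΩ.preimage hLd.continuous)
    (by
      intro u hu v hv s t hs ht hst
      have := hc hu hv hs ht hst
      show L (s • u + t • v) ∈ Ω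
      have e : L (s • u + t • v) = s • L u + t • L v := by
        have hst' : (s : ℂ) + t = 1 := by exact_mod_cast hst
        funext i
        simp only [hL, Pi.add_apply, Pi.smul_apply, Pi.sub_apply, Complex.real_smul, smul_eq_mul]
        linear_combination (-w0 i) * hst'
      rw [e]; exact this)
    (E := Mat r) (fun y => (g (L y.1, y.2)).val)
    (fun u hu hGu θ _ => by
      rw [hGe] at hGu
      have h2 := hg (L u) hu hGu θ
      have h3 : DifferentiableAt ℂ (fun y : ℂ × ℂ => (L y.1, y.2)) (u, θ) :=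
        ((hLd.comp differentiable_fst).prodMk differentiable_snd) _
      exact DifferentiableAt.comp (u, θ) (g := fun y => ((g y).val : Mat r)) h2 h3)
    (S := {x | OrrM ζ I x}) (rigid_orrM ζ I) hb
    (fun s hs => by
      refine ⟨(h s hs).1, fun hGs θ hθ => ?_⟩
      rw [hGe] at hGs
      rw [hfib] at hθ
      exact (h s hs).2 hGs θ hθ)
    1 (by show L 1 ∈ Ω; rw [hL1]; exact h1) (by rw [hGe, hL1]; exact hG) θ
    (by rw [hfib, hL1]; exact hF)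
  simp only [hL1] at key
  exact key

theorem orrM_cont_open (M : Model2 n r) {Ω U : Set (Fin n ⊕ Fin M.m → ℂ)} (hΩ : IsOpen Ω)
    (hc : Convex ℝ Ω) (hU : IsOpen U) (hUΩ : U ⊆ Ω) (hne : U.Nonempty)
    (g : (Fin n ⊕ Fin M.m → ℂ) × ℂ → (Mat r)ˣ)
    (hg : ∀ w ∈ Ω, ev1 w M.G ≠ 0 → ∀ θ, DiffU g (w, θ)) (ζ : Fin n → Fin r → ℂ) (I : Finset (Fin n))
    (h : ∀ w ∈ U, ev1 w M.G ≠ 0 → ∀ θ, ev2 w θ M.F = 0 → OrrM ζ I (g (w, θ)).val)
    {w : Fin n ⊕ Fin M.m → ℂ} (h1 : w ∈ Ω) (hG : ev1 w M.G ≠ 0) {θ : ℂ} (hF : ev2 w θ M.F = 0) :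
    OrrM ζ I (g (w, θ)).val := by
  obtain ⟨w0, hw0⟩ := hne
  have hcont : Continuous fun s : ℝ => w0 + (s : ℂ) • (w - w0) :=
    continuous_const.add (Complex.continuous_ofReal.smul continuous_const)
  have hop : IsOpen ((fun s : ℝ => w0 + (s : ℂ) • (w - w0)) ⁻¹' U) := hU.preimage hcont
  have h0 : (0 : ℝ) ∈ (fun s : ℝ => w0 + (s : ℂ) • (w - w0)) ⁻¹' U := by simpa using hw0
  obtain ⟨ε, hε, hball⟩ := Metric.isOpen_iff.1 hop 0 h0
  refine orrM_cont M hΩ hc g hg ζ I (w0 := w0) h1 hG hε (fun s hs => ?_) hF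
  have hs' : w0 + (s : ℂ) • (w - w0) ∈ U := hball (by
    rw [Metric.mem_ball, Real.dist_eq, sub_zero, abs_of_pos hs.1]; exact hs.2)
  exact ⟨hUΩ hs', fun hG' θ' hF' => h _ hs' hG' θ' hF'⟩

end Pool.Agent.GR
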