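import Pool.Agent.Lib.MP_aa40d3_nt.GR.Arc
import Pool.Agent.Lib.MP_aa40d3_nt.GR2.ArcA2
import Pool.Agent.Lib.MP_aa40d3_nt.GR2.Cont2

/-! The loop around an initial cluster. -/

open Polynomial Matrix Set Filter Topology
open scoped Matrix.Norms.Operator

namespace Pool.Agent.GR

variable {n r : ℕ} [NeZero r]

/-- The monodromy tuple joined from below. -/
noncomputable def mon2 (M : Model2 n r) (H : ℝ) (y : (Fin n ⊕ Fin M.m → ℂ) × ℂ) : Fin n → (Mat r)ˣ :=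
  vt (TT (fun i => y.1 (Sum.inl i)) (M.mA y.1 y.2)) (pp fun i => y.1 (Sum.inl i)) H

/-- The monodromy tuple joined from the left. -/
noncomputable def mos2 (M : Model2 n r) (H : ℝ) (y : (Fin n ⊕ Fin M.m → ℂ) × ℂ) : Fin n → (Mat r)ˣ :=
  vs (TT (fun i => y.1 (Sum.inl i)) (M.mA y.1 y.2)) (pp fun i => y.1 (Sum.inl i)) H

theorem diffU_mon2 (M : Model2 n r) {ρ : Fin n → ℝ} (hρ : Function.Injective ρ) {H : ℝ}
    {w : Fin n ⊕ Fin M.m → ℂ} (hw : w ∈ Cham M.m ρ H) (hG : ev1 w M.G ≠ 0) (θ : ℂ) (i : Fin n) :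
    DiffU (fun y => mon2 M H y i) (w, θ) := by
  exact diffU_vt (t := fun (y : (Fin n ⊕ Fin M.m → ℂ) × ℂ) i => y.1 (Sum.inl i))
    (A := fun y => M.mA y.1 y.2) (x := (w, θ)) (fun i => by fun_prop)
    (fun i => differentiableAt_mA2 M (y := (w, θ)) hG i) hw.1 (Cham.re_injective hρ hw) i

theorem diffU_mos2 (M : Model2 n r) {ρ : Fin n → ℝ} (hρ : Function.Injective ρ) {H : ℝ}
    {w : Fin n ⊕ Fin M.m → ℂ} (hw : w ∈ ChamI M.m ρ H) (hG : ev1 w M.G ≠ 0) (θ : ℂ) (i : Fin n) :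
    DiffU (fun y => mos2 M H y i) (w, θ) := by
  exact diffU_vs (t := fun (y : (Fin n ⊕ Fin M.m → ℂ) × ℂ) i => y.1 (Sum.inl i))
    (A := fun y => M.mA y.1 y.2) (x := (w, θ)) (fun i => by fun_prop)
    (fun i => differentiableAt_mA2 M (y := (w, θ)) hG i) hw.1 (ChamI.im_injective hρ hw) i

theorem arc2 (M : Model2 n r) {ρ : Fin n → ℝ} (hρ : Function.Injective ρ) {H : ℝ}
    {l : List (Fin n)} (hl : LowerL ρ l) {w : Fin n ⊕ Fin M.m → ℂ} (hw : w ∈ Cham M.m ρ H)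
    (hG : ev1 w M.G ≠ 0) {θ : ℂ} (hF : ev2 w θ M.F = 0) :
    OrrM M.ε l.toFinset (l.map (mon2 M H (w, θ))).prod.val := by
  classical
  rcases List.eq_nil_or_concat l with rfl | ⟨l', i₀, hl'⟩
  · simpa using orrM_one M.ε
  have hi : i₀ ∈ l := by simp [hl']
  clear hl' l'
  obtain ⟨a, ha⟩ : ∃ a, a = w (Sum.inl i₀) := ⟨_, rfl⟩
  obtain ⟨w0, hw0⟩ : ∃ w0, w0 = wstar l.toFinset a w := ⟨_, rfl⟩
  have hFm : (M.F.map (lineHom w0 w)).Monic := M.monic.map _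
  have hG' : lineHom w0 w M.G ≠ 0 := by
    intro h
    have h1 := eval_lineHom w0 w 1 M.G
    rw [h, eval_zero, one_smul, add_sub_cancel] at h1
    exact hG h1.symm
  have hsep : ∀ u θ, (lineHom w0 w M.G).eval u ≠ 0 →
      (fib (M.F.map (lineHom w0 w)) u).eval θ = 0 →
      (derivative (fib (M.F.map (lineHom w0 w)) u)).eval θ ≠ 0 := by
    intro u θ h1 h2
    rw [eval_lineHom] at h1
    rw [fib_lineHom, ← ev2_eq_eval] at h2
    rw [fib_lineHom, derivative_map, ← ev2_eq_eval]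
    exact M.sep ℂ _ _ h2 h1
  obtain ⟨e, he⟩ : ∃ e, e = (M.F.map (lineHom w0 w)).natDegree.factorial *
    (2 * (r * r * (n + 1)) + 4) := ⟨_, rfl⟩
  have he1 : 2 * (r * r * (n + 1)) + 4 ≤ e := by
    rw [he]
    exact Nat.le_mul_of_pos_left _ (Nat.factorial_pos _)
  have he0 : 0 < e := by omega
  obtain ⟨ε, hε, θs, hθa, hθs⟩ := exists_puiseux _ hFm _ hG' hsep he0 (he ▸ dvd_mul_right _ _)
  have hout : ∀ j, j ∉ l → a.re < (w (Sum.inl j)).re := fun j hj =>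
    ha ▸ hw.2 i₀ j (arc_lt hρ hl hi hj)
  have hne : ∀ j, j ∉ l.toFinset → w (Sum.inl j) ≠ a := by
    intro j hj h
    have h1 := hout j (by simpa using hj)
    rw [h] at h1
    exact lt_irrefl _ h1
  have hbr : ∀ j, ∃ ϱ : ℕ, 0 < ϱ ∧ ϱ < e ∧ ∀ᶠ z in 𝓝[≠] (0 : ℂ), OrrM M.ε l.toFinset
      (sqLoop (fun i => (w0 + z ^ e • (w - w0)) (Sum.inl i))
        (M.mA (w0 + z ^ e • (w - w0)) (θs j z) : Fin n → Mat r) a (z ^ ϱ)) := by
    intro j
    rw [hw0]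
    refine arc_branch2 M l.toFinset a hne hG he1 (hθa j) ?_
    filter_upwards [self_mem_nhdsWithin,
      mem_nhdsWithin_of_mem_nhds (Metric.ball_mem_nhds (0 : ℂ) hε)] with z hz hz'
    rw [← hw0, ev2_eq_eval, ← fib_lineHom, hθs z hz' hz, eval_prod]
    exact Finset.prod_eq_zero (Finset.mem_univ j) (by simp)
  choose ϱ hϱ0 hϱe hϱ using hbr
  have hbox := hw.1 i₀
  simp only [pp, abs_lt, ← ha] at hbox
  have htend : Tendsto (fun x : ℝ => (x : ℂ)) (𝓝[>] 0) (𝓝[≠] 0) := by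
    refine tendsto_nhdsWithin_iff.2 ⟨?_, ?_⟩
    · have := (Complex.continuous_ofReal.tendsto 0).mono_left (nhdsWithin_le_nhds (s := Ioi 0))
      simpa using this
    · filter_upwards [self_mem_nhdsWithin] with x hx
      exact Complex.ofReal_ne_zero.2 (ne_of_gt hx)
  have hsmall : ∀ c d : ℝ, 0 < d → ∀ᶠ x : ℝ in 𝓝[>] 0, x * c < d := by
    intro c d hd
    refine Eventually.filter_mono nhdsWithin_le_nhds ?_
    have : ContinuousAt (fun x : ℝ => x * c) 0 := by fun_prop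
    exact this.eventually_lt continuousAt_const (by simpa using hd)
  have hev : ∀ᶠ x : ℝ in 𝓝[>] 0, (∀ j, OrrM M.ε l.toFinset
      (sqLoop (fun i => (w0 + (x : ℂ) ^ e • (w - w0)) (Sum.inl i))
        (M.mA (w0 + (x : ℂ) ^ e • (w - w0)) (θs j x) : Fin n → Mat r) a
          ((x : ℂ) ^ ϱ j))) ∧ x * 1 < 1 ∧ x * 1 < ε ∧ x * 1 < a.re + H ∧
      x * 1 < a.im + H ∧ x * 1 < H - a.im ∧ (∀ i, x * ‖w (Sum.inl i) - a‖ < 1) ∧
      ∀ i, i ∉ l → x * 1 < (w (Sum.inl i)).re - a.re := by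
    refine (htend.eventually (eventually_all.2 hϱ)).and ((hsmall _ _ one_pos).and
      ((hsmall _ _ hε).and ((hsmall _ _ (by linarith [hbox.1.1])).and
      ((hsmall _ _ (by linarith [hbox.2.1])).and ((hsmall _ _ (by linarith [hbox.2.2])).and
      ((eventually_all.2 fun i => hsmall _ _ one_pos).and (eventually_all.2 fun i => ?_)))))))
    by_cases h : i ∈ l
    · exact Eventually.of_forall fun x hx => absurd h hx
    · filter_upwards [hsmall 1 _ (sub_pos.2 (hout i h))] with x hx _ using hx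
  obtain ⟨δ, hδ, hδ'⟩ := mem_nhdsGT_iff_exists_Ioo_subset.1 hev
  have hδ0 : 0 < δ := hδ
  refine orrM_cont M (isOpen_Cham ρ H) (convex_Cham ρ H)
    (fun y => (l.map (mon2 M H y)).prod)
    (fun w' hw' hG' θ' => DiffU.list_prod (fun i => diffU_mon2 M hρ hw' hG' θ' i) l) M.ε l.toFinset
    (w0 := w0) hw hG (pow_pos hδ0 e) (fun s hs => ?_) hF
  obtain ⟨x, hx0, hxs⟩ : ∃ x : ℝ, 0 < x ∧ x ^ e = s :=
    ⟨s ^ ((e : ℝ)⁻¹), Real.rpow_pos_of_pos hs.1 _, Real.rpow_inv_natCast_pow hs.1.le he0.ne'⟩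
  have hxδ : x < δ := lt_of_pow_lt_pow_left₀ e hδ0.le (hxs ▸ hs.2)
  obtain ⟨h1, h2, h3, h4, h5, h6, h7, h8⟩ := hδ' ⟨hx0, hxδ⟩
  rw [mul_one] at h2 h3 h4 h5 h6
  have hs1 : s ≤ 1 := hxs ▸ pow_le_one₀ hx0.le h2.le
  have hmem : w0 + (s : ℂ) • (w - w0) ∈ Cham M.m ρ H := by
    rw [hw0, ha]
    exact arc_mem_Cham hρ hl hi hw hs.1 hs1
  refine ⟨hmem, fun _ θ' hθ' => ?_⟩
  have hsx : (x : ℂ) ^ e = s := by rw [← hxs, Complex.ofReal_pow]
  obtain ⟨j, rfl⟩ : ∃ j, θ' = θs j x := by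
    have hxb : (x : ℂ) ∈ Metric.ball (0 : ℂ) ε := by
      rw [mem_ball_zero_iff, Complex.norm_real, Real.norm_eq_abs, abs_of_pos hx0]
      exact h3
    rw [ev2_eq_eval, ← fib_lineHom, ← hsx, hθs x hxb (Complex.ofReal_ne_zero.2 hx0.ne'),
      eval_prod, Finset.prod_eq_zero_iff] at hθ'
    obtain ⟨j, -, hj⟩ := hθ'
    exact ⟨j, by simpa [sub_eq_zero] using hj⟩
  have hO := h1 j
  rw [hsx, ← Complex.ofReal_pow, ← RL_TT] at hO
  obtain ⟨y, hy⟩ : ∃ y, y = x ^ ϱ j := ⟨_, rfl⟩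
  rw [← hy] at hO
  have hy0 : 0 < y := hy ▸ pow_pos hx0 _
  have hyx : y ≤ x := hy ▸ pow_le_of_le_one hx0.le h2.le (hϱ0 j).ne'
  have hsy : s ≤ y * x := by
    rw [← hxs, hy, ← pow_succ]
    exact pow_le_pow_of_le_one hx0.le h2.le (hϱe j)
  have hconj := prod_vt_conj (rectT_TT (fun i => (w0 + (s : ℂ) • (w - w0)) (Sum.inl i))
      (M.mA (w0 + (s : ℂ) • (w - w0)) (θs j x))) hmem.1 (Cham.re_injective hρ hmem)
    (Cham.lowerL hρ hmem hl) (x1 := a.re - y) (x2 := a.re + y) (y1 := a.im - y) (y2 := a.im + y)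
    (by linarith) (by linarith) (by linarith) (by linarith) (by linarith) ?_ ?_
  · exact OrrM.of_isConj hconj hO
  · intro c hc
    have hn : s * ‖w (Sum.inl c) - a‖ < y := by
      have h9 := h7 c
      have h10 := norm_nonneg (w (Sum.inl c) - a)
      nlinarith
    have hre := abs_lt.1 (lt_of_le_of_lt (mul_le_mul_of_nonneg_left
      (Complex.abs_re_le_norm (w (Sum.inl c) - a)) hs.1.le) hn |>.trans_le' (by
        rw [abs_mul, abs_of_pos hs.1]) : |s * (w (Sum.inl c) - a).re| < y)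
    have him := abs_lt.1 (lt_of_le_of_lt (mul_le_mul_of_nonneg_left
      (Complex.abs_im_le_norm (w (Sum.inl c) - a)) hs.1.le) hn |>.trans_le' (by
        rw [abs_mul, abs_of_pos hs.1]) : |s * (w (Sum.inl c) - a).im| < y)
    simp only [pp, hw0, arc_in hc, mem_prod, mem_Ioo, Complex.add_re, Complex.add_im,
      Complex.re_ofReal_mul, Complex.im_ofReal_mul]
    refine ⟨⟨?_, ?_⟩, ?_, ?_⟩ <;> linarith [hre.1, hre.2, him.1, him.2]
  · intro c hc
    have h9 := h8 c hc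
    simp only [pp, hw0, arc_out hc]
    linarith

end Pool.Agent.GR
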