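import Mathlib

/-! Embeddings of number fields extend to automorphisms of the complex numbers. -/

namespace Pool.Agent.GR

theorem gaut_aux {K L M ι : Type} [Field K] [Field L] [Field M] [Algebra K L] [Algebra K M]
    [IsAlgClosed L] [IsAlgClosed M] {v : ι → L} {w : ι → M} (hv : IsTranscendenceBasis K v)
    (hw : IsTranscendenceBasis K w) :
    ∃ τ : L ≃+* M, ∀ x : K, τ (algebraMap K L x) = algebraMap K M x := by
  have := IsAlgClosed.isAlgClosure_of_transcendence_basis v hv
  have := IsAlgClosed.isAlgClosure_of_transcendence_basis w hw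
  let e := hv.1.aevalEquiv.symm.trans hw.1.aevalEquiv
  refine ⟨IsAlgClosure.equivOfEquiv L M e.toRingEquiv, fun x => ?_⟩
  rw [IsScalarTower.algebraMap_apply K (Algebra.adjoin K (Set.range v)) L,
    IsAlgClosure.equivOfEquiv_algebraMap,
    IsScalarTower.algebraMap_apply K (Algebra.adjoin K (Set.range w)) M]
  exact congrArg _ (e.commutes x)

theorem gaut_basis {K ι : Type} [Field K] [Algebra ℚ K] [Algebra.IsAlgebraic ℚ K] [Algebra K ℂ]
    {v : ι → ℂ} (hv : IsTranscendenceBasis ℚ v) : IsTranscendenceBasis K v := by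
  have : IsScalarTower ℚ K ℂ := IsScalarTower.of_algebraMap_eq' (Subsingleton.elim _ _)
  exact (Algebra.IsAlgebraic.isTranscendenceBasis_iff ℚ K).1 hv

/-- Let `B` be a transcendence basis of `ℂ` over `K`. The map `MvPolynomial B K → ℂ` given by `φ` on
the coefficients is injective (`B` is algebraically independent over `ℚ`, and
`AlgebraicIndependent.extendScalars` for the algebra structure given by `φ`). Extend it to `ℂ` by
`IsAlgClosed.lift`. The extension `τ` is onto: `ℂ` is algebraic over `ℚ[B]`, which lies in the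
image, so `IsAlgClosed.algebraMap_bijective_of_isIntegral` applies to `τ.toAlgebra`. -/
theorem exists_aut_ext (K : IntermediateField ℚ ℂ) [FiniteDimensional ℚ K] (φ : K →+* ℂ) :
    ∃ τ : ℂ ≃+* ℂ, ∀ x : K, τ x = φ x := by
  obtain ⟨B, hB⟩ := exists_isTranscendenceBasis ℚ ℂ
  exact @gaut_aux K ℂ ℂ B _ _ _ _ φ.toAlgebra _ _ _ _ (gaut_basis hB)
    (@gaut_basis K B _ _ _ φ.toAlgebra _ hB)

end Pool.Agent.GR
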