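import Pool.Agent.Lib.MP_aa40d3_nt.GR2.GForm

/-! Construction of the invariant form. -/

open Polynomial Matrix
open scoped ComplexOrder

namespace Pool.Agent.GR

variable {n r : ℕ}

theorem Inv.mem_closure {H : Matrix (Fin r) (Fin r) ℂ} {s : Set (GLr r)} (h : ∀ u ∈ s, Inv H u)
    {γ : GLr r} (hγ : γ ∈ Subgroup.closure s) : Inv H γ := by
  induction hγ using Subgroup.closure_induction with
  | mem u hu => exact h u hu
  | one => simp [Inv]
  | mul u v _ _ hu hv =>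
    rw [Inv] at hu hv ⊢
    rw [Units.val_mul, conjTranspose_mul]
    calc v.valᴴ * u.valᴴ * H * (u.val * v.val) = v.valᴴ * (u.valᴴ * H * u.val) * v.val := by
          simp only [mul_assoc]
      _ = H := by rw [hu, hv]
  | inv u _ hu =>
    rw [Inv] at hu ⊢
    calc (u⁻¹).valᴴ * H * (u⁻¹).val = (u⁻¹).valᴴ * (u.valᴴ * H * u.val) * (u⁻¹).val := by rw [hu]
      _ = (u.val * (u⁻¹).val)ᴴ * H * (u.val * (u⁻¹).val) := by
          simp only [conjTranspose_mul, mul_assoc]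
      _ = H := by rw [Units.mul_inv, conjTranspose_one, one_mul, mul_one]

theorem gformb_c (S : Sys n r) (l : List (Fin n)) : S.c ∈ S.gp l :=
  Subgroup.subset_closure (Set.mem_insert _ _)

theorem gformb_u (S : Sys n r) {l : List (Fin n)} {a : Fin n} (ha : a ∈ l) :
    (S.x a).u ∈ S.gp l :=
  Subgroup.subset_closure (Set.mem_insert_of_mem _ ⟨a, ha, rfl⟩)

theorem gformb_irr {S : Sys n r} {l : List (Fin n)} (h : S.Irr l) (U : Submodule ℂ (Fin r → ℂ))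
    (hU : ∀ u ∈ S.gp l, ∀ v ∈ U, u.val *ᵥ v ∈ U) : U = ⊥ ∨ U = ⊤ :=
  h U (hU _ (gformb_c S l)) fun _ ha => hU _ (gformb_u S ha)

theorem gformb_adj (A : Matrix (Fin r) (Fin r) ℂ) (v w : Fin r → ℂ) :
    star v ⬝ᵥ (Aᴴ *ᵥ w) = star (A *ᵥ v) ⬝ᵥ w := by
  rw [star_mulVec, dotProduct_mulVec]

theorem gformb_adj' (A : Matrix (Fin r) (Fin r) ℂ) (v w : Fin r → ℂ) :
    star v ⬝ᵥ (Aᴴ *ᵥ w) = star (star w ⬝ᵥ (A *ᵥ v)) := by
  rw [gformb_adj, star_dotProduct]

theorem gformb_inv {H : Matrix (Fin r) (Fin r) ℂ} {u : GLr r} (hu : Inv H u) (v w : Fin r → ℂ) :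
    star (u.val *ᵥ v) ⬝ᵥ (H *ᵥ (u.val *ᵥ w)) = star v ⬝ᵥ (H *ᵥ w) := by
  rw [← gformb_adj, mulVec_mulVec, mulVec_mulVec, hu]

theorem gformb_zero {ι : Type} {v : ι → Fin r → ℂ} (hv : Submodule.span ℂ (Set.range v) = ⊤)
    {w : Fin r → ℂ} (h : ∀ i, star (v i) ⬝ᵥ w = 0) : w = 0 := by
  have h1 : ∀ u ∈ Submodule.span ℂ (Set.range v), star u ⬝ᵥ w = 0 := by
    intro u hu
    induction hu using Submodule.span_induction with
    | mem u hu =>
      obtain ⟨i, rfl⟩ := hu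
      exact h i
    | zero => simp
    | add u u' _ _ h1 h2 => rw [star_add, add_dotProduct, h1, h2, add_zero]
    | smul c u _ h1 => rw [star_smul, smul_dotProduct, h1, smul_zero]
  exact dotProduct_star_self_eq_zero.1 (h1 w (hv ▸ Submodule.mem_top))

theorem gformb_ext {ι : Type} {v : ι → Fin r → ℂ} (hv : Submodule.span ℂ (Set.range v) = ⊤)
    {A B : Matrix (Fin r) (Fin r) ℂ}
    (h : ∀ i j, star (v i) ⬝ᵥ (A *ᵥ v j) = star (v i) ⬝ᵥ (B *ᵥ v j)) : A = B := by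
  refine Matrix.toLin'.injective (LinearMap.ext_on_range hv fun j => ?_)
  rw [toLin'_apply, toLin'_apply, ← sub_eq_zero]
  exact gformb_zero hv fun i => by rw [dotProduct_sub, h, sub_self]

/-- The span of the orbit of a nonzero vector is invariant. -/
theorem Sys.Irr.span_orbit {S : Sys n r} {l : List (Fin n)} (h : S.Irr l) {v : Fin r → ℂ}
    (hv : v ≠ 0) : Submodule.span ℂ (Set.range fun γ : S.gp l => γ.1.val *ᵥ v) = ⊤ := by
  refine (gformb_irr h _ fun u hu w hw => ?_).resolve_left fun h0 => hv ?_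
  · induction hw using Submodule.span_induction with
    | mem w hw =>
      obtain ⟨γ, rfl⟩ := hw
      refine Submodule.subset_span ⟨⟨u * γ.1, mul_mem hu γ.2⟩, ?_⟩
      simp only [Units.val_mul, mulVec_mulVec]
    | zero => simp
    | add w w' _ _ h1 h2 =>
      rw [mulVec_add]
      exact add_mem h1 h2
    | smul c w _ h1 =>
      rw [mulVec_smul]
      exact Submodule.smul_mem _ _ h1
  · have h1 : v ∈ Submodule.span ℂ (Set.range fun γ : S.gp l => γ.1.val *ᵥ v) :=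
      Submodule.subset_span ⟨1, by simp⟩
    rwa [h0, Submodule.mem_bot] at h1

/-- The common kernel of the rows `f * γ` is invariant. -/
theorem Sys.Irr.eq_zero {S : Sys n r} {l : List (Fin n)} (h : S.Irr l) {f : Fin r → ℂ}
    (hf : f ≠ 0) {v : Fin r → ℂ} (hv : ∀ γ ∈ S.gp l, f ⬝ᵥ (γ.val *ᵥ v) = 0) : v = 0 := by
  let U : Submodule ℂ (Fin r → ℂ) :=
    { carrier := {v | ∀ γ ∈ S.gp l, f ⬝ᵥ (γ.val *ᵥ v) = 0}
      zero_mem' := fun γ _ => by simp
      add_mem' := fun {a b} ha hb γ hγ => by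
        rw [mulVec_add, dotProduct_add, ha γ hγ, hb γ hγ, add_zero]
      smul_mem' := fun c a ha γ hγ => by rw [mulVec_smul, dotProduct_smul, ha γ hγ, smul_zero] }
  rcases gformb_irr h U (fun u hu w hw γ hγ => by
    have h1 := hw (γ * u) (mul_mem hγ hu)
    rwa [Units.val_mul, ← mulVec_mulVec] at h1) with h0 | h0
  · have h1 : v ∈ U := hv
    rwa [h0, Submodule.mem_bot] at h1
  · refine absurd (dotProduct_eq_zero f fun w => ?_) hf
    have h1 : w ∈ U := h0 ▸ Submodule.mem_top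
    simpa using h1 1 (one_mem _)

theorem gformb_grp (S : Sys n r) {l : List (Fin n)} {γ : GLr r} (hγ : γ ∈ S.gp l) :
    (γ, thU γ) ∈ Sys.grp l S S.th := by
  induction hγ using Subgroup.closure_induction with
  | mem u hu =>
    rcases hu with rfl | ⟨a, ha, rfl⟩
    · exact Sys.c_mem_grp l S S.th
    · have h := Sys.u_mem_grp S S.th ha
      rw [show (S.th.x a).u = thU (S.x a).u from Rf.th_u _] at h
      exact h
  | one =>
    rw [map_one, Prod.mk_one_one]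
    exact one_mem _
  | mul u v _ _ hu hv =>
    rw [map_mul, ← Prod.mk_mul_mk]
    exact mul_mem hu hv
  | inv u _ hu =>
    rw [map_inv, ← Prod.inv_mk]
    exact inv_mem hu

theorem gformb_th (f e : Fin r → ℂ) (γ δ : GLr r) :
    star (γ.val *ᵥ e) ⬝ᵥ ((thU δ).val *ᵥ star f) = star (f ⬝ᵥ ((δ⁻¹ * γ).val *ᵥ e)) := by
  rw [thU_val, gformb_adj', star_star, mulVec_mulVec, Units.val_mul]

theorem gformb_star {ζ : ℂ} (hζ : ‖ζ‖ = 1) : ζ * star ζ = 1 := by
  rw [Complex.star_def, Complex.mul_conj, Complex.normSq_eq_norm_sq, hζ]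
  simp

theorem gformb_e {x : Rf r} (hζ1 : x.ζ ≠ 1) : x.e ≠ 0 := by
  intro h
  have h1 := x.dot
  rw [h, dotProduct_zero, eq_comm, sub_eq_zero] at h1
  exact hζ1 h1.symm

theorem gformb_kap {z : ℂ} (hz : ‖z‖ = 1) (h1 : z ≠ 1) : star (kap z) = -z * kap z := by
  have h2 := psda_kap_mul hz
  have h3 := congrArg star h2
  rw [Complex.star_def, Complex.conj_ofReal, ← h2, ← Complex.star_def, star_mul', star_sub,
    star_one] at h3
  refine mul_right_cancel₀ (sub_ne_zero.2 h1.symm) ?_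
  linear_combination -z * h3 - star (kap z) * gformb_star hz

theorem gformb_P {ι : Type} {v w : ι → Fin r → ℂ} (hv : Submodule.span ℂ (Set.range v) = ⊤)
    (h : ∀ y : ι →₀ ℂ, Finsupp.linearCombination ℂ v y = 0 →
      Finsupp.linearCombination ℂ w y = 0) :
    ∃ P : Matrix (Fin r) (Fin r) ℂ, ∀ i, P *ᵥ v i = w i := by
  obtain ⟨s, hs⟩ := (Finsupp.linearCombination ℂ v).exists_rightInverse_of_surjective
    (by rwa [Finsupp.range_linearCombination])
  refine ⟨LinearMap.toMatrix' (Finsupp.linearCombination ℂ w ∘ₗ s), fun i => ?_⟩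
  have h1 := h (s (v i) - Finsupp.single i 1) (by
    rw [map_sub, Finsupp.linearCombination_single, one_smul, sub_eq_zero]
    exact LinearMap.congr_fun hs (v i))
  rw [map_sub, Finsupp.linearCombination_single, one_smul, sub_eq_zero] at h1
  rw [LinearMap.toMatrix'_mulVec]
  exact h1

/-- Let `e`, `f`, `ζ` belong to `a` and `φ γ = f ⬝ᵥ γ *ᵥ e`. Since `(γ, thU γ) ∈ grp l S S.th`,
`hw` gives `φ γ = -ζ * star (φ γ⁻¹)`. Let `Φ Φ' : (S.gp l →₀ ℂ) →ₗ[ℂ] (Fin r → ℂ)` be the linear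
combination maps of `γ *ᵥ e` and `thU γ *ᵥ star f`. `Φ` is onto (`span_orbit`) and
`star (Φ x) ⬝ᵥ Φ' y = ∑ ∑ star (x γ) * y δ * star (φ (δ⁻¹ γ))`, while
`-star ζ * star (star (Φ y) ⬝ᵥ Φ' x)` is the same number. So `Φ y = 0` gives `Φ' y = 0`; with a
right inverse `s` of `Φ` put `P = toMatrix' (Φ' ∘ s)`, so that `P *ᵥ Φ y = Φ' y`, and
`H = star (kap ζ) • P` (`kap ζ ^ 2 = -ζ⁻¹`, `kap ζ * (1 - ζ) = 2 sin (π a01 ζ)`; see `PsdA`, `Psd`).
The kernel of `H` is invariant and does not contain `e`. -/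
theorem exists_form {S : Sys n r} {l : List (Fin n)} (hi : S.Irr l) {a : Fin n} (ha : a ∈ l)
    (hζ : ‖(S.x a).ζ‖ = 1) (hζ1 : (S.x a).ζ ≠ 1) (hw : WW DD l S S.th) :
    ∃ H : Matrix (Fin r) (Fin r) ℂ, H.IsHermitian ∧ IsUnit H ∧ (∀ γ ∈ S.gp l, Inv H γ) ∧
      0 < star (S.x a).e ⬝ᵥ (H *ᵥ (S.x a).e) := by
  have hst := gformb_star hζ
  have he := gformb_e hζ1
  have hφ : ∀ γ ∈ S.gp l, (S.x a).f ⬝ᵥ (γ.val *ᵥ (S.x a).e) =
      -(S.x a).ζ * star ((S.x a).f ⬝ᵥ ((γ⁻¹).val *ᵥ (S.x a).e)) := by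
    intro γ hγ
    have h1 := mem_DD.1 (hw a ha _ (gformb_grp S hγ))
    have h2 := gformb_th (S.x a).f (S.x a).e 1 γ
    rw [Units.val_one, one_mulVec, mul_one] at h2
    rw [h1, ← h2, ← inv_eq_of_mul_eq_one_left hst, ← smul_eq_mul, ← smul_dotProduct]
    rfl
  have hsp := hi.span_orbit he
  generalize S.x a = x at *
  obtain ⟨P, hP⟩ := gformb_P (w := fun γ : S.gp l => (thU γ.1).val *ᵥ star x.f) hsp (by
    intro y hy
    refine gformb_zero hsp fun γ => ?_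
    have h1 : x.f ⬝ᵥ ((γ.1⁻¹).val *ᵥ
        Finsupp.linearCombination ℂ (fun γ : S.gp l => γ.1.val *ᵥ x.e) y) = 0 := by
      rw [hy, mulVec_zero, dotProduct_zero]
    refine (mul_eq_zero.1 (h1.symm.trans ?_).symm).resolve_left (neg_ne_zero.2 x.ne)
    rw [Finsupp.linearCombination_apply, Finsupp.linearCombination_apply, Finsupp.sum,
      Finsupp.sum, mulVec_sum, dotProduct_sum, dotProduct_sum, Finset.mul_sum]
    refine Finset.sum_congr rfl fun δ _ => ?_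
    rw [mulVec_smul, dotProduct_smul, dotProduct_smul, gformb_th, mulVec_mulVec, ← Units.val_mul,
      hφ _ (mul_mem (inv_mem γ.2) δ.2), _root_.mul_inv_rev, inv_inv, smul_eq_mul, smul_eq_mul]
    ring)
  have hP' : ∀ γ ∈ S.gp l, ∀ δ ∈ S.gp l, star (γ.val *ᵥ x.e) ⬝ᵥ (P *ᵥ (δ.val *ᵥ x.e)) =
      star (x.f ⬝ᵥ ((δ⁻¹ * γ).val *ᵥ x.e)) := fun γ _ δ hδ => by
    rw [← gformb_th, ← hP ⟨δ, hδ⟩]
  have hH : Pᴴ = -x.ζ • P := by
    refine gformb_ext hsp fun γ δ => ?_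
    rw [gformb_adj', hP' _ δ.2 _ γ.2, star_star, smul_mulVec, dotProduct_smul, hP' _ γ.2 _ δ.2,
      hφ _ (mul_mem (inv_mem γ.2) δ.2), _root_.mul_inv_rev, inv_inv, smul_eq_mul]
  have hI : ∀ u ∈ S.gp l, Inv (star (kap x.ζ) • P) u := by
    intro u hu
    have h1 : u.valᴴ * P * u.val = P := by
      refine gformb_ext hsp fun γ δ => ?_
      rw [← mulVec_mulVec, ← mulVec_mulVec, gformb_adj, mulVec_mulVec x.e, mulVec_mulVec x.e u.val,
        ← Units.val_mul, ← Units.val_mul, hP' _ (mul_mem hu γ.2) _ (mul_mem hu δ.2),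
        hP' _ γ.2 _ δ.2, _root_.mul_inv_rev, mul_assoc, inv_mul_cancel_left]
    rw [Inv, mul_smul_comm, smul_mul_assoc, h1]
  have hpos : 0 < star x.e ⬝ᵥ ((star (kap x.ζ) • P) *ᵥ x.e) := by
    have h1 := hP' 1 (one_mem _) 1 (one_mem _)
    simp only [inv_one, mul_one, Units.val_one, one_mulVec] at h1
    rw [smul_mulVec, dotProduct_smul, h1, x.dot, smul_eq_mul, ← star_mul', psda_kap_mul hζ,
      Complex.star_def, Complex.conj_ofReal, Complex.zero_lt_real]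
    have h2 := a01_pos hζ hζ1
    have h3 := a01_lt_one x.ζ
    have h4 := Real.pi_pos
    have h5 := Real.sin_pos_of_pos_of_lt_pi (x := Real.pi * a01 x.ζ) (by positivity)
      (by nlinarith)
    positivity
  refine ⟨star (kap x.ζ) • P, ?_, ?_, hI, hpos⟩
  · rw [IsHermitian, conjTranspose_smul, star_star, hH, smul_smul, gformb_kap hζ hζ1, mul_comm]
  · generalize star (kap x.ζ) • P = H at hI hpos
    rw [← mulVec_injective_iff_isUnit]
    refine LinearMap.ker_eq_bot.1 ((gformb_irr hi (LinearMap.ker H.mulVecLin)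
      fun u hu v hv => ?_).resolve_right fun h0 => ?_)
    · rw [LinearMap.mem_ker, mulVecLin_apply] at hv ⊢
      have h1 : (thU u).val * H = H * u.val := by
        conv_lhs => rw [← hI u hu, thU_val, ← mul_assoc, ← mul_assoc, ← conjTranspose_mul,
          Units.mul_inv, conjTranspose_one, one_mul]
      rw [mulVec_mulVec, ← h1, ← mulVec_mulVec, hv, mulVec_zero]
    · have h1 : x.e ∈ LinearMap.ker H.mulVecLin := h0 ▸ Submodule.mem_top
      rw [LinearMap.mem_ker, mulVecLin_apply] at h1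
      rw [h1, dotProduct_zero] at hpos
      exact lt_irrefl _ hpos

/-- From `uᴴ * H * u = H` applied to `e`, for which `u *ᵥ e = ζ • e`:
`ζ • (H e - s • star f) = H e` where `s = star e ⬝ᵥ H *ᵥ e` is real; `s ≠ 0` since `H e ≠ 0`. -/
theorem form_refl {H : Matrix (Fin r) (Fin r) ℂ} (hH : H.IsHermitian) (hu : IsUnit H) {x : Rf r}
    (hx : Inv H x.u) (hζ : ‖x.ζ‖ = 1) (hζ1 : x.ζ ≠ 1) :
    ∃ s : ℝ, s ≠ 0 ∧ star x.e ⬝ᵥ (H *ᵥ x.e) = s ∧
      ∀ v, (s : ℂ) * (x.f ⬝ᵥ v) = (1 - x.ζ) * (star x.e ⬝ᵥ (H *ᵥ v)) := by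
  have hst := gformb_star hζ
  have h1 : star (star x.e ⬝ᵥ (H *ᵥ x.e)) = star x.e ⬝ᵥ (H *ᵥ x.e) := by
    rw [← gformb_adj', hH.eq]
  have h2 : star x.e ⬝ᵥ (H *ᵥ x.e) = (star x.e ⬝ᵥ (H *ᵥ x.e)).re :=
    (Complex.conj_eq_iff_re.1 h1).symm
  have h3 : ∀ v, (star x.e ⬝ᵥ (H *ᵥ x.e)) * (x.f ⬝ᵥ v) = (1 - x.ζ) * (star x.e ⬝ᵥ (H *ᵥ v)) := by
    intro v
    have h4 := gformb_inv hx x.e v
    rw [x.u_mulVec x.e, x.u_mulVec v, x.dot, mulVec_sub, mulVec_smul, star_sub, star_smul,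
      star_sub, star_one] at h4
    simp only [sub_dotProduct, dotProduct_sub, smul_dotProduct, dotProduct_smul, smul_eq_mul] at h4
    linear_combination -x.ζ * h4 + (star x.e ⬝ᵥ (H *ᵥ v) -
      (star x.e ⬝ᵥ (H *ᵥ x.e)) * (x.f ⬝ᵥ v)) * hst
  refine ⟨_, fun h0 => gformb_e hζ1 ?_, h2, fun v => by rw [← h2, h3]⟩
  obtain ⟨v, hv⟩ := mulVec_surjective_iff_isUnit.2 hu x.e
  have h4 := h3 v
  rw [h2, h0, Complex.ofReal_zero, zero_mul, hv] at h4
  exact dotProduct_star_self_eq_zero.1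
    ((mul_eq_zero.1 h4.symm).resolve_left (sub_ne_zero.2 hζ1.symm))

/-- `form_refl` and Cauchy-Schwarz for the definite form. -/
theorem norm_coef_le {H : Matrix (Fin r) (Fin r) ℂ} (hH : H.PosDef) {x : Rf r} (hx : Inv H x.u)
    (hζ : ‖x.ζ‖ = 1) (hζ1 : x.ζ ≠ 1) {γ : GLr r} (hγ : Inv H γ) :
    ‖x.f ⬝ᵥ (γ.val *ᵥ x.e)‖ ≤ 2 := by
  obtain ⟨s, hs0, hs, h⟩ := form_refl hH.isHermitian hH.isUnit hx hζ hζ1
  have hs1 : 0 ≤ s := by
    have h1 := hH.posSemidef.dotProduct_mulVec_nonneg x.e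
    rwa [hs, Complex.zero_le_real] at h1
  have hs2 : 0 < s := lt_of_le_of_ne hs1 hs0.symm
  have hw := (gformb_inv hγ x.e x.e).trans hs
  have h1 := h (γ.val *ᵥ x.e)
  generalize γ.val *ᵥ x.e = w at hw h1 ⊢
  have h2 : star w ⬝ᵥ (H *ᵥ x.e) = star (star x.e ⬝ᵥ (H *ᵥ w)) := by
    rw [← gformb_adj', hH.isHermitian.eq]
  have h3 := hH.posSemidef.dotProduct_mulVec_nonneg
    ((s : ℂ) • w - (star x.e ⬝ᵥ (H *ᵥ w)) • x.e)
  rw [mulVec_sub, mulVec_smul, mulVec_smul, star_sub, star_smul, star_smul] at h3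
  simp only [sub_dotProduct, dotProduct_sub, smul_dotProduct, dotProduct_smul, smul_eq_mul] at h3
  rw [hw, hs, h2] at h3
  generalize star x.e ⬝ᵥ (H *ᵥ w) = c at h1 h3
  have h4 : c * star c = ((‖c‖ ^ 2 : ℝ) : ℂ) := by
    rw [Complex.star_def, Complex.mul_conj, Complex.normSq_eq_norm_sq]
  have h5 : (0 : ℂ) ≤ ((s * (s ^ 2 - ‖c‖ ^ 2) : ℝ) : ℂ) := by
    refine h3.trans (le_of_eq ?_)
    rw [Complex.ofReal_mul, Complex.ofReal_sub, ← h4, show star (s : ℂ) = s from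
      Complex.conj_ofReal s]
    push_cast
    ring
  have h6 : ‖c‖ ≤ s := by
    have h7 := (mul_nonneg_iff_of_pos_left hs2).1 (Complex.zero_le_real.1 h5)
    exact abs_le_of_sq_le_sq' (by linarith) hs1 |>.2
  have h7 : ‖1 - x.ζ‖ ≤ 2 := by
    have := norm_sub_le 1 x.ζ
    rw [norm_one, hζ] at this
    linarith
  have h8 := congrArg norm h1
  rw [norm_mul, norm_mul, Complex.norm_real, Real.norm_eq_abs, abs_of_pos hs2] at h8
  refine le_of_mul_le_mul_left (h8.trans_le ?_) hs2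
  rw [mul_comm s]
  exact mul_le_mul h7 h6 (norm_nonneg _) (by norm_num)

end Pool.Agent.GR
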