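import Pool.Agent.Lib.MP_aa40d3_nt.GR2.GInt
import Pool.Agent.Lib.MP_aa40d3_nt.GR2.GFormB
import Pool.Agent.Lib.MP_aa40d3_nt.GR2.GAut

/-! Finiteness from bounded integral matrix coefficients. -/

open Polynomial Matrix

namespace Pool.Agent.GR

variable {n r : ℕ}

theorem gfin_span {ι : Type} (w : ι → Fin r → ℂ) : ∃ (κ : Type) (_ : Finite κ) (δ : κ → ι),
    Submodule.span ℂ (Set.range w) = Submodule.span ℂ (Set.range fun j => w (δ j)) := by
  obtain ⟨T, h1, h2⟩ := (Submodule.fg_span_iff_fg_span_finset_subset (R := ℂ) (Set.range w)).1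
    (IsNoetherian.noetherian _)
  choose δ hδ using fun t : T => h1 t.2
  refine ⟨T, inferInstance, δ, ?_⟩
  rw [h2, funext hδ, Subtype.range_coe_subtype]
  rfl

/-- Choose finite families `δ' j` with the `δ' j *ᵥ e` spanning and `δ i` with the `f ᵥ* δ i`
spanning (`exists_linearIndependent'`, or finite generation: `Submodule.exists_finset_span_eq`;
the rows span since a vector orthogonal to all of them vanishes). Then
`γ ↦ fun i j => f ⬝ᵥ (δ i * γ * δ' j) *ᵥ e` is injective with values in a finite set. -/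
theorem finite_of_coef (Γ : Subgroup (GLr r)) (e f : Fin r → ℂ)
    (he : Submodule.span ℂ (Set.range fun γ : Γ => γ.1.val *ᵥ e) = ⊤)
    (hf : ∀ v, (∀ γ ∈ Γ, f ⬝ᵥ (γ.val *ᵥ v) = 0) → v = 0)
    (h : (Set.range fun γ : Γ => f ⬝ᵥ (γ.1.val *ᵥ e)).Finite) : Finite Γ := by
  obtain ⟨κ', _, δ', h1⟩ := gfin_span fun γ : Γ => γ.1.val *ᵥ e
  obtain ⟨κ, _, δ, h2⟩ := gfin_span fun γ : Γ => f ᵥ* γ.1.val
  have := h.to_subtype
  refine Finite.of_injective (fun (γ : Γ) (i : κ) (j : κ') =>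
    (⟨_, Set.mem_range_self (δ i * γ * δ' j)⟩ : Set.range fun γ : Γ => f ⬝ᵥ (γ.1.val *ᵥ e)))
    fun γ γ' hγ => ?_
  have k1 : ∀ j, (γ.1.val - γ'.1.val) *ᵥ ((δ' j).1.val *ᵥ e) = 0 := fun j => by
    refine hf _ fun g hg => ?_
    have k2 : f ᵥ* g.val ∈ Submodule.span ℂ (Set.range fun i => f ᵥ* (δ i).1.val) :=
      h2 ▸ Submodule.subset_span ⟨⟨g, hg⟩, rfl⟩
    rw [dotProduct_mulVec]
    generalize f ᵥ* g.val = w at k2
    induction k2 using Submodule.span_induction with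
    | mem w hw =>
      obtain ⟨i, rfl⟩ := hw
      have := congrArg Subtype.val (congrFun (congrFun hγ i) j)
      simp only [Subgroup.coe_mul, Units.val_mul, ← mulVec_mulVec] at this
      rw [← dotProduct_mulVec, sub_mulVec, mulVec_sub, dotProduct_sub, this, sub_self]
    | zero => exact zero_dotProduct _
    | add w w' _ _ a b => rw [add_dotProduct, a, b, add_zero]
    | smul c w _ a => rw [smul_dotProduct, a, smul_zero]
  have k3 : (γ.1.val - γ'.1.val).mulVecLin = 0 :=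
    LinearMap.ext_on_range (h1 ▸ he) k1
  refine Subtype.ext (Units.ext (sub_eq_zero.1 (Matrix.toLin'.injective ?_)))
  rw [map_zero, Matrix.toLin'_apply', k3]

theorem gfin_walks {M : Fin n → ℤ → Fin n → ℂ}
    (hM : (Set.range fun q : Fin n × ℤ × Fin n => M q.1 q.2.1 q.2.2).Finite) (m : ℕ) :
    {z | ∃ b p, p.length ≤ m ∧ pw M b p = z}.Finite := by
  induction m with
  | zero =>
    refine (Set.finite_singleton 1).subset ?_
    rintro _ ⟨b, p, h, rfl⟩
    rw [List.eq_nil_of_length_eq_zero (Nat.le_zero.1 h)]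
    rfl
  | succ m ih =>
    refine ((hM.image2 (· * ·) ih).insert 1).subset ?_
    rintro _ ⟨b, p, h, rfl⟩
    cases p with
    | nil => exact Or.inl rfl
    | cons q p =>
      exact Or.inr ⟨_, ⟨(b, q), rfl⟩, _, ⟨q.2, p, Nat.le_of_succ_le_succ h, rfl⟩, rfl⟩

/-- Let `K` be generated over `ℚ` by the `(ζ b)⁻¹` (`b ∈ l`) and the weights of the simple closed
walks in `l` with labels in `[0, N)` (finitely many: `List.finite_length_le` on `Fin N × Fin n`,
or use that a simple walk has length at most `n`); it is a number field. Let `O₁` be the ring of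
the elements of `K` integral over `ℤ`. `cw_of_simple` (with `M_mod`) and `CW.ww` for `O₁.prod ⊤`,
`S' = S` show that all `f a ⬝ᵥ γ *ᵥ e a` lie in `O₁`. Use `exists_aut_ext`,
`NumberField.Embeddings.finite_of_norm_le` and `finite_of_coef`. -/
theorem Sys.finite_gp {S : Sys n r} {l : List (Fin n)} (hi : S.Irr l) {a : Fin n} (ha : a ∈ l)
    (h1 : (S.x a).ζ ≠ 1) (hζ : ∀ b ∈ l, IsOfFinOrder (S.x b).ζ) {N : ℕ} (hN : 0 < N)
    (hc : S.c ^ N = 1) (hint : ∀ b p, pe b p = b → (∀ q ∈ p, q.2 ∈ l) →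
      (p.map Prod.snd).Nodup → IsIntegral ℤ (pw S.M b p))
    (hb : ∀ (τ : ℂ ≃+* ℂ), ∀ γ ∈ S.gp l, ‖τ ((S.x a).f ⬝ᵥ (γ.val *ᵥ (S.x a).e))‖ ≤ 2) :
    Finite (S.gp l) := by
  have hM : (Set.range fun q : Fin n × ℤ × Fin n => S.M q.1 q.2.1 q.2.2).Finite := by
    refine ((Set.finite_univ.prod ((Set.finite_Ico (0 : ℤ) N).prod Set.finite_univ)).image
      fun q : Fin n × ℤ × Fin n => S.M q.1 q.2.1 q.2.2).subset ?_
    rintro _ ⟨⟨b, k, b'⟩, rfl⟩
    have h0 : (0 : ℤ) < N := by exact_mod_cast hN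
    exact ⟨(b, k % N, b'), ⟨trivial, ⟨Int.emod_nonneg _ h0.ne', Int.emod_lt_of_pos _ h0⟩, trivial⟩,
      Sys.M_mod hc _ _ _⟩
  have hi1 : ∀ b ∈ l, IsIntegral ℤ (S.x b).ζ⁻¹ := fun b h => by
    obtain ⟨m, h2, h3⟩ := isOfFinOrder_iff_pow_eq_one.1 (hζ b h)
    refine IsIntegral.of_pow h2 ?_
    rw [inv_pow, h3, inv_one]
    exact isIntegral_one
  let A : Set ℂ := {z | IsIntegral ℤ z} ∩ ({z | ∃ b p, p.length ≤ n ∧ pw S.M b p = z} ∪
    Set.range fun b => (S.x b).ζ⁻¹)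
  have : Finite A := (((gfin_walks hM n).union (Set.finite_range _)).inter_of_right _).to_subtype
  let K : IntermediateField ℚ ℂ := IntermediateField.adjoin ℚ A
  have : FiniteDimensional ℚ K :=
    IntermediateField.finiteDimensional_adjoin fun z hz => IsIntegral.tower_top hz.1
  have : NumberField K := {}
  let O : Subring ℂ := (integralClosure ℤ ℂ).toSubring ⊓ K.toSubring
  have hA : ∀ z ∈ A, (z, z) ∈ O.prod ⊤ := fun z hz =>
    ⟨⟨hz.1, IntermediateField.subset_adjoin ℚ A hz⟩, trivial⟩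
  have hw : WW (O.prod ⊤) l S S := (cw_of_simple fun b p k1 k2 k3 => hA _
    ⟨hint b p k1 k2 k3, Or.inl ⟨b, p, by simpa using k3.length_le_card, rfl⟩⟩).ww
    fun b h => hA _ ⟨hi1 b h, Or.inr ⟨b, rfl⟩⟩
  have hg : S.gp l ≤ (Sys.grp l S S).comap ((MonoidHom.id _).prod (MonoidHom.id _)) := by
    refine (Subgroup.closure_le _).2 ?_
    rintro _ (rfl | ⟨b, h, rfl⟩)
    · exact Sys.c_mem_grp l S S
    · exact Sys.u_mem_grp S S h
  have hd : (S.x a).f ⬝ᵥ (S.x a).e ≠ 0 := by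
    rw [Rf.dot]
    exact sub_ne_zero.2 h1.symm
  refine finite_of_coef _ (S.x a).e (S.x a).f (hi.span_orbit fun h => hd ?_)
    (fun v => hi.eq_zero fun h => hd ?_)
    (((NumberField.Embeddings.finite_of_norm_le K ℂ 2).image Subtype.val).subset ?_)
  · rw [h, dotProduct_zero]
  · rw [h, zero_dotProduct]
  · rintro _ ⟨γ, rfl⟩
    obtain ⟨k1, k2⟩ : (S.x a).f ⬝ᵥ (γ.1.val *ᵥ (S.x a).e) ∈ O := (hw a ha _ (hg γ.2)).1
    refine ⟨⟨_, k2⟩, ⟨(isIntegral_algHom_iff (K.val.restrictScalars ℤ) Subtype.val_injective).1 k1,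
      fun φ => ?_⟩, rfl⟩
    obtain ⟨τ, hτ⟩ := exists_aut_ext K φ
    rw [← hτ]
    exact hb τ _ γ.2

end Pool.Agent.GR
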