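import Pool.Agent.Lib.MP_aa40d3_nt.GR2.GEig
import Pool.Agent.Lib.MP_aa40d3_nt.GR2.GFormB

/-! The invariant form is definite. -/

open Polynomial Matrix
open scoped ComplexOrder

namespace Pool.Agent.GR

variable {n r : ℕ}

theorem gpos_adj (A B : Matrix (Fin r) (Fin r) ℂ) (v w : Fin r → ℂ) :
    star (A *ᵥ v) ⬝ᵥ (B *ᵥ w) = star v ⬝ᵥ ((Aᴴ * B) *ᵥ w) := by
  rw [star_mulVec, ← dotProduct_mulVec, mulVec_mulVec]

theorem gpos_inv {H : Matrix (Fin r) (Fin r) ℂ} {γ : GLr r} (h : Inv H γ) (v w : Fin r → ℂ) :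
    star (γ.val *ᵥ v) ⬝ᵥ (H *ᵥ (γ.val *ᵥ w)) = star v ⬝ᵥ (H *ᵥ w) := by
  rw [gpos_adj, mulVec_mulVec, h]

theorem gpos_herm {H : Matrix (Fin r) (Fin r) ℂ} (hH : H.IsHermitian) (v w : Fin r → ℂ) :
    star (star v ⬝ᵥ (H *ᵥ w)) = star w ⬝ᵥ (H *ᵥ v) := by
  rw [← star_dotProduct_star, star_star, star_mulVec, ← dotProduct_mulVec, hH.eq]

theorem gpos_kap {z : ℂ} (h : ‖z‖ = 1 ∧ z ≠ 1) : ∃ σ : ℝ, 0 < σ ∧ kap z * (1 - z) = σ :=
  ⟨_, mul_pos two_pos (psda_sin_pos h.1 h.2), psda_kap_mul h.1⟩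

theorem gpos_sym {H : Matrix (Fin r) (Fin r) ℂ} (hH : H.IsHermitian) (hu : IsUnit H) {x y : Rf r}
    (hx : Inv H x.u) (hy : Inv H y.u) (hx' : ‖x.ζ‖ = 1 ∧ x.ζ ≠ 1) (hy' : ‖y.ζ‖ = 1 ∧ y.ζ ≠ 1)
    {γ : GLr r} (hγ : Inv H γ) (h : x.f ⬝ᵥ (γ.val *ᵥ y.e) = 0) :
    y.f ⬝ᵥ ((γ⁻¹).val *ᵥ x.e) = 0 := by
  obtain ⟨s, -, -, h1⟩ := form_refl hH hu hx hx'.1 hx'.2
  obtain ⟨t, ht, -, h2⟩ := form_refl hH hu hy hy'.1 hy'.2
  have h3 := h1 (γ.val *ᵥ y.e)
  rw [h, mul_zero, eq_comm, mul_eq_zero, sub_eq_zero] at h3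
  have h4 := h2 ((γ⁻¹).val *ᵥ x.e)
  rw [← gpos_inv hγ, mulVec_mulVec x.e, Units.mul_inv, one_mulVec, ← gpos_herm hH,
    h3.resolve_left hx'.2.symm, star_zero, mul_zero] at h4
  exact (mul_eq_zero.1 h4).resolve_left (Complex.ofReal_ne_zero.2 ht)

theorem gpos_pair {H : Matrix (Fin r) (Fin r) ℂ} (hH : H.IsHermitian) (hu : IsUnit H) {x y : Rf r}
    (hx : Inv H x.u) (hy : Inv H y.u) (hx' : ‖x.ζ‖ = 1 ∧ x.ζ ≠ 1) (hy' : ‖y.ζ‖ = 1 ∧ y.ζ ≠ 1)
    (h : 0 ≤ kap x.ζ * kap y.ζ * ((x.f ⬝ᵥ y.e) * (y.f ⬝ᵥ x.e))) (h0 : y.f ⬝ᵥ x.e ≠ 0) :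
    0 < star x.e ⬝ᵥ (H *ᵥ x.e) ↔ 0 < star y.e ⬝ᵥ (H *ᵥ y.e) := by
  obtain ⟨s, hs, e1, h1⟩ := form_refl hH hu hx hx'.1 hx'.2
  obtain ⟨t, ht, e2, h2⟩ := form_refl hH hu hy hy'.1 hy'.2
  obtain ⟨σ, hσ, e3⟩ := gpos_kap hx'
  obtain ⟨τ, hτ, e4⟩ := gpos_kap hy'
  obtain ⟨w, hw, e5⟩ : ∃ w : ℝ, 0 ≤ w ∧ kap x.ζ * kap y.ζ * ((x.f ⬝ᵥ y.e) * (y.f ⬝ᵥ x.e)) = w :=
    ⟨_, (Complex.nonneg_iff.1 h).1, Complex.eq_re_of_ofReal_le h⟩
  have h3 := h1 y.e
  have h4 := h2 x.e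
  have h5 : star y.e ⬝ᵥ (H *ᵥ x.e) ≠ 0 := fun h5 =>
    mul_ne_zero (Complex.ofReal_ne_zero.2 ht) h0 (by rw [h4, h5, mul_zero])
  rw [← gpos_herm hH y.e x.e] at h3
  have h6 : ((s * t * w : ℝ) : ℂ) = (σ * τ * Complex.normSq (star y.e ⬝ᵥ (H *ᵥ x.e)) : ℝ) := by
    push_cast
    rw [← Complex.mul_conj, ← e3, ← e4, ← e5, starRingEnd_apply]
    linear_combination kap x.ζ * kap y.ζ * t * (y.f ⬝ᵥ x.e) * h3 +
      kap x.ζ * kap y.ζ * (1 - x.ζ) * star (star y.e ⬝ᵥ (H *ᵥ x.e)) * h4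
  have h7 : 0 < s * t * w :=
    Complex.ofReal_injective h6 ▸ mul_pos (mul_pos hσ hτ) (Complex.normSq_pos.2 h5)
  rw [e1, e2, Complex.zero_lt_real, Complex.zero_lt_real]
  exact pos_iff_pos_of_mul_pos (pos_of_mul_pos_left h7 hw)

theorem gpos_c (S : Sys n r) (l : List (Fin n)) : S.c ∈ S.gp l :=
  Subgroup.subset_closure (Set.mem_insert _ _)

theorem gpos_u (S : Sys n r) {l : List (Fin n)} {a : Fin n} (h : a ∈ l) : (S.x a).u ∈ S.gp l :=
  Subgroup.subset_closure (Set.mem_insert_of_mem _ ⟨a, h, rfl⟩)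

/-- Let `s b` be as in `form_refl`, `A = {b ∈ l | 0 < s b}`. For `b ∈ A`, `b' ∈ l \ A` all
`M b' k b` vanish. Indeed `M u k v = 0 ↔ M v (-k) u = 0` for `u v ∈ l` (`form_refl`, invariance
under `c`). Let `[u, v]` be the sublist formed by `b`, `b'` (`pair_sublist`); if not all `M v k u`
vanish then by `vanish` some twist `y = (x v).cj (prod [u] ^ k)` has `y.f ⬝ᵥ e u ≠ 0`; `y.u` preserves
`H`, has the same `s`, and with `t = star (e u) ⬝ᵥ H *ᵥ y.e ≠ 0`,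
`s u * s v * (kap * kap * w) = (kap (1 - ζ u)) (kap (1 - ζ v)) * ‖t‖ ^ 2 > 0`, so `s u * s v > 0` by
`hp`, a contradiction. Then the span of the `c ^ k *ᵥ e b` (`b ∈ A`) is invariant and nonzero,
hence everything, and it is killed by `f b'`, while `f b' ⬝ᵥ e b' ≠ 0`. -/
theorem Sys.signs {S : Sys n r} {l : List (Fin n)} (hl : l.Nodup) (hi : S.Irr l)
    (hζ : ∀ a ∈ l, ‖(S.x a).ζ‖ = 1 ∧ (S.x a).ζ ≠ 1) {H : Matrix (Fin r) (Fin r) ℂ}
    (hH : H.IsHermitian) (hu : IsUnit H) (hinv : ∀ γ ∈ S.gp l, Inv H γ) {a : Fin n} (ha : a ∈ l)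
    (hpos : 0 < star (S.x a).e ⬝ᵥ (H *ᵥ (S.x a).e))
    (hp : ∀ u v, [u, v].Sublist l → ∀ k : ℕ, 0 ≤ kap (S.x u).ζ * kap (S.x v).ζ *
      ((S.tw v (S.prod [u] ^ k)).M u 0 v * (S.tw v (S.prod [u] ^ k)).M v 0 u))
    {b : Fin n} (hb : b ∈ l) : 0 < star (S.x b).e ⬝ᵥ (H *ᵥ (S.x b).e) := by
  have h1 : ∀ u v, [u, v].Sublist l → ¬(0 < star (S.x u).e ⬝ᵥ (H *ᵥ (S.x u).e) ↔
      0 < star (S.x v).e ⬝ᵥ (H *ᵥ (S.x v).e)) → ∀ k, S.M v k u = 0 := by
    intro u v huv hn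
    have hu' : u ∈ l := huv.subset (by simp)
    have hv' : v ∈ l := huv.subset (by simp)
    have hne : u ≠ v := fun e => hn (by rw [e])
    refine Sys.vanish hne fun k => ?_
    by_contra h0
    have hg : S.prod [u] ^ k ∈ S.gp l := by
      refine pow_mem ?_ k
      rw [Sys.prod_single]
      exact mul_mem (gpos_c S l) (gpos_u S hu')
    have h2 := hp u v huv k
    rw [Sys.M_zero, Sys.tw_self, Sys.tw_ne _ hne] at h0
    rw [Sys.M_zero, Sys.M_zero, Sys.tw_self, Sys.tw_ne _ hne] at h2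
    have h3 := gpos_pair hH hu (y := (S.x v).cj (S.prod [u] ^ k)) (hinv _ (gpos_u S hu'))
      (hinv _ (by
        rw [Rf.cj_u]
        exact mul_mem (mul_mem (inv_mem hg) (gpos_u S hv')) hg)) (hζ u hu') (hζ v hv') h2 h0
    exact hn (h3.trans (by rw [← gpos_inv (hinv _ (inv_mem hg)) (S.x v).e]; rfl))
  have h2 : ∀ u ∈ l, ∀ v ∈ l, 0 < star (S.x u).e ⬝ᵥ (H *ᵥ (S.x u).e) →
      ¬0 < star (S.x v).e ⬝ᵥ (H *ᵥ (S.x v).e) → ∀ k, S.M v k u = 0 := by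
    intro u hu' v hv' h3 h4 k
    rcases pair_sublist hu' hv' (fun e => h4 (e ▸ h3)) with h | h
    · exact h1 u v h (fun e => h4 (e.1 h3)) k
    · have h5 := gpos_sym hH hu (hinv _ (gpos_u S hu')) (hinv _ (gpos_u S hv')) (hζ u hu')
        (hζ v hv') (hinv _ (zpow_mem (gpos_c S l) (-k))) (h1 v u h (fun e => h4 (e.2 h3)) (-k))
      rwa [_root_.zpow_neg, inv_inv] at h5
  let U : Submodule ℂ (Fin r → ℂ) :=
    { carrier := {w | ∀ v ∈ l, ¬0 < star (S.x v).e ⬝ᵥ (H *ᵥ (S.x v).e) →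
        ∀ k : ℤ, (S.x v).f ⬝ᵥ ((S.c ^ k).val *ᵥ w) = 0}
      add_mem' := fun h h' v hv hn k => by
        rw [mulVec_add, dotProduct_add, h v hv hn, h' v hv hn, add_zero]
      zero_mem' := fun v _ _ k => by rw [mulVec_zero, dotProduct_zero]
      smul_mem' := fun t w h v hv hn k => by
        rw [mulVec_smul, dotProduct_smul, h v hv hn, smul_zero] }
  by_contra hn
  rcases hi U (fun w h v hv hn k => by
      rw [mulVec_mulVec, ← Units.val_mul, ← _root_.zpow_add_one]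
      exact h v hv hn _) (fun u hu' w h => by
      rw [Rf.u_mulVec]
      by_cases h3 : 0 < star (S.x u).e ⬝ᵥ (H *ᵥ (S.x u).e)
      · exact U.sub_mem h (U.smul_mem _ fun v hv h4 => h2 u hu' v hv h3 h4)
      · have h4 := h u hu' h3 0
        rw [zpow_zero, Units.val_one, one_mulVec] at h4
        rwa [h4, zero_smul, sub_zero]) with h | h
  · have h3 : (S.x a).e ∈ U := fun v hv h4 => h2 a ha v hv hpos h4
    rw [h, Submodule.mem_bot] at h3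
    rw [h3, mulVec_zero, dotProduct_zero] at hpos
    exact lt_irrefl _ hpos
  · have h3 : (S.x b).e ∈ U := h ▸ Submodule.mem_top
    exact (hζ b hb).2 (sub_eq_zero.1 ((S.M_self_zero b).symm.trans (h3 b hb hn 0))).symm

/-- `c * Pj = s⁻¹ • Pj`: shift the sum, the terms `j = 0` and `j = N` agree. -/
theorem mul_Pj {c : GLr r} {N : ℕ} (hc : c ^ N = 1) {s : ℂ} (hs : s ^ N = 1) :
    s • (c.val * Pj c N s) = Pj c N s ∧ s • (Pj c N s * c.val) = Pj c N s := by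
  have h := (Finset.sum_range_succ' (fun j => s ^ (j + 1) • (c ^ (j + 1)).val) N).symm.trans
    (Finset.sum_range_succ _ N)
  rw [pow_succ s N, pow_succ c N, hs, hc, one_mul, one_mul, zero_add, pow_one, pow_one,
    add_left_inj] at h
  constructor
  · rw [Pj, Finset.mul_sum, Finset.smul_sum, ← h]
    refine Finset.sum_congr rfl fun j _ => ?_
    rw [mul_smul_comm, smul_smul, ← pow_succ', ← Units.val_mul, ← pow_succ']
  · rw [Pj, Finset.sum_mul, Finset.smul_sum, ← h]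
    refine Finset.sum_congr rfl fun j _ => ?_
    rw [smul_mul_assoc, smul_smul, ← pow_succ', ← Units.val_mul, ← pow_succ]

theorem gpos_pow {c : GLr r} {N : ℕ} (hc : c ^ N = 1) {s : ℂ} (hs : s ^ N = 1) (j : ℕ) :
    s ^ j • ((c ^ j).val * Pj c N s) = Pj c N s := by
  induction j with
  | zero => simp
  | succ j ih =>
    rw [pow_succ s, pow_succ c, Units.val_mul, Matrix.mul_assoc, mul_smul, ← mul_smul_comm s,
      (mul_Pj hc hs).1, ih]

theorem Pj_mul_Pj {c : GLr r} {N : ℕ} (hc : c ^ N = 1) {s : ℂ} (hs : s ^ N = 1) :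
    Pj c N s * Pj c N s = (N : ℂ) • Pj c N s := by
  nth_rewrite 1 [Pj]
  rw [Finset.sum_mul, Finset.sum_congr rfl fun j _ => (smul_mul_assoc _ _ _).trans
    (gpos_pow hc hs (j + 1)), Finset.sum_const, Finset.card_range, Nat.cast_smul_eq_nsmul]

/-- `(c ^ j)ᴴ * H = H * c ^ (N - j)` and `star s ^ j = s ^ (N - j)`; reflect the sum. Alternatively
`(Pj)ᴴ * H * Pj` equals both `N • (H * Pj)` and `N • ((Pj)ᴴ * H)`. -/
theorem Pj_adj {c : GLr r} {N : ℕ} (hN : 0 < N) (hc : c ^ N = 1) {s : ℂ} (hs : s ^ N = 1)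
    {H : Matrix (Fin r) (Fin r) ℂ} (h : Inv H c) : (Pj c N s)ᴴ * H = H * Pj c N s := by
  have h1 : star s * s = 1 := by
    rw [Complex.star_def, Complex.conj_mul', Complex.norm_eq_one_of_pow_eq_one hs hN.ne']
    simp
  have h2 : ∀ j : ℕ, (s ^ j • (c ^ j).val)ᴴ * H * (s ^ j • (c ^ j).val) = H := fun j => by
    have h3 : Inv H (c ^ j) := Inv.mem_closure (s := {c}) (fun u hu => by rw [Set.mem_singleton_iff.1 hu]; exact h)
      (Subgroup.pow_mem _ (Subgroup.subset_closure (Set.mem_singleton c)) j)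
    rw [conjTranspose_smul, smul_mul_assoc, smul_mul_assoc, mul_smul_comm, h3, smul_smul, star_pow,
      ← mul_pow, h1, one_pow, one_smul]
  have h3 : ∀ j : ℕ, (s ^ j • (c ^ j).val) * Pj c N s = Pj c N s := fun j =>
    (smul_mul_assoc _ _ _).trans (gpos_pow hc hs j)
  have h4 : (Pj c N s)ᴴ * H * Pj c N s = N • (H * Pj c N s) := by
    nth_rewrite 1 [Pj]
    rw [conjTranspose_sum, Finset.sum_mul, Finset.sum_mul, Finset.sum_congr rfl fun j _ => by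
      rw [← h3 (j + 1), ← Matrix.mul_assoc, h2], Finset.sum_const, Finset.card_range]
  have h5 : (Pj c N s)ᴴ * H * Pj c N s = N • ((Pj c N s)ᴴ * H) := by
    nth_rewrite 2 [Pj]
    rw [Finset.mul_sum, Finset.sum_congr rfl fun j _ => by
      rw [← h3 (j + 1), conjTranspose_mul, Matrix.mul_assoc _ _ H, Matrix.mul_assoc, h2],
      Finset.sum_const, Finset.card_range]
  rw [h5, ← Nat.cast_smul_eq_nsmul ℂ, ← Nat.cast_smul_eq_nsmul ℂ] at h4
  exact smul_right_injective _ (Nat.cast_ne_zero.2 hN.ne') h4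

/-- `IsPrimitiveRoot.geom_sum_eq_zero` or `IsPrimitiveRoot.pow_sum_eq_zero`-type orthogonality. -/
theorem sum_Pj {c : GLr r} {N : ℕ} (hN : 0 < N) (hc : c ^ N = 1) {η : ℂ}
    (hη : IsPrimitiveRoot η N) : ∑ t ∈ Finset.range N, Pj c N (η ^ t) = (N : ℂ) • 1 := by
  obtain ⟨m, rfl⟩ := Nat.exists_eq_succ_of_ne_zero hN.ne'
  unfold Pj
  rw [Finset.sum_comm, Finset.sum_range_succ, Finset.sum_eq_zero, zero_add, hc]
  · simp only [← pow_mul, mul_comm _ (m + 1)]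
    simp only [pow_mul, hη.pow_eq_one, one_pow, one_smul, Units.val_one, Finset.sum_const,
      Finset.card_range, Nat.cast_smul_eq_nsmul]
  intro j hj
  simp only [← pow_mul, mul_comm _ (j + 1)]
  simp only [pow_mul]
  rw [← Finset.sum_smul, geom_sum_eq
    (hη.pow_ne_one_of_pos_of_lt j.succ_ne_zero (Nat.succ_lt_succ (Finset.mem_range.1 hj))),
    ← pow_mul, mul_comm, pow_mul, hη.pow_eq_one, one_pow, sub_self, zero_div, zero_smul]

/-- For `s ^ N = 1` the matrix `Γ a b = if a ∈ l ∧ b ∈ l then star (e a) ⬝ᵥ H *ᵥ Pj *ᵥ e b else 0` is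
Hermitian (`Pj_adj`) with nonnegative principal minors (`form_refl`: row `a` is
`s a * kap (ζ a) / (kap (ζ a) * (1 - ζ a))` times the row of `hm`; a zero row otherwise), so it is
semidefinite (`posSemidef_of_minors`). The submodule of the `v` such that `Pj *ᵥ v` lies in the span
of the `Pj *ᵥ e b` (`b ∈ l`) is invariant (`mul_Pj`, `Rf.u_mulVec`) and contains `e a ≠ 0`. Hence
`N * (star v ⬝ᵥ H *ᵥ Pj *ᵥ v) = star (Pj v) ⬝ᵥ H *ᵥ Pj v = N * (star y ⬝ᵥ Γ *ᵥ y) ≥ 0`; sum over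
`s = η ^ t` (`sum_Pj`, `Complex.isPrimitiveRoot_exp`); `PosSemidef.posDef_iff_isUnit`. -/
theorem Sys.posDef {S : Sys n r} {l : List (Fin n)} (hi : S.Irr l) {a : Fin n} (ha : a ∈ l)
    (hζ : ∀ a ∈ l, ‖(S.x a).ζ‖ = 1 ∧ (S.x a).ζ ≠ 1) {H : Matrix (Fin r) (Fin r) ℂ}
    (hH : H.IsHermitian) (hu : IsUnit H) (hinv : ∀ γ ∈ S.gp l, Inv H γ)
    (hpos : ∀ b ∈ l, 0 < star (S.x b).e ⬝ᵥ (H *ᵥ (S.x b).e)) {N : ℕ} (hN : 0 < N)
    (hc : S.c ^ N = 1) (hm : ∀ s : ℂ, s ^ N = 1 → ∀ J : Finset (Fin n), (∀ a ∈ J, a ∈ l) →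
      0 ≤ (∏ a ∈ J, kap (S.x a).ζ) *
        minor J (Matrix.of fun a b => (S.x a).f ⬝ᵥ (Pj S.c N s *ᵥ (S.x b).e))) : H.PosDef := by
  have hN' : (N : ℂ) ≠ 0 := Nat.cast_ne_zero.2 hN.ne'
  have key : ∀ s : ℂ, s ^ N = 1 → (H * Pj S.c N s).PosSemidef := by
    intro s hs
    have h1 := Pj_adj hN hc hs (hinv _ (gpos_c S l))
    have h2 : (H * Pj S.c N s).IsHermitian := by
      rw [IsHermitian, conjTranspose_mul, hH.eq, h1]
    let E : Matrix (Fin r) (Fin n) ℂ := Matrix.of fun i b => if b ∈ l then (S.x b).e i else 0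
    have h3 : ∀ b ∈ l, E *ᵥ Pi.single b 1 = (S.x b).e := fun b hb => by
      ext i
      simp [E, hb]
    have h4 : ∀ y z, star y ⬝ᵥ ((Eᴴ * (H * Pj S.c N s) * E) *ᵥ z) =
        star (E *ᵥ y) ⬝ᵥ ((H * Pj S.c N s) *ᵥ (E *ᵥ z)) := fun y z => by
      rw [star_mulVec, ← dotProduct_mulVec, mulVec_mulVec, mulVec_mulVec]
    have h5 : (Eᴴ * (H * Pj S.c N s) * E).PosSemidef := by
      refine posSemidef_of_minors (isHermitian_conjTranspose_mul_mul E h2) fun J => ?_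
      by_cases hJ : ∀ a ∈ J, a ∈ l
      swap
      · push Not at hJ
        obtain ⟨b, hb, hb'⟩ := hJ
        refine (det_eq_zero_of_row_eq_zero (⟨b, hb⟩ : J) fun j => ?_).ge
        simp [Matrix.mul_assoc, mul_apply, E, hb']
      have h6 : ∀ b : J, ∃ t : ℝ, 0 < t ∧ ∀ v, star (S.x b).e ⬝ᵥ (H *ᵥ v) =
          t * kap (S.x b).ζ * ((S.x b).f ⬝ᵥ v) := fun b => by
        have hb := hJ b b.2
        obtain ⟨t, -, e1, e2⟩ := form_refl hH hu (hinv _ (gpos_u S hb)) (hζ b hb).1 (hζ b hb).2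
        obtain ⟨σ, hσ, e3⟩ := gpos_kap (hζ b hb)
        have h7 := hpos b hb
        rw [e1, Complex.zero_lt_real] at h7
        refine ⟨t / σ, div_pos h7 hσ, fun v => ?_⟩
        push_cast
        rw [div_mul_eq_mul_div, div_mul_eq_mul_div, eq_div_iff (Complex.ofReal_ne_zero.2 hσ.ne'),
          ← e3]
        linear_combination -kap (S.x b).ζ * e2 v
      choose t ht h6 using h6
      have h7 : (Eᴴ * (H * Pj S.c N s) * E).submatrix (Subtype.val : J → Fin n) Subtype.val =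
          Matrix.of fun i j : J => (t i * kap (S.x i).ζ) * ((Matrix.of fun a b =>
            (S.x a).f ⬝ᵥ (Pj S.c N s *ᵥ (S.x b).e)).submatrix Subtype.val Subtype.val) i j := by
        ext i j
        have h8 := h4 (Pi.single i 1) (Pi.single j 1)
        rw [h3 _ (hJ i i.2), h3 _ (hJ j j.2), ← mulVec_mulVec (S.x j).e, h6] at h8
        simpa using h8
      rw [minor, h7, det_mul_column, Finset.prod_mul_distrib, mul_assoc,
        Finset.prod_coe_sort J fun a => kap (S.x a).ζ]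
      exact mul_nonneg (Finset.prod_nonneg fun i _ => Complex.zero_le_real.2 (ht i).le)
        (hm s hs J hJ)
    have hs0 : s ≠ 0 := fun e => by
      rw [e, zero_pow hN.ne'] at hs
      exact zero_ne_one hs
    have h6 := hi ((LinearMap.range (Pj S.c N s * E).mulVecLin).comap (Pj S.c N s).mulVecLin)
      (by
        rintro v ⟨y, hy⟩
        refine ⟨s⁻¹ • y, ?_⟩
        rw [map_smul, hy, mulVecLin_apply, mulVecLin_apply, mulVec_mulVec, inv_smul_eq_iff₀ hs0,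
          ← smul_mulVec, (mul_Pj hc hs).2])
      (fun b hb v hv => by
        rw [Rf.u_mulVec]
        refine Submodule.sub_mem _ hv (Submodule.smul_mem _ _ ⟨Pi.single b 1, ?_⟩)
        rw [mulVecLin_apply, ← mulVec_mulVec, h3 b hb, mulVecLin_apply])
    have h7 : ∀ v, ∃ y, Pj S.c N s *ᵥ (E *ᵥ y) = Pj S.c N s *ᵥ v := by
      intro v
      rcases h6 with h | h
      · have h8 : (S.x a).e ∈ (⊥ : Submodule ℂ (Fin r → ℂ)) := h ▸ ⟨Pi.single a 1, by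
          rw [mulVecLin_apply, ← mulVec_mulVec, h3 a ha, mulVecLin_apply]⟩
        have h9 := hpos a ha
        rw [(Submodule.mem_bot ℂ).1 h8, mulVec_zero, dotProduct_zero] at h9
        exact (lt_irrefl _ h9).elim
      · obtain ⟨y, hy⟩ : v ∈ (LinearMap.range (Pj S.c N s * E).mulVecLin).comap
          (Pj S.c N s).mulVecLin := h ▸ Submodule.mem_top
        exact ⟨y, (mulVec_mulVec _ _ _).trans hy⟩
    have h8 : ∀ v, star (Pj S.c N s *ᵥ v) ⬝ᵥ (H *ᵥ (Pj S.c N s *ᵥ v)) =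
        N * (star v ⬝ᵥ ((H * Pj S.c N s) *ᵥ v)) := fun v => by
      rw [gpos_adj, mulVec_mulVec, h1, Matrix.mul_assoc, Pj_mul_Pj hc hs, mul_smul_comm,
        smul_mulVec, dotProduct_smul, smul_eq_mul]
    refine .of_dotProduct_mulVec_nonneg h2 fun v => ?_
    obtain ⟨y, hy⟩ := h7 v
    have h9 := h8 (E *ᵥ y)
    rw [hy, h8] at h9
    rw [mul_left_cancel₀ hN' h9, ← h4]
    exact h5.dotProduct_mulVec_nonneg y
  have hη := Complex.isPrimitiveRoot_exp N hN.ne'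
  have h1 := (posSemidef_sum (Finset.range N) fun t _ => key _
    (show (_ ^ t) ^ N = 1 by rw [← pow_mul, mul_comm t, pow_mul, hη.pow_eq_one, one_pow])).smul
    (inv_nonneg.2 (Nat.cast_nonneg N) : (0 : ℂ) ≤ (N : ℂ)⁻¹)
  rw [← Finset.mul_sum, sum_Pj hN hc hη, mul_smul_comm, mul_one, smul_smul, inv_mul_cancel₀ hN',
    one_smul] at h1
  exact h1.posDef_iff_isUnit.2 hu

end Pool.Agent.GR
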