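import Pool.Agent.Lib.MP_aa40d3_nt.GR2.GAdm
import Pool.Agent.Lib.MP_aa40d3_nt.GR2.GPos
import Pool.Agent.Lib.MP_aa40d3_nt.GR2.GFin

/-! Finiteness of the group generated by one matrix and reflections. -/

open Polynomial Matrix
open scoped ComplexOrder

namespace Pool.Agent.GR

variable {n r : ℕ} {ρ : Fin n → ℝ} {g : Fin n → GLr r} {ε : Fin n → Fin r → ℂ}

/-- A subspace invariant under generators of finite order, or any generators in finite dimension,
is invariant under the group: the stabiliser `{u | U.map u = U}` is a subgroup. -/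
theorem irr_of_irrT (hi : IrrT g) {S : Sys n r} {l : List (Fin n)}
    (h : S.gp l = Subgroup.closure (Set.range g)) : S.Irr l := by
  intro U hc hx
  have key : ∀ u : GLr r, (∀ v ∈ U, u.val *ᵥ v ∈ U) → ∀ v ∈ U, (u⁻¹).val *ᵥ v ∈ U := by
    intro u hu v hv
    let L : U →ₗ[ℂ] U := (Matrix.mulVecLin u.val).restrict hu
    have hinj : Function.Injective L := by
      intro x y hxy
      have h1 : u.val *ᵥ x.1 = u.val *ᵥ y.1 := congrArg Subtype.val hxy
      have h2 := congrArg (fun w => (u⁻¹).val *ᵥ w) h1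
      simp only [mulVec_mulVec, Units.inv_mul, one_mulVec] at h2
      exact Subtype.ext h2
    obtain ⟨w, hw⟩ := LinearMap.surjective_of_injective hinj ⟨v, hv⟩
    have h1 : u.val *ᵥ w.1 = v := congrArg Subtype.val hw
    rw [← h1, mulVec_mulVec, Units.inv_mul, one_mulVec]
    exact w.2
  have hall : ∀ γ ∈ S.gp l, ∀ v ∈ U, γ.val *ᵥ v ∈ U := by
    intro γ hγ
    induction hγ using Subgroup.closure_induction with
    | mem x hx' =>
      rcases hx' with rfl | ⟨a, ha, rfl⟩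
      · exact hc
      · exact hx a ha
    | one => intro v hv; simpa using hv
    | mul x y _ _ h1 h2 =>
      intro v hv
      rw [Units.val_mul, ← mulVec_mulVec]
      exact h1 _ (h2 v hv)
    | inv x _ h1 => exact key x h1
  refine hi U fun a => hall _ ?_
  rw [h]
  exact Subgroup.subset_closure ⟨a, rfl⟩

/-- `exists_sys`, `cls1_Ad`, `Cls1.ww`, `exists_form`, `Sys.signs` (with `Ad.tw` iterated,
`Ad.front`, `Ad.spec`, `pair_sign`), `Sys.minor_sign`, `Sys.posDef`. -/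
theorem exists_posDef [NeZero r] (o : Fin n)
    (hch : ∀ i, (g i).val.charpoly = ∏ j, (X - C (ε i j)))
    (hr : ∀ a, a ≠ o → ∃ e f : Fin r → ℂ, (g a).val = 1 - vecMulVec e f) (hi : IrrT g)
    (hρ : Function.Injective ρ) (ho : Loops ρ g ε) {a : Fin n} (ha : a ≠ o) (h1 : g a ≠ 1) :
    ∃ H : Matrix (Fin r) (Fin r) ℂ, H.PosDef ∧ ∀ γ ∈ Subgroup.closure (Set.range g), Inv H γ := by
  obtain ⟨S, l, hA, hz1, hgp, hact⟩ := exists_sys hρ ho hch o hr
  have hal : a ∈ l := hact a ha h1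
  have hC := cls1_Ad hρ ho hch
  have hnd : l.Nodup := hC.nodup ⟨_, hA⟩
  have hirr : S.Irr l := irr_of_irrT hi hgp
  have hζ : ∀ b ∈ l, ‖(S.x b).ζ‖ = 1 ∧ (S.x b).ζ ≠ 1 := fun b hb =>
    ⟨hC.zeta ⟨_, hA⟩ b hb, hz1 b hb⟩
  obtain ⟨H, hH, hu, hinv, hpos⟩ :=
    exists_form hirr hal (hζ a hal).1 (hζ a hal).2 (hC.ww ⟨_, hA⟩)
  have hε : ∀ z j, ‖ε z j‖ = 1 := fun z j => ((ho.finOrder hρ hch z).2 j).norm_eq_one
  have hsg : ∀ b ∈ l, 0 < star (S.x b).e ⬝ᵥ (H *ᵥ (S.x b).e) := by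
    intro b hb
    refine Sys.signs hnd hirr hζ hH hu hinv hal hpos (fun u v huv k => ?_) hb
    have huv' : u ≠ v := by
      have := huv.nodup hnd
      simpa using this
    have hv : v ∉ [u] := by simpa using huv'.symm
    have hk : Ad ρ g [o] ([u] ++ [v]) (S.tw v (S.prod [u] ^ k)) := by
      induction k with
      | zero => simpa [Sys.tw_one] using hA.del hρ huv
      | succ k ih =>
        have := ih.tw hρ
        rwa [Sys.tw_prod _ hv, Sys.tw_tw, ← pow_succ] at this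
    have hf := Ad.front hρ hk
    have hul : u ∈ l := huv.subset (by simp)
    have hvl : v ∈ l := huv.subset (by simp)
    have h2 := pair_sign (y := (S.tw v (S.prod [u] ^ k)).x u) (hε u)
      ((hf.charpoly_c).trans (hch u)) (hf.spec hρ ho hch)
      (by rw [Sys.tw_zeta]; exact hζ u hul) (by rw [Sys.tw_zeta]; exact hζ v hvl)
      (by simpa [Sys.prod_nil] using ((hf.del hρ (List.nil_sublist _)).orr ho).1)
    rw [Sys.tw_zeta, Sys.tw_zeta] at h2
    rw [Sys.M_zero, Sys.M_zero]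
    exact h2
  have hfo : IsOfFinOrder S.c := by
    simpa [Sys.prod_nil] using ((hA.del hρ (List.nil_sublist _)).orr ho).1
  obtain ⟨N, hN, hcN⟩ := isOfFinOrder_iff_pow_eq_one.1 hfo
  refine ⟨H, Sys.posDef hirr hal hζ hH hu hinv hsg hN hcN fun s hs J hJ => ?_, hgp ▸ hinv⟩
  exact Sys.minor_sign hnd (hε o) (hA.charpoly_c.trans (hch o)) (hA.spec hρ ho hch) hζ hN hcN hs hJ

theorem IrrT.mapU (hi : IrrT g) (τ : ℂ ≃+* ℂ) : IrrT fun a => mapU (τ : ℂ →+* ℂ) (g a) := by
  intro U hU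
  let φ : (Fin r → ℂ) → Fin r → ℂ := fun v i => τ (v i)
  let W : Submodule ℂ (Fin r → ℂ) :=
    { carrier := {v | φ v ∈ U}
      add_mem' := fun {v w} hv hw => by
        have : φ (v + w) = φ v + φ w := by ext i; simp [φ]
        show φ (v + w) ∈ U
        rw [this]
        exact U.add_mem hv hw
      zero_mem' := by
        have : φ 0 = 0 := by ext i; simp [φ]
        show φ 0 ∈ U
        rw [this]
        exact U.zero_mem
      smul_mem' := fun c v hv => by
        have : φ (c • v) = τ c • φ v := by ext i; simp [φ]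
        show φ (c • v) ∈ U
        rw [this]
        exact U.smul_mem _ hv }
  have hsurj : ∀ w, ∃ v, φ v = w := fun w => ⟨fun i => τ.symm (w i), by ext i; simp [φ]⟩
  have hW := hi W fun a v hv => by
    have : φ ((g a).val *ᵥ v) = (GR.mapU (τ : ℂ →+* ℂ) (g a)).val *ᵥ φ v := by
      ext i
      simp [φ, GR.mapU, mulVec, dotProduct]
    show φ _ ∈ U
    rw [this]
    exact hU a _ hv
  rcases hW with hW | hW
  · refine Or.inl ((Submodule.eq_bot_iff _).2 fun w hw => ?_)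
    obtain ⟨v, rfl⟩ := hsurj w
    have : v = 0 := (Submodule.eq_bot_iff _).1 hW v hw
    rw [this]
    ext i
    simp [φ]
  · refine Or.inr (Submodule.eq_top_iff'.2 fun w => ?_)
    obtain ⟨v, rfl⟩ := hsurj w
    exact Submodule.eq_top_iff'.1 hW v

theorem Loops.mapU (ho : Loops ρ g ε) (τ : ℂ ≃+* ℂ) :
    Loops ρ (fun a => mapU (τ : ℂ →+* ℂ) (g a)) fun i j => τ (ε i j) := by
  intro μ hμ l hl
  obtain ⟨h1, ω, h2, h3, h4⟩ := ho μ hμ l hl
  have e1 : (l.map (mvTL μ ρ fun a => GR.mapU (τ : ℂ →+* ℂ) (g a))).prod =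
      GR.mapU (τ : ℂ →+* ℂ) (l.map (mvTL μ ρ g)).prod := by
    rw [mvTL_map, map_list_prod, List.map_map]
    rfl
  have e2 : ∀ u : GLr r, (GR.mapU (τ : ℂ →+* ℂ) u).val = u.val.map (τ : ℂ →+* ℂ) := fun _ => rfl
  rw [e1, e2]
  refine ⟨(τ : ℂ →+* ℂ).mapMatrix.toMonoidHom.isOfFinOrder h1, fun j => τ (ω j),
    fun j => (τ : ℂ →+* ℂ).toMonoidHom.isOfFinOrder (h2 j), ?_, fun τ' η hη => ?_⟩
  · rw [charpoly_map, h3, Polynomial.map_prod]
    simp
  · have := h4 (τ'.comp (τ : ℂ →+* ℂ)) (fun i => τ.symm (η i))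
      fun i => (τ.symm : ℂ →+* ℂ).toMonoidHom.isOfFinOrder (hη i)
    simpa [map_prod] using this

/-- If all `g a` (`a ≠ o`) are trivial the group is generated by `g o`, of finite order. Otherwise
use `exists_sys` and `Sys.finite_gp`; the bound comes from `exists_posDef` for the conjugate
tuple and `norm_coef_le` for the conjugate reflection. -/
theorem group_finite2 [NeZero r] {g : Fin n → (Matrix (Fin r) (Fin r) ℂ)ˣ}
    {ε : Fin n → Fin r → ℂ} (o : Fin n) (hch : ∀ i, (g i).val.charpoly = ∏ j, (X - C (ε i j)))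
    (hr : ∀ a, a ≠ o → ∃ e f : Fin r → ℂ, (g a).val = 1 - vecMulVec e f) (hi : IrrT g)
    {ρ : Fin n → ℝ} (hρ : Function.Injective ρ)
    (ho : ∀ μ, ValidL μ ρ → ∀ l, LowerL (rhoL μ ρ) l →
      OrrM ε l.toFinset ((l.map (mvTL μ ρ g)).prod).val) :
    Finite (Subgroup.closure (Set.range g)) := by
  classical
  have ho' : Loops ρ g ε := ho
  by_cases hact : ∃ a, a ≠ o ∧ g a ≠ 1
  swap
  · have h1 : Subgroup.closure (Set.range g) ≤ Subgroup.zpowers (g o) := by
      rw [Subgroup.closure_le]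
      rintro _ ⟨a, rfl⟩
      by_cases ha : a = o
      · rw [ha]; exact Subgroup.mem_zpowers _
      · have : g a = 1 := by
          by_contra h
          exact hact ⟨a, ha, h⟩
        rw [this]; exact one_mem _
    have h2 : (Subgroup.zpowers (g o) : Set (GLr r)).Finite :=
      finite_zpowers.2 (ho'.finOrder hρ hch o).1
    exact (h2.subset h1).to_subtype
  obtain ⟨a, ha, h1⟩ := hact
  obtain ⟨S, l, hA, hz1, hgp, hact⟩ := exists_sys hρ ho' hch o hr
  have hal : a ∈ l := hact a ha h1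
  have hnd : l.Nodup := (cls1_Ad hρ ho' hch).nodup ⟨_, hA⟩
  have hfo : IsOfFinOrder S.c := by
    simpa [Sys.prod_nil] using ((hA.del hρ (List.nil_sublist _)).orr ho').1
  obtain ⟨N, hN, hcN⟩ := isOfFinOrder_iff_pow_eq_one.1 hfo
  rw [← hgp]
  refine Sys.finite_gp (irr_of_irrT hi hgp) hal (hz1 a hal) (fun b hb => hA.zeta hρ ho' hch hb)
    hN hcN (Sys.walk_integral hnd hN hcN (hA.spec hρ ho' hch)) fun τ γ hγ => ?_
  have e2 : ∀ u : GLr r, (mapU (τ : ℂ →+* ℂ) u).val = u.val.map (τ : ℂ →+* ℂ) := fun _ => rfl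
  have e3 : ∀ e f : Fin r → ℂ, (1 - vecMulVec e f).map (τ : ℂ →+* ℂ) =
      1 - vecMulVec (fun i => τ (e i)) fun i => τ (f i) := by
    intro e f
    ext i j
    by_cases hij : i = j <;> simp [vecMulVec_apply, hij]
  obtain ⟨H, hH, hinv⟩ := exists_posDef (g := fun a => mapU (τ : ℂ →+* ℂ) (g a))
    (ε := fun i j => τ (ε i j)) o
    (fun i => by rw [e2, charpoly_map, hch, Polynomial.map_prod]; simp)
    (fun b hb => by
      obtain ⟨e, f, h⟩ := hr b hb
      exact ⟨_, _, by rw [e2, h, e3]⟩) (hi.mapU τ) hρ (ho'.mapU τ) ha (fun h => h1 (by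
      refine Units.ext ?_
      have h2 := congrArg Units.val h
      rw [e2] at h2
      ext i j
      apply τ.injective
      have h3 := congrFun (congrFun h2 i) j
      by_cases hij : i = j <;> simpa [Matrix.one_apply, hij] using h3))
  have hmem : ∀ δ ∈ S.gp l, Inv H (mapU (τ : ℂ →+* ℂ) δ) := by
    intro δ hδ
    refine hinv _ ?_
    rw [hgp] at hδ
    have := Subgroup.mem_map_of_mem (mapU (τ : ℂ →+* ℂ)) hδ
    rwa [MonoidHom.map_closure, ← Set.range_comp] at this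
  let x : Rf r := ⟨τ (S.x a).ζ, fun i => τ ((S.x a).e i), fun i => τ ((S.x a).f i),
    (map_ne_zero τ).2 (S.x a).ne, by
      rw [← map_one τ, ← map_sub, ← (S.x a).dot]
      simp [dotProduct]⟩
  have hxu : x.u = mapU (τ : ℂ →+* ℂ) (S.x a).u := Units.ext (by rw [e2, Rf.u_val, Rf.u_val, e3])
  have h2 := norm_coef_le hH (x := x)
    (hxu ▸ hmem _ (Subgroup.subset_closure (Set.mem_insert_of_mem _ ⟨a, hal, rfl⟩)))
    ((τ : ℂ →+* ℂ).toMonoidHom.isOfFinOrder (hA.zeta hρ ho' hch hal)).norm_eq_one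
    (fun h => hz1 a hal (τ.injective (h.trans (map_one τ).symm))) (hmem γ hγ)
  have h3 : τ ((S.x a).f ⬝ᵥ (γ.val *ᵥ (S.x a).e)) =
      x.f ⬝ᵥ ((mapU (τ : ℂ →+* ℂ) γ).val *ᵥ x.e) := by
    simp [x, e2, dotProduct, mulVec]
  rw [h3]
  exact h2

end Pool.Agent.GR
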