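import Pool.Agent.Lib.MP_aa40d3_nt.GR.Core
import Pool.Agent.Lib.MP_aa40d3_nt.GR2.Path2
import Pool.Agent.Lib.MP_aa40d3_nt.GR2.Mono2
import Pool.Agent.Lib.MP_aa40d3_nt.GR2.GMain
import Pool.Agent.Lib.MP_aa40d3_nt.GR2.ModelEx2
import Pool.Agent.Lib.MP_aa40d3_nt.GR2.Top2

/-! The theorem for integral exponents. -/

open Polynomial Matrix Set
open scoped Matrix.Norms.Operator

namespace Pool.Agent.GR

variable {n r : ℕ} [NeZero r]

omit [NeZero r] in
theorem core2_single {g : Fin n → (Mat r)ˣ} {ε : Fin n → Fin r → ℂ} {ρ : Fin n → ℝ}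
    (ho : ∀ μ, ValidL μ ρ → ∀ l, LowerL (rhoL μ ρ) l →
      OrrM ε l.toFinset ((l.map (mvTL μ ρ g)).prod).val) (i : Fin n) :
    OrrM ε {i} (g i).val := by
  obtain ⟨x, hx⟩ : ∃ x : ℝ, ∀ c, x < ρ c := by
    obtain ⟨y, hy⟩ := (Set.finite_range ρ).bddBelow
    exact ⟨y - 1, fun c => by linarith [hy ⟨c, rfl⟩]⟩
  have h := ho [(i, x)] ⟨hx i, fun c => (hx c).ne', trivial⟩ [i] ⟨List.pairwise_singleton _ _,
    fun a ha b hb => by
      rw [List.mem_singleton] at ha ⊢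
      by_contra hbi
      subst ha
      simp only [rhoL, Function.update_self, Function.update_of_ne hbi] at hb
      exact lt_asymm hb (hx b)⟩
  simpa [mvTL, mvT, not_mem_mvS] using h

theorem core2 {t : Fin n → ℂ} (ht : AlgebraicIndependent ℚ t)
    (hre : Function.Injective fun i => (t i).re) {A : Fin n → Matrix (Fin r) (Fin r) ℂ}
    (o : Fin n) (hq : ∀ i, i ≠ o → ∃ (mu : ℂ) (m : Fin (r - 1) → ℤ),
      (A i).charpoly = (X - C mu) * ∏ j, (X - C (m j : ℂ)))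
    (hirr : Irred t A) (hpc : PC t A) : AlgSol t A := by
  classical
  obtain ⟨D, a, hD, hch⟩ := exps_rat2 ht.injective hpc
  obtain ⟨M, w, θ, hMD, hMa, hF, hG, hw, hA⟩ :=
    exists_model2 ht hD hch (cycH_ne_zero_of_irred hirr) hpc
  obtain ⟨H, hH, hb⟩ : ∃ H : ℝ, 0 < H ∧ InBox (pp t) H := by
    refine ⟨1 + ∑ i, ‖t i‖, by positivity, fun i => ?_⟩
    have h1 : ‖t i‖ ≤ ∑ i, ‖t i‖ :=
      Finset.single_le_sum (f := fun i => ‖t i‖) (fun _ _ => norm_nonneg _) (Finset.mem_univ i)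
    exact ⟨by have := Complex.abs_re_le_norm (t i); simp only [pp]; linarith,
      by have := Complex.abs_im_le_norm (t i); simp only [pp]; linarith⟩
  have hwt : (fun i => w (Sum.inl i)) = t := funext hw
  have hmon : mon2 M H (w, θ) = vt (TT t A) (pp t) H := by
    simp only [mon2, hwt, hA]
  have hcham : w ∈ Cham M.m (fun i => (t i).re) H := by
    refine ⟨by rw [hwt]; exact hb, fun a b hab => ?_⟩
    rw [hw, hw]; exact hab
  have ho : ∀ μ, ValidL μ (fun i => (t i).re) → ∀ l, LowerL (rhoL μ fun i => (t i).re) l →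
      OrrM M.ε l.toFinset
        ((l.map (mvTL μ (fun i => (t i).re) (vt (TT t A) (pp t) H))).prod).val := by
    intro μ hμ l hl
    have := path2 M hH μ hre hμ hl hcham hG hF
    rwa [hmon] at this
  have h1 := core2_single ho
  have hε : ∀ i j, IsOfFinOrder (M.ε i j) := fun i j =>
    (algebraicClosure ℚ ℂ).val.toRingHom.toMonoidHom.isOfFinOrder (isOfFinOrder_ez _)
  have hcp : ∀ i, (vt (TT t A) (pp t) H i).val.charpoly = ∏ j, (X - C (M.ε i j)) := fun i =>
    orr2_single (hε i) (h1 i).2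
  have hrefl : ∀ i, i ≠ o → ∃ e f : Fin r → ℂ,
      (vt (TT t A) (pp t) H i).val = 1 - vecMulVec e f := by
    intro i hi
    obtain ⟨mu, m, hm⟩ := hq i hi
    obtain ⟨ζ, hζ⟩ := eps_refl hD (hch i) hm
    refine refl_of_fin (h1 i).1 (ζ := ζ) ?_
    rw [hcp, ← hζ]
    simp only [Model2.ε, hMa, hMD]
  obtain ⟨E, hE, hgE⟩ : ∃ E : ℕ, 0 < E ∧ ∀ i, (vt (TT t A) (pp t) H i).val ^ E = 1 := by
    choose k hk0 hk using fun i => isOfFinOrder_iff_pow_eq_one.1 (h1 i).1
    refine ⟨∏ i, k i, Finset.prod_pos fun i _ => hk0 i, fun i => ?_⟩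
    obtain ⟨c, hc⟩ := Finset.dvd_prod_of_mem k (Finset.mem_univ i)
    rw [hc, pow_mul, hk, one_pow]
  set U : Set ℂ := {x | ∀ i, x.im < (t i).im} with hU
  have hUo : IsOpen U := by
    rw [hU, ofPred_forall]
    exact isOpen_iInter_of_finite fun i => isOpen_lt Complex.continuous_im continuous_const
  have hUc : Convex ℝ U := by
    rw [hU, ofPred_forall]
    exact convex_iInter fun i => convex_halfSpace_im_lt _
  have hx₀ : cpt (-H, -H) ∈ U := fun i => by
    have := (hb i).2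
    simp only [pp, cpt] at this ⊢
    exact (abs_lt.1 this).1
  have hY : ∀ x ∈ U, (∀ i, x ≠ t i) ∧ (T t A (cpt (-H, -H)) x).det ≠ 0 ∧
      HasDerivAt (T t A (cpt (-H, -H))) (sys t A x * T t A (cpt (-H, -H)) x) x := by
    intro x hx
    refine ⟨fun i h => lt_irrefl _ (h ▸ hx i), ?_, hasDerivAt_T A fun i hi => ?_⟩
    · exact ((Matrix.isUnit_iff_isUnit_det _).1 (isUnit_Tr _)).ne_zero
    · exact lt_irrefl _ (hUc.segment_subset hx₀ hx hi i)
  have hext := extProp hre A hH.le hb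
  have hi : IrrT (vt (TT t A) (pp t) H) :=
    irrT_of_irred2 hirr hE hgE hUo hx₀ (T_self _ _ _) hY hext
  have hfin : Finite (Subgroup.closure (Set.range (vt (TT t A) (pp t) H))) :=
    group_finite2 o hcp hrefl hi hre ho
  obtain ⟨ε, hε, hball⟩ := Metric.isOpen_iff.1 hUo _ hx₀
  refine ⟨cpt (-H, -H), ε, T t A (cpt (-H, -H)), hε, fun x hx => ?_, fun a b => ?_⟩
  · obtain ⟨h1, h2, h3⟩ := hY x (hball hx)
    exact ⟨h1, h2, hasDerivAt_mat.1 h3⟩
  · obtain ⟨P, hP, h⟩ := alg_of_finite hfin hext a b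
    exact ⟨P, hP, fun x hx => h x (hball hx)⟩

end Pool.Agent.GR
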