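import Pool.Agent.Lib.MP_aa40d3_nt.GR2.Core2
import Pool.Agent.Lib.MP_aa40d3_nt.GR.TopA
import Pool.Agent.Lib.MP_aa40d3_nt.GR.TopB
import Pool.Agent.Lib.MP_aa40d3_nt.GR.PcMax
import Pool.Agent.Lib.MP_aa40d3_nt.GR.Spec

open Polynomial Pool.Agent.GR

namespace Pool.Agent.GR

theorem final2 (n r : ℕ) (hr : 2 ≤ r) (R : Type) [CommRing R] [Algebra.FiniteType ℤ R]
    (ι : R →+* ℂ) (hι : Function.Injective ι) (t : Fin n → R)
    (A : Fin n → Matrix (Fin r) (Fin r) R) (o : Fin n)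
    (ht : ∃ a b : ℂ, a ≠ 0 ∧ AlgebraicIndependent ℚ fun i => a * ι (t i) + b)
    (hexp : ∀ i, i ≠ o → ∃ (lam mu : ℂ) (m : Fin (r - 1) → ℤ),
      ((A i).map ι).charpoly = (X - C mu) * ∏ j, (X - C (lam + m j)))
    (hirr : Irred (fun i => ι (t i)) fun i => (A i).map ι)
    (hp : ∀ m : Ideal R, m.IsMaximal →
      HasFund (fun i => Ideal.Quotient.mk m (t i)) fun i => (A i).map (Ideal.Quotient.mk m))
    (φ : R →+* ℂ) : AlgSol (fun i => φ (t i)) fun i => (A i).map φ := by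
  classical
  have : NeZero r := ⟨by omega⟩
  obtain ⟨a, b, ha, hab⟩ := ht
  obtain ⟨t', c, d, hc, htt, hind, hre⟩ := exists_rotation ha hab
  have hinj : Function.Injective fun i => ι (t i) := fun i j h =>
    hab.injective (by simp only at h ⊢; rw [h])
  have hpc := pc_of_max ι hι hp
  obtain ⟨D, a', hD, hch⟩ := exps_rat2 hinj hpc
  have key : ∀ i, ∃ (lam : ℂ) (b : ℤ), (D : ℂ) * lam = b ∧ (i ≠ o → ∃ (mu : ℂ)
      (m : Fin (r - 1) → ℤ), ((A i).map ι - lam • (1 : Matrix (Fin r) (Fin r) ℂ)).charpoly =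
        (X - C mu) * ∏ j, (X - C (m j : ℂ))) := by
    intro i
    by_cases hi : i = o
    · exact ⟨0, 0, by simp, fun h => absurd hi h⟩
    · obtain ⟨lam, mu, m, hm⟩ := hexp i hi
      obtain ⟨b, hb⟩ := lam_rat hr hD (hch i) hm
      exact ⟨lam, b, hb, fun _ => ⟨_, m, charpoly_twist hm⟩⟩
  choose lam b' hb' hq using key
  exact AlgSol.spec ι φ hι t A (AlgSol.twist hD hb' (AlgSol.aff hc htt (core2 hind hre o hq
    ((hirr.twist lam).aff hc htt) ((hpc.twist hD hb').aff hc htt))))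

end Pool.Agent.GR
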