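import Pool.Agent.Lib.MP_aa40d3_nt.GR2.GLow

/-! Admissible systems. -/

open Polynomial Matrix

namespace Pool.Agent.GR

variable {n r : ℕ} {ρ : Fin n → ℝ} {g : Fin n → GLr r} {ε : Fin n → Fin r → ℂ}

theorem gadm_conj {G : Type*} [Group G] {h h' : Fin n → G} {u : G} {l : List (Fin n)}
    (e : ∀ a ∈ l, h' a = u * h a * u⁻¹) : (l.map h').prod = u * (l.map h).prod * u⁻¹ := by
  induction l with
  | nil => simp
  | cons a l ih =>
    rw [List.map_cons, List.map_cons, List.prod_cons, List.prod_cons, e a List.mem_cons_self,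
      ih fun b hb => e b (List.mem_cons_of_mem _ hb)]
    group

theorem gadm_prod {h : Fin n → GLr r} {u : GLr r} {L₀ l : List (Fin n)} {S : Sys n r}
    (h2 : S.c = u * (L₀.map h).prod * u⁻¹) (h3 : ∀ a ∈ l, (S.x a).u = u * h a * u⁻¹) :
    S.prod l = u * ((L₀ ++ l).map h).prod * u⁻¹ := by
  rw [Sys.prod, h2, gadm_conj h3, List.map_append, List.prod_append]
  group

theorem gadm_chp {a b : GLr r} (h : IsConj a b) : a.val.charpoly = b.val.charpoly := by
  obtain ⟨u, rfl⟩ := isConj_iff.1 h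
  rw [Units.val_mul, charpoly_mul_comm, ← Units.val_mul, inv_mul_cancel_left]

theorem gadm_roots (ω : Fin r → ℂ) : (∏ j, (X - C (ω j))).roots = Finset.univ.val.map ω := by
  rw [← roots_multiset_prod_X_sub_C (Finset.univ.val.map ω), Multiset.map_map]
  rfl

theorem gadm_rf {u : GLr r} {e f : Fin r → ℂ} (h : u.val = 1 - vecMulVec e f)
    (ho : IsOfFinOrder u) (h1 : u ≠ 1) : ∃ x : Rf r, x.u = u ∧ x.ζ ≠ 1 := by
  refine ⟨⟨1 - f ⬝ᵥ e, e, f, fun h0 => ?_, by ring⟩, Units.ext h.symm, fun h0 => h1 ?_⟩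
  · have e1 : u.val *ᵥ e = 0 := by
      rw [h, sub_mulVec, one_mulVec, vecMulVec_mulVec, op_smul_eq_smul, ← sub_eq_zero.1 h0,
        one_smul, sub_self]
    have e2 := congrArg ((u⁻¹).val *ᵥ ·) e1
    simp only [mulVec_mulVec, Units.inv_mul, one_mulVec, mulVec_zero] at e2
    simp [e2] at h0
  · have e0 : f ⬝ᵥ e = 0 := sub_eq_self.1 h0
    have e1 : ∀ k : ℕ, (u ^ k).val = 1 - (k : ℂ) • vecMulVec e f := by
      intro k
      induction k with
      | zero => simp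
      | succ k ih =>
        rw [pow_succ, Units.val_mul, ih, h, mul_sub, mul_one, sub_mul, one_mul, smul_mul_assoc,
          vecMulVec_mul_vecMulVec, e0, zero_smul, vecMulVec_zero, smul_zero, Nat.cast_succ,
          add_smul, one_smul]
        abel
    obtain ⟨k, hk, e2⟩ := isOfFinOrder_iff_pow_eq_one.1 ho
    have e3 := e1 k
    rw [e2, Units.val_one, eq_comm, sub_eq_self, smul_eq_zero, Nat.cast_eq_zero] at e3
    exact Units.ext (by rw [h, e3.resolve_left hk.ne', sub_zero, Units.val_one])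

theorem Ad.del (hρ : Function.Injective ρ) {L₀ l l' : List (Fin n)} {S : Sys n r}
    (h : Ad ρ g L₀ l S) (hs : l'.Sublist l) : Ad ρ g L₀ l' S := by
  obtain ⟨h, u, h1, h2, h3⟩ := h
  obtain ⟨h', a1, a2⟩ := h1.sub hρ hs
  refine ⟨h', u, a1, ?_, fun a ha => ?_⟩
  · rw [h2, List.map_congr_left fun a ha => a2 a (List.mem_append_left _ ha)]
  · rw [a2 a (List.mem_append_right _ ha), h3 a (hs.subset ha)]

theorem Ad.abs {L₀ l : List (Fin n)} {i : Fin n} {S : Sys n r} (h : Ad ρ g L₀ (i :: l) S) :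
    Ad ρ g (L₀ ++ [i]) l (S.abs i) := by
  obtain ⟨h, u, h1, h2, h3⟩ := h
  refine ⟨h, u, by simpa using h1, ?_, fun a ha => h3 a (List.mem_cons_of_mem _ ha)⟩
  change S.c * (S.x i).u = _
  rw [h2, h3 i List.mem_cons_self, List.map_append, List.prod_append, List.map_singleton,
    List.prod_singleton]
  group

/-- `Low.sink` with `L₂ = [b]` gives `L₀ ++ [b, a]`; delete `b` with `Low.sub`. -/
theorem Ad.br (hρ : Function.Injective ρ) {L₀ : List (Fin n)} {a b : Fin n} {S : Sys n r}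
    (h : Ad ρ g L₀ [a, b] S) : Ad ρ g L₀ [a] (S.tw a (S.x b).u) := by
  obtain ⟨h, u, h1, h2, h3⟩ := h
  have nd := h1.nodup
  have h4 := h1.sink hρ
  rw [List.append_assoc] at h4
  obtain ⟨h', a1, a2⟩ := h4.sub hρ (l' := [a]) (by simp)
  refine ⟨h', u, a1, ?_, fun c hc => ?_⟩
  · rw [List.map_congr_left (g := h) fun c hc => by
      rw [a2 c (List.mem_append_left _ hc), Function.update_of_ne]
      exact (List.nodup_append.1 nd).2.2 c hc a (by simp)]
    exact h2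
  · obtain rfl := List.mem_singleton.1 hc
    rw [Sys.tw_self, Rf.cj_u, a2 c (by simp), Function.update_self, h3 c (by simp), h3 b (by simp),
      List.map_singleton, List.prod_singleton]
    group

/-- Move `b` to the far left (`Low.move` with `L₁ = []`; this conjugates all others by `h b`, so
replace `u` by `u * h b`), then `Low.sink` with `L₁ = []`. -/
theorem Ad.tw (hρ : Function.Injective ρ) {L₀ l : List (Fin n)} {b : Fin n} {S : Sys n r}
    (h : Ad ρ g L₀ (l ++ [b]) S) : Ad ρ g L₀ (l ++ [b]) (S.tw b (S.prod l)) := by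
  obtain ⟨h, u, h1, h2, h3⟩ := h
  have hp := gadm_prod h2 fun a ha => h3 a (List.mem_append_left _ ha)
  rw [← List.append_assoc] at h1
  have nb : ∀ a ∈ L₀ ++ l, a ≠ b := fun a ha =>
    (List.nodup_append.1 h1.nodup).2.2 a ha b (by simp)
  have h5 := Low.move hρ (L₁ := []) (T := L₀ ++ l) (L₂ := []) (i := b) h1
  rw [List.append_nil] at h5
  have h4 := Low.sink hρ (L₁ := []) (L₂ := L₀ ++ l) (i := b) h5
  have e1 : ∀ a ∈ L₀ ++ l, mvT h b (L₀ ++ l).toFinset a = (h b)⁻¹ * h a * (h b)⁻¹⁻¹ :=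
    fun a ha => by rw [mvT, if_pos (List.mem_toFinset.2 ha), inv_inv]
  have e2 : mvT h b (L₀ ++ l).toFinset b = h b :=
    if_neg fun hb => nb b (List.mem_toFinset.1 hb) rfl
  rw [gadm_conj e1, e2, List.nil_append, List.append_assoc] at h4
  refine ⟨_, u * h b, h4, ?_, fun a ha => ?_⟩
  · rw [gadm_conj (h := h) (u := (h b)⁻¹) fun a ha => by
      rw [Function.update_of_ne (nb a (List.mem_append_left _ ha)),
        e1 a (List.mem_append_left _ ha)]]
    change S.c = _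
    rw [h2]
    group
  · rcases List.mem_append.1 ha with ha' | ha'
    · have := List.mem_append_right L₀ ha'
      rw [Sys.tw_ne _ (nb a this), Function.update_of_ne (nb a this), e1 a this, h3 a ha]
      group
    · obtain rfl := List.mem_singleton.1 ha'
      rw [Sys.tw_self, Rf.cj_u, Function.update_self, h3 a ha, hp]
      group

theorem Ad.front (hρ : Function.Injective ρ) {L₀ : List (Fin n)} {a b : Fin n} {S : Sys n r}
    (h : Ad ρ g L₀ [a, b] S) : Ad ρ g [a] [b] ⟨(S.x a).u, S.x⟩ := by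
  obtain ⟨h, u, h1, -, h3⟩ := h
  obtain ⟨h', a1, a2, a3⟩ := h1.front hρ
  refine ⟨h', u, a1, ?_, fun c hc => ?_⟩
  · rw [List.map_singleton, List.prod_singleton, a2]
    exact h3 a (by simp)
  · obtain rfl := List.mem_singleton.1 hc
    rw [a3]
    exact h3 c (by simp)

/-- `S.prod l` is conjugate to the loop around `L₀ ++ l`. -/
theorem Ad.orr (ho : Loops ρ g ε) {L₀ l : List (Fin n)} {S : Sys n r} (h : Ad ρ g L₀ l S) :
    IsOfFinOrder (S.prod l) ∧ Orr2 r ε (L₀ ++ l).toFinset (S.prod l).val.charpoly := by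
  obtain ⟨h, u, ⟨μ, m1, m2, rfl⟩, h2, h3⟩ := h
  obtain ⟨o1, o2⟩ := ho μ m1 _ m2
  have c := isConj_iff.2 ⟨u, (gadm_prod h2 h3).symm⟩
  exact ⟨c.isOfFinOrder (Units.isOfFinOrder_val.1 o1), gadm_chp c ▸ o2⟩

theorem Ad.charpoly_c {z : Fin n} {l : List (Fin n)} {S : Sys n r} (h : Ad ρ g [z] l S) :
    S.c.val.charpoly = (g z).val.charpoly := by
  obtain ⟨h, u, h1, h2, -⟩ := h
  rw [List.map_singleton, List.prod_singleton] at h2
  exact (gadm_chp ((h1.conj z).trans (isConj_iff.2 ⟨u, h2.symm⟩))).symm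

theorem Ad.charpoly_x {L₀ l : List (Fin n)} {S : Sys n r} (h : Ad ρ g L₀ l S) {a : Fin n}
    (ha : a ∈ l) : (S.x a).u.val.charpoly = (g a).val.charpoly := by
  obtain ⟨h, u, h1, -, h3⟩ := h
  exact (gadm_chp ((h1.conj a).trans (isConj_iff.2 ⟨u, (h3 a ha).symm⟩))).symm

/-- `Rk1.charpoly` for `-(e ⊗ f)` and `l = 1`; compare the multisets of roots. -/
theorem Rf.sum_eig [NeZero r] (x : Rf r) {ω : Fin r → ℂ}
    (h : x.u.val.charpoly = ∏ j, (X - C (ω j))) :
    (∃ j, ω j = x.ζ) ∧ ∀ F : ℂ → ℝ, F 1 = 0 → ∑ j, F (ω j) = F x.ζ := by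
  have h1 : x.u.val = vecMulVec (-x.e) x.f - scalar (Fin r) (-1) := by
    rw [x.u_val, map_neg, map_one, neg_vecMulVec]
    abel
  have h2 : x.u.val.charpoly = (X - C 1) ^ (r - 1) * (X - C x.ζ) := by
    obtain ⟨m, rfl⟩ := Nat.exists_eq_succ_of_ne_zero (NeZero.ne r)
    rw [h1, charpoly_sub_scalar, charpoly_vecMulVec, neg_dotProduct, dotProduct_comm, x.dot]
    simp only [Fintype.card_fin, Nat.succ_sub_one, smul_eq_C_mul, sub_comp, mul_comp, pow_comp,
      X_comp, C_comp, map_neg, map_sub, map_one, pow_succ, neg_comp, one_comp]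
    ring
  have h3 := gadm_roots ω
  rw [← h, h2, roots_mul (mul_ne_zero (pow_ne_zero _ (X_sub_C_ne_zero _)) (X_sub_C_ne_zero _)),
    roots_pow, roots_X_sub_C, roots_X_sub_C] at h3
  refine ⟨?_, fun F hF => ?_⟩
  · have : x.ζ ∈ Finset.univ.val.map ω := by
      rw [← h3]
      simp
    obtain ⟨j, -, hj⟩ := Multiset.mem_map.1 this
    exact ⟨j, hj⟩
  · have := congrArg (fun m => (Multiset.map F m).sum) h3
    simp only [Multiset.map_map] at this
    rw [Finset.sum_eq_multiset_sum]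
    refine this.symm.trans ?_
    simp [Multiset.nsmul_singleton, hF]

/-- The loop around one point: sink the members before `z`, or move `z` to the far left; the
factorisation of the characteristic polynomial is unique. -/
theorem Loops.finOrder (hρ : Function.Injective ρ) (ho : Loops ρ g ε)
    (hch : ∀ i, (g i).val.charpoly = ∏ j, (X - C (ε i j))) (z : Fin n) :
    IsOfFinOrder (g z) ∧ ∀ j, IsOfFinOrder (ε z j) := by
  obtain ⟨L, h1, h2⟩ := Low.init hρ g
  obtain ⟨T, L₂, rfl⟩ := List.append_of_mem (h1 z)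
  have nb : z ∉ T := fun hz => (List.nodup_append.1 h2.nodup).2.2 z hz z (by simp) rfl
  obtain ⟨μ, m1, m2, m3⟩ := Low.left (L₁ := [z]) (L₂ := T ++ L₂)
    (Low.move hρ (L₁ := []) (T := T) (L₂ := L₂) (i := z) h2)
  obtain ⟨o1, ω, o2, o3, -⟩ := ho μ m1 _ m2
  have e : mvT g z T.toFinset z = g z := if_neg fun hb => nb (List.mem_toFinset.1 hb)
  rw [m3, List.map_singleton, List.prod_singleton, e] at o1 o3
  refine ⟨Units.isOfFinOrder_val.1 o1, fun j => ?_⟩
  have : ε z j ∈ Finset.univ.val.map ω := by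
    rw [← gadm_roots, ← o3, hch, gadm_roots]
    exact Multiset.mem_map_of_mem _ (Finset.mem_univ j)
  obtain ⟨i, -, hi⟩ := Multiset.mem_map.1 this
  exact hi ▸ o2 i

/-- Use `Ad.del`, `Ad.orr` with `τ` the identity and the complex conjugation, and
`η i = if i = z then (ε z j0)⁻¹ else 1`; `sum_eig` evaluates the sums for `a ∈ l'`. -/
theorem Ad.spec [NeZero r] (hρ : Function.Injective ρ) (ho : Loops ρ g ε)
    (hch : ∀ i, (g i).val.charpoly = ∏ j, (X - C (ε i j))) {z : Fin n} {l : List (Fin n)}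
    {S : Sys n r} (h : Ad ρ g [z] l S) : S.Spec l (ε z) := by
  intro l' hs
  have h' := h.del hρ hs
  obtain ⟨-, ω, o1, o2, o3⟩ := h'.orr ho
  have nz : z ∉ l'.toFinset := fun hz => by
    obtain ⟨_, _, h1, -⟩ := h'
    exact (List.nodup_cons.1 h1.nodup).1 (List.mem_toFinset.1 hz)
  have fo := fun i => (ho.finOrder hρ hch i).2
  refine ⟨ω, o1, o2, fun j0 => ?_⟩
  have key : ∀ τ : ℂ →+* ℂ, ∑ j, a01 (τ (ω j / ε z j0)) ≤
      ∑ j, a01 (τ (ε z j / ε z j0)) + ∑ a ∈ l'.toFinset, a01 (τ (S.x a).ζ) := by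
    intro τ
    have := o3 τ (fun i => if i = z then (ε z j0)⁻¹ else 1) fun i => by
      split_ifs
      exacts [isOfFinOrder_iff_pow_eq_one.2 ((isOfFinOrder_iff_pow_eq_one.1 (fo z j0)).imp
        fun k hk => ⟨hk.1, by rw [inv_pow, hk.2, inv_one]⟩), IsOfFinOrder.one]
    rw [List.singleton_append, List.toFinset_cons, Finset.sum_insert nz, Finset.prod_insert nz,
      Finset.prod_eq_one fun i hi => if_neg (ne_of_mem_of_not_mem hi nz)] at this
    simp only [if_true, mul_one, ← div_eq_mul_inv] at this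
    refine this.trans (add_le_add le_rfl (Finset.sum_le_sum fun a ha => le_of_eq ?_))
    simp only [if_neg (ne_of_mem_of_not_mem ha nz), mul_one]
    exact ((S.x a).sum_eig ((h'.charpoly_x (List.mem_toFinset.1 ha)).trans (hch a))).2
      (fun w => a01 (τ w)) (by rw [map_one, a01_one])
  refine ⟨key (RingHom.id ℂ), ?_⟩
  have n1 : ∀ {w : ℂ}, IsOfFinOrder w → (w / ε z j0)⁻¹ = starRingEnd ℂ (w / ε z j0) := fun hw =>
    Complex.inv_eq_conj (by rw [norm_div, hw.norm_eq_one, (fo z j0).norm_eq_one, div_one])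
  have n2 : ∀ a ∈ l'.toFinset, a01 (S.x a).ζ⁻¹ = a01 (starRingEnd ℂ (S.x a).ζ) := fun a ha => by
    obtain ⟨j, hj⟩ :=
      ((S.x a).sum_eig ((h'.charpoly_x (List.mem_toFinset.1 ha)).trans (hch a))).1
    rw [← hj, Complex.inv_eq_conj (fo a j).norm_eq_one]
  simp only [n1 (o1 _), n1 (fo z _), Finset.sum_congr rfl n2]
  exact key _

theorem Ad.zeta [NeZero r] (hρ : Function.Injective ρ) (ho : Loops ρ g ε)
    (hch : ∀ i, (g i).val.charpoly = ∏ j, (X - C (ε i j))) {L₀ l : List (Fin n)}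
    {S : Sys n r} (h : Ad ρ g L₀ l S) {a : Fin n} (ha : a ∈ l) : IsOfFinOrder (S.x a).ζ := by
  obtain ⟨j, hj⟩ := ((S.x a).sum_eig ((h.charpoly_x ha).trans (hch a))).1
  rw [← hj]
  exact (ho.finOrder hρ hch a).2 j

theorem cls1_Ad [NeZero r] (hρ : Function.Injective ρ) (ho : Loops ρ g ε)
    (hch : ∀ i, (g i).val.charpoly = ∏ j, (X - C (ε i j))) :
    Cls1 fun l S => ∃ L₀, Ad ρ g L₀ l S := by
  refine ⟨?_, ?_, ?_, ?_, ?_, ?_, ?_, ?_⟩
  · rintro l S ⟨L₀, h, u, h1, -⟩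
    exact (List.nodup_append.1 h1.nodup).2.1
  · rintro l S ⟨L₀, h⟩ a ha
    exact (h.zeta hρ ho hch ha).norm_eq_one
  · rintro l l' S ⟨L₀, h⟩ hs
    exact ⟨_, h.del hρ hs⟩
  · rintro i l S ⟨L₀, h⟩
    exact ⟨_, h.abs⟩
  · rintro a b S ⟨L₀, h⟩
    exact ⟨_, h.br hρ⟩
  · rintro l b S ⟨L₀, h⟩
    exact ⟨_, h.tw hρ⟩
  · rintro l S ⟨L₀, h⟩
    obtain ⟨-, ω, o1, o2, -⟩ := (h.del hρ (List.nil_sublist l)).orr ho
    rw [Sys.prod_nil] at o2
    exact ⟨ω, fun j => (o1 j).norm_eq_one, o2⟩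
  · rintro a b S ⟨L₀, h⟩
    obtain ⟨-, ω, o1, o2, -⟩ := (h.front hρ).orr ho
    rw [Sys.prod_single] at o2
    exact ⟨ω, fun j => (o1 j).norm_eq_one, o2⟩

/-- Start from `Low.init`, move `o` to the far left and keep the indices `a` with `g a ≠ 1`. For
those `h a = 1 - e ⊗ f` is conjugate to `g a`, `ζ = 1 - f ⬝ᵥ e` is nonzero (determinant) and
`ζ ≠ 1` because `1 - E` with `E * E = 0`, `E ≠ 0` has infinite order. For the other indices take
`⟨1, 0, 0, _, _⟩`. -/
theorem exists_sys (hρ : Function.Injective ρ) (ho : Loops ρ g ε)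
    (hch : ∀ i, (g i).val.charpoly = ∏ j, (X - C (ε i j))) (o : Fin n)
    (hr : ∀ a, a ≠ o → ∃ e f : Fin r → ℂ, (g a).val = 1 - vecMulVec e f) :
    ∃ (S : Sys n r) (l : List (Fin n)), Ad ρ g [o] l S ∧ (∀ a ∈ l, (S.x a).ζ ≠ 1) ∧
      S.gp l = Subgroup.closure (Set.range g) ∧ ∀ a, a ≠ o → g a ≠ 1 → a ∈ l := by
  classical
  obtain ⟨L, h1, h2⟩ := Low.init hρ g
  obtain ⟨T, L₂, rfl⟩ := List.append_of_mem (h1 o)
  have h3 : Low ρ g ([o] ++ (T ++ L₂)) (mvT g o T.toFinset) :=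
    Low.move hρ (L₁ := []) (T := T) (L₂ := L₂) (i := o) h2
  have no : o ∉ T ++ L₂ := (List.nodup_cons.1 h3.nodup).1
  have e : mvT g o T.toFinset o = g o :=
    if_neg fun hb => no (List.mem_append_left _ (List.mem_toFinset.1 hb))
  obtain ⟨h', a1, a2⟩ := h3.sub hρ (List.filter_sublist (p := fun a => decide (g a ≠ 1)))
  have hx : ∀ a, ∃ x : Rf r, a ≠ o → g a ≠ 1 → x.u = mvT g o T.toFinset a ∧ x.ζ ≠ 1 := by
    intro a
    by_cases ha : a ≠ o ∧ g a ≠ 1
    · obtain ⟨e, f, hef⟩ := hr a ha.1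
      obtain ⟨x, x1, x2⟩ := gadm_rf hef (ho.finOrder hρ hch a).1 ha.2
      by_cases hT : a ∈ T.toFinset
      · exact ⟨x.cj (g o), fun _ _ => ⟨by rw [Rf.cj_u, x1, mvT, if_pos hT], x2⟩⟩
      · exact ⟨x, fun _ _ => ⟨by rw [x1, mvT, if_neg hT], x2⟩⟩
    · exact ⟨⟨1, 0, 0, one_ne_zero, by simp⟩, fun b1 b2 => absurd ⟨b1, b2⟩ ha⟩
  choose x hx using hx
  have ml : ∀ a, a ∈ (T ++ L₂).filter (fun a => decide (g a ≠ 1)) ↔ a ≠ o ∧ g a ≠ 1 := fun a => by
    rw [List.mem_filter, decide_eq_true_iff]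
    refine and_congr_left' ⟨fun ha => ne_of_mem_of_not_mem ha no, fun ha => ?_⟩
    have := h1 a
    simp only [List.mem_append, List.mem_cons] at this ⊢
    tauto
  have hx' := fun a ha => hx a ((ml a).1 ha).1 ((ml a).1 ha).2
  have mg : ∀ a, g a ∈ Subgroup.closure (Set.range g) := fun a => Subgroup.subset_closure ⟨a, rfl⟩
  refine ⟨⟨g o, x⟩, _, ⟨h', 1, a1, ?_, fun a ha => ?_⟩, fun a ha => (hx' a ha).2, le_antisymm
    ((Subgroup.closure_le _).2 ?_) ((Subgroup.closure_le _).2 ?_), fun a b1 b2 => (ml a).2 ⟨b1, b2⟩⟩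
  · rw [List.map_singleton, List.prod_singleton, a2 o (by simp), e, one_mul, inv_one, mul_one]
  · rw [a2 a (List.mem_append_right _ ha), one_mul, inv_one, mul_one]
    exact (hx' a ha).1
  · rintro _ (rfl | ⟨a, ha, rfl⟩)
    · exact mg o
    · change (x a).u ∈ Subgroup.closure (Set.range g)
      rw [(hx' a ha).1, mvT]
      split_ifs
      exacts [mul_mem (mul_mem (inv_mem (mg o)) (mg a)) (mg o), mg a]
  · rintro _ ⟨a, rfl⟩
    set K := Sys.gp ⟨g o, x⟩ ((T ++ L₂).filter fun a => decide (g a ≠ 1))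
    have k0 : g o ∈ K := Subgroup.subset_closure (Set.mem_insert _ _)
    change g a ∈ K
    by_cases b1 : a = o
    · exact b1 ▸ k0
    by_cases b2 : g a = 1
    · exact b2 ▸ one_mem K
    have k1 : (x a).u ∈ K :=
      Subgroup.subset_closure (Set.mem_insert_of_mem _ ⟨a, (ml a).2 ⟨b1, b2⟩, rfl⟩)
    rw [(hx a b1 b2).1, mvT] at k1
    split_ifs at k1
    · rwa [mul_mem_cancel_right k0, mul_mem_cancel_left (inv_mem k0)] at k1
    · exact k1

end Pool.Agent.GR
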