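import Pool.Agent.Lib.MP_aa40d3_nt.GR2.GDefs

/-! Elementary properties of systems and labelled walks. -/

open Polynomial Matrix

namespace Pool.Agent.GR

variable {n r : ℕ}

namespace Sys

theorem M_zero (S : Sys n r) (a b : Fin n) : S.M a 0 b = (S.x a).f ⬝ᵥ (S.x b).e := by
  simp [M]

theorem M_self_zero (S : Sys n r) (a : Fin n) : S.M a 0 a = 1 - (S.x a).ζ := by
  rw [M_zero, Rf.dot]

theorem abs_M_zero (S : Sys n r) (i a b : Fin n) : (S.abs i).M a 0 b = S.M a 0 b := by
  rw [M_zero, M_zero]; rfl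

theorem tw_self (S : Sys n r) (b : Fin n) (u : GLr r) : (S.tw b u).x b = (S.x b).cj u := by
  simp [tw]

theorem tw_ne (S : Sys n r) {a b : Fin n} (h : a ≠ b) (u : GLr r) : (S.tw b u).x a = S.x a := by
  simp [tw, h]

theorem tw_zeta (S : Sys n r) (a b : Fin n) (u : GLr r) : ((S.tw b u).x a).ζ = (S.x a).ζ := by
  by_cases h : a = b
  · subst h; rw [tw_self]; rfl
  · rw [tw_ne _ h]

theorem tw_tw (S : Sys n r) (b : Fin n) (u v : GLr r) : (S.tw b u).tw b v = S.tw b (u * v) := by
  simp [tw, Rf.cj_cj]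

theorem tw_one (S : Sys n r) (b : Fin n) : S.tw b 1 = S := by
  simp [tw, Rf.cj_one]

theorem tw_prod (S : Sys n r) {b : Fin n} {l : List (Fin n)} (h : b ∉ l) (u : GLr r) :
    (S.tw b u).prod l = S.prod l := by
  have h1 : (l.map fun a => ((S.tw b u).x a).u) = l.map fun a => (S.x a).u :=
    List.map_congr_left fun a ha => by rw [tw_ne S (ne_of_mem_of_not_mem ha h)]
  unfold prod
  rw [h1]
  rfl

theorem tw_abs (S : Sys n r) {i b : Fin n} (h : i ≠ b) (u : GLr r) :
    (S.tw b u).abs i = (S.abs i).tw b u := by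
  simp [tw, abs, h]

theorem prod_nil (S : Sys n r) : S.prod [] = S.c := by simp [prod]

theorem prod_cons (S : Sys n r) (i : Fin n) (l : List (Fin n)) :
    S.prod (i :: l) = (S.abs i).prod l := by
  simp [prod, abs, mul_assoc]

theorem prod_single (S : Sys n r) (i : Fin n) : S.prod [i] = (S.abs i).c := by
  simp [prod, abs]

theorem coeff_G (S : Sys n r) (a b : Fin n) (k : ℕ) :
    PowerSeries.coeff k (S.G a b) = S.M a k b := by simp [G]

theorem coeff_F_zero (S : Sys n r) (a b : Fin n) : PowerSeries.coeff 0 (S.F a b) = 0 := by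
  simp [F, G]

theorem coeff_F_succ (S : Sys n r) (a b : Fin n) (k : ℕ) :
    PowerSeries.coeff (k + 1) (S.F a b) = S.M a (k + 1 : ℕ) b := by
  simp [F, G]

theorem G_eq (S : Sys n r) (a b : Fin n) : S.G a b = S.F a b + PowerSeries.C (S.M a 0 b) := by
  simp [F]

theorem G_eq_zero {S : Sys n r} {a b : Fin n} (h : ∀ k, S.M a k b = 0) : S.G a b = 0 := by
  ext k; simp [coeff_G, h]

theorem F_eq_zero {S : Sys n r} {a b : Fin n} (h : ∀ k, S.M a k b = 0) : S.F a b = 0 := by
  simp [F, G_eq_zero h, h]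

theorem one_add_F_ne (S : Sys n r) (a : Fin n) : 1 + S.F a a ≠ 0 := by
  intro h
  have := congrArg (PowerSeries.coeff 0) h
  rw [map_add, coeff_F_zero] at this
  simp at this

theorem c_mem_grp (l : List (Fin n)) (S S' : Sys n r) : (S.c, S'.c) ∈ grp l S S' :=
  Subgroup.subset_closure (Set.mem_insert _ _)

theorem u_mem_grp {l : List (Fin n)} (S S' : Sys n r) {a : Fin n} (h : a ∈ l) :
    ((S.x a).u, (S'.x a).u) ∈ grp l S S' :=
  Subgroup.subset_closure (Set.mem_insert_of_mem _ ⟨a, h, rfl⟩)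

theorem prod_mem_grp {l l' : List (Fin n)} (S S' : Sys n r) (h : ∀ a ∈ l', a ∈ l) :
    (S.prod l', S'.prod l') ∈ grp l S S' := by
  have key : ((l'.map fun a => (S.x a).u).prod, (l'.map fun a => (S'.x a).u).prod) ∈
      grp l S S' := by
    induction l' with
    | nil => exact one_mem _
    | cons a l' ih =>
      have := mul_mem (u_mem_grp S S' (h a (by simp))) (ih fun b hb => h b (by simp [hb]))
      rw [Prod.mk_mul_mk] at this
      rw [List.map_cons, List.map_cons, List.prod_cons, List.prod_cons]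
      exact this
  have := mul_mem (c_mem_grp l S S') key
  rw [Prod.mk_mul_mk] at this
  exact this

end Sys

theorem Cls.tw_pow {𝒞 : List (Fin n) → Sys n r → Sys n r → Prop} (h : Cls 𝒞) {l : List (Fin n)}
    {b : Fin n} {S S' : Sys n r} (hc : 𝒞 (l ++ [b]) S S') (k : ℕ) :
    𝒞 (l ++ [b]) (S.tw b (S.prod l ^ k)) (S'.tw b (S'.prod l ^ k)) := by
  have hb : b ∉ l := fun hb => by
    have := h.nodup hc
    rw [List.nodup_append] at this
    exact this.2.2 b hb b (by simp) rfl
  induction k with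
  | zero => simpa [Sys.tw_one] using hc
  | succ k ih =>
    have := h.tw ih
    rwa [Sys.tw_prod _ hb, Sys.tw_prod _ hb, Sys.tw_tw, Sys.tw_tw, ← pow_succ, ← pow_succ] at this

theorem pw_append (M : Fin n → ℤ → Fin n → ℂ) (a : Fin n) (p p' : List (ℤ × Fin n)) :
    pw M a (p ++ p') = pw M a p * pw M (pe a p) p' := by
  induction p generalizing a with
  | nil => simp [pw, pe]
  | cons q p ih => simp [pw, pe, ih, mul_assoc]

theorem pe_append (a : Fin n) (p p' : List (ℤ × Fin n)) : pe a (p ++ p') = pe (pe a p) p' := by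
  induction p generalizing a with
  | nil => rfl
  | cons q p ih => simp [pe, ih]

theorem pe_concat (a : Fin n) (p : List (ℤ × Fin n)) (q : ℤ × Fin n) : pe a (p ++ [q]) = q.2 := by
  rw [pe_append]; rfl

theorem pe_mem (a : Fin n) {p : List (ℤ × Fin n)} (h : p ≠ []) : pe a p ∈ p.map Prod.snd := by
  obtain ⟨p', q, rfl⟩ := List.eq_nil_or_concat p |>.resolve_left h
  rw [List.concat_eq_append, pe_concat]
  simp

/-- Rotation of a closed walk. -/
theorem pw_rotate (M : Fin n → ℤ → Fin n → ℂ) {a : Fin n} {p p' : List (ℤ × Fin n)}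
    (h : pe a (p ++ p') = a) :
    pe (pe a p) (p' ++ p) = pe a p ∧ pw M (pe a p) (p' ++ p) = pw M a (p ++ p') := by
  rw [pe_append] at h
  rw [pe_append, pw_append, pw_append, h]
  exact ⟨rfl, mul_comm _ _⟩

end Pool.Agent.GR
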