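import Pool.Agent.Lib.MP_aa40d3_nt.GR.GroupFin
import Pool.Agent.Lib.MP_aa40d3_nt.GR2.Defs

/-! One arbitrary matrix and finitely many reflections: definitions. -/

open Polynomial Matrix

namespace Pool.Agent.GR

variable {n r : ℕ}

/-- Invertible complex matrices. -/
abbrev GLr (r : ℕ) : Type := (Matrix (Fin r) (Fin r) ℂ)ˣ

/-- A reflection `1 - e ⊗ f` with special eigenvalue `ζ`. -/
structure Rf (r : ℕ) where
  ζ : ℂ
  e : Fin r → ℂ
  f : Fin r → ℂ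
  ne : ζ ≠ 0
  dot : f ⬝ᵥ e = 1 - ζ

theorem Rf.sq (x : Rf r) :
    vecMulVec x.e x.f * vecMulVec x.e x.f = (1 - x.ζ) • vecMulVec x.e x.f := by
  rw [vecMulVec_mul_vecMulVec, x.dot, vecMulVec_smul]

/-- The reflection as an invertible matrix. -/
noncomputable def Rf.u (x : Rf r) : GLr r where
  val := 1 - vecMulVec x.e x.f
  inv := 1 + x.ζ⁻¹ • vecMulVec x.e x.f
  val_inv := by
    rw [mul_add, mul_one, sub_mul, one_mul, mul_smul_comm, x.sq, smul_smul,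
      mul_sub, mul_one, inv_mul_cancel₀ x.ne, sub_smul, one_smul]
    abel
  inv_val := by
    rw [mul_sub, mul_one, add_mul, one_mul, smul_mul_assoc, x.sq, smul_smul,
      mul_sub, mul_one, inv_mul_cancel₀ x.ne, sub_smul, one_smul]
    abel

theorem Rf.u_val (x : Rf r) : x.u.val = 1 - vecMulVec x.e x.f := rfl

theorem Rf.u_inv_val (x : Rf r) : (x.u⁻¹).val = 1 + x.ζ⁻¹ • vecMulVec x.e x.f := rfl

theorem Rf.u_mulVec (x : Rf r) (v : Fin r → ℂ) : x.u.val *ᵥ v = v - (x.f ⬝ᵥ v) • x.e := by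
  rw [x.u_val, sub_mulVec, one_mulVec, vecMulVec_mulVec, op_smul_eq_smul]

theorem Rf.u_inv_mulVec (x : Rf r) (v : Fin r → ℂ) :
    (x.u⁻¹).val *ᵥ v = v + (x.ζ⁻¹ * (x.f ⬝ᵥ v)) • x.e := by
  rw [x.u_inv_val, add_mulVec, one_mulVec, smul_mulVec, vecMulVec_mulVec, op_smul_eq_smul,
    smul_smul]

theorem Rf.vecMul_u (x : Rf r) (v : Fin r → ℂ) : v ᵥ* x.u.val = v - (v ⬝ᵥ x.e) • x.f := by
  rw [x.u_val, vecMul_sub, vecMul_one, vecMul_vecMulVec]

/-- The conjugate `u⁻¹ x u`. -/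
noncomputable def Rf.cj (x : Rf r) (u : GLr r) : Rf r where
  ζ := x.ζ
  e := (u⁻¹).val *ᵥ x.e
  f := x.f ᵥ* u.val
  ne := x.ne
  dot := by rw [← dotProduct_mulVec, mulVec_mulVec, Units.mul_inv, one_mulVec, x.dot]

theorem Rf.cj_u (x : Rf r) (u : GLr r) : (x.cj u).u = u⁻¹ * x.u * u := by
  refine Units.ext ?_
  simp only [Rf.u_val, Units.val_mul, Rf.cj]
  rw [mul_sub, mul_one, sub_mul, Units.inv_mul, mul_vecMulVec, vecMulVec_mul]

theorem Rf.cj_cj (x : Rf r) (u v : GLr r) : (x.cj u).cj v = x.cj (u * v) := by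
  simp [Rf.cj]

theorem Rf.cj_one (x : Rf r) : x.cj 1 = x := by
  simp [Rf.cj]

/-- The automorphism `u ↦ (uᴴ)⁻¹`. -/
noncomputable def thU : GLr r →* GLr r where
  toFun u := ⟨(u⁻¹).valᴴ, u.valᴴ, by rw [← conjTranspose_mul, Units.mul_inv, conjTranspose_one],
    by rw [← conjTranspose_mul, Units.inv_mul, conjTranspose_one]⟩
  map_one' := Units.ext (by simp)
  map_mul' u v := Units.ext (by simp)

theorem thU_val (u : GLr r) : (thU u).val = (u⁻¹).valᴴ := rfl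

theorem thU_inv_val (u : GLr r) : ((thU u)⁻¹).val = u.valᴴ := rfl

/-- The image of a reflection under `thU`. -/
noncomputable def Rf.th (x : Rf r) : Rf r where
  ζ := (star x.ζ)⁻¹
  e := star x.f
  f := -(star x.ζ)⁻¹ • star x.e
  ne := inv_ne_zero (star_ne_zero.2 x.ne)
  dot := by
    have h : star x.ζ ≠ 0 := star_ne_zero.2 x.ne
    rw [smul_dotProduct, star_dotProduct_star, x.dot, star_sub, star_one, smul_eq_mul]
    field_simp
    ring

/-- An invertible matrix and a family of reflections. -/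
structure Sys (n r : ℕ) where
  c : GLr r
  x : Fin n → Rf r

namespace Sys

/-- The matrix coefficients `f a * c ^ k * e b`. -/
noncomputable def M (S : Sys n r) (a : Fin n) (k : ℤ) (b : Fin n) : ℂ :=
  (S.x a).f ⬝ᵥ ((S.c ^ k).val *ᵥ (S.x b).e)

/-- The ordered product. -/
noncomputable def prod (S : Sys n r) (l : List (Fin n)) : GLr r :=
  S.c * (l.map fun a => (S.x a).u).prod

/-- Absorb the reflection `i` into `c`. -/
noncomputable def abs (S : Sys n r) (i : Fin n) : Sys n r := ⟨S.c * (S.x i).u, S.x⟩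

/-- Conjugate the reflection `b` by `u`. -/
noncomputable def tw (S : Sys n r) (b : Fin n) (u : GLr r) : Sys n r :=
  ⟨S.c, Function.update S.x b ((S.x b).cj u)⟩

/-- The conjugate dual system. -/
noncomputable def th (S : Sys n r) : Sys n r := ⟨thU S.c, fun a => (S.x a).th⟩

/-- Generating series of the coefficients with `k ≥ 0`. -/
noncomputable def G (S : Sys n r) (a b : Fin n) : PowerSeries ℂ :=
  PowerSeries.mk fun k : ℕ => S.M a k b

/-- Generating series of the coefficients with `k ≥ 1`. -/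
noncomputable def F (S : Sys n r) (a b : Fin n) : PowerSeries ℂ :=
  S.G a b - PowerSeries.C (S.M a 0 b)

/-- The group generated by a pair of systems. -/
noncomputable def grp (l : List (Fin n)) (S S' : Sys n r) : Subgroup (GLr r × GLr r) :=
  Subgroup.closure (insert (S.c, S'.c) ((fun a => ((S.x a).u, (S'.x a).u)) '' {a | a ∈ l}))

/-- The group generated by `c` and the reflections in `l`. -/
noncomputable def gp (S : Sys n r) (l : List (Fin n)) : Subgroup (GLr r) :=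
  Subgroup.closure (insert S.c ((fun a => (S.x a).u) '' {a | a ∈ l}))

/-- No proper invariant subspace. -/
def Irr (S : Sys n r) (l : List (Fin n)) : Prop :=
  ∀ U : Submodule ℂ (Fin r → ℂ), (∀ v ∈ U, S.c.val *ᵥ v ∈ U) →
    (∀ a ∈ l, ∀ v ∈ U, (S.x a).u.val *ᵥ v ∈ U) → U = ⊥ ∨ U = ⊤

end Sys

/-- Weight of a labelled walk starting at `a`. -/
def pw (M : Fin n → ℤ → Fin n → ℂ) : Fin n → List (ℤ × Fin n) → ℂ
  | _, [] => 1
  | a, q :: p => M a q.1 q.2 * pw M q.2 p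

/-- End point of a labelled walk starting at `a`. -/
def pe : Fin n → List (ℤ × Fin n) → Fin n
  | a, [] => a
  | _, q :: p => pe q.2 p

/-- The pairs of weights of closed walks in `l` lie in `O`. -/
def CW (O : Subring (ℂ × ℂ)) (l : List (Fin n)) (M M' : Fin n → ℤ → Fin n → ℂ) : Prop :=
  ∀ a p, pe a p = a → (∀ q ∈ p, q.2 ∈ l) → (pw M a p, pw M' a p) ∈ O

/-- The pairs of diagonal matrix coefficients of the group lie in `O`. -/
def WW (O : Subring (ℂ × ℂ)) (l : List (Fin n)) (S S' : Sys n r) : Prop :=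
  ∀ a ∈ l, ∀ γ ∈ Sys.grp l S S', ((S.x a).f ⬝ᵥ (γ.1.val *ᵥ (S.x a).e),
    (S'.x a).f ⬝ᵥ (γ.2.val *ᵥ (S'.x a).e)) ∈ O

/-- The diagonal. -/
def DD : Subring (ℂ × ℂ) := (RingHom.fst ℂ ℂ).eqLocus (RingHom.snd ℂ ℂ)

theorem mem_DD {x y : ℂ} : (x, y) ∈ DD ↔ x = y := Iff.rfl

/-- A class of pairs of systems closed under the moves. -/
structure Cls (𝒞 : List (Fin n) → Sys n r → Sys n r → Prop) : Prop where
  nodup : ∀ {l S S'}, 𝒞 l S S' → l.Nodup
  zeta : ∀ {l S S'}, 𝒞 l S S' → ∀ a ∈ l, (S.x a).ζ = (S'.x a).ζ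
  symm : ∀ {l S S'}, 𝒞 l S S' → 𝒞 l S' S
  del : ∀ {l l' S S'}, 𝒞 l S S' → l'.Sublist l → 𝒞 l' S S'
  abs : ∀ {i l S S'}, 𝒞 (i :: l) S S' → 𝒞 l (S.abs i) (S'.abs i)
  br : ∀ {a b S S'}, 𝒞 [a, b] S S' → 𝒞 [a] (S.tw a (S.x b).u) (S'.tw a (S'.x b).u)
  tw : ∀ {l b S S'}, 𝒞 (l ++ [b]) S S' →
    𝒞 (l ++ [b]) (S.tw b (S.prod l)) (S'.tw b (S'.prod l))
  chp : ∀ {l S S'}, 𝒞 l S S' → S.c.val.charpoly = S'.c.val.charpoly
  pair : ∀ {a b S S'}, 𝒞 [a, b] S S' → S.M a 0 b * S.M b 0 a = S'.M a 0 b * S'.M b 0 a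
  hs : ∀ {l S S'}, 𝒞 l S S' → ∀ a k b, S.M a k b = 0 ↔ S'.M b (-k) a = 0

/-- All roots lie on the unit circle. -/
def UC (r : ℕ) (q : ℂ[X]) : Prop := ∃ ω : Fin r → ℂ, (∀ j, ‖ω j‖ = 1) ∧ q = ∏ j, (X - C (ω j))

/-- A class of systems closed under the moves, with unimodular eigenvalues. -/
structure Cls1 (𝒜 : List (Fin n) → Sys n r → Prop) : Prop where
  nodup : ∀ {l S}, 𝒜 l S → l.Nodup
  zeta : ∀ {l S}, 𝒜 l S → ∀ a ∈ l, ‖(S.x a).ζ‖ = 1
  del : ∀ {l l' S}, 𝒜 l S → l'.Sublist l → 𝒜 l' S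
  abs : ∀ {i l S}, 𝒜 (i :: l) S → 𝒜 l (S.abs i)
  br : ∀ {a b S}, 𝒜 [a, b] S → 𝒜 [a] (S.tw a (S.x b).u)
  tw : ∀ {l b S}, 𝒜 (l ++ [b]) S → 𝒜 (l ++ [b]) (S.tw b (S.prod l))
  uc : ∀ {l S}, 𝒜 l S → UC r S.c.val.charpoly
  pair : ∀ {a b S}, 𝒜 [a, b] S → UC r ((S.x a).u * (S.x b).u).val.charpoly

/-- `u` preserves the form `H`. -/
def Inv (H : Matrix (Fin r) (Fin r) ℂ) (u : GLr r) : Prop := u.valᴴ * H * u.val = H

/-- The eigenvalue inequalities for a cluster containing the special point. -/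
def EI (ω0 : Fin r → ℂ) (ζ : Fin n → ℂ) (J : Finset (Fin n)) (ω : Fin r → ℂ) : Prop :=
  ∀ j0, ∑ j, a01 (ω j / ω0 j0) ≤ ∑ j, a01 (ω0 j / ω0 j0) + ∑ a ∈ J, a01 (ζ a) ∧
    ∑ j, a01 (ω j / ω0 j0)⁻¹ ≤ ∑ j, a01 (ω0 j / ω0 j0)⁻¹ + ∑ a ∈ J, a01 (ζ a)⁻¹

/-- The characteristic polynomials of all ordered subproducts satisfy the inequalities. -/
def Sys.Spec (S : Sys n r) (l : List (Fin n)) (ω0 : Fin r → ℂ) : Prop :=
  ∀ l' : List (Fin n), l'.Sublist l → ∃ ω : Fin r → ℂ, (∀ j, IsOfFinOrder (ω j)) ∧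
    (S.prod l').val.charpoly = ∏ j, (X - C (ω j)) ∧ EI ω0 (fun a => (S.x a).ζ) l'.toFinset ω

/-- `N` times the projection to the eigenspace of `c` for `s⁻¹`, when `c ^ N = 1 = s ^ N`. -/
noncomputable def Pj (c : GLr r) (N : ℕ) (s : ℂ) : Matrix (Fin r) (Fin r) ℂ :=
  ∑ j ∈ Finset.range N, s ^ (j + 1) • (c ^ (j + 1)).val

/-- The matrix whose principal minors are quotients of characteristic polynomials. -/
noncomputable def Sys.B (S : Sys n r) (N : ℕ) (ρ : Fin n → ℝ) (s : ℂ) : Matrix (Fin n) (Fin n) ℂ :=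
  Matrix.of fun a b => (1 - s ^ N) * (if a = b then 1 else if ρ a < ρ b then S.M a 0 b else 0) +
    (S.x a).f ⬝ᵥ (Pj S.c N s *ᵥ (S.x b).e)

/-- `L` is an initial segment after valid moves that transform `g` into `h`. -/
def Low {G : Type*} [Group G] (ρ : Fin n → ℝ) (g : Fin n → G) (L : List (Fin n))
    (h : Fin n → G) : Prop :=
  ∃ μ, ValidL μ ρ ∧ LowerL (rhoL μ ρ) L ∧ mvTL μ ρ g = h

/-- The system `S` consists, up to conjugation, of the loop around `L₀` and the loops in `l`. -/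
def Ad (ρ : Fin n → ℝ) (g : Fin n → GLr r) (L₀ l : List (Fin n)) (S : Sys n r) : Prop :=
  ∃ (h : Fin n → GLr r) (u : GLr r), Low ρ g (L₀ ++ l) h ∧ S.c = u * (L₀.map h).prod * u⁻¹ ∧
    ∀ a ∈ l, (S.x a).u = u * h a * u⁻¹

/-- The hypothesis on the simple loops. -/
def Loops (ρ : Fin n → ℝ) (g : Fin n → GLr r) (ε : Fin n → Fin r → ℂ) : Prop :=
  ∀ μ, ValidL μ ρ → ∀ l, LowerL (rhoL μ ρ) l →
    OrrM ε l.toFinset ((l.map (mvTL μ ρ g)).prod).val

/-- Entrywise action of a ring map. -/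
noncomputable def mapU (τ : ℂ →+* ℂ) : GLr r →* GLr r := Units.map τ.mapMatrix.toMonoidHom

end Pool.Agent.GR
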