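import Pool.Agent.Lib.MP_aa40d3_nt.GR2.GMinor

/-! The sign of the leading coefficient at an eigenvalue. -/

open Polynomial Matrix
open scoped ComplexOrder

namespace Pool.Agent.GR

variable {n r : ℕ}

theorem geig_cancel_le {L U V : ℂ[X]} {s : ℂ} (hL : L ≠ 0) (hs : L.eval s = 0)
    (hU : U.eval s ≠ 0) {a b : ℕ} (hab : a ≤ b) (h : L ^ a * U = L ^ b * V) : a = b ∧ U = V := by
  obtain ⟨k, rfl⟩ := Nat.exists_eq_add_of_le hab
  rw [pow_add, mul_assoc] at h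
  have h1 := mul_left_cancel₀ (pow_ne_zero a hL) h
  cases k with
  | zero => exact ⟨rfl, by simpa using h1⟩
  | succ k => exact absurd (by rw [h1]; simp [hs]) hU

theorem geig_cancel {L U V : ℂ[X]} {s : ℂ} (hL : L ≠ 0) (hs : L.eval s = 0)
    (hU : U.eval s ≠ 0) (hV : V.eval s ≠ 0) {a b : ℕ} (h : L ^ a * U = L ^ b * V) :
    a = b ∧ U = V := by
  rcases le_total a b with hab | hab
  · exact geig_cancel_le hL hs hU hab h
  · obtain ⟨h1, h2⟩ := geig_cancel_le hL hs hV hab h.symm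
    exact ⟨h1.symm, h2.symm⟩

theorem geig_div {a b : ℂ} (ha : 0 < a) (h : 0 ≤ a * b) : 0 ≤ b := by
  have h1 : 0 ≤ a⁻¹ * (a * b) := mul_nonneg (RCLike.inv_pos_of_pos ha).le h
  rwa [inv_mul_cancel_left₀ ha.ne'] at h1

theorem geig_kap_prod {ι : Type} (t : Finset ι) (z : ι → ℂ) :
    ∏ i ∈ t, kap (z i) = Complex.I ^ t.card *
      Complex.exp (-(Real.pi * Complex.I * ((∑ i ∈ t, a01 (z i) : ℝ) : ℂ))) := by
  have e1 : ∏ a ∈ t, kap (z a) = ((t.val.map z).map kap).prod := by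
    rw [Multiset.map_map]; rfl
  have e2 : ((t.val.map z).map a01).sum = ∑ i ∈ t, a01 (z i) := by
    rw [Multiset.map_map]; rfl
  rw [e1, psda_kap_prod, e2, Multiset.card_map]
  rfl

theorem geig_split (ω : Fin r → ℂ) {s : ℂ} :
    ∏ j, (1 - C (ω j) * X) =
      (1 - C s⁻¹ * X) ^ (Finset.univ.filter fun j => ω j * s = 1).card *
        ∏ j ∈ Finset.univ.filter fun j => ¬ ω j * s = 1, (1 - C (ω j) * X) := by
  rw [← Finset.prod_filter_mul_prod_filter_not Finset.univ fun j => ω j * s = 1]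
  congr 1
  rw [← Finset.prod_const]
  refine Finset.prod_congr rfl fun j hj => ?_
  rw [eq_inv_of_mul_eq_one_left (Finset.mem_filter.1 hj).2]

theorem geig_sum (z : Fin r → ℂ) :
    ∑ j, a01 (z j) = ∑ j ∈ Finset.univ.filter fun j => ¬ z j = 1, a01 (z j) := by
  rw [← Finset.sum_filter_add_sum_filter_not Finset.univ fun j => z j = 1,
    Finset.sum_eq_zero fun j hj => by rw [(Finset.mem_filter.1 hj).2, a01_one], zero_add]

theorem geig_sum_inv {z : Fin r → ℂ} (hz : ∀ j, ‖z j‖ = 1) :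
    ∑ j, a01 (z j)⁻¹ = (Finset.univ.filter fun j => ¬ z j = 1).card -
      ∑ j ∈ Finset.univ.filter fun j => ¬ z j = 1, a01 (z j) := by
  rw [← Finset.sum_filter_add_sum_filter_not Finset.univ fun j => z j = 1,
    Finset.sum_eq_zero fun j hj => by rw [(Finset.mem_filter.1 hj).2, inv_one, a01_one], zero_add,
    Finset.sum_congr rfl fun j hj => a01_inv (hz j) (Finset.mem_filter.1 hj).2,
    Finset.sum_sub_distrib]
  simp

theorem geig_pos {ι : Type} (t : Finset ι) {z : ι → ℂ} (hz : ∀ i ∈ t, ‖z i‖ = 1 ∧ z i ≠ 1) :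
    0 < (∏ i ∈ t, kap (z i)) * ∏ i ∈ t, (1 - z i) := by
  rw [← Finset.prod_mul_distrib]
  refine Finset.prod_pos fun i hi => ?_
  rw [psda_kap_mul (hz i hi).1]
  exact Complex.zero_lt_real.2 (mul_pos two_pos (psda_sin_pos (hz i hi).1 (hz i hi).2))

theorem geig_pow_mulVec (y : Rf r) (v : Fin r → ℂ) (j : ℕ) :
    (1 - y.ζ) • ((y.u ^ j).val *ᵥ v) = (1 - y.ζ) • v - ((1 - y.ζ ^ j) * (y.f ⬝ᵥ v)) • y.e := by
  induction j with
  | zero => simp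
  | succ j ih =>
    rw [pow_succ', Units.val_mul, ← mulVec_mulVec, ← mulVec_smul, ih, Rf.u_mulVec,
      dotProduct_sub, dotProduct_smul, dotProduct_smul, y.dot, sub_sub, ← add_smul]
    congr 2
    simp only [smul_eq_mul]
    ring

/-- Let `m = J.card`, `A = {j | ω j * s = 1}`, `A₀ = {j | ω0 j * s = 1}`. Write
`1 - X ^ N = (1 - C s⁻¹ * X) * T` with `T.eval s = N` (`mul_neg_geom_sum` for `C s⁻¹ * X`). Then
`(1 - C s⁻¹ * X) ^ (m + |A|) * U = (1 - C s⁻¹ * X) ^ |A₀| * V * q`, where `U`, `V` do not vanish at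
`s`. If `q.eval s ≠ 0` then `m + |A| = |A₀|` (root multiplicities) and
`q.eval s * ∏_{A₀ᶜ} (1 - ω0 j * s) = N ^ m * ∏_{Aᶜ} (1 - ω j * s)`. If `m = 0` and `A₀` is empty is
excluded by `hJ`, so pick `j0 ∈ A₀`, `(ω0 j0)⁻¹ = s`. The two inequalities of `EI` and `a01_inv`
give `∑ a01 (ω j * s) = ∑ a01 (ω0 j * s) + ∑_J a01 (ζ a)`; conclude with `one_sub_eq` as in
`sign_minor` (`GR/PsdA.lean`). -/
theorem eig_sign {ω0 ω : Fin r → ℂ} (h0 : ∀ j, ‖ω0 j‖ = 1) (h1 : ∀ j, ‖ω j‖ = 1) {ζ : Fin n → ℂ}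
    {J : Finset (Fin n)} (hJ : J.Nonempty) (hζ : ∀ a ∈ J, ‖ζ a‖ = 1 ∧ ζ a ≠ 1) (he : EI ω0 ζ J ω)
    {N : ℕ} (hN : 0 < N) {s : ℂ} (hs : s ^ N = 1) {q : ℂ[X]}
    (hq : (1 - X ^ N) ^ J.card * ∏ j, (1 - C (ω j) * X) = (∏ j, (1 - C (ω0 j) * X)) * q) :
    0 ≤ (∏ a ∈ J, kap (ζ a)) * q.eval s := by
  by_cases hq0 : q.eval s = 0
  · rw [hq0, mul_zero]
  have hs0 : s ≠ 0 := by
    rintro rfl
    rw [zero_pow hN.ne'] at hs
    exact zero_ne_one hs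
  have hsn : ‖s‖ = 1 := by
    have := congrArg norm hs
    rw [norm_pow, norm_one] at this
    exact (pow_eq_one_iff_of_nonneg (norm_nonneg s) hN.ne').1 this
  have hL0 : (1 - C s⁻¹ * X : ℂ[X]) ≠ 0 := fun h => by
    have := congrArg (eval 0) h
    simp at this
  have hLs : (1 - C s⁻¹ * X : ℂ[X]).eval s = 0 := by simp [hs0]
  have hT : (1 - X ^ N : ℂ[X]) = (1 - C s⁻¹ * X) * ∑ i ∈ Finset.range N, (C s⁻¹ * X) ^ i := by
    rw [mul_neg_geom_sum, mul_pow, ← C_pow, inv_pow, hs, inv_one, C_1, one_mul]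
  have hTs : (∑ i ∈ Finset.range N, (C s⁻¹ * X : ℂ[X]) ^ i).eval s = N := by
    simp [eval_finsetSum, hs0]
  set T := ∑ i ∈ Finset.range N, (C s⁻¹ * X : ℂ[X]) ^ i
  set A := Finset.univ.filter fun j => ω j * s = 1 with hA
  set A' := Finset.univ.filter fun j => ¬ ω j * s = 1 with hA'
  set B := Finset.univ.filter fun j => ω0 j * s = 1 with hB
  set B' := Finset.univ.filter fun j => ¬ ω0 j * s = 1 with hB'
  have hAc : A.card + A'.card = r := by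
    rw [hA, hA', Finset.card_filter_add_card_filter_not]; simp
  have hBc : B.card + B'.card = r := by
    rw [hB, hB', Finset.card_filter_add_card_filter_not]; simp
  have hn1 : ∀ j, ‖ω j * s‖ = 1 := fun j => by rw [norm_mul, h1, hsn, one_mul]
  have hn0 : ∀ j, ‖ω0 j * s‖ = 1 := fun j => by rw [norm_mul, h0, hsn, one_mul]
  have pA := geig_pos A' (z := fun j => ω j * s) fun j hj => ⟨hn1 j, (Finset.mem_filter.1 hj).2⟩
  have pB := geig_pos B' (z := fun j => ω0 j * s) fun j hj => ⟨hn0 j, (Finset.mem_filter.1 hj).2⟩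
  have eA : (∏ j ∈ A', (1 - C (ω j) * X)).eval s = ∏ j ∈ A', (1 - ω j * s) := by
    simp [eval_prod]
  have eB : (∏ j ∈ B', (1 - C (ω0 j) * X)).eval s = ∏ j ∈ B', (1 - ω0 j * s) := by
    simp [eval_prod]
  have hN' : (N : ℂ) ≠ 0 := Nat.cast_ne_zero.2 hN.ne'
  rw [geig_split ω (s := s), geig_split ω0 (s := s), hT, mul_pow, mul_mul_mul_comm, ← pow_add,
    mul_assoc] at hq
  obtain ⟨hcard, hUV⟩ := geig_cancel hL0 hLs
    (by
      rw [eval_mul, eval_pow, hTs, eA]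
      exact mul_ne_zero (pow_ne_zero _ hN') (right_ne_zero_of_mul pA.ne'))
    (by
      rw [eval_mul, eB]
      exact mul_ne_zero (right_ne_zero_of_mul pB.ne') hq0) hq
  have hev := congrArg (eval s) hUV
  rw [eval_mul, eval_pow, hTs, eA, eval_mul, eB] at hev
  have hcard' : J.card + A.card = B.card := hcard
  have hBne : B.Nonempty := by
    rw [← Finset.card_pos]
    have := hJ.card_pos
    omega
  obtain ⟨j0, hj0⟩ := hBne
  have hdiv : ∀ w : ℂ, w / ω0 j0 = w * s := fun w => by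
    rw [eq_inv_of_mul_eq_one_left (Finset.mem_filter.1 hj0).2, div_inv_eq_mul]
  obtain ⟨g1, g2⟩ := he j0
  simp only [hdiv] at g1 g2
  rw [geig_sum fun j => ω j * s, geig_sum fun j => ω0 j * s] at g1
  rw [geig_sum_inv hn1, geig_sum_inv hn0,
    Finset.sum_congr rfl fun a ha => a01_inv (hζ a ha).1 (hζ a ha).2, Finset.sum_sub_distrib,
    Finset.sum_const, nsmul_eq_mul, mul_one] at g2
  have hc2 : A'.card = B'.card + J.card := by omega
  have hc3 : (A'.card : ℝ) = B'.card + J.card := by exact_mod_cast hc2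
  have g3 : ∑ j ∈ A', a01 (ω j * s) = ∑ j ∈ B', a01 (ω0 j * s) + ∑ a ∈ J, a01 (ζ a) := by
    linarith
  have g4 : ∏ j ∈ A', kap (ω j * s) = (∏ j ∈ B', kap (ω0 j * s)) * ∏ a ∈ J, kap (ζ a) := by
    rw [geig_kap_prod, geig_kap_prod, geig_kap_prod, g3, hc2, pow_add, mul_mul_mul_comm,
      ← Complex.exp_add]
    congr 2
    push_cast
    ring
  have g5 : ((∏ j ∈ B', kap (ω0 j * s)) * ∏ j ∈ B', (1 - ω0 j * s)) *
      ((∏ a ∈ J, kap (ζ a)) * q.eval s) =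
      (N : ℂ) ^ J.card * ((∏ j ∈ A', kap (ω j * s)) * ∏ j ∈ A', (1 - ω j * s)) := by
    rw [g4]
    linear_combination (-((∏ j ∈ B', kap (ω0 j * s)) * ∏ a ∈ J, kap (ζ a))) * hev
  refine geig_div pB ?_
  rw [g5]
  exact mul_nonneg (pow_nonneg (Nat.cast_nonneg N) _) pA.le

/-- `minor_formula`, `exists_rho`, `charpolyRev_of_prod`, `eig_sign`; at `s ^ N = 1` the first
term of `Sys.B` vanishes; the empty minor is `1`. -/
theorem Sys.minor_sign {S : Sys n r} {l : List (Fin n)} (hl : l.Nodup) {ω0 : Fin r → ℂ}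
    (h0 : ∀ j, ‖ω0 j‖ = 1) (hc : S.c.val.charpoly = ∏ j, (X - C (ω0 j))) (hsp : S.Spec l ω0)
    (hζ : ∀ a ∈ l, ‖(S.x a).ζ‖ = 1 ∧ (S.x a).ζ ≠ 1) {N : ℕ} (hN : 0 < N) (hcN : S.c ^ N = 1)
    {s : ℂ} (hs : s ^ N = 1) {J : Finset (Fin n)} (hJ : ∀ a ∈ J, a ∈ l) :
    0 ≤ (∏ a ∈ J, kap (S.x a).ζ) *
      minor J (Matrix.of fun a b => (S.x a).f ⬝ᵥ (Pj S.c N s *ᵥ (S.x b).e)) := by
  rcases J.eq_empty_or_nonempty with rfl | hne
  · simp [minor]
  have hsub : (l.filter fun a => a ∈ J).Sublist l := List.filter_sublist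
  have hfin : (l.filter fun a => a ∈ J).toFinset = J := by
    ext a
    simp only [List.mem_toFinset, List.mem_filter, decide_eq_true_eq]
    exact ⟨fun h => h.2, fun h => ⟨hJ a h, h⟩⟩
  obtain ⟨ρ, hρ⟩ := exists_rho (hl.sublist hsub)
  obtain ⟨q, hq, hqs⟩ := S.minor_formula hN hcN hρ
  obtain ⟨ω, hω, hch, he⟩ := hsp _ hsub
  rw [hfin] at hq hqs he
  rw [charpolyRev_of_prod hch, charpolyRev_of_prod hc] at hq
  have h := eig_sign h0 (fun j => (hω j).norm_eq_one) hne (fun a ha => hζ a (hJ a ha)) he hN hs hq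
  have hB : S.B N ρ s = Matrix.of fun a b => (S.x a).f ⬝ᵥ (Pj S.c N s *ᵥ (S.x b).e) := by
    ext a b
    simp only [Sys.B, Matrix.of_apply, hs, sub_self, zero_mul, zero_add]
  rwa [hqs, hB] at h

/-- Apply `minor_sign` with `s = y.ζ⁻¹`, `J = {b}`. Here `y.u ^ j *ᵥ v = v - (∑_{i < j} ζ ^ i) *
(y.f ⬝ᵥ v) • y.e`, so `(1 - ζ) • Pj y.u N ζ⁻¹ *ᵥ v = (N * (y.f ⬝ᵥ v)) • y.e` (geometric sums,
`ζ ^ N = 1` because `y.u *ᵥ y.e = ζ • y.e`, `y.e ≠ 0`); and `0 < kap ζ * (1 - ζ)`. -/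
theorem pair_sign {y : Rf r} {x : Fin n → Rf r} {b : Fin n} {ω0 : Fin r → ℂ}
    (h0 : ∀ j, ‖ω0 j‖ = 1) (hc : y.u.val.charpoly = ∏ j, (X - C (ω0 j)))
    (hsp : Sys.Spec ⟨y.u, x⟩ [b] ω0) (hy : ‖y.ζ‖ = 1 ∧ y.ζ ≠ 1)
    (hb : ‖(x b).ζ‖ = 1 ∧ (x b).ζ ≠ 1) (hf : IsOfFinOrder y.u) :
    0 ≤ kap y.ζ * kap (x b).ζ * ((y.f ⬝ᵥ (x b).e) * ((x b).f ⬝ᵥ y.e)) := by
  obtain ⟨N, hN, hcN⟩ := isOfFinOrder_iff_pow_eq_one.1 hf
  have h1 : (1 - y.ζ) ≠ 0 := sub_ne_zero.2 hy.2.symm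
  have hζN : y.ζ ^ N = 1 := by
    have h2 := congrArg (fun v => y.f ⬝ᵥ v) (geig_pow_mulVec y y.e N)
    simp only [hcN, Units.val_one, one_mulVec, dotProduct_sub, dotProduct_smul, y.dot,
      smul_eq_mul] at h2
    have h3 : (1 - y.ζ ^ N) * (1 - y.ζ) * (1 - y.ζ) = 0 := by linear_combination h2
    have h4 := (mul_eq_zero.1 ((mul_eq_zero.1 h3).resolve_right h1)).resolve_right h1
    exact (sub_eq_zero.1 h4).symm
  have hs : y.ζ⁻¹ ^ N = 1 := by rw [inv_pow, hζN, inv_one]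
  have h := Sys.minor_sign (S := ⟨y.u, x⟩) (List.nodup_singleton b) h0 hc hsp
    (fun a ha => by rw [List.mem_singleton.1 ha]; exact hb) hN hcN hs (J := {b})
    (fun a ha => by simpa using ha)
  have hm : ∀ M : Matrix (Fin n) (Fin n) ℂ, minor {b} M = M b b := fun M => by
    unfold minor
    rw [Matrix.det_unique]
    rfl
  rw [hm, Finset.prod_singleton, Matrix.of_apply] at h
  have hgeo : ∑ j ∈ Finset.range N, y.ζ⁻¹ ^ (j + 1) = 0 := by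
    have h2 : (1 - y.ζ⁻¹) ≠ 0 := sub_ne_zero.2 fun h => hy.2 (inv_eq_one.1 h.symm)
    have h3 := mul_neg_geom_sum y.ζ⁻¹ N
    rw [hs, sub_self] at h3
    simp only [pow_succ, ← Finset.sum_mul]
    rw [(mul_eq_zero.1 h3).resolve_left h2, zero_mul]
  have hP : (1 - y.ζ) * ((x b).f ⬝ᵥ (Pj y.u N y.ζ⁻¹ *ᵥ (x b).e)) =
      N * ((y.f ⬝ᵥ (x b).e) * ((x b).f ⬝ᵥ y.e)) := by
    have h2 : ∀ j ∈ Finset.range N, (1 - y.ζ) *
        ((x b).f ⬝ᵥ ((y.ζ⁻¹ ^ (j + 1) • (y.u ^ (j + 1)).val) *ᵥ (x b).e)) =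
        y.ζ⁻¹ ^ (j + 1) * ((1 - y.ζ) * ((x b).f ⬝ᵥ (x b).e) -
          (y.f ⬝ᵥ (x b).e) * ((x b).f ⬝ᵥ y.e)) + (y.f ⬝ᵥ (x b).e) * ((x b).f ⬝ᵥ y.e) := by
      intro j _
      have h3 := congrArg (fun v => (x b).f ⬝ᵥ v) (geig_pow_mulVec y (x b).e (j + 1))
      simp only [dotProduct_sub, dotProduct_smul, smul_eq_mul] at h3
      have h4 : y.ζ⁻¹ ^ (j + 1) * y.ζ ^ (j + 1) = 1 := by
        rw [← mul_pow, inv_mul_cancel₀ y.ne, one_pow]
      rw [smul_mulVec, dotProduct_smul, smul_eq_mul]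
      linear_combination y.ζ⁻¹ ^ (j + 1) * h3 + ((y.f ⬝ᵥ (x b).e) * ((x b).f ⬝ᵥ y.e)) * h4
    rw [Pj, sum_mulVec, dotProduct_sum, Finset.mul_sum, Finset.sum_congr rfl h2,
      Finset.sum_add_distrib, ← Finset.sum_mul, hgeo]
    simp
  have hk : 0 ≤ kap y.ζ * (1 - y.ζ) := by
    rw [psda_kap_mul hy.1]
    exact Complex.zero_le_real.2 (mul_nonneg zero_le_two (psda_sin_nonneg _))
  have hN' : (0 : ℂ) < N := Nat.cast_pos.2 hN
  refine geig_div hN' ?_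
  have h5 := mul_nonneg hk h
  have h6 : (N : ℂ) * (kap y.ζ * kap (x b).ζ * ((y.f ⬝ᵥ (x b).e) * ((x b).f ⬝ᵥ y.e))) =
      kap y.ζ * (1 - y.ζ) * (kap (x b).ζ * ((x b).f ⬝ᵥ (Pj y.u N y.ζ⁻¹ *ᵥ (x b).e))) := by
    linear_combination (-(kap y.ζ * kap (x b).ζ)) * hP
  rw [h6]
  exact h5

end Pool.Agent.GR
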