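import Pool.Agent.Lib.MP_aa40d3_nt.GR2.GHerm

/-! The invariant Hermitian form. -/

open Polynomial Matrix
open scoped ComplexOrder

namespace Pool.Agent.GR

variable {n r : ℕ}

theorem Rf.th_u (x : Rf r) : x.th.u = thU x.u := by
  refine Units.ext ?_
  rw [thU_val, Rf.u_inv_val, Rf.u_val, conjTranspose_add, conjTranspose_one, conjTranspose_smul,
    conjTranspose_vecMulVec, star_inv₀]
  simp only [Rf.th]
  rw [vecMulVec_smul, neg_smul, sub_neg_eq_add]

theorem Rf.th_cj (x : Rf r) (u : GLr r) : (x.cj u).th = x.th.cj (thU u) := by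
  simp only [Rf.th, Rf.cj, thU_inv_val, thU_val, star_vecMul, star_mulVec, smul_vecMul]

theorem Sys.th_prod (S : Sys n r) (l : List (Fin n)) : S.th.prod l = thU (S.prod l) := by
  rw [Sys.prod, Sys.prod, map_mul, map_list_prod, List.map_map]
  have h : (fun a => (S.th.x a).u) = thU ∘ fun a => (S.x a).u := funext fun a => (S.x a).th_u
  rw [h]
  rfl

theorem Sys.th_abs (S : Sys n r) (i : Fin n) : (S.abs i).th = S.th.abs i := by
  simp only [Sys.th, Sys.abs, map_mul, Rf.th_u]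

theorem Sys.th_tw (S : Sys n r) (b : Fin n) (u : GLr r) : (S.tw b u).th = S.th.tw b (thU u) := by
  simp only [Sys.th, Sys.tw]
  congr 1
  funext a
  by_cases h : a = b
  · subst h
    rw [Function.update_self, Function.update_self, Rf.th_cj]
  · rw [Function.update_of_ne h, Function.update_of_ne h]

theorem Sys.th_M (S : Sys n r) (a : Fin n) (k : ℤ) (b : Fin n) :
    S.th.M a k b = -(star (S.x a).ζ)⁻¹ * star (S.M b (-k) a) := by
  simp only [Sys.M, Sys.th, Rf.th]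
  rw [← map_zpow, thU_val, ← _root_.zpow_neg, smul_dotProduct, smul_eq_mul, ← star_dotProduct_star,
    star_mulVec, ← dotProduct_mulVec]

/-- `charpoly_inv`, `reverse_charpoly`, `charpoly_transpose`, `charpoly_map`; or evaluate at
`x ≠ 0`: `det (x - (uᴴ)⁻¹) = conj (det (conj x - u⁻¹))` and
`det (y - u⁻¹) * det (-u) = det (1 - y u)`. -/
theorem charpoly_thU {u : GLr r} (h : UC r u.val.charpoly) :
    (thU u).val.charpoly = u.val.charpoly := by
  obtain ⟨ω, hω, h⟩ := h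
  have h0 : ∀ j, ω j ≠ 0 := fun j e => by simpa [e] using hω j
  have h1 : ∀ y : ℂ, (scalar (Fin r) y - u.val).det = ∏ j, (y - ω j) := fun y => by
    rw [← eval_charpoly, h, eval_prod]
    simp
  have h2 : ∀ y : ℂ, y ≠ 0 → (scalar (Fin r) y - (u⁻¹).val).det = ∏ j, (y - (ω j)⁻¹) := by
    intro y hy
    have e1 : (scalar (Fin r) y - (u⁻¹).val) * (scalar (Fin r) 0 - u.val) =
        y • (scalar (Fin r) y⁻¹ - u.val) := by
      rw [map_zero, zero_sub, mul_neg, sub_mul, Units.inv_mul, scalar_apply, scalar_apply,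
        ← smul_one_eq_diagonal, ← smul_one_eq_diagonal, smul_sub, smul_smul, mul_inv_cancel₀ hy,
        one_smul, smul_mul_assoc, one_mul, neg_sub]
    have e2 := congrArg det e1
    rw [det_mul, det_smul, h1, h1, Fintype.card_fin] at e2
    refine mul_right_cancel₀ (b := ∏ j, (0 - ω j))
      (Finset.prod_ne_zero_iff.2 fun j _ => by simpa using h0 j) ?_
    rw [e2, ← Finset.prod_mul_distrib, ← Fin.prod_const, ← Finset.prod_mul_distrib]
    refine Finset.prod_congr rfl fun j _ => ?_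
    have := h0 j
    field_simp
    ring
  refine Polynomial.eq_of_infinite_eval_eq _ _
    ((Set.finite_singleton (0 : ℂ)).infinite_compl.mono fun x hx => ?_)
  have hx0 : star x ≠ 0 := star_ne_zero.2 hx
  have e1 : scalar (Fin r) x - (thU u).val = (scalar (Fin r) (star x) - (u⁻¹).val)ᴴ := by
    rw [thU_val, conjTranspose_sub, scalar_apply, scalar_apply, diagonal_conjTranspose]
    congr 2
    funext j
    simp
  change eval x _ = eval x _
  rw [eval_charpoly, eval_charpoly, e1, det_conjTranspose, h2 _ hx0, h1, star_prod]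
  refine Finset.prod_congr rfl fun j _ => ?_
  rw [star_sub, star_star, Complex.inv_eq_conj (hω j)]
  simp

theorem trace_u_mul_u (x y : Rf r) : (x.u * y.u).val.trace =
    r - (1 - x.ζ) - (1 - y.ζ) + (x.f ⬝ᵥ y.e) * (y.f ⬝ᵥ x.e) := by
  rw [Units.val_mul, Rf.u_val, Rf.u_val, mul_sub, mul_one, sub_mul, one_mul,
    vecMulVec_mul_vecMulVec, trace_sub, trace_sub, trace_sub, trace_one, trace_vecMulVec,
    trace_vecMulVec, trace_vecMulVec, dotProduct_smul, dotProduct_comm x.e x.f,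
    dotProduct_comm y.e y.f, x.dot, y.dot, dotProduct_comm x.e y.f, smul_eq_mul, Fintype.card_fin]
  ring

theorem gform_zeta {x : Rf r} (h : ‖x.ζ‖ = 1) : x.ζ = x.th.ζ := by
  change x.ζ = (star x.ζ)⁻¹
  rw [← star_inv₀, Complex.inv_eq_conj h]
  simp

theorem gform_pair {x y : Rf r} (hx : ‖x.ζ‖ = 1) (hy : ‖y.ζ‖ = 1)
    (h : UC r (x.u * y.u).val.charpoly) :
    (x.f ⬝ᵥ y.e) * (y.f ⬝ᵥ x.e) = (x.th.f ⬝ᵥ y.th.e) * (y.th.f ⬝ᵥ x.th.e) := by
  have h1 := charpoly_thU h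
  rw [map_mul, ← Rf.th_u, ← Rf.th_u] at h1
  have h2 : (x.th.u * y.th.u).val.trace = (x.u * y.u).val.trace := by
    rw [trace_eq_neg_charpoly_nextCoeff, trace_eq_neg_charpoly_nextCoeff, h1]
  rw [trace_u_mul_u, trace_u_mul_u, ← gform_zeta hx, ← gform_zeta hy] at h2
  exact (add_left_cancel h2).symm

theorem gform_hs (S : Sys n r) (a : Fin n) (k : ℤ) (b : Fin n) :
    S.th.M a k b = 0 ↔ S.M b (-k) a = 0 := by
  rw [Sys.th_M, mul_eq_zero, star_eq_zero]
  exact or_iff_right (neg_ne_zero.2 (inv_ne_zero (star_ne_zero.2 (S.x a).ne)))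

/-- The symmetric class of pairs. For `pair` compare traces (`trace_eq_neg_charpoly_nextCoeff` or
`trace_eq_neg_charpoly_coeff`; the case `r = 0` is trivial). -/
theorem Cls1.cls {𝒜 : List (Fin n) → Sys n r → Prop} (h : Cls1 𝒜) :
    Cls fun l S S' => (𝒜 l S ∧ S' = S.th) ∨ (𝒜 l S' ∧ S = S'.th) := by
  have hp : ∀ {a b : Fin n} {S : Sys n r}, 𝒜 [a, b] S →
      S.M a 0 b * S.M b 0 a = S.th.M a 0 b * S.th.M b 0 a := by
    intro a b S hc
    rw [Sys.M_zero, Sys.M_zero, Sys.M_zero, Sys.M_zero]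
    exact gform_pair (h.zeta hc a (by simp)) (h.zeta hc b (by simp)) (h.pair hc)
  have hb : ∀ (a b : Fin n) (S : Sys n r),
      S.th.tw a (S.th.x b).u = (S.tw a (S.x b).u).th := fun a b S => by
    rw [Sys.th_tw, ← Rf.th_u]
    rfl
  have ht : ∀ (l : List (Fin n)) (b : Fin n) (S : Sys n r),
      S.th.tw b (S.th.prod l) = (S.tw b (S.prod l)).th := fun l b S => by
    rw [Sys.th_tw, Sys.th_prod]
  constructor
  · rintro l S S' (⟨hc, -⟩ | ⟨hc, -⟩) <;> exact h.nodup hc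
  · rintro l S S' (⟨hc, rfl⟩ | ⟨hc, rfl⟩) a ha
    · exact gform_zeta (h.zeta hc a ha)
    · exact (gform_zeta (h.zeta hc a ha)).symm
  · exact fun hc => hc.symm
  · exact fun hc hl => hc.imp (fun e => ⟨h.del e.1 hl, e.2⟩) fun e => ⟨h.del e.1 hl, e.2⟩
  · rintro i l S S' (⟨hc, rfl⟩ | ⟨hc, rfl⟩)
    · exact Or.inl ⟨h.abs hc, (Sys.th_abs _ i).symm⟩
    · exact Or.inr ⟨h.abs hc, (Sys.th_abs _ i).symm⟩
  · rintro a b S S' (⟨hc, rfl⟩ | ⟨hc, rfl⟩)
    · exact Or.inl ⟨h.br hc, hb a b _⟩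
    · exact Or.inr ⟨h.br hc, hb a b _⟩
  · rintro l b S S' (⟨hc, rfl⟩ | ⟨hc, rfl⟩)
    · exact Or.inl ⟨h.tw hc, ht l b _⟩
    · exact Or.inr ⟨h.tw hc, ht l b _⟩
  · rintro l S S' (⟨hc, rfl⟩ | ⟨hc, rfl⟩)
    · exact (charpoly_thU (h.uc hc)).symm
    · exact charpoly_thU (h.uc hc)
  · rintro a b S S' (⟨hc, rfl⟩ | ⟨hc, rfl⟩)
    · exact hp hc
    · exact (hp hc).symm
  · rintro l S S' (⟨-, rfl⟩ | ⟨-, rfl⟩) a k b
    · rw [gform_hs, neg_neg]
    · exact gform_hs _ a k b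

theorem Cls1.ww {𝒜 : List (Fin n) → Sys n r → Prop} (h : Cls1 𝒜) {l : List (Fin n)}
    {S : Sys n r} (hc : 𝒜 l S) : WW DD l S S.th :=
  (h.cls.cw (Or.inl ⟨hc, rfl⟩)).ww fun a ha => by
    rw [mem_DD, h.cls.zeta (Or.inl ⟨hc, rfl⟩) a ha]

end Pool.Agent.GR
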