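import Pool.Agent.Lib.MP_aa40d3_nt.GR2.GThree

/-! All closed walks agree. -/

open Polynomial Matrix

namespace Pool.Agent.GR

variable {n r : ℕ} {𝒞 : List (Fin n) → Sys n r → Sys n r → Prop}

/-- A cycle `P₁ * P₂` with a chord from `u` to `v`. If some `M v k' u ≠ 0`, multiply by
`M u k v * M v k' u ≠ 0`. Otherwise `M' u _ v = 0` and `M' v (-k) u ≠ 0` by `hs`, so `P₂ = 0` and
`P₁' = 0`. -/
theorem Cls.chord (h : Cls 𝒞) {l : List (Fin n)} {S S' : Sys n r} (hc : 𝒞 l S S') {u v : Fin n}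
    (hu : u ∈ l) (hv : v ∈ l) {P₁ P₂ P₁' P₂' : ℂ}
    (h1 : ∀ k, P₁ * S.M v k u = P₁' * S'.M v k u) (h2 : ∀ k, S.M u k v * P₂ = S'.M u k v * P₂')
    {k : ℤ} (hk : S.M u k v ≠ 0) : P₁ * P₂ = P₁' * P₂' := by
  by_cases h3 : ∃ k', S.M v k' u ≠ 0
  · obtain ⟨k', hk'⟩ := h3
    have h4 := h.two hc hu hv k k'
    refine mul_right_cancel₀ (mul_ne_zero hk hk') ?_
    calc P₁ * P₂ * (S.M u k v * S.M v k' u) = (P₁ * S.M v k' u) * (S.M u k v * P₂) := by ring
      _ = (P₁' * S'.M v k' u) * (S'.M u k v * P₂') := by rw [h1, h2]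
      _ = P₁' * P₂' * (S'.M u k v * S'.M v k' u) := by ring
      _ = _ := by rw [h4]
  · push Not at h3
    have h4 : S'.M u k v = 0 := by
      have := (h.hs hc v (-k) u).1 (h3 _)
      rwa [neg_neg] at this
    have h5 : S'.M v (-k) u ≠ 0 := fun h0 => hk ((h.hs hc u k v).2 h0)
    have h6 := h2 k
    have h7 := h1 (-k)
    rw [h4, zero_mul] at h6
    rw [h3, mul_zero] at h7
    rw [(mul_eq_zero.1 h6).resolve_left hk, (mul_eq_zero.1 h7.symm).resolve_right h5, mul_zero,
      zero_mul]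

/-- `res3` gives `(1 + F i i) * (S.abs i).G p q = -(F p i * G i q)`, the same for `S'`; multiply
the hypothesis (as an identity of series) by `1 + F i i` and use `sep`. -/
theorem Cls.nochord (h : Cls 𝒞) {l : List (Fin n)} {S S' : Sys n r} (hc : 𝒞 l S S')
    {p i q : Fin n} (hp : p ∈ l) (hi : i ∈ l) (hq : q ∈ l) (h1 : ∀ k, S.M p k q = 0)
    (h2 : ∀ k, S'.M p k q = 0) {P P' : ℂ}
    (h3 : ∀ k, P * (S.abs i).M p k q = P' * (S'.abs i).M p k q) (j k : ℤ) :
    P * S.M p j i * S.M i k q = P' * S'.M p j i * S'.M i k q := by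
  have e1 := S.res3 i p q
  have e2 := S'.res3 i p q
  rw [Sys.G_eq_zero h1] at e1
  rw [Sys.G_eq_zero h2, ← h.F_self hc hi] at e2
  have e3 : PowerSeries.C P * (S.abs i).G p q = PowerSeries.C P' * (S'.abs i).G p q := by
    ext m
    rw [PowerSeries.coeff_C_mul, PowerSeries.coeff_C_mul, Sys.coeff_G, Sys.coeff_G, h3]
  refine h.sep hc hp hi hq ?_ j k
  linear_combination PowerSeries.C P * e1 - PowerSeries.C P' * e2 - (1 + S.F i i) * e3

/-- If along the walk every step `(u, k, v)` has `M u k v = M₁ u k v` the weights agree. -/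
theorem pw_congr {M M₁ : Fin n → ℤ → Fin n → ℂ} {a : Fin n} {p : List (ℤ × Fin n)}
    (h : ∀ p₁ q p₂, p = p₁ ++ q :: p₂ → M (pe a p₁) q.1 q.2 = M₁ (pe a p₁) q.1 q.2) :
    pw M a p = pw M₁ a p := by
  induction p generalizing a with
  | nil => rfl
  | cons q p ih =>
    have h1 : M a q.1 q.2 = M₁ a q.1 q.2 := h [] q p rfl
    have h2 : pw M q.2 p = pw M₁ q.2 p :=
      ih fun p₁ q' p₂ he => h (q :: p₁) q' p₂ (by rw [he]; rfl)
    simp only [pw]
    rw [h1, h2]

/-- The statement for all simple closed walks of length less than `m`. -/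
def gherm_IH (𝒞 : List (Fin n) → Sys n r → Sys n r → Prop) (m : ℕ) : Prop :=
  ∀ {l : List (Fin n)} {S S' : Sys n r}, 𝒞 l S S' →
    ∀ a p, p.length < m → pe a p = a → (∀ q ∈ p, q.2 ∈ l) → (p.map Prod.snd).Nodup →
      pw S.M a p = pw S'.M a p

/-- No edge between `u` and `v`. -/
def gherm_No (S S' : Sys n r) (u v : Fin n) : Prop :=
  (∀ k, S.M u k v = 0) ∧ ∀ k, S'.M u k v = 0

theorem gherm_symm (h : Cls 𝒞) {l : List (Fin n)} {S S' : Sys n r} (hc : 𝒞 l S S') {u v : Fin n}
    (h1 : gherm_No S S' u v) : gherm_No S S' v u :=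
  ⟨fun k => (h.hs hc v k u).2 (h1.2 _), fun k => (h.hs (h.symm hc) v k u).2 (h1.1 _)⟩

theorem gherm_split (h : Cls 𝒞) {m : ℕ} (IH : gherm_IH 𝒞 m) {l : List (Fin n)} {S S' : Sys n r}
    (hc : 𝒞 l S S') {u : Fin n} {P₁ P₂ : List (ℤ × Fin n)} (hm : P₁.length + P₂.length = m)
    (h1 : 2 ≤ P₁.length) (h2 : 2 ≤ P₂.length) (hcl : pe u (P₁ ++ P₂) = u)
    (hl : ∀ q ∈ P₁ ++ P₂, q.2 ∈ l) (hnd : ((P₁ ++ P₂).map Prod.snd).Nodup)
    (hne : pw S.M u (P₁ ++ P₂) ≠ pw S'.M u (P₁ ++ P₂)) : gherm_No S S' u (pe u P₁) := by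
  set v := pe u P₁ with hv
  have hP₁ : P₁ ≠ [] := by
    rintro rfl
    simp at h1
  have hP₂ : P₂ ≠ [] := by
    rintro rfl
    simp at h2
  rw [pe_append, ← hv] at hcl
  have hv1 : v ∈ P₁.map Prod.snd := pe_mem u hP₁
  have hu2 : u ∈ P₂.map Prod.snd := hcl ▸ pe_mem v hP₂
  rw [List.map_append, List.nodup_append] at hnd
  have hul : u ∈ l := by
    obtain ⟨x, hx, he⟩ := List.mem_map.1 hu2
    exact he ▸ hl x (List.mem_append_right _ hx)
  have hvl : v ∈ l := by
    obtain ⟨x, hx, he⟩ := List.mem_map.1 hv1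
    exact he ▸ hl x (List.mem_append_left _ hx)
  have c1 : ∀ k, pw S.M u P₁ * S.M v k u = pw S'.M u P₁ * S'.M v k u := by
    intro k
    have := IH hc u (P₁ ++ [(k, u)]) (by simp; omega) (pe_concat _ _ _) (by
      intro q hq
      rcases List.mem_append.1 hq with hq | hq
      · exact hl q (List.mem_append_left _ hq)
      · rw [List.mem_singleton.1 hq]
        exact hul) (by
      rw [List.map_append, List.nodup_append]
      refine ⟨hnd.1, by simp, fun a ha b hb => ?_⟩
      have : b = u := by simpa using hb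
      rw [this]
      exact hnd.2.2 a ha u hu2)
    simpa only [pw_append, pw, mul_one] using this
  have c2 : ∀ k, S.M u k v * pw S.M v P₂ = S'.M u k v * pw S'.M v P₂ := by
    intro k
    exact IH hc u ((k, v) :: P₂) (by simp; omega) hcl (by
      intro q hq
      rcases List.mem_cons.1 hq with hq | hq
      · rw [hq]
        exact hvl
      · exact hl q (List.mem_append_right _ hq)) (by
      rw [List.map_cons, List.nodup_cons]
      exact ⟨fun hb => hnd.2.2 v hv1 v hb rfl, hnd.2.1⟩)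
  rw [pw_append, pw_append, ← hv] at hne
  refine ⟨fun k => ?_, fun k => ?_⟩
  · by_contra hk
    exact hne (h.chord hc hul hvl c1 c2 hk)
  · by_contra hk
    exact hne (h.chord (h.symm hc) hul hvl (fun k => (c1 k).symm) (fun k => (c2 k).symm) hk).symm

theorem gherm_abs {S : Sys n r} {i q : Fin n} {p₀ : List (ℤ × Fin n)} (h2 : 2 ≤ p₀.length)
    (h : ∀ p₁ x p₂, p₀ = p₁ ++ x :: p₂ → p₂ ≠ [] →
      (∀ k, S.M i k x.2 = 0) ∧ ∀ k, S.M x.2 k i = 0) :
    pw (S.abs i).M q p₀ = pw S.M q p₀ := by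
  refine pw_congr fun p₁ x p₂ he => Sys.abs_M_eq ?_ _
  by_cases hp : p₂ = []
  · left
    subst hp
    rcases List.eq_nil_or_concat p₁ with rfl | ⟨p₃, y, rfl⟩
    · rw [he] at h2
      simp at h2
    · rw [List.concat_eq_append] at he ⊢
      rw [pe_concat]
      exact (h p₃ y [x] (by rw [he]; simp) (by simp)).2
  · exact Or.inr (h p₁ x p₂ he hp).1

theorem gherm_step (h : Cls 𝒞) {m : ℕ} (IH : gherm_IH 𝒞 m) {i : Fin n} {l : List (Fin n)}
    {S S' : Sys n r} (hc : 𝒞 (i :: l) S S') (j k : ℤ) {q : Fin n} {p₀ : List (ℤ × Fin n)}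
    (hm : p₀.length + 2 = m) (h2 : 2 ≤ p₀.length)
    (hl : ∀ x ∈ (k, q) :: p₀ ++ [(j, i)], x.2 ∈ i :: l)
    (hnd : (((k, q) :: p₀ ++ [(j, i)]).map Prod.snd).Nodup) :
    pw S.M i ((k, q) :: p₀ ++ [(j, i)]) = pw S'.M i ((k, q) :: p₀ ++ [(j, i)]) := by
  by_contra hne
  have hcl : pe i ((k, q) :: p₀ ++ [(j, i)]) = i := pe_concat _ _ _
  have hp₀ : p₀ ≠ [] := by
    rintro rfl
    simp at h2
  have a1 : gherm_No S S' q (pe q p₀) := by
    have hperm : (p₀ ++ [(j, i), (k, q)]).Perm ((k, q) :: p₀ ++ [(j, i)]) := by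
      have : p₀ ++ [(j, i), (k, q)] = (p₀ ++ [(j, i)]) ++ [(k, q)] := by simp
      rw [this]
      exact List.perm_append_comm
    refine gherm_split h IH hc (P₂ := [(j, i), (k, q)]) (by simpa using hm) h2 (by simp)
      (by rw [pe_append]; rfl) (fun x hx => hl x (hperm.subset hx))
      ((hperm.map _).nodup_iff.2 hnd) fun he => hne ?_
    simp only [pw_append, pw, List.cons_append, mul_one] at he ⊢
    linear_combination he
  have a2 : ∀ p₁ x p₂, p₀ = p₁ ++ x :: p₂ → p₂ ≠ [] → gherm_No S S' i x.2 := by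
    intro p₁ x p₂ he hp₂
    have e : (k, q) :: p₀ ++ [(j, i)] = ((k, q) :: p₁ ++ [x]) ++ (p₂ ++ [(j, i)]) := by
      rw [he]
      simp
    rw [e] at hl hnd hne hcl
    have hlen : 0 < p₂.length := List.length_pos_iff.2 hp₂
    have := gherm_split h IH hc (by
      rw [← hm, he]
      simp
      omega) (by simp) (by simp; omega) hcl hl hnd hne
    rwa [pe_concat] at this
  have b1 := gherm_abs (S := S) (i := i) (q := q) h2 fun p₁ x p₂ he hp =>
    ⟨(a2 p₁ x p₂ he hp).1, (gherm_symm h hc (a2 p₁ x p₂ he hp)).1⟩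
  have b2 := gherm_abs (S := S') (i := i) (q := q) h2 fun p₁ x p₂ he hp =>
    ⟨(a2 p₁ x p₂ he hp).2, (gherm_symm h hc (a2 p₁ x p₂ he hp)).2⟩
  have hnd' : (q :: p₀.map Prod.snd).Nodup ∧ ∀ a ∈ q :: p₀.map Prod.snd, a ≠ i := by
    rw [List.map_append, List.nodup_append] at hnd
    exact ⟨hnd.1, fun a ha => hnd.2.2 a ha i (by simp)⟩
  have hmem : ∀ a ∈ q :: p₀.map Prod.snd, a ∈ i :: l := by
    intro a ha
    obtain ⟨x, hx, he⟩ := List.mem_map.1 (show a ∈ ((k, q) :: p₀).map Prod.snd from ha)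
    exact he ▸ hl x (List.mem_append_left _ hx)
  have c1 : ∀ k', pw S.M q p₀ * (S.abs i).M (pe q p₀) k' q =
      pw S'.M q p₀ * (S'.abs i).M (pe q p₀) k' q := by
    intro k'
    have := IH (h.abs hc) (pe q p₀) ((k', q) :: p₀) (by simp; omega) rfl (by
      intro x hx
      have hx' : x.2 ∈ q :: p₀.map Prod.snd := List.mem_map_of_mem (f := Prod.snd) hx
      exact (List.mem_cons.1 (hmem _ hx')).resolve_left (hnd'.2 _ hx')) hnd'.1
    simp only [pw] at this
    rw [b1, b2] at this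
    linear_combination this
  have a3 := gherm_symm h hc a1
  have c2 := h.nochord hc (hmem _ (List.mem_cons_of_mem _ (pe_mem q hp₀))) List.mem_cons_self
    (hmem _ List.mem_cons_self) a3.1 a3.2 c1 j k
  refine hne ?_
  simp only [pw_append, pw, List.cons_append, mul_one]
  linear_combination c2

/-- Strong induction on the length `m` of the simple closed walk, for all members of the class.
Replace `l` by the sublist `l'` of the vertices of the walk (`List.filter`), of length `m`.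
`m ≤ 3`: `one`, `two`, `three`. For `m ≥ 4` let `l' = i :: l''` and rotate (`pw_rotate`) so that
the walk starts at `i`: `(k, q) :: p₀ ++ [(j, i)]`, where `p₀` leads from `q` to `p = pe q p₀` and
has length at least two. The induction hypothesis applies to all shorter simple closed walks.
If `M p _ q`, or `M i _ v` for a vertex `v` of `p₀` other than `p`, or `M u _ i` for `u` such a
vertex, does not vanish for `S` or `S'`, split the cycle at the two vertices and use `chord` (for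
the pair or the swapped pair). Otherwise the weights of `p₀` for `S.abs i` and `S` agree
(`abs_M_eq`, `pw_congr`): a step `(u, v)` of `p₀` has `u = q`, `v ≠ p`, or `u` a vertex of `p₀`
other than `p`. Apply the induction hypothesis to the walks `(k', q) :: p₀` closed at `p` for the
absorbed pair and use `nochord`. -/
theorem Cls.simple (h : Cls 𝒞) (m : ℕ) : ∀ {l : List (Fin n)} {S S' : Sys n r}, 𝒞 l S S' →
    ∀ a p, p.length = m → pe a p = a → (∀ q ∈ p, q.2 ∈ l) → (p.map Prod.snd).Nodup →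
      pw S.M a p = pw S'.M a p := by
  induction m using Nat.strong_induction_on with
  | _ m ih =>
  have IH : gherm_IH 𝒞 m := fun hc a p hp => ih _ hp hc a p rfl
  intro l S S' hc a p hm hcl hl hnd
  by_cases h3 : m < 3
  · rcases p with _ | ⟨x, _ | ⟨y, _ | ⟨z, p⟩⟩⟩
    · rfl
    · have e : x.2 = a := hcl
      simp only [pw, e]
      rw [h.one hc (e ▸ hl x (by simp))]
    · have e : y.2 = a := hcl
      simp only [pw, e, mul_one]
      exact h.two hc (e ▸ hl y (by simp)) (hl x (by simp)) _ _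
    · simp at hm
      omega
  have hc' := h.del hc (List.filter_sublist (p := fun x => decide (x ∈ p.map Prod.snd)))
  have hperm : (l.filter fun x => decide (x ∈ p.map Prod.snd)).Perm (p.map Prod.snd) := by
    refine (List.perm_ext_iff_of_nodup (h.nodup hc') hnd).2 fun x => ?_
    rw [List.mem_filter, decide_eq_true_eq]
    refine ⟨fun hx => hx.2, fun hx => ⟨?_, hx⟩⟩
    obtain ⟨y, hy, he⟩ := List.mem_map.1 hx
    exact he ▸ hl y hy
  generalize (l.filter fun x => decide (x ∈ p.map Prod.snd)) = l' at hc' hperm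
  have hlen : l'.length = m := by rw [hperm.length_eq, List.length_map, hm]
  have hl' : ∀ q ∈ p, q.2 ∈ l' := fun q hq => hperm.symm.subset (List.mem_map_of_mem hq)
  by_cases h4 : m = 3
  · obtain ⟨i, u, v, rfl⟩ := List.length_eq_three.1 (hlen.trans h4)
    exact mem_DD.1 (h.three hc' a p hcl hl')
  obtain ⟨i, l'', rfl⟩ := List.exists_cons_of_length_pos (l := l') (by omega)
  obtain ⟨⟨j, i'⟩, hx, he⟩ := List.mem_map.1 (hperm.subset List.mem_cons_self)
  obtain rfl : i' = i := he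
  obtain ⟨p₁, p₂, hp⟩ := List.append_of_mem hx
  have hp' : p = (p₁ ++ [(j, i')]) ++ p₂ := by
    rw [hp]
    simp
  have hl2 : (p₂ ++ p₁).length + 1 = m := by
    rw [← hm, hp]
    simp
    omega
  obtain ⟨⟨k, q⟩, p₀, hp₀⟩ := List.exists_cons_of_length_pos (l := p₂ ++ p₁) (by omega)
  have e : p₂ ++ (p₁ ++ [(j, i')]) = (k, q) :: p₀ ++ [(j, i')] := by
    rw [← List.append_assoc, hp₀]
  have hperm2 : ((k, q) :: p₀ ++ [(j, i')]).Perm p := by
    rw [← e, hp']
    exact List.perm_append_comm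
  rw [hp₀, List.length_cons] at hl2
  have key := gherm_step h IH hc' j k (q := q) (p₀ := p₀) (by omega) (by omega)
    (fun x hx => hl' x (hperm2.subset hx)) ((hperm2.map _).nodup_iff.2 hnd)
  rw [hp'] at hcl
  have r1 := (pw_rotate S.M hcl).2
  have r2 := (pw_rotate S'.M hcl).2
  rw [pe_concat, e, ← hp'] at r1 r2
  rw [← r1, ← r2]
  exact key

theorem Cls.cw (h : Cls 𝒞) {l : List (Fin n)} {S S' : Sys n r} (hc : 𝒞 l S S') :
    CW DD l S.M S'.M :=
  cw_of_simple fun a p h1 h2 h3 => mem_DD.2 (h.simple _ hc a p rfl h1 h2 h3)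

end Pool.Agent.GR
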