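import Pool.Agent.Lib.MP_aa40d3_nt.GR2.GMinor

/-! Integrality of the closed walks. -/

open Polynomial Matrix

namespace Pool.Agent.GR

variable {n r : ℕ}

theorem gint_infinite_residue (O : ValuationSubring ℂ) :
    Infinite (IsLocalRing.ResidueField O) := by
  classical
  by_contra hfin
  rw [not_infinite_iff_finite] at hfin
  have := Fintype.ofFinite (IsLocalRing.ResidueField O)
  have hsurj : Function.Surjective (IsLocalRing.residue O) := IsLocalRing.residue_surjective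
  let g : IsLocalRing.ResidueField O → O := Function.surjInv hsurj
  have hg : ∀ x, IsLocalRing.residue O (g x) = x := Function.surjInv_eq hsurj
  let P : O[X] := ∏ x : IsLocalRing.ResidueField O, (X - C (g x))
  have hPm : P.Monic := monic_prod_of_monic _ _ fun x _ => monic_X_sub_C _
  have hPd : P.natDegree = Fintype.card (IsLocalRing.ResidueField O) := by
    simp only [P]
    rw [natDegree_prod_of_monic _ _ fun x _ => monic_X_sub_C _]
    simp
  have hpos : 0 < P.natDegree := by rw [hPd]; exact Fintype.card_pos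
  have hdeg : (1 : O[X]).degree < P.degree := by
    rw [degree_one]
    exact natDegree_pos_iff_degree_pos.1 hpos
  have hQm : (P - 1).Monic := hPm.sub_of_left hdeg
  have hQd : (P - 1).degree = P.degree := degree_sub_eq_left_of_degree_lt hdeg
  have hQ0 : (P - 1).degree ≠ 0 := by
    rw [hQd]
    exact (natDegree_pos_iff_degree_pos.1 hpos).ne'
  obtain ⟨y, hy⟩ := IsAlgClosed.exists_aeval_eq_zero ℂ (P - 1) hQ0
  have hyi : IsIntegral O y := ⟨P - 1, hQm, hy⟩
  obtain ⟨z, hz⟩ := (IsIntegrallyClosed.isIntegral_iff (R := O) (K := ℂ)).1 hyi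
  have hz0 : (P - 1).eval z = 0 := by
    apply IsFractionRing.injective O ℂ
    rw [map_zero, ← aeval_algebraMap_apply_eq_algebraMap_eval, hz, hy]
  rw [eval_sub, eval_one, sub_eq_zero] at hz0
  have h1 := congrArg (IsLocalRing.residue O) hz0
  simp only [P, eval_prod, eval_sub, eval_X, eval_C, map_prod, map_sub, hg, map_one] at h1
  rw [Finset.prod_eq_zero (Finset.mem_univ (IsLocalRing.residue O z)) (sub_self _)] at h1
  exact zero_ne_one h1

/-- The residue field is infinite: otherwise a root `y` of the monic polynomial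
`∏ (X - C (lift x)) - 1` lies in `O` (valuation rings are integrally closed) and reduces to one of
the `x`. A nonzero polynomial over an infinite field has a non-root. -/
theorem exists_unit_eval (O : ValuationSubring ℂ) {ι : Type} [Fintype ι] (p : ι → O[X])
    (h : ∀ i, ∃ k, IsUnit ((p i).coeff k)) : ∃ ξ : O, ∀ i, IsUnit ((p i).eval ξ) := by
  classical
  have := gint_infinite_residue O
  have hne : ∀ i, (p i).map (IsLocalRing.residue O) ≠ 0 := by
    intro i h0
    obtain ⟨k, hk⟩ := h i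
    have h1 := congrArg (fun q => q.coeff k) h0
    simp only [coeff_map, coeff_zero] at h1
    exact (IsLocalRing.residue_ne_zero_iff_isUnit _).2 hk h1
  have hq : (∏ i, (p i).map (IsLocalRing.residue O)) ≠ 0 :=
    Finset.prod_ne_zero_iff.2 fun i _ => hne i
  have hx : ∃ x, (∏ i, (p i).map (IsLocalRing.residue O)).eval x ≠ 0 := by
    by_contra hc
    push Not at hc
    exact hq (zero_of_eval_zero _ hc)
  obtain ⟨x, hx⟩ := hx
  obtain ⟨ξ, rfl⟩ := IsLocalRing.residue_surjective x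
  refine ⟨ξ, fun i => (IsLocalRing.residue_ne_zero_iff_isUnit _).1 ?_⟩
  rw [eval_prod, Finset.prod_ne_zero_iff] at hx
  have h2 := hx i (Finset.mem_univ i)
  rwa [eval_map, eval₂_at_apply] at h2

theorem gint_dvd (O : ValuationSubring ℂ) (N : ℕ) (m : ℕ → ℂ) :
    (∀ j < N, m j = 0) ∨ ∃ j0 < N, m j0 ≠ 0 ∧ ∀ j < N, m j / m j0 ∈ O := by
  by_cases h : ∀ j < N, m j = 0
  · exact Or.inl h
  right
  push Not at h
  obtain ⟨j1, hj1, hm1⟩ := h
  obtain ⟨j0, hj0, hmax⟩ := Finset.exists_max_image (Finset.range N) (fun j => O.valuation (m j))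
    ⟨j1, Finset.mem_range.2 hj1⟩
  have h0 : m j0 ≠ 0 := by
    intro h0
    have h2 := hmax j1 (Finset.mem_range.2 hj1)
    rw [h0, map_zero, le_zero_iff, map_eq_zero] at h2
    exact hm1 h2
  refine ⟨j0, Finset.mem_range.1 hj0, h0, fun j hj => ?_⟩
  rw [← O.valuation_le_one_iff, map_div₀]
  exact div_le_one_of_le₀ (hmax j (Finset.mem_range.2 hj)) zero_le

theorem gint_unit (O : ValuationSubring ℂ) {v : O} (hv : IsUnit v) :
    (v : ℂ) ≠ 0 ∧ (v : ℂ)⁻¹ ∈ O := by
  obtain ⟨w, hw⟩ := hv.exists_right_inv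
  have h1 : (v : ℂ) * w = 1 := by
    have := congrArg (fun x : O => (x : ℂ)) hw
    simpa using this
  refine ⟨left_ne_zero_of_mul_eq_one h1, ?_⟩
  rw [inv_eq_of_mul_eq_one_right h1]
  exact w.2

theorem gint_poly (O : ValuationSubring ℂ) (N : ℕ) (m : ℕ → ℂ) (d : ℕ) :
    ∃ P : O[X], (∃ k, IsUnit (P.coeff k)) ∧ ∀ ξ : O, IsUnit (P.eval ξ) → ∀ j < N, ∃ u ∈ O,
      m j = u * ∑ k ∈ Finset.range N, (ξ : ℂ) ^ (d + k) * m k := by
  classical
  rcases gint_dvd O N m with h | ⟨j0, hj0, h0, h⟩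
  · refine ⟨1, ⟨0, by simp⟩, fun ξ _ j hj => ⟨0, O.zero_mem, ?_⟩⟩
    rw [h j hj, zero_mul]
  · let c : ℕ → O := fun j => if hj : j < N then ⟨m j / m j0, h j hj⟩ else 0
    have hc : ∀ j < N, (c j : ℂ) = m j / m j0 := fun j hj => by simp [c, hj]
    refine ⟨∑ k ∈ Finset.range N, C (c k) * X ^ (d + k), ⟨d + j0, ?_⟩, fun ξ hξ j hj => ?_⟩
    · rw [finsetSum_coeff, Finset.sum_eq_single j0]
      · rw [coeff_C_mul_X_pow, if_pos rfl]
        have : c j0 = 1 := Subtype.ext (by rw [hc j0 hj0, div_self h0]; rfl)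
        rw [this]
        exact isUnit_one
      · intro k _ hk
        rw [coeff_C_mul_X_pow, if_neg]
        omega
      · intro hh
        exact absurd (Finset.mem_range.2 hj0) hh
    · obtain ⟨hv0, hv⟩ := gint_unit O hξ
      have hev : (((∑ k ∈ Finset.range N, C (c k) * X ^ (d + k)).eval ξ : O) : ℂ) * m j0 =
          ∑ k ∈ Finset.range N, (ξ : ℂ) ^ (d + k) * m k := by
        rw [eval_finsetSum]
        simp only [eval_mul, eval_C, eval_pow, eval_X]
        rw [show ((∑ k ∈ Finset.range N, c k * ξ ^ (d + k) : O) : ℂ) =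
          ∑ k ∈ Finset.range N, (c k : ℂ) * (ξ : ℂ) ^ (d + k) by simp, Finset.sum_mul]
        refine Finset.sum_congr rfl fun k hk => ?_
        rw [hc k (Finset.mem_range.1 hk)]
        field_simp
      refine ⟨_, O.mul_mem _ _ (h j hj) hv, ?_⟩
      rw [← hev]
      field_simp

/-- For each `i` either all `m i j` (`j < N`) vanish, or one of them, `π`, divides the others in `O`
(`ValuationSubring.mem_or_inv_mem`, or maximise the valuation); apply `exists_unit_eval` to the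
polynomials `∑ C (m i j / π) * X ^ (d i + j)` and to the `1 - C (ω j) * X`. -/
theorem exists_generic (O : ValuationSubring ℂ) {ι : Type} [Fintype ι] (N : ℕ) (m : ι → ℕ → ℂ)
    (d : ι → ℕ) (ω : Fin r → ℂ) (hω : ∀ j, ω j ∈ O) :
    ∃ ξ ∈ O, (∀ j, 1 - ω j * ξ ≠ 0 ∧ (1 - ω j * ξ)⁻¹ ∈ O) ∧ ∀ i, ∀ j < N, ∃ u ∈ O,
      m i j = u * ∑ k ∈ Finset.range N, ξ ^ (d i + k) * m i k := by
  choose P hP1 hP2 using fun i => gint_poly O N (m i) (d i)
  obtain ⟨ξ, hξ⟩ := exists_unit_eval O (ι := ι ⊕ Fin r)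
    (Sum.elim P fun j => 1 - C (⟨ω j, hω j⟩ : O) * X) (by
      rintro (i | j)
      · exact hP1 i
      · exact ⟨0, by simp⟩)
  refine ⟨ξ, ξ.2, fun j => ?_, fun i => hP2 i ξ (hξ (Sum.inl i))⟩
  have h1 := gint_unit O (hξ (Sum.inr j))
  simpa using h1

theorem Sys.M_mod {S : Sys n r} {N : ℕ} (hc : S.c ^ N = 1) (a : Fin n) (k : ℤ) (b : Fin n) :
    S.M a (k % N) b = S.M a k b := by
  unfold Sys.M
  rw [← zpow_eq_zpow_emod' k hc]

theorem gint_Pj (S : Sys n r) (N : ℕ) (s : ℂ) (a b : Fin n) :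
    (S.x a).f ⬝ᵥ (Pj S.c N s *ᵥ (S.x b).e) =
      ∑ j ∈ Finset.range N, s ^ (j + 1) * S.M a ((j + 1 : ℕ) : ℤ) b := by
  unfold Pj Sys.M
  rw [Matrix.sum_mulVec, dotProduct_sum]
  refine Finset.sum_congr rfl fun j _ => ?_
  rw [smul_mulVec, dotProduct_smul, smul_eq_mul, zpow_natCast]

/-- With `d = 0` if `a ≠ b` and `ρ a < ρ b`, and `d = 1` otherwise, the entry of `S.B` is
`∑_{k < N} s ^ (d + k) * M a (d + k) b`, plus `1 - s ^ N` on the diagonal. -/
theorem Sys.B_apply {S : Sys n r} {N : ℕ} (hc : S.c ^ N = 1) (ρ : Fin n → ℝ) (s : ℂ)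
    (a b : Fin n) : S.B N ρ s a b = (if a = b then 1 - s ^ N else 0) +
      ∑ k ∈ Finset.range N, s ^ ((if a ≠ b ∧ ρ a < ρ b then 0 else 1) + k) *
        S.M a (((if a ≠ b ∧ ρ a < ρ b then 0 else 1) + k : ℕ) : ℤ) b := by
  unfold Sys.B
  rw [Matrix.of_apply, gint_Pj]
  by_cases hab : a = b
  · simp only [hab, if_true, ne_eq, not_true_eq_false, false_and, if_false, mul_one, add_comm 1]
  by_cases hρ : ρ a < ρ b
  · simp only [hab, if_false, ne_eq, not_false_eq_true, hρ, and_self, if_true, zero_add]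
    have h1 := Finset.sum_range_succ (fun k => s ^ k * S.M a ((k : ℕ) : ℤ) b) N
    have h2 := Finset.sum_range_succ' (fun k => s ^ k * S.M a ((k : ℕ) : ℤ) b) N
    have h3 : S.M a ((N : ℕ) : ℤ) b = S.M a 0 b := by
      rw [← Sys.M_mod hc, Int.emod_self]
    rw [h3] at h1
    rw [h1, pow_zero, one_mul, Nat.cast_zero] at h2
    linear_combination -h2
  · simp only [hab, if_false, hρ, and_false, mul_zero, zero_add, add_comm 1]

theorem gint_descend {x : ℂ}
    (h : ∀ V : ValuationSubring ℂ, (∀ y, IsIntegral ℤ y → y ∈ V) → x ∈ V) : IsIntegral ℤ x := by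
  let s : Set ℂ := {x | IsIntegral ℤ x}
  have h1 : x ∈ (integralClosure (Subring.closure s) ℂ).toSubring := by
    rw [← iInf_valuationSubring_superset, Subring.mem_iInf]
    intro V
    exact h V.1 fun y hy => V.2 hy
  have h2 : IsIntegral (Subring.closure s) x := h1
  have h3 : Subring.closure s ≤ (integralClosure ℤ ℂ).toSubring :=
    Subring.closure_le.2 fun x hx => hx
  have : Algebra.IsIntegral ℤ (Subring.closure s) := ⟨fun x => by
    have hx : IsIntegral ℤ (x : ℂ) := h3 x.2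
    exact (isIntegral_algHom_iff (Subring.closure s).subtype.toIntAlgHom
      Subtype.val_injective).1 hx⟩
  exact isIntegral_trans _ h2

theorem gint_finOrder {x : ℂ} (h : IsOfFinOrder x) : IsIntegral ℤ x := by
  obtain ⟨k, hk, hx⟩ := isOfFinOrder_iff_pow_eq_one.1 h
  refine IsIntegral.of_pow hk ?_
  rw [hx]
  exact isIntegral_one

theorem gint_walk (O : ValuationSubring ℂ) {l : List (Fin n)} (M : Fin n → ℤ → Fin n → ℂ)
    (B : Matrix (Fin n) (Fin n) ℂ) (hd : ∀ a ∈ l, ∀ k, M a k a ∈ O)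
    (ho : ∀ a ∈ l, ∀ b ∈ l, a ≠ b → ∀ k, ∃ u ∈ O, M a k b = u * B a b)
    (p : List (ℤ × Fin n)) : ∀ a ∈ l, (∀ q ∈ p, q.2 ∈ l) →
      (pe a p = a ∧ pw M a p ∈ O) ∨ ∃ u ∈ O, ∃ l', pw M a p = u * wk B a l' (pe a p) := by
  induction p with
  | nil => exact fun a _ _ => Or.inl ⟨rfl, O.one_mem⟩
  | cons q p ih =>
    intro a ha hq
    have hb : q.2 ∈ l := hq q (by simp)
    have ih' := ih q.2 hb fun q' hq' => hq q' (by simp [hq'])
    rw [pe, pw]
    by_cases hab : a = q.2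
    · rw [← hab] at ih' ⊢
      rcases ih' with ⟨h1, h2⟩ | ⟨u, hu, l', h⟩
      · exact Or.inl ⟨h1, O.mul_mem _ _ (hd a ha _) h2⟩
      · exact Or.inr ⟨_, O.mul_mem _ _ (hd a ha q.1) hu, l', by rw [h, mul_assoc]⟩
    · obtain ⟨v, hv, hM⟩ := ho a ha q.2 hb hab q.1
      right
      rcases ih' with ⟨h1, h2⟩ | ⟨u, hu, l', h⟩
      · refine ⟨_, O.mul_mem _ _ hv h2, [], ?_⟩
        rw [h1, wk, hM]
        ring
      · refine ⟨_, O.mul_mem _ _ hv hu, q.2 :: l', ?_⟩
        rw [h, wk, hM]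
        ring

theorem gint_minor (O : ValuationSubring ℂ) (hO : ∀ y, IsIntegral ℤ y → y ∈ O) {S : Sys n r}
    {l : List (Fin n)} {N : ℕ} (hN : 0 < N) (hc : S.c ^ N = 1) {ω0 : Fin r → ℂ}
    (hsp : S.Spec l ω0) {ρ : Fin n → ℝ} (hρ : l.Pairwise fun a b => ρ a < ρ b)
    {ω : Fin r → ℂ} (hω : S.c.val.charpoly = ∏ j, (X - C (ω j))) {ξ : ℂ} (hξ : ξ ∈ O)
    (hu : ∀ j, 1 - ω j * ξ ≠ 0 ∧ (1 - ω j * ξ)⁻¹ ∈ O) (J : Finset (Fin n)) :
    minor J (Matrix.of fun a b => if a ∈ l ∧ b ∈ l then S.B N ρ ξ a b else 0) ∈ O := by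
  classical
  by_cases hJ : ∀ a ∈ J, a ∈ l
  · have hsub : (l.filter fun a => decide (a ∈ J)).Sublist l := List.filter_sublist
    have hfin : (l.filter fun a => decide (a ∈ J)).toFinset = J := by
      ext a
      simp only [List.mem_toFinset, List.mem_filter, decide_eq_true_eq]
      exact ⟨fun h => h.2, fun h => ⟨hJ a h, h⟩⟩
    obtain ⟨q, hq1, hq2⟩ := S.minor_formula hN hc (hρ.sublist hsub)
    obtain ⟨ω', hω'1, hω'2, -⟩ := hsp _ hsub
    rw [hfin] at hq1 hq2
    have hm : minor J (Matrix.of fun a b => if a ∈ l ∧ b ∈ l then S.B N ρ ξ a b else 0) =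
        minor J (S.B N ρ ξ) := by
      unfold minor
      congr 1
      ext a b
      simp only [submatrix_apply, of_apply]
      rw [if_pos ⟨hJ a a.2, hJ b b.2⟩]
    rw [hm, ← hq2 ξ]
    rw [charpolyRev_of_prod hω, charpolyRev_of_prod hω'2] at hq1
    have h1 := congrArg (eval ξ) hq1
    simp only [eval_mul, eval_pow, eval_sub, eval_one, eval_X, eval_prod, eval_C] at h1
    have h2 : ∏ j, (1 - ω j * ξ) ≠ 0 := Finset.prod_ne_zero_iff.2 fun j _ => (hu j).1
    have h3 : q.eval ξ = (∏ j, (1 - ω j * ξ)⁻¹) *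
        ((1 - ξ ^ N) ^ J.card * ∏ j, (1 - ω' j * ξ)) := by
      rw [h1, Finset.prod_inv_distrib, inv_mul_cancel_left₀ h2]
    rw [h3]
    refine O.mul_mem _ _ (O.toSubring.prod_mem fun j _ => (hu j).2) (O.mul_mem _ _ ?_ ?_)
    · exact O.toSubring.pow_mem (O.toSubring.sub_mem O.one_mem (O.toSubring.pow_mem hξ N)) _
    · exact O.toSubring.prod_mem fun j _ => O.toSubring.sub_mem O.one_mem
        (O.mul_mem _ _ (hO _ (gint_finOrder (hω'1 j))) hξ)
  · push Not at hJ
    obtain ⟨a, haJ, hal⟩ := hJ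
    unfold minor
    rw [Matrix.det_eq_zero_of_row_eq_zero (⟨a, haJ⟩ : J)]
    · exact O.zero_mem
    · intro b
      simp [hal]

/-- Let `O` be a valuation subring (`iInf_valuationSubring_superset`, as in `wk_isIntegral`), `ξ`
from `exists_generic` and `B' a b = if a ∈ l ∧ b ∈ l then S.B N ρ ξ a b else 0`. All principal minors
of `B'` lie in `O` (`minor_formula` for `l.filter (· ∈ J)`), so all closed walks do
(`wk_mem_valuationSubring`). Every `M a k b` is an `O`-multiple of `B' a b` for `a ≠ b` in `l`, and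
of `B' a a - (1 - ξ ^ N) ∈ O` for `a = b`. So all `M a k a` lie in `O`, and by induction on `p`
the weight is an `O`-multiple of a walk `wk B' a l' b` (drop the steps with `a = b`). -/
theorem Sys.walk_integral {S : Sys n r} {l : List (Fin n)} (hl : l.Nodup) {N : ℕ} (hN : 0 < N)
    (hc : S.c ^ N = 1) {ω0 : Fin r → ℂ} (hsp : S.Spec l ω0) (a : Fin n) (p : List (ℤ × Fin n))
    (hp : pe a p = a) (hq : ∀ q ∈ p, q.2 ∈ l) (hn : (p.map Prod.snd).Nodup) :
    IsIntegral ℤ (pw S.M a p) := by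
  classical
  by_cases hp0 : p = []
  · subst hp0
    exact isIntegral_one
  have ha : a ∈ l := by
    have h1 := pe_mem a hp0
    rw [hp] at h1
    obtain ⟨q, hq1, hq2⟩ := List.mem_map.1 h1
    exact hq2 ▸ hq q hq1
  refine gint_descend fun O hO => ?_
  obtain ⟨ρ, hρ⟩ := exists_rho hl
  obtain ⟨ω, hω1, hω2, -⟩ := hsp [] (List.nil_sublist l)
  rw [Sys.prod_nil] at hω2
  let d : Fin n × Fin n → ℕ := fun i => if i.1 ≠ i.2 ∧ ρ i.1 < ρ i.2 then 0 else 1
  obtain ⟨ξ, hξ, hu, hm⟩ := exists_generic O N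
    (fun (i : Fin n × Fin n) k => S.M i.1 ((d i + k : ℕ) : ℤ) i.2) d ω
    fun j => hO _ (gint_finOrder (hω1 j))
  have hmin := gint_minor O hO hN hc hsp hρ hω2 hξ hu
  set B' : Matrix (Fin n) (Fin n) ℂ :=
    Matrix.of fun a b => if a ∈ l ∧ b ∈ l then S.B N ρ ξ a b else 0 with hB'
  have hwk := wk_mem_valuationSubring B' O hmin
  have hkey : ∀ a ∈ l, ∀ b ∈ l, ∀ k : ℤ, ∃ u ∈ O,
      S.M a k b = u * (B' a b - if a = b then 1 - ξ ^ N else 0) := by
    intro a ha b hb k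
    have hN' : (0 : ℤ) < N := by exact_mod_cast hN
    have h0 : 0 ≤ (k - d (a, b)) % N := Int.emod_nonneg _ hN'.ne'
    have h1 : (k - d (a, b)) % N < N := Int.emod_lt_of_pos _ hN'
    obtain ⟨u, hu, h⟩ := hm (a, b) ((k - d (a, b)) % N).toNat (by omega)
    refine ⟨u, hu, ?_⟩
    have h2 : S.M a k b = S.M a ((d (a, b) + ((k - d (a, b)) % N).toNat : ℕ) : ℤ) b := by
      rw [← Sys.M_mod hc a k, ← Sys.M_mod hc a ((d (a, b) + _ : ℕ) : ℤ)]
      congr 1
      rw [Nat.cast_add, Int.toNat_of_nonneg h0, Int.add_emod_emod, add_sub_cancel]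
    rw [h2, h, hB', Matrix.of_apply, if_pos ⟨ha, hb⟩, Sys.B_apply hc, add_sub_cancel_left]
  have hd : ∀ a ∈ l, ∀ k, S.M a k a ∈ O := by
    intro a ha k
    obtain ⟨u, hu, h⟩ := hkey a ha a ha k
    rw [h, if_pos rfl]
    exact O.mul_mem _ _ hu (O.toSubring.sub_mem (hwk a [])
      (O.toSubring.sub_mem O.one_mem (O.toSubring.pow_mem hξ N)))
  have ho : ∀ a ∈ l, ∀ b ∈ l, a ≠ b → ∀ k, ∃ u ∈ O, S.M a k b = u * B' a b := by
    intro a ha b hb hab k
    obtain ⟨u, hu, h⟩ := hkey a ha b hb k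
    rw [if_neg hab, sub_zero] at h
    exact ⟨u, hu, h⟩
  rcases gint_walk O S.M B' hd ho p a ha hq with ⟨-, h⟩ | ⟨u, hu, l', h⟩
  · exact h
  · rw [h, hp]
    exact O.mul_mem _ _ hu (hwk a l')

end Pool.Agent.GR
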