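import Pool.Agent.Lib.MP_aa40d3_nt.GR2.GBasic

/-! Moves on initial segments. -/

namespace Pool.Agent.GR

variable {n : ℕ} {G : Type*} [Group G] {ρ : Fin n → ℝ} {g h : Fin n → G}

theorem mvTL_append (μ : List (Fin n × ℝ)) (m : Fin n × ℝ) (ρ : Fin n → ℝ) (g : Fin n → G) :
    mvTL (μ ++ [m]) ρ g = mvT (mvTL μ ρ g) m.1 (mvS (rhoL μ ρ) m.1 m.2) := by
  induction μ generalizing ρ g with
  | nil => rfl
  | cons m' μ ih => exact ih _ _

theorem mvTL_conj (μ : List (Fin n × ℝ)) (ρ : Fin n → ℝ) (g : Fin n → G) (a : Fin n) :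
    IsConj (g a) (mvTL μ ρ g a) := by
  induction μ generalizing ρ g with
  | nil => exact IsConj.refl _
  | cons m μ ih =>
    refine IsConj.trans ?_ (ih _ _)
    unfold mvT
    split_ifs
    · exact isConj_iff.2 ⟨(g m.1)⁻¹, by rw [inv_inv]⟩
    · exact IsConj.refl _

theorem mvTL_map {G' : Type*} [Group G'] (φ : G →* G') (μ : List (Fin n × ℝ)) (ρ : Fin n → ℝ)
    (g : Fin n → G) : mvTL μ ρ (fun a => φ (g a)) = fun a => φ (mvTL μ ρ g a) := by
  induction μ generalizing ρ g with
  | nil => rfl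
  | cons m μ ih =>
    have h1 : mvT (fun a => φ (g a)) m.1 (mvS ρ m.1 m.2) =
        fun a => φ (mvT g m.1 (mvS ρ m.1 m.2) a) := by
      funext a
      unfold mvT
      split_ifs
      · rw [map_mul, map_mul, map_inv]
      · rfl
    change mvTL μ _ (mvT (fun a => φ (g a)) m.1 (mvS ρ m.1 m.2)) = _
    rw [h1, ih]
    rfl

theorem Low.nodup {L : List (Fin n)} (hl : Low ρ g L h) : L.Nodup := by
  obtain ⟨μ, -, h1, -⟩ := hl
  exact h1.1.imp fun hab e => hab.ne (congrArg _ e)

theorem Low.conj {L : List (Fin n)} (hl : Low ρ g L h) (a : Fin n) : IsConj (g a) (h a) := by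
  obtain ⟨μ, -, -, rfl⟩ := hl
  exact mvTL_conj μ ρ g a

/-- `exists_lowerL` with `J = univ` and no move. -/
theorem Low.init (hρ : Function.Injective ρ) (g : Fin n → G) :
    ∃ L : List (Fin n), (∀ a, a ∈ L) ∧ Low ρ g L g := by
  obtain ⟨L, h1, h2⟩ := exists_lowerL hρ Finset.univ fun _ _ _ _ => Finset.mem_univ _
  exact ⟨L, fun a => List.mem_toFinset.1 (h2 ▸ Finset.mem_univ a), [], trivial, h1, rfl⟩

theorem Low.left {L₁ L₂ : List (Fin n)} (hl : Low ρ g (L₁ ++ L₂) h) : Low ρ g L₁ h := by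
  obtain ⟨μ, h0, ⟨h1, h2⟩, h3⟩ := hl
  rw [List.pairwise_append] at h1
  refine ⟨μ, h0, ⟨h1.1, fun a ha b hb => ?_⟩, h3⟩
  rcases List.mem_append.1 (h2 a (List.mem_append_left _ ha) b hb) with h4 | h4
  · exact h4
  · exact absurd (h1.2.2 a ha b h4) hb.not_gt

theorem glow_gap (r : Fin n → ℝ) (y : ℝ) : ∃ x, x < y ∧ ∀ b, r b < y → r b < x := by
  have h1 : ∀ᶠ x in nhdsWithin y (Set.Iio y), ∀ b, r b < y → r b < x := by
    refine Filter.eventually_all.2 fun b => ?_
    by_cases hb : r b < y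
    · exact (Filter.Eventually.filter_mono nhdsWithin_le_nhds (lt_mem_nhds hb)).mono
        fun x hx _ => hx
    · exact Filter.Eventually.of_forall fun x hx => absurd hx hb
  obtain ⟨x, hx, hx'⟩ := (h1.and self_mem_nhdsWithin).exists
  exact ⟨x, hx', hx⟩

/-- If `T = c :: T'` move `i` to a free position `x` just below `ρ' c`, above every smaller value of
`ρ' = rhoL μ ρ` (`rhoL_injective`, `validL_append`, `rhoL_append`, `mvTL_append`); then
`mvS ρ' i x = T.toFinset`. -/
theorem Low.move (hρ : Function.Injective ρ) {L₁ T L₂ : List (Fin n)} {i : Fin n}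
    (hl : Low ρ g (L₁ ++ T ++ i :: L₂) h) : Low ρ g (L₁ ++ i :: T ++ L₂) (mvT h i T.toFinset) := by
  rcases T with _ | ⟨c, T⟩
  · have h1 : mvT h i ([] : List (Fin n)).toFinset = h := funext fun a => by simp [mvT]
    rw [h1]
    simpa using hl
  obtain ⟨μ, h0, ⟨h1, h2⟩, rfl⟩ := hl
  obtain ⟨x, hx, hx'⟩ := glow_gap (rhoL μ ρ) (rhoL μ ρ c)
  generalize hT : c :: T = T₀ at *
  have hc : c ∈ T₀ := hT ▸ List.mem_cons_self
  rw [List.pairwise_append, List.pairwise_append, List.pairwise_cons] at h1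
  obtain ⟨⟨p1, p2, p3⟩, ⟨p4, p5⟩, p6⟩ := h1
  have q1 : ∀ b ∈ T₀, x < rhoL μ ρ b := by
    intro b hb
    subst hT
    rcases List.mem_cons.1 hb with rfl | hb
    · exact hx
    · exact hx.trans ((List.pairwise_cons.1 p2).1 b hb)
  have q2 : ∀ b ∈ L₁, rhoL μ ρ b < x := fun b hb => hx' b (p3 b hb c hc)
  have q3 : ∀ b ∈ L₁ ++ T₀, rhoL μ ρ b < rhoL μ ρ i := fun b hb => p6 b hb i List.mem_cons_self
  have q4 : x < rhoL μ ρ i := hx.trans (q3 c (List.mem_append_right _ hc))
  have q5 : ∀ b, rhoL μ ρ b ≠ x := fun b e => by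
    have := hx' b (e ▸ hx)
    exact this.ne e
  have n1 : ∀ b ∈ L₁, b ≠ i := fun b hb e =>
    (q3 b (List.mem_append_left _ hb)).ne (congrArg _ e)
  have n2 : ∀ b ∈ T₀, b ≠ i := fun b hb e =>
    (q3 b (List.mem_append_right _ hb)).ne (congrArg _ e)
  have n3 : ∀ b ∈ L₂, b ≠ i := fun b hb e => (p4 b hb).ne' (congrArg _ e)
  have hS : mvS (rhoL μ ρ) i x = T₀.toFinset := by
    ext b
    simp only [mvS, Finset.mem_filter, Finset.mem_univ, true_and, List.mem_toFinset]
    refine ⟨fun hb => ?_, fun hb => ⟨q1 b hb, q3 b (List.mem_append_right _ hb)⟩⟩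
    have h3 := h2 i (by simp) b hb.2
    simp only [List.mem_append, List.mem_cons] at h3
    rcases h3 with (h3 | h3) | h3 | h3
    · exact absurd (q2 b h3) hb.1.not_gt
    · exact h3
    · exact absurd (congrArg _ h3) hb.2.ne
    · exact absurd (p4 b h3) hb.2.not_gt
  refine ⟨μ ++ [(i, x)], validL_append h0 q4 q5, ?_, by rw [mvTL_append, hS]⟩
  rw [rhoL_append]
  change LowerL (Function.update (rhoL μ ρ) i x) _
  have u0 : Function.update (rhoL μ ρ) i x i = x := Function.update_self ..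
  have u1 : ∀ b, b ≠ i → Function.update (rhoL μ ρ) i x b = rhoL μ ρ b :=
    fun b hb => Function.update_of_ne hb ..
  have u2 : ∀ {l : List (Fin n)}, (∀ b ∈ l, b ≠ i) →
      l.Pairwise (fun a b => rhoL μ ρ a < rhoL μ ρ b) → l.Pairwise
        (fun a b => Function.update (rhoL μ ρ) i x a < Function.update (rhoL μ ρ) i x b) :=
    fun hl hp => hp.imp_of_mem fun ha hb hab => by rwa [u1 _ (hl _ ha), u1 _ (hl _ hb)]
  refine ⟨?_, fun a ha b hb => ?_⟩
  · rw [List.pairwise_append, List.pairwise_append, List.pairwise_cons]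
    refine ⟨⟨u2 n1 p1, ⟨fun b hb => ?_, u2 n2 p2⟩, fun a ha b hb => ?_⟩, u2 n3 p5,
      fun a ha b hb => ?_⟩
    · rw [u0, u1 _ (n2 b hb)]
      exact q1 b hb
    · rw [u1 _ (n1 a ha)]
      rcases List.mem_cons.1 hb with rfl | hb
      · rw [u0]
        exact q2 a ha
      · rw [u1 _ (n2 b hb)]
        exact p3 a ha b hb
    · rw [u1 _ (n3 b hb)]
      by_cases e : a = i
      · rw [e, u0]
        exact q4.trans (p4 b hb)
      · rw [u1 _ e]
        refine p6 a ?_ b (List.mem_cons_of_mem _ hb)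
        simpa [e] using ha
  · by_cases e : b = i
    · simp [e]
    rw [u1 _ e] at hb
    have h3 : rhoL μ ρ b < rhoL μ ρ a := by
      by_cases e' : a = i
      · rw [e', u0] at hb
        exact e' ▸ hb.trans q4
      · rwa [u1 _ e'] at hb
    have h4 := h2 a (by
      simp only [List.mem_append, List.mem_cons] at ha ⊢
      tauto) b h3
    simp only [List.mem_append, List.mem_cons] at h4 ⊢
    tauto

/-- Induction on `L₂`: move its members to the left of `i`, one at a time. -/
theorem Low.sink (hρ : Function.Injective ρ) {L₁ L₂ : List (Fin n)} {i : Fin n}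
    (hl : Low ρ g (L₁ ++ i :: L₂) h) : Low ρ g (L₁ ++ L₂ ++ [i])
      (Function.update h i ((L₂.map h).prod⁻¹ * h i * (L₂.map h).prod)) := by
  induction L₂ generalizing L₁ h with
  | nil => simpa using hl
  | cons c L₂ ih =>
    have hn : i ∉ L₂ := by
      have := (List.nodup_cons.1 (List.nodup_append.1 hl.nodup).2.1).1
      exact fun e => this (List.mem_cons_of_mem _ e)
    have h1 := Low.move hρ (L₁ := L₁) (T := [i]) (L₂ := L₂) (i := c) (h := h) (g := g)
      (by simpa using hl)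
    have h2 : mvT h c ([i] : List (Fin n)).toFinset = Function.update h i ((h c)⁻¹ * h i * h c) := by
      funext a
      by_cases e : a = i
      · simp [mvT, e]
      · simp [mvT, e]
    rw [h2] at h1
    have h3 := ih (L₁ := L₁ ++ [c]) (by simpa using h1)
    have h4 : L₂.map (Function.update h i ((h c)⁻¹ * h i * h c)) = L₂.map h :=
      List.map_congr_left fun a ha => Function.update_of_ne (ne_of_mem_of_not_mem ha hn) ..
    rw [h4, Function.update_idem, Function.update_self] at h3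
    simpa [mul_assoc] using h3

/-- Induction on the sublist relation, generalising `L₀` and `h`; delete with `sink` and `left`. -/
theorem Low.sub (hρ : Function.Injective ρ) {L₀ l l' : List (Fin n)} (hs : l'.Sublist l)
    (hl : Low ρ g (L₀ ++ l) h) : ∃ h', Low ρ g (L₀ ++ l') h' ∧ ∀ a ∈ L₀ ++ l', h' a = h a := by
  induction hs generalizing L₀ h with
  | slnil => exact ⟨h, hl, fun _ _ => rfl⟩
  | @cons l₁ l₂ a hs ih =>
    have h1 := Low.sink hρ hl
    obtain ⟨h', h2, h3⟩ := ih h1.left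
    refine ⟨h', h2, fun b hb => (h3 b hb).trans (Function.update_of_ne ?_ ..)⟩
    exact (List.nodup_append.1 h1.nodup).2.2 b ((hs.append_left L₀).subset hb) a
      List.mem_cons_self
  | @cons_cons l₁ l₂ a hs ih =>
    obtain ⟨h', h2, h3⟩ := ih (L₀ := L₀ ++ [a]) (h := h) (by simpa using hl)
    exact ⟨h', by simpa using h2, fun b hb => h3 b (by simpa using hb)⟩

/-- Move `a`, then `b`, to the left of `L₀`. -/
theorem Low.front (hρ : Function.Injective ρ) {L₀ : List (Fin n)} {a b : Fin n}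
    (hl : Low ρ g (L₀ ++ [a, b]) h) : ∃ h', Low ρ g [a, b] h' ∧ h' a = h a ∧ h' b = h b := by
  have hn := (List.nodup_append.1 hl.nodup).2.2
  have ha : a ∉ L₀ := fun e => hn a e a (by simp) rfl
  have hb : b ∉ L₀ := fun e => hn b e b (by simp) rfl
  have h1 := Low.move hρ (L₁ := []) (T := L₀) (L₂ := [b]) (i := a) (h := h) (g := g)
    (by simpa using hl)
  have h2 := Low.move hρ (L₁ := [a]) (T := L₀) (L₂ := []) (i := b) (g := g) (by simpa using h1)
  refine ⟨_, Low.left (L₂ := L₀) (by simpa using h2), ?_, ?_⟩ <;> simp [mvT, ha, hb]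

end Pool.Agent.GR
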