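import Pool.Agent.Lib.MP_aa40d3_nt.GR2.GBasic

/-! The determinant identity. -/

open Polynomial Matrix

namespace Pool.Agent.GR

variable {n r : ℕ}

theorem charpolyRev_of_prod {u : Matrix (Fin r) (Fin r) ℂ} {ω : Fin r → ℂ}
    (h : u.charpoly = ∏ j, (X - C (ω j))) : u.charpolyRev = ∏ j, (1 - C (ω j) * X) := by
  have h1 : ∀ a : ℂ, (X - C a).reverse = 1 - C a * X := by
    intro a
    have h2 : (X : ℂ[X]).reverse = 1 := by
      have := reverse_mul_X (1 : ℂ[X])
      rwa [one_mul, ← C_1, reverse_C] at this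
    rw [sub_eq_add_neg, ← C_neg, reverse_add_C, h2, natDegree_X, pow_one, C_neg]
    ring
  rw [← reverse_charpoly, h]
  induction (Finset.univ : Finset (Fin r)) using Finset.induction_on with
  | empty => rw [Finset.prod_empty, Finset.prod_empty, ← C_1, reverse_C]
  | insert a s ha ih => rw [Finset.prod_insert ha, Finset.prod_insert ha, reverse_mul_of_domain, ih, h1]

theorem gminor_fact {K : Type*} [Field K] {g : Fin n → (Matrix (Fin r) (Fin r) K)ˣ} {e f : Fin n → Fin r → K}
    {N : Matrix (Fin n) (Fin n) K} (h : Repr g e f N) {ρ : Fin n → ℝ} (l : List (Fin n))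
    (hl : l.Pairwise fun a b => ρ a < ρ b) :
    ∃ f' : Fin n → Fin r → K,
      (l.map g).prod.val = 1 - ∑ a ∈ l.toFinset, vecMulVec (e a) (f' a) ∧
      ∀ a ∈ l.toFinset, f' a + ∑ b ∈ l.toFinset, (if ρ a < ρ b then N a b else 0) • f' b = f a := by
  classical
  induction l with
  | nil => exact ⟨f, by simp, by simp⟩
  | cons a l ih =>
    rw [List.pairwise_cons] at hl
    obtain ⟨f', h1, h2⟩ := ih hl.2
    have ha : a ∉ l.toFinset := by
      intro ha
      exact lt_irrefl _ (hl.1 a (List.mem_toFinset.mp ha))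
    set v : Fin r → K := f a ᵥ* (l.map g).prod.val with hv
    have hupd : ∀ b ∈ l.toFinset, Function.update f' a v b = f' b := by
      intro b hb
      have hba : b ≠ a := fun hba => ha (hba ▸ hb)
      exact Function.update_of_ne hba _ _
    refine ⟨Function.update f' a v, ?_, ?_⟩
    · rw [List.map_cons, List.prod_cons, Units.val_mul, List.toFinset_cons, Finset.sum_insert ha,
        Function.update_self, h.1 a, Matrix.sub_mul, Matrix.one_mul, vecMulVec_mul, ← hv, h1]
      have : ∑ b ∈ l.toFinset, vecMulVec (e b) (Function.update f' a v b) =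
          ∑ b ∈ l.toFinset, vecMulVec (e b) (f' b) :=
        Finset.sum_congr rfl fun b hb => by rw [hupd b hb]
      rw [this]
      abel
    · intro c hc
      rw [List.toFinset_cons] at hc ⊢
      rw [Finset.sum_insert ha]
      have hs : ∑ b ∈ l.toFinset, (if ρ c < ρ b then N c b else 0) • Function.update f' a v b =
          ∑ b ∈ l.toFinset, (if ρ c < ρ b then N c b else 0) • f' b :=
        Finset.sum_congr rfl fun b hb => by rw [hupd b hb]
      rw [hs]
      rcases Finset.mem_insert.mp hc with rfl | hc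
      · rw [Function.update_self, if_neg (lt_irrefl _), zero_smul, zero_add, hv, h1,
          Matrix.vecMul_sub, Matrix.vecMul_one, Matrix.vecMul_sum]
        have : ∑ b ∈ l.toFinset, (if ρ c < ρ b then N c b else 0) • f' b =
            ∑ b ∈ l.toFinset, f c ᵥ* vecMulVec (e b) (f' b) := by
          refine Finset.sum_congr rfl fun b hb => ?_
          rw [if_pos (hl.1 b (List.mem_toFinset.mp hb)), vecMul_vecMulVec, h.2]
        rw [this]
        abel
      · have hlt : ρ a < ρ c := hl.1 c (List.mem_toFinset.mp hc)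
        rw [if_neg (not_lt.mpr hlt.le), zero_smul, zero_add, hupd c hc]
        exact h2 c hc

theorem gminor_det_unitri {ι R : Type*} [Fintype ι] [DecidableEq ι] [CommRing R]
    (ρ : ι → ℝ) (M : Matrix ι ι R) :
    (1 + Matrix.of fun a b => if ρ a < ρ b then M a b else 0).det = 1 := by
  classical
  have hT : BlockTriangular (1 + Matrix.of fun a b => if ρ a < ρ b then M a b else 0) ρ := by
    intro i j hij
    have hne : i ≠ j := fun hh => lt_irrefl _ (hh ▸ hij)
    simp [Matrix.one_apply_ne hne, not_lt.mpr hij.le]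
  rw [hT.det]
  refine Finset.prod_eq_one fun x _ => ?_
  have : (1 + Matrix.of fun a b => if ρ a < ρ b then M a b else 0).toSquareBlock ρ x = 1 := by
    ext i j
    have hi := i.2
    have hj := j.2
    have hij : ¬ ρ i < ρ j := by rw [hi, hj]; exact lt_irrefl _
    rw [toSquareBlock_def]
    simp [hij, Matrix.one_apply, Subtype.ext_iff]
  rw [this, det_one]

theorem gminor_wa {ι κ R : Type*} [Fintype ι] [DecidableEq ι] [Fintype κ]
    [DecidableEq κ] [CommRing R] (E : Matrix ι κ R) (F : Matrix κ ι R) (x : R) :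
    x ^ Fintype.card κ * (x • (1 : Matrix ι ι R) + E * F).det =
      x ^ Fintype.card ι * (x • (1 : Matrix κ κ R) + F * E).det := by
  have h := congrArg (Polynomial.eval x) (charpoly_mul_comm' (-E) F)
  simp only [eval_mul, eval_pow, eval_X, eval_charpoly, Matrix.neg_mul, Matrix.mul_neg,
    sub_neg_eq_add] at h
  simpa only [scalar_apply, smul_one_eq_diagonal] using h

theorem gminor_geom {ι R : Type*} [Fintype ι] [DecidableEq ι] [CommRing R] (c : Matrix ι ι R)
    {N : ℕ} (hc : c ^ N = 1) (x : R) :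
    (1 - x • c) * ∑ j ∈ Finset.range N, x ^ (j + 1) • c ^ (j + 1) = (1 - x ^ N) • (x • c) := by
  have h1 : ∑ j ∈ Finset.range N, x ^ (j + 1) • c ^ (j + 1) =
      (∑ j ∈ Finset.range N, (x • c) ^ j) * (x • c) := by
    rw [Finset.sum_mul]
    exact Finset.sum_congr rfl fun j _ => by rw [← pow_succ, _root_.smul_pow]
  rw [h1, ← mul_assoc, mul_neg_geom_sum, _root_.smul_pow, hc, sub_mul, one_mul, smul_mul_assoc, one_mul,
    sub_smul, one_smul]

theorem gminor_core {ι κ R : Type*} [Fintype ι] [DecidableEq ι] [Fintype κ] [DecidableEq κ]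
    [CommRing R] [IsDomain R] (y Q : Matrix ι ι R) (E : Matrix ι κ R) (F' F : Matrix κ ι R)
    (U : Matrix κ κ R) (hU : U.det = 1) (hUF : U * F' = F) {δ : R} (hδ : δ ≠ 0)
    (hQ : (1 - y) * Q = δ • y) :
    δ ^ Fintype.card κ * (1 - y * (1 - E * F')).det = (1 - y).det * (δ • U + F * (Q * E)).det := by
  have h1 : δ • (1 - y * (1 - E * F')) =
      (1 - y) * (δ • (1 : Matrix ι ι R) + Q * E * F') := by
    rw [mul_add, Matrix.mul_assoc Q, ← mul_assoc, hQ, mul_smul_comm, mul_one, smul_mul_assoc,
      ← smul_add, mul_sub, mul_one]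
    congr 1
    abel
  have h2 := congrArg Matrix.det h1
  rw [det_smul, det_mul] at h2
  have h3 := gminor_wa (Q * E) F' δ
  have h4 : (δ • (1 : Matrix κ κ R) + F' * (Q * E)).det = (δ • U + F * (Q * E)).det := by
    rw [← one_mul (Matrix.det _), ← hU, ← det_mul, Matrix.mul_add, ← Matrix.mul_assoc, hUF,
      Matrix.mul_smul, Matrix.mul_one]
  rw [h4] at h3
  refine mul_left_cancel₀ (pow_ne_zero (Fintype.card ι) hδ) ?_
  linear_combination δ ^ Fintype.card κ * h2 + (1 - y).det * h3

/-- Copy the three private lemmas of `GR/GramChar.lean`: the product of the reflections is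
`1 - E * F'` with `U * F' = F`, `det U = 1`. Over `ℂ[X]` let `δ = 1 - X ^ N` and
`R = ∑_{j < N} X ^ (j + 1) • c ^ (j + 1)`; then `(1 - X • c) * R = δ • (X • c)` and
`δ • (1 - X • (c * prod)) = (1 - X • c) * (δ • 1 + R * E * F')`. Take determinants, use the
Weinstein-Aronszajn identity, cancel `δ ^ r`, and let `q = det (δ • U + F * R * E)`. -/
theorem Sys.minor_formula (S : Sys n r) {N : ℕ} (hN : 0 < N) (hc : S.c ^ N = 1) {ρ : Fin n → ℝ}
    {l : List (Fin n)} (hl : l.Pairwise fun a b => ρ a < ρ b) :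
    ∃ q : ℂ[X], (1 - X ^ N) ^ l.toFinset.card * (S.prod l).val.charpolyRev =
      S.c.val.charpolyRev * q ∧ ∀ s, q.eval s = minor l.toFinset (S.B N ρ s) := by
  classical
  have hR : Repr (fun a => (S.x a).u) (fun a => (S.x a).e) (fun a => (S.x a).f)
      (Matrix.of fun a b => S.M a 0 b) := ⟨fun a => (S.x a).u_val, fun a b => S.M_zero a b⟩
  obtain ⟨f', h1, h2⟩ := gminor_fact hR l hl
  set J := l.toFinset with hJ
  let E : Matrix (Fin r) J ℂ[X] := Matrix.of fun i a => C ((S.x a).e i)
  let F' : Matrix J (Fin r) ℂ[X] := Matrix.of fun a i => C (f' a i)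
  let F : Matrix J (Fin r) ℂ[X] := Matrix.of fun a i => C ((S.x a).f i)
  let U : Matrix J J ℂ[X] :=
    1 + Matrix.of fun a b : J => if ρ a < ρ b then C (S.M a 0 b) else 0
  let c : Matrix (Fin r) (Fin r) ℂ[X] := S.c.val.map C
  let Q : Matrix (Fin r) (Fin r) ℂ[X] := ∑ j ∈ Finset.range N, (X : ℂ[X]) ^ (j + 1) • c ^ (j + 1)
  have hU : U.det = 1 :=
    gminor_det_unitri (fun a : J => ρ a) (Matrix.of fun a b : J => C (S.M a 0 b))
  have hUF : U * F' = F := by
    ext1 a i
    have h3 := congrFun (h2 a a.2) i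
    simp only [Pi.add_apply, Finset.sum_apply, Pi.smul_apply, smul_eq_mul, Matrix.of_apply] at h3
    simp only [U, Matrix.add_mul, Matrix.one_mul]
    simp only [F', F, Matrix.add_apply, Matrix.mul_apply, Matrix.of_apply]
    rw [← h3, map_add, map_sum, ← Finset.sum_coe_sort J]
    congr 1
    refine Finset.sum_congr rfl fun b _ => ?_
    split_ifs <;> simp
  have hpow : ∀ k : ℕ, c ^ k = (S.c ^ k).val.map C := by
    intro k
    rw [Units.val_pow_eq_pow_val]
    exact (map_pow (C : ℂ →+* ℂ[X]).mapMatrix _ k).symm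
  have hcN : c ^ N = 1 := by
    rw [hpow, hc, Units.val_one, Matrix.map_one _ C_0 C_1]
  have hδ : (1 - X ^ N : ℂ[X]) ≠ 0 := by
    intro h0
    have := congrArg (Polynomial.eval 0) h0
    simp [hN.ne'] at this
  have hP : (l.map fun a => (S.x a).u).prod.val.map C = 1 - E * F' := by
    rw [h1]
    ext1 i j
    simp only [Matrix.map_apply, Matrix.sub_apply, Matrix.mul_apply, Matrix.of_apply, E, F',
      Matrix.sum_apply, vecMulVec_apply, map_sub, map_sum, map_mul]
    rw [← Finset.sum_coe_sort J]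
    congr 1
    by_cases hij : i = j
    · subst hij
      simp only [one_apply_eq, map_one]
    · simp only [one_apply_ne hij, map_zero]
  have key := gminor_core ((X : ℂ[X]) • c) Q E F' F U hU hUF hδ (gminor_geom c hcN X)
  refine ⟨((1 - X ^ N : ℂ[X]) • U + F * (Q * E)).det, ?_, fun s => ?_⟩
  · rw [Fintype.card_coe] at key
    rw [charpolyRev, charpolyRev, Sys.prod, Units.val_mul, Matrix.map_mul, hP, ← smul_mul_assoc]
    exact key
  · have hQ : Q.map (evalRingHom s) = Pj S.c N s := by
      ext i j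
      simp only [Q, Pj, hpow, Matrix.map_apply, Matrix.sum_apply, Matrix.smul_apply, smul_eq_mul,
        eval_finsetSum, eval_mul, eval_pow, coe_evalRingHom, eval_X, eval_C]
    rw [← coe_evalRingHom, RingHom.map_det, minor]
    congr 1
    ext a b
    rw [RingHom.mapMatrix_apply, Matrix.map_add _ (map_add _), Matrix.map_mul, Matrix.map_mul, hQ]
    simp only [submatrix_apply, Sys.B, Matrix.of_apply, Matrix.add_apply, Matrix.map_apply,
      Matrix.smul_apply, smul_eq_mul, U, E, F, Matrix.mul_apply, coe_evalRingHom, eval_C, eval_mul,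
      eval_sub, eval_one, eval_pow, eval_X, eval_add, dotProduct, mulVec]
    congr 2
    by_cases hab : a = b
    · subst hab
      simp
    · have hab' : (a : Fin n) ≠ b := fun hh => hab (Subtype.ext hh)
      rw [if_neg hab', one_apply_ne hab]
      split_ifs <;> simp

/-- Take `ρ a = l.idxOf a`. -/
theorem exists_rho {l : List (Fin n)} (hl : l.Nodup) :
    ∃ ρ : Fin n → ℝ, l.Pairwise fun a b => ρ a < ρ b := by
  refine ⟨fun a => (l.idxOf a : ℝ), List.pairwise_iff_getElem.mpr fun i j hi hj hij => ?_⟩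
  beta_reduce
  rw [hl.idxOf_getElem, hl.idxOf_getElem]
  exact_mod_cast hij

end Pool.Agent.GR
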