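import Pool.Agent.Lib.MP_aa40d3_nt.GR2.GBasic

/-! Resolvent identities. -/

open Polynomial Matrix

namespace Pool.Agent.GR

variable {n r : ℕ}

/-- The series of the coefficients `w * c ^ k * v`. -/
noncomputable def gres_s (c : Matrix (Fin r) (Fin r) ℂ) (w v : Fin r → ℂ) : PowerSeries ℂ :=
  PowerSeries.mk fun k => w ⬝ᵥ (c ^ k *ᵥ v)

theorem gres_succ (c : Matrix (Fin r) (Fin r) ℂ) (w v : Fin r → ℂ) (k : ℕ) :
    PowerSeries.coeff (k + 1) (gres_s c w v) = PowerSeries.coeff k (gres_s c (w ᵥ* c) v) := by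
  simp only [gres_s, PowerSeries.coeff_mk]
  rw [pow_succ', ← mulVec_mulVec, dotProduct_mulVec]

theorem gres_shift (c : Matrix (Fin r) (Fin r) ℂ) (w v : Fin r → ℂ) :
    gres_s c w v = PowerSeries.X * gres_s c (w ᵥ* c) v + PowerSeries.C (w ⬝ᵥ v) := by
  ext (_ | k)
  · simp [gres_s]
  · rw [gres_succ, map_add, PowerSeries.coeff_succ_X_mul, PowerSeries.coeff_succ_C, add_zero]

theorem gres_G (S : Sys n r) (a b : Fin n) : S.G a b = gres_s S.c.val (S.x a).f (S.x b).e := by
  simp only [Sys.G, Sys.M, gres_s, zpow_natCast, Units.val_pow_eq_pow_val]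

theorem gres_F (S : Sys n r) (a b : Fin n) :
    S.F a b = PowerSeries.X * gres_s S.c.val ((S.x a).f ᵥ* S.c.val) (S.x b).e := by
  rw [Sys.F, gres_G, gres_shift, Sys.M_zero, add_sub_cancel_right]

theorem gres_key (c : Matrix (Fin r) (Fin r) ℂ) (x : Rf r) (v : Fin r → ℂ) (k : ℕ) :
    ∀ w : Fin r → ℂ, PowerSeries.coeff k (gres_s (c * x.u.val) w v) =
      PowerSeries.coeff k (gres_s c w v) - PowerSeries.coeff k
        (PowerSeries.X * gres_s c (w ᵥ* c) x.e * gres_s (c * x.u.val) x.f v) := by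
  induction k with
  | zero => simp [gres_s]
  | succ k ih =>
    intro w
    have e : PowerSeries.coeff k (gres_s (c * x.u.val) (w ᵥ* (c * x.u.val)) v) =
        PowerSeries.coeff k (gres_s (c * x.u.val) (w ᵥ* c) v) -
          (w ᵥ* c) ⬝ᵥ x.e * PowerSeries.coeff k (gres_s (c * x.u.val) x.f v) := by
      simp only [gres_s, PowerSeries.coeff_mk]
      rw [← vecMul_vecMul, x.vecMul_u, sub_dotProduct, smul_dotProduct, smul_eq_mul]
    rw [gres_succ, gres_succ, mul_assoc, PowerSeries.coeff_succ_X_mul, gres_shift c (w ᵥ* c) x.e,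
      add_mul, map_add, PowerSeries.coeff_C_mul, e, ih]
    ring

/-- With `d = c * u i`, induction on `k` gives
`d ^ k = c ^ k - ∑_{j < k} c ^ (j + 1) * e i ⊗ f i * d ^ (k - 1 - j)`; compare coefficients. -/
theorem Sys.res1 (S : Sys n r) (i u v : Fin n) :
    (S.abs i).G u v = S.G u v - S.F u i * (S.abs i).G i v := by
  ext k
  rw [map_sub, gres_F, gres_G, gres_G, gres_G]
  exact gres_key _ _ _ k _

theorem Sys.res2 (S : Sys n r) (i v : Fin n) : (1 + S.F i i) * (S.abs i).G i v = S.G i v := by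
  have := S.res1 i i v
  linear_combination this

theorem Sys.res3 (S : Sys n r) (i u v : Fin n) :
    (1 + S.F i i) * (S.abs i).G u v = (1 + S.F i i) * S.G u v - S.F u i * S.G i v := by
  rw [S.res1 i u v, ← S.res2 i v]
  ring

theorem gres_rev (c : Matrix (Fin r) (Fin r) ℂ) : (c.charpolyRev : PowerSeries ℂ) =
    (1 - (PowerSeries.X : PowerSeries ℂ) • c.map PowerSeries.C).det := by
  rw [charpolyRev, ← Polynomial.coeToPowerSeries.ringHom_apply, RingHom.map_det]
  congr 1
  ext1 a b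
  rw [Matrix.sub_apply, Matrix.smul_apply, smul_eq_mul, mul_comm]
  by_cases h : a = b <;> simp [h, Matrix.one_apply]

/-- Over `ℂ⟦X⟧` let `R` be the matrix with coefficients `0, c, c ^ 2, …`; then
`(1 - X • c) * R = X • c` and `1 - X • (c * u i) = (1 - X • c) * (1 + R * e ⊗ f)`; use
`det_one_add_replicateCol_mul_replicateRow` (or `mono_det`) and `RingHom.map_det` for the
coercion of `charpolyRev`. -/
theorem Sys.rev_abs (S : Sys n r) (i : Fin n) :
    ((S.abs i).c.val.charpolyRev : PowerSeries ℂ) =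
      (S.c.val.charpolyRev : PowerSeries ℂ) * (1 + S.F i i) := by
  obtain ⟨z, hz⟩ : ∃ z : Fin r → PowerSeries ℂ,
      z = fun a => PowerSeries.mk fun k => (S.c.val ^ (k + 1) *ᵥ (S.x i).e) a := ⟨_, rfl⟩
  have h1 : (1 - (PowerSeries.X : PowerSeries ℂ) • S.c.val.map PowerSeries.C) *ᵥ z =
      fun a => PowerSeries.C ((S.c.val *ᵥ (S.x i).e) a) := by
    funext a
    rw [sub_mulVec, one_mulVec, smul_mulVec, Pi.sub_apply, Pi.smul_apply, smul_eq_mul]
    ext (_ | k)
    · simp [hz]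
    · rw [map_sub, PowerSeries.coeff_succ_X_mul, PowerSeries.coeff_succ_C, sub_eq_zero, hz,
        PowerSeries.coeff_mk, pow_succ', ← mulVec_mulVec]
      simp [mulVec, dotProduct]
  have h2 : S.F i i = (fun a => PowerSeries.C ((S.x i).f a)) ⬝ᵥ
      ((PowerSeries.X : PowerSeries ℂ) • z) := by
    rw [dotProduct_smul, smul_eq_mul, gres_F]
    congr 1
    ext k
    rw [← gres_succ]
    simp [gres_s, dotProduct, hz]
  rw [gres_rev, gres_rev, h2, ← det_one_add_replicateCol_mul_replicateRow (ι := Unit),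
    ← vecMulVec_eq, ← det_mul, mul_add, mul_one, mul_vecMulVec, mulVec_smul, h1]
  congr 1
  ext1 a b
  simp only [Sys.abs, Units.val_mul, Rf.u_val, mul_sub, mul_one, mul_vecMulVec, Matrix.sub_apply,
    Matrix.add_apply, Matrix.smul_apply, map_apply, vecMulVec_apply, Pi.smul_apply, smul_eq_mul,
    map_sub, map_mul]
  ring

/-- `reverse_charpoly`, `rev_abs`, and `charpolyRev` has constant coefficient one. -/
theorem Sys.F_self_eq {S S' : Sys n r} {i : Fin n} (h : S.c.val.charpoly = S'.c.val.charpoly)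
    (h' : (S.abs i).c.val.charpoly = (S'.abs i).c.val.charpoly) : S.F i i = S'.F i i := by
  have h1 := S.rev_abs i
  have h2 := S'.rev_abs i
  have h3 : (S'.c.val.charpolyRev : PowerSeries ℂ) ≠ 0 := fun e => by
    have := congrArg (PowerSeries.coeff 0) e
    rw [Polynomial.coeff_coe, coeff_zero_eq_eval_zero, eval_charpolyRev] at this
    simp at this
  rw [← reverse_charpoly, ← reverse_charpoly, h, h', reverse_charpoly, reverse_charpoly, h2] at h1
  exact (add_left_cancel (mul_left_cancel₀ h3 h1)).symm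

theorem gres_rec (S : Sys n r) (a b : Fin n) (k : ℤ) :
    ∑ j ∈ Finset.range (S.c.val.charpoly.natDegree + 1),
      S.c.val.charpoly.coeff j * S.M a (k + j) b = 0 := by
  have h := congrArg (fun A => (S.x a).f ⬝ᵥ (((S.c ^ k).val * A) *ᵥ (S.x b).e))
    (aeval_self_charpoly S.c.val)
  simpa only [aeval_eq_sum_range, Finset.mul_sum, sum_mulVec, dotProduct_sum, mul_smul_comm,
    smul_mulVec, dotProduct_smul, smul_eq_mul, mul_zero, zero_mulVec, dotProduct_zero, Sys.M,
    _root_.zpow_add, zpow_natCast, Units.val_mul, Units.val_pow_eq_pow_val] using h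

/-- `D k = α * M a k b - α' * M' a' k b'` satisfies `∑ j, χ.coeff j * D (k + j) = 0` for all
`k : ℤ` (Cayley-Hamilton for both matrices) and `χ.coeff 0 = ± det c ≠ 0`; induct downwards. -/
theorem Sys.ext_int {S S' : Sys n r} (h : S.c.val.charpoly = S'.c.val.charpoly) {α α' : ℂ}
    {a b a' b' : Fin n} (hk : PowerSeries.C α * S.F a b = PowerSeries.C α' * S'.F a' b') (k : ℤ) :
    α * S.M a k b = α' * S'.M a' k b' := by
  have h0 : S'.c.val.charpoly.coeff 0 ≠ 0 := fun e => by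
    have := (isUnit_iff_isUnit_det _).1 S'.c.isUnit
    rw [det_eq_sign_charpoly_coeff, e, mul_zero] at this
    exact not_isUnit_zero this
  have key : ∀ m : ℕ, ∀ k : ℤ, 1 - m ≤ k → α * S.M a k b = α' * S'.M a' k b' := by
    intro m
    induction m with
    | zero =>
      intro k hk0
      obtain ⟨j, rfl⟩ : ∃ j : ℕ, k = (j + 1 : ℕ) := ⟨(k - 1).toNat, by omega⟩
      simpa only [PowerSeries.coeff_C_mul, Sys.coeff_F_succ] using
        congrArg (PowerSeries.coeff (j + 1)) hk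
    | succ m ih =>
      intro k hk0
      have h1 := congrArg (α * ·) (gres_rec S a b k)
      have h2 := congrArg (α' * ·) (gres_rec S' a' b' k)
      simp only [h, Finset.sum_range_succ', mul_add, Finset.mul_sum, mul_left_comm _ (coeff _ _),
        mul_zero, Nat.cast_zero, add_zero] at h1 h2
      rw [Finset.sum_congr rfl fun j _ => by rw [ih (k + (j + 1 : ℕ)) (by omega)]] at h1
      exact mul_left_cancel₀ h0 (add_left_cancel (h1.trans h2.symm))
  exact key (1 - k).toNat k (by omega)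

theorem Sys.M_eq_zero_of_F {S : Sys n r} {a b : Fin n} (h : S.F a b = 0) (k : ℤ) :
    S.M a k b = 0 := by
  simpa using Sys.ext_int (S := S) (S' := S) rfl (α := 1) (α' := 0) (a' := a) (b' := b)
    (by simp [h]) k

theorem Sys.ext_int_G {S S' : Sys n r} (h : S.c.val.charpoly = S'.c.val.charpoly) {α α' : ℂ}
    {a b a' b' : Fin n} (hk : PowerSeries.C α * S.G a b = PowerSeries.C α' * S'.G a' b') (k : ℤ) :
    α * S.M a k b = α' * S'.M a' k b' := by
  refine Sys.ext_int h ?_ k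
  have h0 := congrArg (PowerSeries.coeff 0) hk
  simp only [PowerSeries.coeff_C_mul, Sys.coeff_G, Nat.cast_zero] at h0
  rw [Sys.F, Sys.F, mul_sub, mul_sub, hk, ← map_mul, ← map_mul, h0]

theorem Sys.M_eq_zero_of_G {S : Sys n r} {a b : Fin n} (h : S.G a b = 0) (k : ℤ) :
    S.M a k b = 0 := by
  simpa using Sys.ext_int_G (S := S) (S' := S) rfl (α := 1) (α' := 0) (a' := a) (b' := b)
    (by simp [h]) k

/-- The hypothesis says `(S.abs a).G b a = 0`. By `res3`, with `M b 0 a = 0`, `G b a = F b a` and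
`G a a = F a a + C (1 - ζ a)`, one gets `C (ζ a) * F b a = 0`. -/
theorem Sys.vanish {S : Sys n r} {a b : Fin n} (hab : a ≠ b)
    (h : ∀ k : ℕ, (S.tw b (S.prod [a] ^ k)).M b 0 a = 0) (k : ℤ) : S.M b k a = 0 := by
  have h1 : ∀ k : ℕ, (S.abs a).M b k a = 0 := fun k => by
    have := h k
    rw [Sys.M_zero, Sys.tw_self, Sys.tw_ne _ hab, Sys.prod_single] at this
    rw [Sys.M, zpow_natCast, dotProduct_mulVec]
    exact this
  have h2 : (S.abs a).G b a = 0 := by
    ext k
    rw [Sys.coeff_G, h1, map_zero]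
  have h3 : S.M b 0 a = 0 := by rw [← S.abs_M_zero a]; exact h1 0
  have h4 := S.res3 a b a
  rw [h2, S.G_eq b a, S.G_eq a a, h3, S.M_self_zero, map_zero, map_sub, map_one] at h4
  have h5 : PowerSeries.C (S.x a).ζ * S.F b a = PowerSeries.C 0 * S.F b a := by
    rw [map_zero]
    linear_combination -h4
  simpa [(S.x a).ne] using Sys.ext_int rfl h5 k

theorem gres_grp {G : Type*} [Group G] (H : Subgroup G) {c u : G}
    (h : ∀ k : ℤ, c ^ k * u * (c ^ k)⁻¹ ∈ H) (k : ℤ) : (c * u) ^ k * (c ^ k)⁻¹ ∈ H := by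
  induction k using Int.induction_on with
  | zero => simp
  | succ k ih =>
    have e : (c * u) ^ ((k : ℤ) + 1) * (c ^ ((k : ℤ) + 1))⁻¹ = (c * u) ^ (k : ℤ) * (c ^ (k : ℤ))⁻¹ *
        (c ^ ((k : ℤ) + 1) * u * (c ^ ((k : ℤ) + 1))⁻¹) := by
      simp only [_root_.zpow_add_one, mul_assoc, inv_mul_cancel_left]
    rw [e]
    exact H.mul_mem ih (h _)
  | pred k ih =>
    have e : (c * u) ^ (-(k : ℤ) - 1) * (c ^ (-(k : ℤ) - 1))⁻¹ =
        (c * u) ^ (-k : ℤ) * (c ^ (-k : ℤ))⁻¹ * (c ^ (-k : ℤ) * u * (c ^ (-k : ℤ))⁻¹)⁻¹ := by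
      simp only [_root_.zpow_sub_one, _root_.mul_inv_rev, inv_inv, mul_assoc, inv_mul_cancel_left]
    rw [e]
    exact H.mul_mem ih (H.inv_mem (h _))

theorem gres_grp' {G : Type*} [Group G] (H : Subgroup G) {c u : G}
    (h : ∀ k : ℤ, (c ^ k)⁻¹ * u * c ^ k ∈ H) (k : ℤ) : (c ^ k)⁻¹ * (c * u) ^ k ∈ H := by
  have := gres_grp H (c := c⁻¹) (u := c * u⁻¹ * c⁻¹) (fun k => by
    have e : c⁻¹ ^ k * (c * u⁻¹ * c⁻¹) * (c⁻¹ ^ k)⁻¹ = ((c ^ (k - 1))⁻¹ * u * c ^ (k - 1))⁻¹ := by
      group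
    rw [e]
    exact H.inv_mem (h _)) k
  have e : (c ^ k)⁻¹ * (c * u) ^ k = ((c⁻¹ * (c * u⁻¹ * c⁻¹)) ^ k * (c⁻¹ ^ k)⁻¹)⁻¹ := by
    rw [show c⁻¹ * (c * u⁻¹ * c⁻¹) = (c * u)⁻¹ by group, _root_.mul_inv_rev (_ ^ k), inv_inv,
      _root_.inv_zpow, _root_.inv_zpow, inv_inv]
  rw [e]
  exact H.inv_mem this

/-- The stabiliser of a row. -/
def gres_row (w : Fin r → ℂ) : Subgroup (GLr r) where
  carrier := {g | w ᵥ* g.val = w}
  one_mem' := vecMul_one w
  mul_mem' {g h} hg hh := by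
    simp only [Set.mem_ofPred_eq] at *
    rw [Units.val_mul, ← vecMul_vecMul, hg, hh]
  inv_mem' {g} hg := by
    simp only [Set.mem_ofPred_eq] at *
    conv_lhs => rw [← hg, vecMul_vecMul, Units.mul_inv, vecMul_one]

/-- The stabiliser of a column. -/
def gres_col (v : Fin r → ℂ) : Subgroup (GLr r) where
  carrier := {g | g.val *ᵥ v = v}
  one_mem' := one_mulVec v
  mul_mem' {g h} hg hh := by
    simp only [Set.mem_ofPred_eq] at *
    rw [Units.val_mul, ← mulVec_mulVec, hh, hg]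
  inv_mem' {g} hg := by
    simp only [Set.mem_ofPred_eq] at *
    conv_lhs => rw [← hg, mulVec_mulVec, Units.inv_mul, one_mulVec]

/-- If the row `f u * c ^ k` kills `e i` for all `k`, then `f u * (c * u i) ^ k = f u * c ^ k`
(`Int.induction_on`); symmetrically for columns. -/
theorem Sys.abs_M_eq {S : Sys n r} {i u v : Fin n}
    (h : (∀ k, S.M u k i = 0) ∨ ∀ k, S.M i k v = 0) (k : ℤ) : (S.abs i).M u k v = S.M u k v := by
  rcases h with h | h
  · have h1 : (S.x u).f ᵥ* ((S.c * (S.x i).u) ^ k * (S.c ^ k)⁻¹).val = (S.x u).f :=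
      gres_grp (gres_row (S.x u).f) (fun k => by
        have := h k
        rw [Sys.M, dotProduct_mulVec] at this
        change (S.x u).f ᵥ* _ = _
        rw [Units.val_mul, Units.val_mul, ← vecMul_vecMul, ← vecMul_vecMul, Rf.vecMul_u, this,
          zero_smul, sub_zero, vecMul_vecMul, Units.mul_inv, vecMul_one]) k
    rw [Sys.M, Sys.M, dotProduct_mulVec, dotProduct_mulVec]
    conv_rhs => rw [← h1, vecMul_vecMul, ← Units.val_mul, inv_mul_cancel_right]
    rfl
  · have h1 : ((S.c ^ k)⁻¹ * (S.c * (S.x i).u) ^ k).val *ᵥ (S.x v).e = (S.x v).e :=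
      gres_grp' (gres_col (S.x v).e) (fun k => by
        have := h k
        rw [Sys.M] at this
        change _ *ᵥ (S.x v).e = _
        rw [Units.val_mul, Units.val_mul, ← mulVec_mulVec, ← mulVec_mulVec, Rf.u_mulVec, this,
          zero_smul, sub_zero, mulVec_mulVec, Units.inv_mul, one_mulVec]) k
    rw [Sys.M, Sys.M]
    conv_rhs => rw [← h1, mulVec_mulVec, ← Units.val_mul, mul_inv_cancel_left]
    rfl

end Pool.Agent.GR
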