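import Pool.Agent.Lib.MP_aa40d3_nt.GR2.GTwo

/-! Cycles of length three. -/

open Polynomial Matrix

namespace Pool.Agent.GR

variable {n r : ℕ} {𝒞 : List (Fin n) → Sys n r → Sys n r → Prop}

theorem gthree_CG {S S' : Sys n r} {α α' : ℂ} {a b a' b' : Fin n}
    (h : ∀ k : ℤ, α * S.M a k b = α' * S'.M a' k b') :
    PowerSeries.C α * S.G a b = PowerSeries.C α' * S'.G a' b' := by
  ext k
  rw [PowerSeries.coeff_C_mul, PowerSeries.coeff_C_mul, Sys.coeff_G, Sys.coeff_G, h]

theorem gthree_CF {S S' : Sys n r} {α α' : ℂ} {a b a' b' : Fin n}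
    (h : ∀ k : ℤ, α * S.M a k b = α' * S'.M a' k b') :
    PowerSeries.C α * S.F a b = PowerSeries.C α' * S'.F a' b' := by
  rw [Sys.F, Sys.F, mul_sub, mul_sub, gthree_CG h, ← map_mul, ← map_mul, h]

theorem gthree_zero {S : Sys n r} {α : ℂ} {p i q : Fin n}
    (h : PowerSeries.C α * S.F p i * S.G i q = 0) (j k : ℤ) : α * S.M p j i * S.M i k q = 0 := by
  rcases mul_eq_zero.1 h with h1 | h1
  · rcases mul_eq_zero.1 h1 with h2 | h2
    · have h3 := congrArg (PowerSeries.coeff 0) h2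
      rw [PowerSeries.coeff_zero_C, map_zero] at h3
      rw [h3, zero_mul, zero_mul]
    · rw [Sys.M_eq_zero_of_F h2, mul_zero, zero_mul]
  · rw [Sys.M_eq_zero_of_G h1, mul_zero]

/-- If neither family vanishes, `hs` gives `l` with `M v l u ≠ 0`; by `two`,
`M u k v * M v l u = M' u k v * M' v l u`, so `M' v l u ≠ 0` and `t = M v l u / M' v l u`. -/
theorem Cls.edge (h : Cls 𝒞) {l : List (Fin n)} {S S' : Sys n r} (hc : 𝒞 l S S') {u v : Fin n}
    (hu : u ∈ l) (hv : v ∈ l) : (∀ k, S.M u k v = 0) ∨ (∀ k, S'.M u k v = 0) ∨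
      ∃ t : ℂ, ∀ k, S'.M u k v = t * S.M u k v := by
  by_cases h1 : ∀ k, S.M u k v = 0
  · exact Or.inl h1
  by_cases h2 : ∀ k, S'.M u k v = 0
  · exact Or.inr (Or.inl h2)
  obtain ⟨k1, hk1⟩ := not_forall.1 h1
  obtain ⟨k0, hk0⟩ := not_forall.1 h2
  have h3 : S.M v (-k0) u ≠ 0 := fun h3 => hk0 (by simpa using (h.hs hc v (-k0) u).1 h3)
  have h4 : S'.M v (-k0) u ≠ 0 := fun h4 => by
    have h5 := h.two hc hu hv k1 (-k0)
    rw [h4, mul_zero] at h5
    exact mul_ne_zero hk1 h3 h5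
  refine Or.inr (Or.inr ⟨S.M v (-k0) u / S'.M v (-k0) u, fun k => ?_⟩)
  have h5 := h.two hc hu hv k (-k0)
  rw [div_mul_eq_mul_div, eq_div_iff h4]
  linear_combination -h5

/-- Use `edge` twice. If one of the families for `S` vanishes then `α' = 0` or `F' p i = 0` or
`G' i q = 0`, and both sides vanish (`M_eq_zero_of_F`, `M_eq_zero_of_G`); symmetrically for `S'`.
Otherwise `F' p i = C t₁ * F p i`, `G' i q = C t₂ * G i q`, so either `α = α' t₁ t₂` or one of
`F p i`, `G i q` vanishes. -/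
theorem Cls.sep (h : Cls 𝒞) {l : List (Fin n)} {S S' : Sys n r} (hc : 𝒞 l S S') {p i q : Fin n}
    (hp : p ∈ l) (hi : i ∈ l) (hq : q ∈ l) {α α' : ℂ}
    (he : PowerSeries.C α * S.F p i * S.G i q = PowerSeries.C α' * S'.F p i * S'.G i q)
    (j k : ℤ) : α * S.M p j i * S.M i k q = α' * S'.M p j i * S'.M i k q := by
  have hz : PowerSeries.C α * S.F p i * S.G i q = 0 →
      α * S.M p j i * S.M i k q = α' * S'.M p j i * S'.M i k q := fun h0 => by
    rw [gthree_zero h0, gthree_zero (he.symm.trans h0)]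
  rcases h.edge hc hp hi with h1 | h1 | ⟨t₁, h1⟩
  · exact hz (by rw [Sys.F_eq_zero h1, mul_zero, zero_mul])
  · exact hz (by rw [he, Sys.F_eq_zero h1, mul_zero, zero_mul])
  rcases h.edge hc hi hq with h2 | h2 | ⟨t₂, h2⟩
  · exact hz (by rw [Sys.G_eq_zero h2, mul_zero])
  · exact hz (by rw [he, Sys.G_eq_zero h2, mul_zero])
  have e1 : PowerSeries.C (1 : ℂ) * S'.F p i = PowerSeries.C t₁ * S.F p i :=
    gthree_CF fun k => by rw [one_mul, h1]
  have e2 : PowerSeries.C (1 : ℂ) * S'.G i q = PowerSeries.C t₂ * S.G i q :=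
    gthree_CG fun k => by rw [one_mul, h2]
  rw [map_one, one_mul] at e1 e2
  have e3 : PowerSeries.C (α - α' * t₁ * t₂) * S.F p i * S.G i q = 0 := by
    rw [e1, e2] at he
    rw [map_sub, map_mul, map_mul]
    linear_combination he
  have e4 := gthree_zero e3 j k
  rw [h1, h2]
  linear_combination e4

/-- By `two` for the absorbed systems, `C (M u 0 v) * (S.abs i).G v u` agrees (compare
coefficients, `abs_M_zero`); multiply by `1 + F i i`, use `res3`, `two`, `F_self` and `sep`. -/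
theorem Cls.tri0 (h : Cls 𝒞) {i : Fin n} {l : List (Fin n)} {S S' : Sys n r}
    (hc : 𝒞 (i :: l) S S') {u v : Fin n} (hu : u ∈ l) (hv : v ∈ l) (j k : ℤ) :
    S.M u 0 v * S.M v j i * S.M i k u = S'.M u 0 v * S'.M v j i * S'.M i k u := by
  have hu' : u ∈ i :: l := List.mem_cons_of_mem _ hu
  have hv' : v ∈ i :: l := List.mem_cons_of_mem _ hv
  have hi : i ∈ i :: l := List.mem_cons_self
  have e1 : PowerSeries.C (S.M u 0 v) * (S.abs i).G v u =
      PowerSeries.C (S'.M u 0 v) * (S'.abs i).G v u := gthree_CG fun m => by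
    have h1 := h.two (h.abs hc) hu hv 0 m
    rwa [Sys.abs_M_zero, Sys.abs_M_zero] at h1
  have e2 : PowerSeries.C (S.M u 0 v) * S.G v u = PowerSeries.C (S'.M u 0 v) * S'.G v u :=
    gthree_CG fun m => h.two hc hu' hv' 0 m
  have e3 := h.F_self hc hi
  have e4 := S.res3 i v u
  have e5 := S'.res3 i v u
  rw [← e3] at e5
  refine h.sep hc hv' hi hu' ?_ j k
  linear_combination PowerSeries.C (S.M u 0 v) * e4 - PowerSeries.C (S'.M u 0 v) * e5
    + (1 + S.F i i) * e2 - (1 + S.F i i) * e1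

/-- Both triangles agree. -/
def Tri (S S' : Sys n r) (i u v : Fin n) : Prop :=
  ∀ j k m, S.M u m v * S.M v j i * S.M i k u = S'.M u m v * S'.M v j i * S'.M i k u ∧
    S.M v m u * S.M u j i * S.M i k v = S'.M v m u * S'.M u j i * S'.M i k v

/-- If also `M v 0 u ≠ 0` multiply by `M u 0 v * M v 0 u` and use `two`, `tri0`. Otherwise
`oneway` for the sublist `[u, v]` gives `M v _ u = 0`, `M' u _ v = 0`; `tri0` with
`M' u 0 v = 0` gives `M v j i * M i k u = 0` and `tri0` for `(v, u)` with `M' v 0 u ≠ 0` (`hs`)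
gives `M' u j i * M' i k v = 0`. -/
theorem Cls.tri1 (h : Cls 𝒞) {i u v : Fin n} {S S' : Sys n r} (hc : 𝒞 [i, u, v] S S')
    (h1 : S.M u 0 v ≠ 0) : Tri S S' i u v := by
  have hu : u ∈ [u, v] := by simp
  have hv : v ∈ [u, v] := by simp
  have hu' : u ∈ [i, u, v] := by simp
  have hv' : v ∈ [i, u, v] := by simp
  intro j k m
  have t1 := h.tri0 hc hu hv j k
  have t2 := h.tri0 hc hv hu j k
  by_cases h2 : S.M v 0 u = 0
  · obtain ⟨h3, h4⟩ := h.oneway (h.del hc (List.sublist_cons_self i [u, v])) h1 h2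
    have h5 : S'.M v 0 u ≠ 0 := fun h5 => h1 ((h.hs hc u 0 v).2 (by simpa using h5))
    rw [h4, zero_mul, zero_mul, mul_assoc] at t1
    rw [h2, zero_mul, zero_mul, mul_assoc] at t2
    have t3 := (mul_eq_zero.1 t1).resolve_left h1
    have t4 := (mul_eq_zero.1 t2.symm).resolve_left h5
    constructor
    · rw [h4, mul_assoc, t3, mul_zero, zero_mul, zero_mul]
    · rw [h3, mul_assoc (S'.M v m u), t4, mul_zero, zero_mul, zero_mul]
  · have hw := mul_ne_zero h1 h2
    have w0 := h.two hc hu' hv' 0 0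
    have w1 := h.two hc hu' hv' m 0
    have w2 := h.two hc hu' hv' 0 m
    constructor
    · refine mul_left_cancel₀ hw ?_
      linear_combination (S.M u m v * S.M v 0 u) * t1 + (S'.M u 0 v * S'.M v j i * S'.M i k u) * w1
        - (S'.M u m v * S'.M v j i * S'.M i k u) * w0
    · refine mul_left_cancel₀ hw ?_
      linear_combination (S.M u 0 v * S.M v m u) * t2 + (S'.M v 0 u * S'.M u j i * S'.M i k v) * w2
        - (S'.M v m u * S'.M u j i * S'.M i k v) * w0

theorem gthree_tri2 (h : Cls 𝒞) {l : List (Fin n)} {i u v : Fin n} {S S' : Sys n r}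
    (hc : 𝒞 l S S') (hi : i ∈ l) (hu : u ∈ l) (hv : v ∈ l)
    (h1 : ∀ k, (S.abs i).M u k v = 0) (h3 : ∀ k, (S'.abs i).M u k v = 0) (j k m : ℤ) :
    S.M u m v * S.M v j i * S.M i k u = S'.M u m v * S'.M v j i * S'.M i k u := by
  have e1 := S.res3 i u v
  have e2 := S'.res3 i u v
  rw [Sys.G_eq_zero h1] at e1
  rw [Sys.G_eq_zero h3, ← h.F_self hc hi] at e2
  have e3 : PowerSeries.C (S.M i k u) * S.F u i = PowerSeries.C (S'.M i k u) * S'.F u i :=
    gthree_CF fun o => h.two hc hi hu k o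
  have e4 : PowerSeries.C (S.M v j i) * S.G i v = PowerSeries.C (S'.M v j i) * S'.G i v :=
    gthree_CG fun o => h.two hc hv hi j o
  have e5 : PowerSeries.C (S.M v j i * S.M i k u) * S.G u v =
      PowerSeries.C (S'.M v j i * S'.M i k u) * S'.G u v := by
    refine mul_left_cancel₀ (S.one_add_F_ne i) ?_
    rw [map_mul, map_mul]
    linear_combination (-(PowerSeries.C (S.M v j i) * PowerSeries.C (S.M i k u))) * e1
      + (PowerSeries.C (S'.M v j i) * PowerSeries.C (S'.M i k u)) * e2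
      + (PowerSeries.C (S.M v j i) * S.G i v) * e3 + (PowerSeries.C (S'.M i k u) * S'.F u i) * e4
  have e6 := Sys.ext_int_G (h.chp hc) e5 m
  linear_combination e6

/-- By `res3`, `(1 + F i i) * G u v = F u i * G i v`, `(1 + F i i) * G v u = F v i * G i u`, and
the same for `S'`. With `β = M v j i * M i k u`,
`(1 + F i i) * (C β * G u v) = (C (M i k u) * F u i) * (C (M v j i) * G i v)` and both factors
agree by `two` (coefficientwise); cancel `1 + F i i` and use `ext_int_G`. -/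
theorem Cls.tri2 (h : Cls 𝒞) {i u v : Fin n} {S S' : Sys n r} (hc : 𝒞 [i, u, v] S S')
    (h1 : ∀ k, (S.abs i).M u k v = 0) (h2 : ∀ k, (S.abs i).M v k u = 0)
    (h3 : ∀ k, (S'.abs i).M u k v = 0) (h4 : ∀ k, (S'.abs i).M v k u = 0) : Tri S S' i u v := by
  intro j k m
  exact ⟨gthree_tri2 h hc (by simp) (by simp) (by simp) h1 h3 j k m,
    gthree_tri2 h hc (by simp) (by simp) (by simp) h2 h4 j k m⟩

theorem gthree_six {i u v x y z : Fin n} {S S' : Sys n r} (ht : Tri S S' i u v)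
    (hx : x ∈ [i, u, v]) (hy : y ∈ [i, u, v]) (hz : z ∈ [i, u, v]) (hxy : x ≠ y) (hxz : x ≠ z)
    (hyz : y ≠ z) (a b c : ℤ) :
    S.M z a x * (S.M x b y * S.M y c z) = S'.M z a x * (S'.M x b y * S'.M y c z) := by
  simp only [List.mem_cons, List.not_mem_nil, or_false] at hx hy hz
  rcases hx with hx | hx | hx <;> rcases hy with hy | hy | hy <;> rcases hz with hz | hz | hz <;>
    first
    | exact absurd (hx.trans hy.symm) hxy
    | exact absurd (hx.trans hz.symm) hxz
    | exact absurd (hy.trans hz.symm) hyz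
    | skip
  · rw [hx, hy, hz]; linear_combination (ht a b c).1
  · rw [hx, hy, hz]; linear_combination (ht a b c).2
  · rw [hx, hy, hz]; linear_combination (ht b c a).2
  · rw [hx, hy, hz]; linear_combination (ht c a b).1
  · rw [hx, hy, hz]; linear_combination (ht b c a).1
  · rw [hx, hy, hz]; linear_combination (ht c a b).2

theorem gthree_symm {i u v : Fin n} {S S' : Sys n r} (ht : Tri S S' i u v) : Tri S' S i u v :=
  fun j k m => ⟨(ht j k m).1.symm, (ht j k m).2.symm⟩

/-- Simple closed walks in `[i, u, v]` have length at most three; `one`, `two` and the six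
rotations of the two triangles. -/
theorem Cls.cw_tri (h : Cls 𝒞) {i u v : Fin n} {S S' : Sys n r} (hc : 𝒞 [i, u, v] S S')
    (ht : Tri S S' i u v) : CW DD [i, u, v] S.M S'.M := by
  refine cw_of_simple fun a p hp hl hn => ?_
  rw [mem_DD]
  have hlen : (p.map Prod.snd).length ≤ [i, u, v].length :=
    (hn.subperm fun x hx => by
      obtain ⟨q, hq, rfl⟩ := List.mem_map.1 hx
      exact hl q hq).length_le
  rcases p with _ | ⟨⟨k, x⟩, _ | ⟨⟨m, y⟩, _ | ⟨⟨o, z⟩, _ | ⟨q, p⟩⟩⟩⟩
  · rfl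
  · have hx : x = a := hp
    have hx' : x ∈ [i, u, v] := hl (k, x) (by simp)
    subst hx
    simp only [pw, mul_one]
    exact h.one hc hx' k
  · have hy : y = a := hp
    have hx' : x ∈ [i, u, v] := hl (k, x) (by simp)
    have hy' : y ∈ [i, u, v] := hl (m, y) (by simp)
    subst hy
    simp only [pw, mul_one]
    exact h.two hc hy' hx' k m
  · have hz : z = a := hp
    have hx' : x ∈ [i, u, v] := hl (k, x) (by simp)
    have hy' : y ∈ [i, u, v] := hl (m, y) (by simp)
    have hz' : z ∈ [i, u, v] := hl (o, z) (by simp)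
    subst hz
    simp only [List.map_cons, List.map_nil, List.nodup_cons, List.mem_cons, List.not_mem_nil,
      or_false, not_or] at hn
    simp only [pw, mul_one]
    exact gthree_six ht hx' hy' hz' hn.1.1 hn.1.2 hn.2.1 k m o
  · simp only [List.map_cons, List.length_cons, List.length_nil] at hlen
    omega

/-- Twist `v` by powers of `prod [i, u]` (`tw_pow` with `l = [i, u]`). If some twisted system has
`M u 0 v ≠ 0` or `M' u 0 v ≠ 0` use `tri1` (for the pair or the swapped pair), `cw_tri`, `CW.of_tw`.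
Otherwise, by `hs`, `M v 0 u = 0 = M' v 0 u` for all twists; `vanish` for `S.abs i` and `S'.abs i`
(`tw_abs`, `prod_cons`, `abs_M_zero`), then `hs` for the absorbed pair, then `tri2`. -/
theorem Cls.three (h : Cls 𝒞) {i u v : Fin n} {S S' : Sys n r} (hc : 𝒞 [i, u, v] S S') :
    CW DD [i, u, v] S.M S'.M := by
  have hnd := h.nodup hc
  simp only [List.nodup_cons, List.mem_cons, List.not_mem_nil, or_false, not_or] at hnd
  have hv : v ∉ [i, u] := by
    simp only [List.mem_cons, List.not_mem_nil, or_false, not_or]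
    exact ⟨fun e => hnd.1.2 e.symm, fun e => hnd.2.1 e.symm⟩
  have hc' : 𝒞 ([i, u] ++ [v]) S S' := hc
  have hk : ∀ k : ℕ, 𝒞 [i, u, v] (S.tw v (S.prod [i, u] ^ k)) (S'.tw v (S'.prod [i, u] ^ k)) :=
    fun k => h.tw_pow hc' k
  by_cases hA : ∀ k : ℕ, (S.tw v (S.prod [i, u] ^ k)).M u 0 v = 0
  swap
  · obtain ⟨k, hA⟩ := not_forall.1 hA
    exact CW.of_tw hv (h.zeta hc') k (h.cw_tri (hk k) (h.tri1 (hk k) hA))
  by_cases hB : ∀ k : ℕ, (S'.tw v (S'.prod [i, u] ^ k)).M u 0 v = 0
  swap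
  · obtain ⟨k, hB⟩ := not_forall.1 hB
    exact CW.of_tw hv (h.zeta hc') k (h.cw_tri (hk k) (gthree_symm (h.tri1 (h.symm (hk k)) hB)))
  have key : ∀ T : Sys n r, (∀ k : ℕ, (T.tw v (T.prod [i, u] ^ k)).M v 0 u = 0) →
      ∀ k, (T.abs i).M v k u = 0 := fun T hT =>
    Sys.vanish hnd.2.1 fun k => by
      rw [← Sys.prod_cons, ← Sys.tw_abs _ hnd.1.2, Sys.abs_M_zero, hT]
  have h2 := key S fun k => by simpa using (h.hs (h.symm (hk k)) u 0 v).1 (hB k)
  have h4 := key S' fun k => by simpa using (h.hs (hk k) u 0 v).1 (hA k)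
  exact h.cw_tri hc (h.tri2 hc (fun k => (h.hs (h.abs hc) u k v).2 (h4 _)) h2
    (fun k => (h.hs (h.symm (h.abs hc)) u k v).2 (h2 _)) h4)

end Pool.Agent.GR
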