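import Pool.Agent.Lib.MP_aa40d3_nt.GR2.GWalk
import Pool.Agent.Lib.MP_aa40d3_nt.GR2.GRes

/-! Cycles of length one and two. -/

open Polynomial Matrix

namespace Pool.Agent.GR

variable {n r : ℕ} {𝒞 : List (Fin n) → Sys n r → Sys n r → Prop}

theorem Cls.F_self (h : Cls 𝒞) {l : List (Fin n)} {S S' : Sys n r} (hc : 𝒞 l S S') {a : Fin n}
    (ha : a ∈ l) : S.F a a = S'.F a a :=
  Sys.F_self_eq (h.chp hc) (h.chp (h.abs (h.del hc (List.singleton_sublist.2 ha))))

theorem Cls.one (h : Cls 𝒞) {l : List (Fin n)} {S S' : Sys n r} (hc : 𝒞 l S S') {a : Fin n}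
    (ha : a ∈ l) (k : ℤ) : S.M a k a = S'.M a k a := by
  simpa using Sys.ext_int (h.chp hc) (α := 1) (α' := 1) (by rw [h.F_self hc ha]) k

theorem gtwo_M (S : Sys n r) (a b : Fin n) (k : ℤ) :
    (S.tw a (S.x b).u).M a k a = S.M a k a + (S.x b).ζ⁻¹ * S.M b 0 a * S.M a k b
      - S.M a 0 b * S.M b k a - (S.x b).ζ⁻¹ * (S.M a 0 b * S.M b 0 a) * S.M b k b := by
  have h1 : (S.tw a (S.x b).u).M a k a =
      ((S.x a).f ᵥ* (S.x b).u.val) ⬝ᵥ ((S.c ^ k).val *ᵥ (((S.x b).u⁻¹).val *ᵥ (S.x a).e)) := by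
    rw [Sys.M, Sys.tw_self]
    rfl
  rw [h1, Rf.vecMul_u, Rf.u_inv_mulVec, ← Sys.M_zero, ← Sys.M_zero, mulVec_add, mulVec_smul,
    sub_dotProduct, smul_dotProduct, dotProduct_add, dotProduct_add, dotProduct_smul,
    dotProduct_smul]
  simp only [smul_eq_mul]
  show S.M a k a + _ * S.M a k b - _ * (S.M b k a + _ * S.M b k b) = _
  ring

theorem gtwo_F (S : Sys n r) (a b : Fin n) :
    (S.tw a (S.x b).u).F a a = S.F a a + PowerSeries.C ((S.x b).ζ⁻¹ * S.M b 0 a) * S.F a b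
      - PowerSeries.C (S.M a 0 b) * S.F b a
      - PowerSeries.C ((S.x b).ζ⁻¹ * (S.M a 0 b * S.M b 0 a)) * S.F b b := by
  ext k
  rw [map_sub, map_sub, map_add, PowerSeries.coeff_C_mul, PowerSeries.coeff_C_mul,
    PowerSeries.coeff_C_mul]
  cases k with
  | zero => simp only [Sys.coeff_F_zero, mul_zero, add_zero, sub_zero]
  | succ k => simp only [Sys.coeff_F_succ, gtwo_M]

theorem gtwo_ne {P : PowerSeries ℂ} {w : ℂ} (hw : w ≠ 0) (h : PowerSeries.coeff 0 P = w) :
    P ≠ 0 := by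
  intro h0
  rw [h0, map_zero] at h
  exact hw h.symm

/-- `F_self` for `b` in the absorbed systems and `res3` with `u = v = b` (the constant terms
`M b 0 b = 1 - ζ b` agree). -/
theorem Cls.quad (h : Cls 𝒞) {a b : Fin n} {S S' : Sys n r} (hc : 𝒞 [a, b] S S') :
    S.G a b * S.F b a = S'.G a b * S'.F b a := by
  have ha : S.F a a = S'.F a a := h.F_self hc (by simp)
  have hb : S.F b b = S'.F b b := h.F_self hc (by simp)
  have hz : (S.x b).ζ = (S'.x b).ζ := h.zeta hc b (by simp)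
  have h1 : (S.abs a).F b b = (S'.abs a).F b b := h.F_self (h.abs hc) (by simp)
  have h2 : (S.abs a).G b b = (S'.abs a).G b b := by
    rw [Sys.G_eq, Sys.G_eq, h1, Sys.abs_M_zero, Sys.abs_M_zero, Sys.M_self_zero, Sys.M_self_zero,
      hz]
  have h3 : S.G b b = S'.G b b := by
    rw [Sys.G_eq, Sys.G_eq, hb, Sys.M_self_zero, Sys.M_self_zero, hz]
  have h4 := S.res3 a b b
  have h5 := S'.res3 a b b
  rw [ha, h2, h3] at h4
  linear_combination h4 - h5

/-- `F_self` for `a` after `br`: the new vectors are `e a + (ζ b)⁻¹ * M b 0 a • e b` and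
`f a - M a 0 b • f b`; use `pair` and `F_self` for `a` and `b`. -/
theorem Cls.lin (h : Cls 𝒞) {a b : Fin n} {S S' : Sys n r} (hc : 𝒞 [a, b] S S') :
    PowerSeries.C ((S.x b).ζ⁻¹ * S.M b 0 a) * S.F a b - PowerSeries.C (S.M a 0 b) * S.F b a =
      PowerSeries.C ((S.x b).ζ⁻¹ * S'.M b 0 a) * S'.F a b
        - PowerSeries.C (S'.M a 0 b) * S'.F b a := by
  have ha : S.F a a = S'.F a a := h.F_self hc (by simp)
  have hb : S.F b b = S'.F b b := h.F_self hc (by simp)
  have hz : (S.x b).ζ = (S'.x b).ζ := h.zeta hc b (by simp)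
  have h1 := h.F_self (h.br hc) (List.mem_singleton_self a)
  rw [gtwo_F, gtwo_F, ← hz, ← h.pair hc, ha, hb] at h1
  linear_combination h1

/-- By `hs`, `M' b 0 a ≠ 0` and `M' a 0 b = 0`. With `B = C (M a 0 b) * F b a`, `lin` gives
`C (M' b 0 a) * F' a b = -C ζ * B` and `quad` gives
`B * (C (M' b 0 a) * G a b + C (ζ * M a 0 b) * F' b a) = 0`; the second factor has constant
coefficient `M' b 0 a * M a 0 b ≠ 0`. -/
theorem Cls.oneway (h : Cls 𝒞) {a b : Fin n} {S S' : Sys n r} (hc : 𝒞 [a, b] S S')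
    (h1 : S.M a 0 b ≠ 0) (h2 : S.M b 0 a = 0) :
    (∀ k, S.M b k a = 0) ∧ ∀ k, S'.M a k b = 0 := by
  have h3 : S'.M b 0 a ≠ 0 := fun e => h1 ((h.hs hc a 0 b).2 (by simpa using e))
  have h4 : S'.M a 0 b = 0 := by simpa using (h.hs hc b 0 a).1 h2
  have hl := h.lin hc
  have hq := h.quad hc
  have hζ : PowerSeries.C (S.x b).ζ * PowerSeries.C (S.x b).ζ⁻¹ = (1 : PowerSeries ℂ) := by
    rw [← map_mul, mul_inv_cancel₀ (S.x b).ne, map_one]
  rw [h2, h4, mul_zero, map_zero, map_mul] at hl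
  rw [S'.G_eq a b, h4, map_zero] at hq
  have key : (PowerSeries.C (S.M a 0 b) * S.F b a) * (PowerSeries.C (S'.M b 0 a) * S.G a b +
      PowerSeries.C ((S.x b).ζ * S.M a 0 b) * S'.F b a) = 0 := by
    rw [map_mul]
    linear_combination (PowerSeries.C (S.M a 0 b) * PowerSeries.C (S'.M b 0 a)) * hq
      - (PowerSeries.C (S.x b).ζ * PowerSeries.C (S.M a 0 b) * S'.F b a) * hl
      - (PowerSeries.C (S.M a 0 b) * PowerSeries.C (S'.M b 0 a) * S'.F a b * S'.F b a) * hζ
  have h5 : PowerSeries.C (S'.M b 0 a) * S.G a b +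
      PowerSeries.C ((S.x b).ζ * S.M a 0 b) * S'.F b a ≠ 0 := by
    refine gtwo_ne (mul_ne_zero h3 h1) ?_
    rw [map_add, PowerSeries.coeff_C_mul, PowerSeries.coeff_C_mul, Sys.coeff_F_zero, Sys.coeff_G,
      mul_zero, add_zero, Nat.cast_zero]
  have h6 : PowerSeries.C (S.M a 0 b) ≠ (0 : PowerSeries ℂ) :=
    gtwo_ne h1 (PowerSeries.coeff_zero_C _)
  have h7 : S.F b a = 0 := (mul_eq_zero.1 ((mul_eq_zero.1 key).resolve_right h5)).resolve_left h6
  have h8 := Sys.M_eq_zero_of_F h7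
  refine ⟨h8, fun k => ?_⟩
  simpa using (h.hs hc b (-k) a).1 (h8 _)

/-- Let `w = M a 0 b * M b 0 a ≠ 0`, `A = C (M b 0 a) * F a b`, `B = C (M a 0 b) * F b a`. Then
`(A - A') * (B + C ζ⁻¹ * (A' + C w)) = 0` by `lin`, `quad`, `pair`, and the second factor has
constant coefficient `ζ⁻¹ * w`. So `A = A'`, `B = B'`; use `ext_int` and cancel `w`. -/
theorem Cls.twoway (h : Cls 𝒞) {a b : Fin n} {S S' : Sys n r} (hc : 𝒞 [a, b] S S')
    (h1 : S.M a 0 b ≠ 0) (h2 : S.M b 0 a ≠ 0) (j k : ℤ) :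
    S.M a j b * S.M b k a = S'.M a j b * S'.M b k a := by
  have hp := h.pair hc
  have hl := h.lin hc
  have hq := h.quad hc
  have hw : S.M a 0 b * S.M b 0 a ≠ 0 := mul_ne_zero h1 h2
  have hp' : PowerSeries.C (S.M a 0 b) * PowerSeries.C (S.M b 0 a) =
      (PowerSeries.C (S'.M a 0 b) * PowerSeries.C (S'.M b 0 a) : PowerSeries ℂ) := by
    rw [← map_mul, ← map_mul, hp]
  rw [map_mul, map_mul] at hl
  rw [S.G_eq a b, S'.G_eq a b] at hq
  have key : (PowerSeries.C (S.M b 0 a) * S.F a b - PowerSeries.C (S'.M b 0 a) * S'.F a b) *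
      (PowerSeries.C (S.M a 0 b) * S.F b a + PowerSeries.C (S.x b).ζ⁻¹ *
        (PowerSeries.C (S'.M b 0 a) * S'.F a b +
          PowerSeries.C (S'.M a 0 b) * PowerSeries.C (S'.M b 0 a))) = 0 := by
    linear_combination (PowerSeries.C (S.M a 0 b) * PowerSeries.C (S.M b 0 a)) * hq
      + (PowerSeries.C (S'.M b 0 a) * S'.F a b +
          PowerSeries.C (S'.M a 0 b) * PowerSeries.C (S'.M b 0 a)) * hl
      + ((S'.F a b + PowerSeries.C (S'.M a 0 b)) * S'.F b a
          - PowerSeries.C (S.M a 0 b) * S.F b a) * hp'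
  have h5 : PowerSeries.C (S.M a 0 b) * S.F b a + PowerSeries.C (S.x b).ζ⁻¹ *
      (PowerSeries.C (S'.M b 0 a) * S'.F a b +
        PowerSeries.C (S'.M a 0 b) * PowerSeries.C (S'.M b 0 a)) ≠ 0 := by
    refine gtwo_ne (mul_ne_zero (inv_ne_zero (S.x b).ne) hw) ?_
    rw [map_add, PowerSeries.coeff_C_mul, PowerSeries.coeff_C_mul, map_add,
      PowerSeries.coeff_C_mul, PowerSeries.coeff_C_mul, Sys.coeff_F_zero, Sys.coeff_F_zero,
      PowerSeries.coeff_zero_C, mul_zero, mul_zero, zero_add, zero_add, hp]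
  have hA : PowerSeries.C (S.M b 0 a) * S.F a b = PowerSeries.C (S'.M b 0 a) * S'.F a b :=
    sub_eq_zero.1 ((mul_eq_zero.1 key).resolve_right h5)
  have hB : PowerSeries.C (S.M a 0 b) * S.F b a = PowerSeries.C (S'.M a 0 b) * S'.F b a := by
    linear_combination PowerSeries.C (S.x b).ζ⁻¹ * hA - hl
  have e1 := Sys.ext_int (h.chp hc) hA j
  have e2 := Sys.ext_int (h.chp hc) hB k
  refine mul_left_cancel₀ hw ?_
  linear_combination (S.M a 0 b * S.M b k a) * e1 + (S'.M b 0 a * S'.M a j b) * e2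
    - (S'.M a j b * S'.M b k a) * hp

/-- Simple closed walks in `[a, b]` have length at most two. -/
theorem Cls.cw_pair (h : Cls 𝒞) {a b : Fin n} {S S' : Sys n r} (hc : 𝒞 [a, b] S S')
    (h2 : ∀ j k, S.M a j b * S.M b k a = S'.M a j b * S'.M b k a) : CW DD [a, b] S.M S'.M := by
  refine cw_of_simple fun c p hp hm hn => ?_
  rw [mem_DD]
  rcases p with _ | ⟨⟨j, x⟩, _ | ⟨⟨k, y⟩, _ | ⟨⟨m, z⟩, p⟩⟩⟩
  · rfl
  · have hx : x = c := hp
    subst hx
    show S.M x j x * 1 = S'.M x j x * 1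
    rw [h.one hc (hm (j, x) (by simp))]
  · have hy : y = c := hp
    subst hy
    show S.M y j x * (S.M x k y * 1) = S'.M y j x * (S'.M x k y * 1)
    have hx : x = a ∨ x = b := by simpa using hm (j, x) (by simp)
    have hy : y = a ∨ y = b := by simpa using hm (k, y) (by simp)
    have hne : x ≠ y := by simpa using hn
    rw [mul_one, mul_one]
    rcases hx with rfl | rfl <;> rcases hy with rfl | rfl
    · exact absurd rfl hne
    · rw [mul_comm, h2, mul_comm]
    · exact h2 j k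
    · exact absurd rfl hne
  · exfalso
    have hx : x = a ∨ x = b := by simpa using hm (j, x) (by simp)
    have hy : y = a ∨ y = b := by simpa using hm (k, y) (by simp)
    have hz : z = a ∨ z = b := by simpa using hm (m, z) (by simp)
    simp only [List.map_cons, List.nodup_cons, List.mem_cons, not_or] at hn
    obtain ⟨⟨h3, h4, -⟩, ⟨h5, -⟩, -⟩ := hn
    rcases hx with rfl | rfl <;> rcases hy with rfl | rfl <;> rcases hz with hz | hz
    all_goals first | exact h3 rfl | exact h4 hz.symm | exact h5 hz.symm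

/-- If for some `k` the twisted systems (`tw_pow` with `l = [a]`) have `M a 0 b ≠ 0` or
`M b 0 a ≠ 0`, then `twoway` or `oneway` (for the pair or the swapped pair, using `hs`), `cw_pair`
and `CW.of_tw` apply; evaluate on the walk `[(j, b), (k, a)]`. Otherwise `vanish` applies to `S`
and (by `hs`) to `S'`. -/
theorem Cls.two' (h : Cls 𝒞) {a b : Fin n} {S S' : Sys n r} (hc : 𝒞 [a, b] S S') (j k : ℤ) :
    S.M a j b * S.M b k a = S'.M a j b * S'.M b k a := by
  have hab : a ≠ b := by simpa using h.nodup hc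
  have hT := fun m : ℕ => h.tw_pow (l := [a]) (b := b) hc m
  by_cases hex : ∃ m : ℕ, (S.tw b (S.prod [a] ^ m)).M a 0 b ≠ 0 ∨
      (S.tw b (S.prod [a] ^ m)).M b 0 a ≠ 0
  · obtain ⟨m, hm⟩ := hex
    have hcm : 𝒞 [a, b] (S.tw b (S.prod [a] ^ m)) (S'.tw b (S'.prod [a] ^ m)) := hT m
    have h2 : ∀ j k, (S.tw b (S.prod [a] ^ m)).M a j b * (S.tw b (S.prod [a] ^ m)).M b k a =
        (S'.tw b (S'.prod [a] ^ m)).M a j b * (S'.tw b (S'.prod [a] ^ m)).M b k a := by
      intro j k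
      by_cases h3 : (S.tw b (S.prod [a] ^ m)).M a 0 b = 0
      · have h4 := hm.resolve_left (not_not.2 h3)
        have h5 : (S'.tw b (S'.prod [a] ^ m)).M a 0 b ≠ 0 := fun e =>
          h4 ((h.hs hcm b 0 a).2 (by rw [neg_zero]; exact e))
        have h6 := (h.hs hcm a 0 b).1 h3
        rw [neg_zero] at h6
        obtain ⟨h7, h8⟩ := h.oneway (h.symm hcm) h5 h6
        rw [h7, h8, zero_mul, mul_zero]
      · by_cases h4 : (S.tw b (S.prod [a] ^ m)).M b 0 a = 0
        · obtain ⟨h7, h8⟩ := h.oneway hcm h3 h4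
          rw [h7, h8, zero_mul, mul_zero]
        · exact h.twoway hcm h3 h4 j k
    have h3 := CW.of_tw (l := [a]) (b := b) (by simpa using hab.symm) (h.zeta hc) m
      (h.cw_pair hcm h2) a [(j, b), (k, a)] rfl (by simp)
    rw [mem_DD] at h3
    have h4 : S.M a j b * (S.M b k a * 1) = S'.M a j b * (S'.M b k a * 1) := h3
    rwa [mul_one, mul_one] at h4
  · have h0 : ∀ m : ℕ, (S.tw b (S.prod [a] ^ m)).M a 0 b = 0 ∧
        (S.tw b (S.prod [a] ^ m)).M b 0 a = 0 := fun m =>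
      ⟨by_contra fun e => hex ⟨m, Or.inl e⟩, by_contra fun e => hex ⟨m, Or.inr e⟩⟩
    have h1 := Sys.vanish hab (fun m => (h0 m).2) k
    have h2 := Sys.vanish (S := S') hab (fun m => by
      have := (h.hs (hT m) a 0 b).1 (h0 m).1
      rwa [neg_zero] at this) k
    rw [h1, h2, mul_zero, mul_zero]

/-- Two distinct members of `l` form a sublist in one of the two orders. -/
theorem pair_sublist {l : List (Fin n)} {a b : Fin n} (ha : a ∈ l) (hb : b ∈ l) (hab : a ≠ b) :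
    [a, b].Sublist l ∨ [b, a].Sublist l := by
  induction l with
  | nil => simp at ha
  | cons x l ih =>
    rcases List.mem_cons.1 ha with rfl | ha'
    · exact Or.inl (List.Sublist.cons_cons _
        (List.singleton_sublist.2 ((List.mem_cons.1 hb).resolve_left hab.symm)))
    · rcases List.mem_cons.1 hb with rfl | hb'
      · exact Or.inr (List.Sublist.cons_cons _ (List.singleton_sublist.2 ha'))
      · exact (ih ha' hb').imp (List.Sublist.cons _) (List.Sublist.cons _)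

theorem Cls.two (h : Cls 𝒞) {l : List (Fin n)} {S S' : Sys n r} (hc : 𝒞 l S S') {a b : Fin n}
    (ha : a ∈ l) (hb : b ∈ l) (j k : ℤ) : S.M a j b * S.M b k a = S'.M a j b * S'.M b k a := by
  by_cases hab : a = b
  · subst hab
    rw [h.one hc ha, h.one hc ha]
  rcases pair_sublist ha hb hab with h1 | h1
  · exact h.two' (h.del hc h1) j k
  · rw [mul_comm, h.two' (h.del hc h1) k j, mul_comm]

end Pool.Agent.GR
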