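import Pool.Agent.Lib.MP_aa40d3_nt.GR2.GBasic

/-! Closed walks and diagonal matrix coefficients. -/

open Polynomial Matrix

namespace Pool.Agent.GR

variable {n r : ℕ}

theorem gwalk_dup {p : List (ℤ × Fin n)} (h : ¬(p.map Prod.snd).Nodup) :
    ∃ p₁ q p₂ q' p₃, p = p₁ ++ q :: (p₂ ++ q' :: p₃) ∧ q'.2 = q.2 := by
  induction p with
  | nil => exact absurd List.nodup_nil h
  | cons q p ih =>
    rw [List.map_cons, List.nodup_cons, not_and_or, not_not] at h
    rcases h with h | h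
    · obtain ⟨q', h1, h2⟩ := List.mem_map.1 h
      obtain ⟨p₂, p₃, rfl⟩ := List.append_of_mem h1
      exact ⟨[], q, p₂, q', p₃, rfl, h2⟩
    · obtain ⟨p₁, q₁, p₂, q', p₃, rfl, h2⟩ := ih h
      exact ⟨q :: p₁, q₁, p₂, q', p₃, rfl, h2⟩

theorem gwalk_u (y : Rf r) (g h : GLr r) (f e : Fin r → ℂ) :
    f ⬝ᵥ ((g * (y.u * h)).val *ᵥ e) =
      f ⬝ᵥ ((g * h).val *ᵥ e) - f ⬝ᵥ (g.val *ᵥ y.e) * (y.f ⬝ᵥ (h.val *ᵥ e)) := by
  rw [Units.val_mul, Units.val_mul, Units.val_mul, ← mulVec_mulVec, ← mulVec_mulVec,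
    ← mulVec_mulVec, y.u_mulVec, mulVec_sub, mulVec_smul, dotProduct_sub, dotProduct_smul,
    smul_eq_mul, mul_comm]

theorem gwalk_u_inv (y : Rf r) (g h : GLr r) (f e : Fin r → ℂ) :
    f ⬝ᵥ ((g * (y.u⁻¹ * h)).val *ᵥ e) =
      f ⬝ᵥ ((g * h).val *ᵥ e) + y.ζ⁻¹ * (f ⬝ᵥ (g.val *ᵥ y.e) * (y.f ⬝ᵥ (h.val *ᵥ e))) := by
  rw [Units.val_mul, Units.val_mul, Units.val_mul, ← mulVec_mulVec, ← mulVec_mulVec,
    ← mulVec_mulVec, y.u_inv_mulVec, mulVec_add, mulVec_smul, dotProduct_add, dotProduct_smul,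
    smul_eq_mul]
  ring

theorem gwalk_mem {O : Subring (ℂ × ℂ)} {z : ℂ × ℂ} (h : z ∈ O) {x y : ℂ} (hx : x = z.1)
    (hy : y = z.2) : (x, y) ∈ O := by
  rw [hx, hy]
  exact h

/-- Strong induction on the length of `p`. If a vertex is repeated write
`p = p₁ ++ q :: p₂ ++ q' :: p₃` with `q.2 = q'.2`; the walk `p₂ ++ [q']` is closed at `q.2`, the
walk `p₁ ++ q :: p₃` is closed at `a`, both are shorter and the weight is the product
(`pw_append`, `pe_append`). -/
theorem cw_of_simple {O : Subring (ℂ × ℂ)} {l : List (Fin n)} {M M' : Fin n → ℤ → Fin n → ℂ}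
    (h : ∀ a p, pe a p = a → (∀ q ∈ p, q.2 ∈ l) → (p.map Prod.snd).Nodup →
      (pw M a p, pw M' a p) ∈ O) : CW O l M M' := by
  intro a p
  induction hk : p.length using Nat.strong_induction_on generalizing a p with
  | _ k ih =>
    intro h1 h2
    by_cases h3 : (p.map Prod.snd).Nodup
    · exact h a p h1 h2 h3
    obtain ⟨p₁, q, p₂, q', p₃, rfl, e⟩ := gwalk_dup h3
    simp only [List.length_append, List.length_cons] at hk
    have a1 := ih (p₂ ++ [q']).length (by simp; omega) q.2 _ rfl (by rw [pe_concat, e])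
      fun s hs => h2 s (by
        simp only [List.mem_append, List.mem_cons, List.not_mem_nil, or_false] at hs ⊢
        tauto)
    have a2 := ih (p₁ ++ q :: p₃).length (by simp; omega) a _ rfl (by
        simp only [pe_append, pe, e] at h1 ⊢
        exact h1)
      fun s hs => h2 s (by
        simp only [List.mem_append, List.mem_cons] at hs ⊢
        tauto)
    refine gwalk_mem (O.mul_mem a1 a2) ?_ ?_ <;>
    · simp only [pw_append, pw, e, Prod.fst_mul, Prod.snd_mul]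
      ring

/-- Prove by `Subgroup.closure_induction_left` that for `γ` in the group, `a b ∈ l`, `k : ℤ` and
every walk `p` in `l` from `b` to `a` the pair of the numbers
`f a ⬝ᵥ (c ^ k * γ) *ᵥ e b * pw b p` lies in `O`. For `γ = 1` this is a rotated closed walk
`(k, b) :: p` at `a`. Multiplying by `c` or `c⁻¹` shifts `k`. For a reflection `y` use
`Rf.u_mulVec`, `Rf.u_inv_mulVec` and the walk `p ++ [(k, y)]` from `b` to `y` with exponent `0`. -/
theorem CW.ww {O : Subring (ℂ × ℂ)} {l : List (Fin n)} {S S' : Sys n r} (h : CW O l S.M S'.M)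
    (hζ : ∀ a ∈ l, ((S.x a).ζ⁻¹, (S'.x a).ζ⁻¹) ∈ O) : WW O l S S' := by
  have key : ∀ γ ∈ Sys.grp l S S', ∀ a ∈ l, ∀ b ∈ l, ∀ (k : ℤ) (p : List (ℤ × Fin n)),
      (∀ q ∈ p, q.2 ∈ l) → pe b p = a →
      ((S.x a).f ⬝ᵥ ((S.c ^ k * γ.1).val *ᵥ (S.x b).e) * pw S.M b p,
        (S'.x a).f ⬝ᵥ ((S'.c ^ k * γ.2).val *ᵥ (S'.x b).e) * pw S'.M b p) ∈ O := by
    intro γ hγ
    induction hγ using Subgroup.closure_induction_left with
    | one =>
      intro a _ b hb k p hp e
      rw [Prod.fst_one, Prod.snd_one, mul_one, mul_one]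
      exact h a ((k, b) :: p) e (List.forall_mem_cons.2 ⟨hb, hp⟩)
    | mul_left x hx γ _ ih =>
      intro a ha b hb k p hp e
      rcases hx with rfl | ⟨y, hy, rfl⟩
      · have a1 := ih a ha b hb (k + 1) p hp e
        rw [_root_.zpow_add_one, _root_.zpow_add_one, mul_assoc, mul_assoc] at a1
        rw [Prod.fst_mul, Prod.snd_mul]
        exact a1
      · have a1 := ih a ha b hb k p hp e
        have a2 := ih y hy b hb 0 (p ++ [(k, y)])
          (List.forall_mem_append.2 ⟨hp, List.forall_mem_singleton.2 hy⟩) (pe_concat _ _ _)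
        rw [Prod.fst_mul, Prod.snd_mul]
        refine gwalk_mem (O.sub_mem a1 a2) ?_ ?_ <;>
        · simp only [gwalk_u, pw_append, pw, e, Prod.fst_sub, Prod.snd_sub, zpow_zero, one_mul,
            Sys.M]
          ring
    | inv_mul_cancel x hx γ _ ih =>
      intro a ha b hb k p hp e
      rcases hx with rfl | ⟨y, hy, rfl⟩
      · have a1 := ih a ha b hb (k - 1) p hp e
        rw [_root_.zpow_sub_one, _root_.zpow_sub_one, mul_assoc, mul_assoc] at a1
        rw [Prod.fst_mul, Prod.snd_mul, Prod.fst_inv, Prod.snd_inv]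
        exact a1
      · have a1 := ih a ha b hb k p hp e
        have a2 := ih y hy b hb 0 (p ++ [(k, y)])
          (List.forall_mem_append.2 ⟨hp, List.forall_mem_singleton.2 hy⟩) (pe_concat _ _ _)
        rw [Prod.fst_mul, Prod.snd_mul, Prod.fst_inv, Prod.snd_inv]
        refine gwalk_mem (O.add_mem a1 (O.mul_mem (hζ y hy) a2)) ?_ ?_ <;>
        · simp only [gwalk_u_inv, pw_append, pw, e, Prod.fst_add, Prod.snd_add, Prod.fst_mul,
            Prod.snd_mul, zpow_zero, one_mul, Sys.M]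
          ring
  intro a ha γ hγ
  have a1 := key γ hγ a ha a ha 0 [] (fun q hq => absurd hq List.not_mem_nil) rfl
  simpa only [zpow_zero, one_mul, pw, mul_one] using a1

/-- Induction on `p`: for `γ` in the group, `a b ∈ l` and a walk `p` in `l` from `b` to `a`, the pair
of the numbers `f a ⬝ᵥ γ *ᵥ e b * pw b p` lies in `O`. For `p = (k, b') :: p'` use
`(f a γ e b) * (f b c ^ k e b') = f a (γ c ^ k) e b' - f a (γ u b c ^ k) e b'`. -/
theorem WW.cw {O : Subring (ℂ × ℂ)} {l : List (Fin n)} {S S' : Sys n r} (h : WW O l S S') :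
    CW O l S.M S'.M := by
  have key : ∀ a ∈ l, ∀ p : List (ℤ × Fin n), (∀ q ∈ p, q.2 ∈ l) → ∀ b ∈ l, pe b p = a →
      ∀ γ ∈ Sys.grp l S S', ((S.x a).f ⬝ᵥ (γ.1.val *ᵥ (S.x b).e) * pw S.M b p,
        (S'.x a).f ⬝ᵥ (γ.2.val *ᵥ (S'.x b).e) * pw S'.M b p) ∈ O := by
    intro a ha p
    induction p with
    | nil =>
      rintro - b - rfl γ hγ
      simpa only [pw, pe, mul_one] using h _ ha γ hγ
    | cons q p ih =>
      intro hp b hb e γ hγ
      obtain ⟨h1, h2⟩ := List.forall_mem_cons.1 hp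
      have hc := zpow_mem (Sys.c_mem_grp l S S') q.1
      have a1 := ih h2 q.2 h1 e _ (mul_mem hγ hc)
      have a2 := ih h2 q.2 h1 e _ (mul_mem hγ (mul_mem (Sys.u_mem_grp S S' hb) hc))
      simp only [Prod.fst_mul, Prod.snd_mul, Prod.pow_fst, Prod.pow_snd] at a1 a2
      refine gwalk_mem (O.sub_mem a1 a2) ?_ ?_ <;>
      · simp only [gwalk_u, pw, Prod.fst_sub, Prod.snd_sub, Sys.M]
        ring
  intro a p e hp
  rcases p with _ | ⟨q, p⟩
  · exact O.one_mem
  have ha : a ∈ l := by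
    obtain ⟨s, h1, h2⟩ := List.mem_map.1 (pe_mem a (List.cons_ne_nil q p))
    rw [← e, ← h2]
    exact hp s h1
  obtain ⟨h1, h2⟩ := List.forall_mem_cons.1 hp
  have a1 := key a ha p h2 q.2 h1 e _ (zpow_mem (Sys.c_mem_grp l S S') q.1)
  simp only [Prod.pow_fst, Prod.pow_snd] at a1
  exact a1

/-- The group of the original pair is contained in the group of the twisted pair (`(u, u')` lies in
it because `grp l` only involves indices different from `b`). For the index `b` apply the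
hypothesis to `(u, u')⁻¹ * γ * (u, u')`. -/
theorem WW.of_tw {O : Subring (ℂ × ℂ)} {l : List (Fin n)} {b : Fin n} (hb : b ∉ l)
    {S S' : Sys n r} {u u' : GLr r} (hu : (u, u') ∈ Sys.grp l S S')
    (h : WW O (l ++ [b]) (S.tw b u) (S'.tw b u')) : WW O (l ++ [b]) S S' := by
  have h0 : ∀ a ∈ l, ((S.x a).u, (S'.x a).u) ∈ Sys.grp (l ++ [b]) (S.tw b u) (S'.tw b u') := by
    intro a ha
    have a1 := Sys.u_mem_grp (S.tw b u) (S'.tw b u') (List.mem_append_left [b] ha)
    rwa [Sys.tw_ne _ (ne_of_mem_of_not_mem ha hb), Sys.tw_ne _ (ne_of_mem_of_not_mem ha hb)] at a1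
  have hc : (S.c, S'.c) ∈ Sys.grp (l ++ [b]) (S.tw b u) (S'.tw b u') :=
    Sys.c_mem_grp (l ++ [b]) (S.tw b u) (S'.tw b u')
  have h1 : (u, u') ∈ Sys.grp (l ++ [b]) (S.tw b u) (S'.tw b u') := by
    refine (Subgroup.closure_le _).2 ?_ hu
    rintro _ (rfl | ⟨a, ha, rfl⟩)
    · exact hc
    · exact h0 a ha
  have h2 : Sys.grp (l ++ [b]) S S' ≤ Sys.grp (l ++ [b]) (S.tw b u) (S'.tw b u') := by
    refine (Subgroup.closure_le _).2 ?_
    rintro _ (rfl | ⟨a, ha, rfl⟩)
    · exact hc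
    · rcases List.mem_append.1 ha with ha | ha
      · exact h0 a ha
      · obtain rfl := List.mem_singleton.1 ha
        have a1 := Sys.u_mem_grp (S.tw a u) (S'.tw a u')
          (List.mem_append_right l (List.mem_singleton_self a))
        have a2 := mul_mem (mul_mem h1 a1) (inv_mem h1)
        rw [Sys.tw_self, Sys.tw_self, Rf.cj_u, Rf.cj_u, Prod.inv_mk, Prod.mk_mul_mk,
          Prod.mk_mul_mk, ← mul_assoc, ← mul_assoc, ← mul_assoc, ← mul_assoc, mul_inv_cancel,
          mul_inv_cancel, one_mul, one_mul, mul_inv_cancel_right, mul_inv_cancel_right] at a2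
        exact a2
  intro a ha γ hγ
  by_cases e : a = b
  · subst e
    have a1 := h a ha _ (mul_mem (mul_mem (inv_mem h1) (h2 hγ)) h1)
    have a2 : ∀ (x : Rf r) (v g : GLr r), (x.cj v).f ⬝ᵥ ((v⁻¹ * g * v).val *ᵥ (x.cj v).e) =
        x.f ⬝ᵥ (g.val *ᵥ x.e) := by
      intro x v g
      simp only [Rf.cj]
      rw [← dotProduct_mulVec, mulVec_mulVec, mulVec_mulVec, ← Units.val_mul, ← Units.val_mul,
        ← mul_assoc, ← mul_assoc, mul_inv_cancel, one_mul, mul_inv_cancel_right]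
    rw [Sys.tw_self, Sys.tw_self, Prod.fst_mul, Prod.fst_mul, Prod.snd_mul, Prod.snd_mul,
      Prod.fst_inv, Prod.snd_inv, a2, a2] at a1
    exact a1
  · have a1 := h a ha γ (h2 hγ)
    rwa [Sys.tw_ne _ e, Sys.tw_ne _ e] at a1

theorem CW.of_tw {l : List (Fin n)} {b : Fin n} (hb : b ∉ l) {S S' : Sys n r}
    (hζ : ∀ a ∈ l ++ [b], (S.x a).ζ = (S'.x a).ζ) (k : ℕ)
    (h : CW DD (l ++ [b]) (S.tw b (S.prod l ^ k)).M (S'.tw b (S'.prod l ^ k)).M) :
    CW DD (l ++ [b]) S.M S'.M := by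
  refine (WW.of_tw hb (u := S.prod l ^ k) (u' := S'.prod l ^ k)
    (pow_mem (Sys.prod_mem_grp S S' fun _ ha => ha) k) (h.ww fun a ha => ?_)).cw
  rw [mem_DD, Sys.tw_zeta, Sys.tw_zeta, hζ a ha]

end Pool.Agent.GR
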